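import Pool.Agent.Lib.MP_6bc78b_nt.MS.P1.Iface

/-! Project MS, Part I, module SWAP: Dirichlet series against an integrable function on a line. -/

set_option autoImplicit false

open Complex Filter Topology MeasureTheory

namespace Pool.Agent.Lib.MP_6bc78b_nt.MS.P1.SWAP

theorem norm_line (n : ℕ) (hn : n ≠ 0) (c t : ℝ) :
    ‖(n : ℂ) ^ (-((c : ℂ) + t * I))‖ = (n : ℝ) ^ (-c) := by
  rw [Complex.norm_natCast_cpow_of_pos (Nat.pos_of_ne_zero hn)]
  simp

theorem term_eq (a : ℕ → ℂ) (s : ℂ) (n : ℕ) :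
    LSeries.term a s n = if n = 0 then 0 else a n * (n : ℂ) ^ (-s) := by
  rw [LSeries.term_def]
  split_ifs with h
  · rfl
  · rw [Complex.cpow_neg, div_eq_mul_inv]

theorem cont_line (n : ℕ) (hn : n ≠ 0) (c : ℝ) :
    Continuous fun t : ℝ => (n : ℂ) ^ (-((c : ℂ) + t * I)) := by
  refine Continuous.const_cpow (by fun_prop) (Or.inl ?_)
  exact_mod_cast hn

theorem swap : SwapStatement := by
  intro c a g ha hg
  -- the terms
  set f : ℕ → ℝ → ℂ := fun n t => if n = 0 then 0 else a n * (n : ℂ) ^ (-((c : ℂ) + t * I)) with hf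
  have hfc : ∀ n, Continuous (f n) := by
    intro n
    by_cases hn : n = 0
    · simp only [hf, hn, if_true]; exact continuous_const
    · simp only [hf, hn, if_false]
      exact continuous_const.mul (cont_line n hn c)
  have hfn : ∀ n t, ‖f n t‖ ≤ ‖a n‖ * (n : ℝ) ^ (-c) := by
    intro n t
    by_cases hn : n = 0
    · simp only [hf, hn, if_true, norm_zero]
      positivity
    · simp only [hf, hn, if_false, norm_mul, norm_line n hn c t]
      exact le_rfl
  have hL : ∀ t : ℝ, LSeries a (c + t * I) = ∑' n, f n t := by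
    intro t
    rw [LSeries]
    exact tsum_congr fun n => term_eq a _ n
  have hcont : Continuous fun t : ℝ => ∑' n, f n t := continuous_tsum hfc ha hfn
  have hbd : ∀ t : ℝ, ‖∑' n, f n t‖ ≤ ∑' n : ℕ, ‖a n‖ * (n : ℝ) ^ (-c) := fun t =>
    tsum_of_norm_bounded ha.hasSum fun n => hfn n t
  have hprod : ∀ n, Integrable (fun t : ℝ => f n t * g (c + t * I)) := fun n =>
    hg.bdd_mul (hfc n).aestronglyMeasurable (ae_of_all _ (hfn n))
  have hnorm : ∀ n, ∫ t : ℝ, ‖f n t * g (c + t * I)‖ ≤
      (‖a n‖ * (n : ℝ) ^ (-c)) * ∫ t : ℝ, ‖g (c + t * I)‖ := by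
    intro n
    rw [← integral_const_mul]
    refine integral_mono (hprod n).norm (hg.norm.const_mul _) fun t => ?_
    simp only [norm_mul]
    exact mul_le_mul_of_nonneg_right (hfn n t) (norm_nonneg _)
  have hsum : Summable fun n => ∫ t : ℝ, ‖f n t * g (c + t * I)‖ :=
    Summable.of_nonneg_of_le (fun n => integral_nonneg fun t => norm_nonneg _) hnorm
      (ha.mul_right _)
  -- the terms of the series in the statement
  have hterm : ∀ n : ℕ, (if n = 0 then 0 else a n * VI c (fun s => g s * (n : ℂ) ^ (-s))) =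
      (1 / (2 * Real.pi) : ℂ) * ∫ t : ℝ, f n t * g (c + t * I) := by
    intro n
    by_cases hn : n = 0
    · simp [hn, hf]
    · simp only [hn, if_false, hf, VI]
      rw [mul_left_comm, ← integral_const_mul]
      congr 2
      funext t
      ring
  refine ⟨?_, ?_, ?_⟩
  · have := hg.bdd_mul hcont.aestronglyMeasurable (ae_of_all _ hbd)
    refine this.congr (ae_of_all _ fun t => ?_)
    simp only [hL t]
  · simp_rw [hterm]
    refine Summable.of_nonneg_of_le (fun n => norm_nonneg _) (fun n => ?_)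
      (hsum.mul_left ‖(1 / (2 * Real.pi) : ℂ)‖)
    rw [norm_mul]
    exact mul_le_mul_of_nonneg_left (norm_integral_le_integral_norm _) (norm_nonneg _)
  · simp_rw [hterm]
    rw [tsum_mul_left, VI]
    congr 1
    have h1 := hasSum_integral_of_summable_integral_norm hprod hsum
    rw [h1.tsum_eq]
    congr 1
    funext t
    rw [hL t, tsum_mul_right]

end Pool.Agent.Lib.MP_6bc78b_nt.MS.P1.SWAP
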