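import Pool.Agent.Lib.MP_6bc78b_nt.MS.P1.Iface
import Pool.Agent.Lib.MP_6bc78b_nt.H11.GammaCos
import Pool.Agent.Lib.MP_6bc78b_nt.H11.Growth

/-! Project MS, Part I, module POLY: polynomial bounds in the box. -/

set_option autoImplicit false

open Complex Filter Topology MeasureTheory ArithmeticFunction

namespace Pool.Agent.Lib.MP_6bc78b_nt.MS.P1.POLY

/-! ### zeta -/

lemma zeta_bound : ∃ C : ℝ, 0 < C ∧ ∀ s : ℂ, -(5 / 8) ≤ s.re → s.re ≤ 13 / 8 → 1 ≤ |s.im| →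
    ‖riemannZeta s‖ ≤ C * (1 + |s.im|) ^ (17 / 8 : ℝ) := by
  obtain ⟨C, hC, h⟩ := H11.exists_zeta_reflect
  have hr : ∀ s : ℂ, 1 / 2 ≤ s.re → s.re ≤ 13 / 8 → 1 ≤ |s.im| →
      ‖riemannZeta s‖ ≤ 33 * (1 + |s.im|) := by
    intro s h1 h2 h3
    have hs1 : s ≠ 1 := by
      intro hh; rw [hh] at h3; simp at h3; linarith
    have h4 := H11.zeta_growth (s := s) (by linarith) hs1
    have h5 : ‖s‖ ≤ |s.re| + |s.im| := Complex.norm_le_abs_re_add_abs_im s
    have h6 : |s.re| ≤ 13 / 8 := abs_le.mpr ⟨by linarith, h2⟩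
    have h7 : 1 ≤ ‖s - 1‖ := by
      have := Complex.abs_im_le_norm (s - 1)
      simp only [sub_im, one_im, sub_zero] at this
      linarith
    have h8 : ‖s‖ / ‖s - 1‖ ≤ ‖s‖ := div_le_self (norm_nonneg _) h7
    have h9 : ‖s‖ ≤ 3 * (1 + |s.im|) := by
      nlinarith [abs_nonneg s.im]
    linarith
  refine ⟨33 * (C + 1), by positivity, ?_⟩
  intro s h1 h2 h3
  have hone : (1 : ℝ) ≤ 1 + |s.im| := by linarith [abs_nonneg s.im]
  rcases le_or_gt (1 / 2) s.re with h4 | h4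
  · refine (hr s h4 h2 h3).trans ?_
    have h5 : 1 + |s.im| ≤ (1 + |s.im|) ^ (17 / 8 : ℝ) := by
      calc 1 + |s.im| = (1 + |s.im|) ^ (1 : ℝ) := (Real.rpow_one _).symm
        _ ≤ _ := Real.rpow_le_rpow_of_exponent_le hone (by norm_num)
    have h6 : 0 ≤ (1 + |s.im|) ^ (17 / 8 : ℝ) := by positivity
    nlinarith
  · set w : ℂ := 1 - s with hw
    have hwr : w.re = 1 - s.re := by simp [hw]
    have hwi : |w.im| = |s.im| := by simp [hw]
    have h5 := h w (by rw [hwr]; linarith) (by rw [hwr]; linarith) (by rw [hwi]; exact h3)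
    have h6 := hr w (by rw [hwr]; linarith) (by rw [hwr]; linarith) (by rw [hwi]; exact h3)
    have hs : 1 - w = s := by simp [hw]
    rw [hs, hwi] at h5
    rw [hwi] at h6
    refine h5.trans ?_
    have h7 : (1 + |s.im|) ^ (w.re - 1 / 2) ≤ (1 + |s.im|) ^ (9 / 8 : ℝ) :=
      Real.rpow_le_rpow_of_exponent_le hone (by rw [hwr]; linarith)
    have h8 : (1 + |s.im|) ^ (9 / 8 : ℝ) * (1 + |s.im|) = (1 + |s.im|) ^ (17 / 8 : ℝ) := by
      rw [← Real.rpow_add_one (by linarith : (1 + |s.im|) ≠ 0)]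
      norm_num
    calc C * (1 + |s.im|) ^ (w.re - 1 / 2) * ‖riemannZeta w‖
        ≤ C * (1 + |s.im|) ^ (9 / 8 : ℝ) * (33 * (1 + |s.im|)) := by
          gcongr
      _ = 33 * C * ((1 + |s.im|) ^ (9 / 8 : ℝ) * (1 + |s.im|)) := by ring
      _ = 33 * C * (1 + |s.im|) ^ (17 / 8 : ℝ) := by rw [h8]
      _ ≤ 33 * (C + 1) * (1 + |s.im|) ^ (17 / 8 : ℝ) := by
          have h6 : 0 ≤ (1 + |s.im|) ^ (17 / 8 : ℝ) := by positivity
          nlinarith

lemma zeta_diff {s : ℂ} (h : s.im ≠ 0) : DifferentiableAt ℂ riemannZeta s := by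
  apply differentiableAt_riemannZeta
  intro hh; rw [hh] at h; simp at h

lemma deriv_bound : ∃ C : ℝ, 0 < C ∧ ∀ s : ℂ, -(1 / 2) ≤ s.re → s.re ≤ 3 / 2 → 2 ≤ |s.im| →
    ‖deriv riemannZeta s‖ ≤ C * (2 + |s.im|) ^ (17 / 8 : ℝ) := by
  obtain ⟨C, hC, h⟩ := zeta_bound
  refine ⟨8 * C, by positivity, ?_⟩
  intro s h1 h2 h3
  have hball : ∀ z ∈ Metric.closedBall s (1 / 8), |z.re - s.re| ≤ 1 / 8 ∧ |z.im - s.im| ≤ 1 / 8 := by
    intro z hz
    rw [Metric.mem_closedBall, dist_eq_norm] at hz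
    refine ⟨?_, ?_⟩
    · have := Complex.abs_re_le_norm (z - s)
      rw [sub_re] at this
      linarith
    · have := Complex.abs_im_le_norm (z - s)
      rw [sub_im] at this
      linarith
  have him : ∀ z ∈ Metric.closedBall s (1 / 8), 1 ≤ |z.im| ∧ |z.im| ≤ 1 + |s.im| := by
    intro z hz
    have h4 := (hball z hz).2
    have h5 := abs_sub_abs_le_abs_sub s.im z.im
    have h6 := abs_sub_abs_le_abs_sub z.im s.im
    rw [abs_sub_comm] at h5
    constructor <;> linarith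
  have hd : DifferentiableOn ℂ riemannZeta (Metric.closedBall s (1 / 8)) := by
    intro z hz
    apply (zeta_diff _).differentiableWithinAt
    intro hh
    have := (him z hz).1
    rw [hh] at this
    simp at this
    linarith
  have h7 := Complex.norm_deriv_le_of_forall_mem_sphere_norm_le (c := s) (R := 1 / 8)
    (C := C * (2 + |s.im|) ^ (17 / 8 : ℝ)) (f := riemannZeta) (by norm_num)
    (hd.diffContOnCl_ball subset_rfl) (by
      intro z hz
      have hz' : z ∈ Metric.closedBall s (1 / 8) := Metric.sphere_subset_closedBall hz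
      have h8 := hball z hz'
      have h9 := him z hz'
      rw [abs_le, abs_le] at h8
      refine (h z (by linarith [h8.1.1]) (by linarith [h8.1.2]) h9.1).trans ?_
      apply mul_le_mul_of_nonneg_left _ hC.le
      apply Real.rpow_le_rpow (by linarith [abs_nonneg z.im]) (by linarith [h9.2]) (by norm_num))
  calc ‖deriv riemannZeta s‖ ≤ C * (2 + |s.im|) ^ (17 / 8 : ℝ) / (1 / 8) := h7
    _ = 8 * C * (2 + |s.im|) ^ (17 / 8 : ℝ) := by ring

/-- `C (6 T)^(17/8) <= T^3` eventually. -/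
lemma ev_pow (C : ℝ) : ∀ᶠ T : ℝ in atTop, C * (6 * T) ^ (17 / 8 : ℝ) ≤ T ^ (3 : ℝ) := by
  have h1 : Tendsto (fun T : ℝ => T ^ (7 / 8 : ℝ)) atTop atTop := tendsto_rpow_atTop (by norm_num)
  filter_upwards [h1.eventually_ge_atTop (|C| * 6 ^ (17 / 8 : ℝ)), eventually_gt_atTop 0] with T h2 h3
  have h4 : (6 * T) ^ (17 / 8 : ℝ) = 6 ^ (17 / 8 : ℝ) * T ^ (17 / 8 : ℝ) :=
    Real.mul_rpow (by norm_num) h3.le
  have h5 : T ^ (3 : ℝ) = T ^ (7 / 8 : ℝ) * T ^ (17 / 8 : ℝ) := by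
    rw [← Real.rpow_add h3]; norm_num
  rw [h4, h5]
  have h6 : 0 < T ^ (17 / 8 : ℝ) := by positivity
  have h7 : (0 : ℝ) < 6 ^ (17 / 8 : ℝ) := by positivity
  calc C * (6 ^ (17 / 8 : ℝ) * T ^ (17 / 8 : ℝ))
      ≤ |C| * (6 ^ (17 / 8 : ℝ) * T ^ (17 / 8 : ℝ)) := by
        apply mul_le_mul_of_nonneg_right (le_abs_self C) (by positivity)
    _ = (|C| * 6 ^ (17 / 8 : ℝ)) * T ^ (17 / 8 : ℝ) := by ring
    _ ≤ T ^ (7 / 8 : ℝ) * T ^ (17 / 8 : ℝ) := mul_le_mul_of_nonneg_right h2 h6.le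

lemma zeta_part : ∀ᶠ T : ℝ in atTop, ∀ s ∈ SB T, DifferentiableAt ℂ riemannZeta s ∧
    DifferentiableAt ℂ (deriv riemannZeta) s ∧ ‖riemannZeta s‖ ≤ T ^ (3 : ℝ) ∧
    ‖deriv riemannZeta s‖ ≤ T ^ (3 : ℝ) ∧ ‖deriv riemannZeta (1 - s)‖ ≤ T ^ (3 : ℝ) := by
  obtain ⟨C1, hC1, h1⟩ := zeta_bound
  obtain ⟨C2, hC2, h2⟩ := deriv_bound
  filter_upwards [ev_pow C1, ev_pow C2, eventually_ge_atTop 8] with T h3 h4 hT
  rintro s ⟨⟨hs1, hs2⟩, hs3, hs4⟩
  have him : 0 < s.im := by linarith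
  have habs : |s.im| = s.im := abs_of_pos him
  have hd : DifferentiableAt ℂ riemannZeta s := zeta_diff him.ne'
  have hd2 : DifferentiableAt ℂ (deriv riemannZeta) s := by
    have hopen : IsOpen {z : ℂ | 0 < z.im} := isOpen_lt continuous_const Complex.continuous_im
    have hf : DifferentiableOn ℂ riemannZeta {z : ℂ | 0 < z.im} := by
      intro z hz
      exact (zeta_diff (ne_of_gt hz)).differentiableWithinAt
    exact (hf.deriv hopen).differentiableAt (hopen.mem_nhds him)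
  refine ⟨hd, hd2, ?_, ?_, ?_⟩
  · refine (h1 s (by linarith) (by linarith) (by rw [habs]; linarith)).trans (le_trans ?_ h3)
    apply mul_le_mul_of_nonneg_left _ hC1.le
    apply Real.rpow_le_rpow (by positivity) (by rw [habs]; linarith) (by norm_num)
  · refine (h2 s (by linarith) (by linarith) (by rw [habs]; linarith)).trans (le_trans ?_ h4)
    apply mul_le_mul_of_nonneg_left _ hC2.le
    apply Real.rpow_le_rpow (by positivity) (by rw [habs]; linarith) (by norm_num)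
  · have hr : (1 - s).re = 1 - s.re := by simp
    have hi : |(1 - s).im| = s.im := by simp [habs]
    refine (h2 (1 - s) (by rw [hr]; linarith) (by rw [hr]; linarith)
      (by rw [hi]; linarith)).trans (le_trans ?_ h4)
    apply mul_le_mul_of_nonneg_left _ hC2.le
    rw [hi]
    apply Real.rpow_le_rpow (by positivity) (by linarith) (by norm_num)

/-! ### Dirichlet polynomials -/

lemma dpoly_diff (f : ArithmeticFunction ℝ) (x : ℝ) : Differentiable ℂ (dpoly f x) := by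
  unfold dpoly
  apply Differentiable.fun_sum
  intro n hn
  have hn0 : (n : ℂ) ≠ 0 := by
    have := (Finset.mem_Icc.mp hn).1
    exact_mod_cast (by omega : n ≠ 0)
  apply Differentiable.const_mul
  intro s
  exact ((differentiableAt_id.neg).const_cpow (Or.inl hn0))

lemma dpoly_conj (f : ArithmeticFunction ℝ) (x : ℝ) (s : ℂ) :
    dpoly f x ((starRingEnd ℂ) s) = (starRingEnd ℂ) (dpoly f x s) := by
  unfold dpoly
  rw [map_sum]
  apply Finset.sum_congr rfl
  intro n hn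
  rw [map_mul, Complex.conj_ofReal, ← map_neg, Complex.cpow_conj _ _ (by
    rw [Complex.natCast_arg]; exact Real.pi_pos.ne), Complex.conj_natCast]

lemma norm_natCast_cpow (n : ℕ) (hn : 1 ≤ n) (s : ℂ) : ‖(n : ℂ) ^ (-s)‖ = (n : ℝ) ^ (-s.re) := by
  rw [Complex.norm_natCast_cpow_of_pos (by omega)]
  simp

lemma dpoly_bound (f : ArithmeticFunction ℝ) (x K : ℝ) (hx : 1 ≤ x) (hK : 0 ≤ K)
    (hf : ∀ n : ℕ, 1 ≤ n → (n : ℝ) ≤ x → |f n| ≤ K) (s : ℂ) (hs : -(1 / 2) ≤ s.re) :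
    ‖dpoly f x s‖ ≤ K * x ^ (3 / 2 : ℝ) := by
  unfold dpoly
  have hx0 : 0 < x := by linarith
  calc ‖∑ n ∈ Finset.Icc 1 ⌊x⌋₊, (f n : ℂ) * (n : ℂ) ^ (-s)‖
      ≤ ∑ n ∈ Finset.Icc 1 ⌊x⌋₊, ‖(f n : ℂ) * (n : ℂ) ^ (-s)‖ := norm_sum_le _ _
    _ ≤ ∑ n ∈ Finset.Icc 1 ⌊x⌋₊, K * x ^ (1 / 2 : ℝ) := by
        apply Finset.sum_le_sum
        intro n hn
        rw [Finset.mem_Icc] at hn
        have hnx : (n : ℝ) ≤ x := (Nat.le_floor_iff hx0.le).mp hn.2
        have hn1 : (1 : ℝ) ≤ n := by exact_mod_cast hn.1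
        rw [norm_mul, Complex.norm_real, Real.norm_eq_abs, norm_natCast_cpow n hn.1]
        apply mul_le_mul (hf n hn.1 hnx) _ (by positivity) hK
        calc (n : ℝ) ^ (-s.re) ≤ (n : ℝ) ^ (1 / 2 : ℝ) :=
              Real.rpow_le_rpow_of_exponent_le hn1 (by linarith)
          _ ≤ x ^ (1 / 2 : ℝ) := Real.rpow_le_rpow (by linarith) hnx (by norm_num)
    _ = (⌊x⌋₊ : ℝ) * (K * x ^ (1 / 2 : ℝ)) := by simp
    _ ≤ x * (K * x ^ (1 / 2 : ℝ)) := by
        apply mul_le_mul_of_nonneg_right (Nat.floor_le hx0.le) (by positivity)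
    _ = K * x ^ (3 / 2 : ℝ) := by
        have : x ^ (3 / 2 : ℝ) = x ^ (1 / 2 : ℝ) * x := by
          rw [← Real.rpow_add_one hx0.ne']; norm_num
        rw [this]; ring

lemma bet_bound (th c1 c2 T : ℝ) (hth : 0 < th) (hT : 1 < T) (n : ℕ) (hn : 1 ≤ n)
    (hnT : (n : ℝ) ≤ T ^ th) : |bet th c1 c2 T n| ≤ |c1| + |c2| := by
  show |betf th c1 c2 T n| ≤ _
  unfold betf
  rw [if_pos hnT, abs_mul]
  have hL : 0 < th * Real.log T := mul_pos hth (Real.log_pos hT)
  have hn1 : (1 : ℝ) ≤ n := by exact_mod_cast hn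
  have h1 : 0 ≤ Real.log n := Real.log_nonneg hn1
  have h2 : Real.log n ≤ th * Real.log T := by
    rw [← Real.log_rpow (by linarith)]
    exact Real.log_le_log (by linarith) hnT
  set x : ℝ := 1 - Real.log n / (th * Real.log T) with hx
  have hx0 : 0 ≤ x := by
    rw [hx]
    have : Real.log n / (th * Real.log T) ≤ 1 := (div_le_one hL).mpr h2
    linarith
  have hx1 : x ≤ 1 := by
    rw [hx]
    have : 0 ≤ Real.log n / (th * Real.log T) := div_nonneg h1 hL.le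
    linarith
  have h3 : |((ArithmeticFunction.moebius n : ℤ) : ℝ)| ≤ 1 := by
    exact_mod_cast ArithmeticFunction.abs_moebius_le_one
  have h4 : |PP c1 c2 x| ≤ |c1| + |c2| := by
    unfold PP
    calc |c1 * x + c2 * x ^ 2| ≤ |c1 * x| + |c2 * x ^ 2| := abs_add_le _ _
      _ = |c1| * x + |c2| * x ^ 2 := by
          rw [abs_mul, abs_mul, abs_of_nonneg hx0, abs_of_nonneg (by positivity : 0 ≤ x ^ 2)]
      _ ≤ |c1| * 1 + |c2| * 1 := by
          have : x ^ 2 ≤ 1 := by nlinarith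
          gcongr
      _ = _ := by ring
  calc |((ArithmeticFunction.moebius n : ℤ) : ℝ)| * |PP c1 c2 x| ≤ 1 * (|c1| + |c2|) :=
        mul_le_mul h3 h4 (abs_nonneg _) zero_le_one
    _ = _ := one_mul _

lemma bb_bound (lam T : ℝ) (hl : 0 < lam) (hT : 1 < T) (n : ℕ) (hn : 1 ≤ n)
    (hnT : (n : ℝ) ≤ T ^ lam) : |bb lam T n| ≤ 1 := by
  show |bbf lam T n| ≤ _
  unfold bbf
  rw [if_pos hnT]
  have hL : 0 < lam * Real.log T := mul_pos hl (Real.log_pos hT)
  have hn1 : (1 : ℝ) ≤ n := by exact_mod_cast hn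
  have h1 : 0 ≤ Real.log n := Real.log_nonneg hn1
  have h2 : Real.log n ≤ lam * Real.log T := by
    rw [← Real.log_rpow (by linarith)]
    exact Real.log_le_log (by linarith) hnT
  set x : ℝ := 1 - Real.log n / (lam * Real.log T) with hx
  have hx0 : 0 ≤ x := by
    rw [hx]
    have : Real.log n / (lam * Real.log T) ≤ 1 := (div_le_one hL).mpr h2
    linarith
  have hx1 : x ≤ 1 := by
    rw [hx]
    have : 0 ≤ Real.log n / (lam * Real.log T) := div_nonneg h1 hL.le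
    linarith
  have h3 : 0 ≤ ArithmeticFunction.vonMangoldt n := ArithmeticFunction.vonMangoldt_nonneg
  have h4 : ArithmeticFunction.vonMangoldt n ≤ Real.log n := ArithmeticFunction.vonMangoldt_le_log
  rw [abs_div, abs_mul, abs_of_nonneg h3, abs_of_nonneg hx0, abs_of_pos hL, div_le_one hL]
  calc ArithmeticFunction.vonMangoldt n * x ≤ Real.log n * 1 :=
        mul_le_mul h4 hx1 hx0 h1
    _ ≤ _ := by linarith

/-- `K (T^x)^(3/2) <= T^3` eventually for `x <= 1`. -/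
lemma ev_pow2 (K x : ℝ) (hx : x ≤ 1) : ∀ᶠ T : ℝ in atTop,
    K * (T ^ x) ^ (3 / 2 : ℝ) ≤ T ^ (3 : ℝ) := by
  have h1 : Tendsto (fun T : ℝ => T ^ (3 / 2 : ℝ)) atTop atTop := tendsto_rpow_atTop (by norm_num)
  filter_upwards [h1.eventually_ge_atTop |K|, eventually_ge_atTop 1] with T h2 h3
  have h0 : 0 < T := by linarith
  have h4 : (T ^ x) ^ (3 / 2 : ℝ) ≤ T ^ (3 / 2 : ℝ) := by
    apply Real.rpow_le_rpow (by positivity) _ (by norm_num)
    calc T ^ x ≤ T ^ (1 : ℝ) := Real.rpow_le_rpow_of_exponent_le h3 hx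
      _ = T := Real.rpow_one T
  have h5 : T ^ (3 : ℝ) = T ^ (3 / 2 : ℝ) * T ^ (3 / 2 : ℝ) := by
    rw [← Real.rpow_add h0]; norm_num
  calc K * (T ^ x) ^ (3 / 2 : ℝ) ≤ |K| * (T ^ x) ^ (3 / 2 : ℝ) :=
        mul_le_mul_of_nonneg_right (le_abs_self K) (by positivity)
    _ ≤ T ^ (3 / 2 : ℝ) * T ^ (3 / 2 : ℝ) := mul_le_mul h2 h4 (by positivity) (by positivity)
    _ = T ^ (3 : ℝ) := h5.symm

/-- POLY. -/
theorem poly : PolyStatement := by
  refine ⟨zeta_part, ?_, ?_, ?_, ?_, ?_, ?_, ?_⟩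
  · intro th c1 c2 h1 h2
    filter_upwards [ev_pow2 (|c1| + |c2|) th (by linarith), eventually_gt_atTop 1] with T h3 hT
    rintro s ⟨⟨hs1, hs2⟩, hs3, hs4⟩
    have hx : 1 ≤ T ^ th := Real.one_le_rpow hT.le h1.le
    refine ⟨?_, ?_⟩
    · exact (dpoly_bound _ _ (|c1| + |c2|) hx (by positivity)
        (fun n hn hnT => bet_bound th c1 c2 T h1 hT n hn hnT) s (by linarith)).trans h3
    · exact (dpoly_bound _ _ (|c1| + |c2|) hx (by positivity)
        (fun n hn hnT => bet_bound th c1 c2 T h1 hT n hn hnT) (1 - s)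
          (by simp only [sub_re, one_re]; linarith)).trans h3
  · intro lam h1 h2
    filter_upwards [ev_pow2 1 lam (by linarith), eventually_gt_atTop 1] with T h3 hT
    rintro s ⟨⟨hs1, hs2⟩, hs3, hs4⟩
    have hx : 1 ≤ T ^ lam := Real.one_le_rpow hT.le h1.le
    refine ⟨?_, ?_⟩
    · exact (dpoly_bound _ _ 1 hx (by positivity)
        (fun n hn hnT => bb_bound lam T h1 hT n hn hnT) s (by linarith)).trans h3
    · exact (dpoly_bound _ _ 1 hx (by positivity)
        (fun n hn hnT => bb_bound lam T h1 hT n hn hnT) (1 - s)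
          (by simp only [sub_re, one_re]; linarith)).trans h3
  · intro th c1 c2 T
    exact dpoly_diff _ _
  · intro lam T
    exact dpoly_diff _ _
  · intro th c1 c2 T s
    exact dpoly_conj _ _ s
  · intro lam T s
    exact dpoly_conj _ _ s
  · intro s
    have h1 : riemannZeta = (starRingEnd ℂ) ∘ riemannZeta ∘ (starRingEnd ℂ) := by
      funext z
      simp only [Function.comp_apply]
      rw [riemannZeta_conj, Complex.conj_conj]
    have h2 := congrFun (deriv_conj_conj (f := riemannZeta)) ((starRingEnd ℂ) s)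
    rw [← h1] at h2
    simpa using h2

end Pool.Agent.Lib.MP_6bc78b_nt.MS.P1.POLY
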