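import Pool.Agent.Lib.MP_6bc78b_nt.MS.P1.Iface

/-! Project MS, Part I, module CHI: the functional equation. -/

set_option autoImplicit false

open Complex Filter Topology MeasureTheory

namespace Pool.Agent.Lib.MP_6bc78b_nt.MS.P1.CHI

open Pool.Agent.Lib.MP_6bc78b_nt.MS Pool.Agent.Lib.MP_6bc78b_nt.MS.P1

theorem ne_neg_nat {s : ℂ} (hs : 0 < s.re) (n : ℕ) : s ≠ -n := by
  intro h
  have h1 := congrArg Complex.re h
  rw [Complex.neg_re, Complex.natCast_re] at h1
  have h2 : (0 : ℝ) ≤ n := Nat.cast_nonneg n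
  linarith

theorem two_pi_ne : (2 * Real.pi : ℂ) ≠ 0 := by
  have : (Real.pi : ℂ) ≠ 0 := by exact_mod_cast Real.pi_ne_zero
  exact mul_ne_zero two_ne_zero this

theorem differentiableAt_XX {s : ℂ} (hs : 0 < s.re) : DifferentiableAt ℂ XX s := by
  unfold XX
  have h1 : DifferentiableAt ℂ (fun s : ℂ => (2 * Real.pi : ℂ) ^ (-s)) s :=
    differentiableAt_id.neg.const_cpow (Or.inl two_pi_ne)
  have h2 : DifferentiableAt ℂ Complex.Gamma s := Complex.differentiableAt_Gamma s (ne_neg_nat hs)
  have h3 : DifferentiableAt ℂ (fun s : ℂ => Complex.cos (Real.pi * s / 2)) s := by fun_prop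
  exact (((differentiableAt_const _).mul h1).mul h2).mul h3

theorem XX_ne_zero {s : ℂ} (hs : 0 < s.re) (hi : s.im ≠ 0) : XX s ≠ 0 := by
  unfold XX
  refine mul_ne_zero (mul_ne_zero (mul_ne_zero two_ne_zero ?_) ?_) ?_
  · rw [Complex.cpow_def_of_ne_zero two_pi_ne]
    exact Complex.exp_ne_zero _
  · exact Complex.Gamma_ne_zero_of_re_pos hs
  · intro h
    rw [Complex.cos_eq_zero_iff] at h
    obtain ⟨k, hk⟩ := h
    have h1 := congrArg Complex.im hk
    have h2 : ((Real.pi : ℂ) * s / 2).im = Real.pi * s.im / 2 := by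
      rw [show (Real.pi : ℂ) * s / 2 = ((Real.pi / 2 : ℝ) : ℂ) * s by push_cast; ring,
        Complex.im_ofReal_mul]
      ring
    have h3 : (((2 * (k : ℂ) + 1) * Real.pi / 2) : ℂ).im = 0 := by
      rw [show ((2 * (k : ℂ) + 1) * Real.pi / 2 : ℂ) = (((2 * (k : ℝ) + 1) * Real.pi / 2 : ℝ) : ℂ) by
        push_cast; ring]
      exact Complex.ofReal_im _
    rw [h2, h3] at h1
    have h4 : Real.pi * s.im = 0 := by linarith
    rcases mul_eq_zero.1 h4 with h5 | h5
    · exact Real.pi_ne_zero h5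
    · exact hi h5

theorem zeta_refl {s : ℂ} (hs : 0 < s.re) (hi : s.im ≠ 0) :
    riemannZeta (1 - s) = XX s * riemannZeta s := by
  have h1 : s ≠ 1 := by
    intro h
    rw [h] at hi
    exact hi Complex.one_im
  rw [riemannZeta_one_sub (ne_neg_nat hs) h1]
  rfl

theorem deriv_zeta_refl {s : ℂ} (hs : 0 < s.re) (hi : s.im ≠ 0) :
    deriv riemannZeta (1 - s) = -(XX s * (om s * riemannZeta s + deriv riemannZeta s)) := by
  have hopen : IsOpen {z : ℂ | 0 < z.re ∧ z.im ≠ 0} := by
    refine IsOpen.inter (isOpen_lt continuous_const Complex.continuous_re) ?_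
    exact isOpen_ne_fun Complex.continuous_im continuous_const
  have hev : (fun z : ℂ => riemannZeta (1 - z)) =ᶠ[𝓝 s] fun z => XX z * riemannZeta z := by
    filter_upwards [hopen.mem_nhds (show s ∈ {z : ℂ | 0 < z.re ∧ z.im ≠ 0} from ⟨hs, hi⟩)] with z hz
    exact zeta_refl hz.1 hz.2
  have h1 : s ≠ 1 := by
    intro h
    rw [h] at hi
    exact hi Complex.one_im
  have h1' : 1 - s ≠ 1 := by
    intro h
    have h2 : s = 0 := by linear_combination -h
    rw [h2] at hi
    exact hi Complex.zero_im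
  have hz1 : HasDerivAt (fun z : ℂ => riemannZeta (1 - z)) (deriv riemannZeta (1 - s) * (-1)) s := by
    have ha : HasDerivAt riemannZeta (deriv riemannZeta (1 - s)) (1 - s) :=
      (differentiableAt_riemannZeta h1').hasDerivAt
    have hb : HasDerivAt (fun z : ℂ => 1 - z) (-1) s := by
      simpa using (hasDerivAt_id s).const_sub 1
    exact ha.comp s hb
  have hz2 : HasDerivAt (fun z : ℂ => XX z * riemannZeta z)
      (deriv XX s * riemannZeta s + XX s * deriv riemannZeta s) s :=
    (differentiableAt_XX hs).hasDerivAt.mul (differentiableAt_riemannZeta h1).hasDerivAt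
  have hz3 := hz2.congr_of_eventuallyEq hev
  have heq := hz1.unique hz3
  have hom : XX s * om s = deriv XX s := by
    unfold om
    rw [logDeriv_apply, mul_div_cancel₀ _ (XX_ne_zero hs hi)]
  have : deriv riemannZeta (1 - s) = -(deriv XX s * riemannZeta s + XX s * deriv riemannZeta s) := by
    rw [← heq]; ring
  rw [this, ← hom]
  ring

theorem logDeriv_zeta_refl {s : ℂ} (hs : 0 < s.re) (hi : s.im ≠ 0) (hz : riemannZeta s ≠ 0) :
    logDeriv riemannZeta (1 - s) = -(om s + logDeriv riemannZeta s) := by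
  have hX := XX_ne_zero hs hi
  rw [logDeriv_apply, logDeriv_apply, deriv_zeta_refl hs hi, zeta_refl hs hi]
  field_simp

theorem chi : ChiStatement :=
  ⟨fun _ hs => differentiableAt_XX hs, fun _ hs hi => XX_ne_zero hs hi,
    fun _ hs hi => zeta_refl hs hi, fun _ hs hi => deriv_zeta_refl hs hi,
    fun _ hs hi hz => logDeriv_zeta_refl hs hi hz⟩

end Pool.Agent.Lib.MP_6bc78b_nt.MS.P1.CHI
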