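import Pool.Agent.Lib.MP_6bc78b_nt.MS.P1.Iface

/-! Project MS, Part I, module LSER: Dirichlet series identities and absolute convergence. -/

set_option autoImplicit false

open Complex Filter Topology ArithmeticFunction

namespace Pool.Agent.Lib.MP_6bc78b_nt.MS.P1.LSER

/-- real arithmetic function with complex values -/
noncomputable def cast (α : ArithmeticFunction ℝ) : ℕ → ℂ := fun n => ((α n : ℝ) : ℂ)

theorem norm_term (α : ArithmeticFunction ℝ) (s : ℂ) (n : ℕ) :
    ‖LSeries.term (cast α) s n‖ = |α n| * (n : ℝ) ^ (-s.re) := by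
  rw [LSeries.norm_term_eq]
  rcases eq_or_ne n 0 with rfl | hn
  · simp
  · rw [if_neg hn, cast, Complex.norm_real, Real.norm_eq_abs, Real.rpow_neg (Nat.cast_nonneg n),
      div_eq_mul_inv]

theorem asum_iff (α : ArithmeticFunction ℝ) (s : ℂ) :
    ASum s.re α ↔ LSeriesSummable (cast α) s := by
  unfold ASum LSeriesSummable
  rw [← summable_norm_iff (f := LSeries.term (cast α) s)]
  exact summable_congr fun n => (norm_term α s n).symm

theorem asum_iff' (α : ArithmeticFunction ℝ) (c : ℝ) :
    ASum c α ↔ LSeriesSummable (cast α) (c : ℂ) := by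
  have := asum_iff α (c : ℂ)
  rwa [Complex.ofReal_re] at this

theorem cast_mul (f g : ArithmeticFunction ℝ) : cast (f * g) = LSeries.convolution (cast f) (cast g) := by
  rw [LSeries.convolution_def]
  funext n
  simp [cast, ArithmeticFunction.mul_apply]

/-- absolute value -/
noncomputable def ab (f : ArithmeticFunction ℝ) : ArithmeticFunction ℝ :=
  ⟨fun n => |f n|, by simp⟩

theorem ab_apply (f : ArithmeticFunction ℝ) (n : ℕ) : ab f n = |f n| := rfl

theorem asum_ab {c : ℝ} {f : ArithmeticFunction ℝ} : ASum c (ab f) ↔ ASum c f := by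
  unfold ASum
  exact summable_congr fun n => by rw [ab_apply, abs_abs]

theorem an_ab (c : ℝ) (f : ArithmeticFunction ℝ) : AN c (ab f) = AN c f := by
  unfold AN
  exact tsum_congr fun n => by rw [ab_apply, abs_abs]

theorem LS_of_nonneg (c : ℝ) (f : ArithmeticFunction ℝ) (hf : ∀ n, 0 ≤ f n) :
    LSeries (cast f) (c : ℂ) = ((AN c f : ℝ) : ℂ) := by
  unfold AN LSeries
  rw [Complex.ofReal_tsum]
  refine tsum_congr fun n => ?_
  rcases eq_or_ne n 0 with rfl | hn
  · simp
  · rw [LSeries.term_of_ne_zero hn, cast, abs_of_nonneg (hf n), Complex.ofReal_mul,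
      Complex.ofReal_cpow (Nat.cast_nonneg n), Complex.ofReal_neg, Complex.cpow_neg,
      div_eq_mul_inv, Complex.ofReal_natCast]

theorem conv (c : ℝ) (f g : ArithmeticFunction ℝ) (hf : ASum c f) (hg : ASum c g) :
    ASum c (f * g) ∧ AN c (f * g) ≤ AN c f * AN c g ∧
      ∀ s : ℂ, s.re = c → LS (f * g) s = LS f s * LS g s := by
  have hsum : ∀ f g : ArithmeticFunction ℝ, ASum c f → ASum c g → ASum c (f * g) := by
    intro f g hf hg
    rw [asum_iff'] at hf hg ⊢
    rw [cast_mul]
    exact hf.convolution hg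
  refine ⟨hsum f g hf hg, ?_, ?_⟩
  · have hF := asum_ab.mpr hf
    have hG := asum_ab.mpr hg
    have hFG := hsum _ _ hF hG
    have hle : ∀ n, |(f * g) n| ≤ (ab f * ab g) n := by
      intro n
      rw [ArithmeticFunction.mul_apply, ArithmeticFunction.mul_apply]
      refine (Finset.abs_sum_le_sum_abs _ _).trans (le_of_eq ?_)
      exact Finset.sum_congr rfl fun p _ => by rw [abs_mul, ab_apply, ab_apply]
    have hpos : ∀ n, 0 ≤ (ab f * ab g) n := fun n => (abs_nonneg _).trans (hle n)
    have h1 : AN c (f * g) ≤ AN c (ab f * ab g) := by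
      unfold AN
      refine Summable.tsum_le_tsum (fun n => ?_) (hsum f g hf hg) hFG
      have : (0 : ℝ) ≤ (n : ℝ) ^ (-c) := Real.rpow_nonneg (Nat.cast_nonneg n) _
      exact mul_le_mul_of_nonneg_right ((hle n).trans (le_abs_self _)) this
    have h2 : AN c (ab f * ab g) = AN c f * AN c g := by
      have h := LS_of_nonneg c (ab f * ab g) hpos
      rw [cast_mul, LSeries_convolution' ((asum_iff' _ _).mp hF) ((asum_iff' _ _).mp hG),
        LS_of_nonneg c _ (fun n => by rw [ab_apply]; exact abs_nonneg _),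
        LS_of_nonneg c _ (fun n => by rw [ab_apply]; exact abs_nonneg _), an_ab, an_ab] at h
      exact_mod_cast h.symm
    exact h1.trans h2.le
  · intro s hs
    have hf' : LSeriesSummable (cast f) s := by rw [← asum_iff, hs]; exact hf
    have hg' : LSeriesSummable (cast g) s := by rw [← asum_iff, hs]; exact hg
    have := LSeries_convolution' hf' hg'
    rw [← cast_mul] at this
    exact this

theorem cast_La : cast La = (fun n : ℕ => (ArithmeticFunction.vonMangoldt n : ℂ)) := rfl

theorem cast_one {n : ℕ} (hn : n ≠ 0) : cast one n = (1 : ℕ → ℂ) n := by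
  simp [cast, one, ArithmeticFunction.natCoe_apply, ArithmeticFunction.zeta_apply, hn]

theorem cast_lg : cast lg = LSeries.logMul 1 := by
  funext n
  rw [LSeries.logMul, cast, lg, ArithmeticFunction.log_apply, ← Complex.natCast_log]
  simp

theorem hLa {s : ℂ} (hs : 1 < s.re) : LS La s = -logDeriv riemannZeta s := by
  have h := ArithmeticFunction.LSeries_vonMangoldt_eq_deriv_riemannZeta_div hs
  unfold LS
  rw [show (fun n => ((La n : ℝ) : ℂ)) = (fun n : ℕ => (ArithmeticFunction.vonMangoldt n : ℂ)) from rfl, h, logDeriv_apply,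
    neg_div]

theorem hone {s : ℂ} (hs : 1 < s.re) : LS one s = riemannZeta s := by
  rw [← LSeries_one_eq_riemannZeta hs]
  exact LSeries_congr (fun {n} hn => cast_one hn) s

theorem hlg {s : ℂ} (hs : 1 < s.re) : LS lg s = -deriv riemannZeta s := by
  have habs : LSeries.abscissaOfAbsConv 1 < s.re := by
    rw [LSeries.abscissaOfAbsConv_one]
    exact_mod_cast hs
  have h := LSeries_deriv habs
  have h2 : deriv (LSeries 1) s = deriv riemannZeta s := by
    apply Filter.EventuallyEq.deriv_eq
    have hopen : IsOpen {z : ℂ | 1 < z.re} := isOpen_lt continuous_const Complex.continuous_re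
    filter_upwards [hopen.mem_nhds hs] with z hz
    exact LSeries_one_eq_riemannZeta hz
  have h3 : LS lg s = LSeries (LSeries.logMul 1) s := by
    rw [← cast_lg]
    rfl
  rw [h3, ← h2, h, neg_neg]

theorem summ {c : ℝ} (hc : 1 < c) : ASum c La ∧ ASum c lg ∧ ASum c one := by
  have hre : (1 : ℝ) < ((c : ℂ)).re := by rwa [Complex.ofReal_re]
  refine ⟨(asum_iff' _ _).mpr ?_, (asum_iff' _ _).mpr ?_, (asum_iff' _ _).mpr ?_⟩
  · exact ArithmeticFunction.LSeriesSummable_vonMangoldt hre
  · rw [cast_lg]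
    apply LSeriesSummable_logMul_of_lt_re
    rw [LSeries.abscissaOfAbsConv_one]
    exact_mod_cast hre
  · rw [LSeriesSummable_congr (g := 1) (c : ℂ) (fun {n} hn => cast_one hn)]
    exact LSeriesSummable_one_iff.mpr hre

/-- finitely supported functions -/
theorem finsupp (α : ArithmeticFunction ℝ) (x : ℝ) (hα : ∀ n : ℕ, x < n → α n = 0) (c : ℝ) :
    ASum c α ∧ (∀ s : ℂ, LS α s = dpoly α x s) := by
  have h0 : ∀ n ∉ Finset.Icc 1 ⌊x⌋₊, α n = 0 := by
    intro n hn
    rcases Nat.eq_zero_or_pos n with rfl | hpos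
    · exact α.map_zero
    · apply hα
      rw [Finset.mem_Icc, not_and] at hn
      have := hn hpos
      push Not at this
      exact (Nat.floor_lt' hpos.ne').mp this
  refine ⟨?_, fun s => ?_⟩
  · unfold ASum
    apply summable_of_ne_finset_zero (s := Finset.Icc 1 ⌊x⌋₊)
    intro n hn
    rw [h0 n hn]
    simp
  · unfold LS LSeries dpoly
    rw [tsum_eq_sum (s := Finset.Icc 1 ⌊x⌋₊)]
    · refine Finset.sum_congr rfl fun n hn => ?_
      have hn' : n ≠ 0 := by
        have := (Finset.mem_Icc.mp hn).1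
        omega
      rw [LSeries.term_of_ne_zero hn', Complex.cpow_neg, div_eq_mul_inv]
    · intro n hn
      rcases eq_or_ne n 0 with rfl | hn'
      · simp
      · rw [LSeries.term_of_ne_zero hn', h0 n hn]
        simp

theorem bet_zero (th c1 c2 T : ℝ) (n : ℕ) (h : T ^ th < n) : bet th c1 c2 T n = 0 := by
  show betf th c1 c2 T n = 0
  rw [betf, if_neg (not_le.mpr h)]

theorem bb_zero (lam T : ℝ) (n : ℕ) (h : T ^ lam < n) : bb lam T n = 0 := by
  show bbf lam T n = 0
  rw [bbf, if_neg (not_le.mpr h)]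

/-- `0 ≤ 1 - log n / (th log T) ≤ 1` for `1 ≤ n ≤ T ^ th`. -/
theorem arg_mem {th T : ℝ} (hth : 0 < th) (hT : 1 < T) {n : ℕ} (hn : 1 ≤ n)
    (h : (n : ℝ) ≤ T ^ th) : 0 ≤ 1 - Real.log n / (th * Real.log T) ∧
      1 - Real.log n / (th * Real.log T) ≤ 1 := by
  have hlog : 0 < Real.log T := Real.log_pos hT
  have hn1 : (1 : ℝ) ≤ n := by exact_mod_cast hn
  have h1 : Real.log n ≤ th * Real.log T := by
    rw [← Real.log_rpow (by linarith)]
    exact Real.log_le_log (by linarith) h
  have h2 : 0 ≤ Real.log n := Real.log_nonneg hn1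
  constructor
  · rw [sub_nonneg, div_le_one (by positivity)]
    exact h1
  · have : 0 ≤ Real.log n / (th * Real.log T) := by positivity
    linarith

theorem bet_le (th c1 c2 T : ℝ) (hth : 0 < th) (hT : 1 < T) (n : ℕ) :
    |bet th c1 c2 T n| ≤ (|c1| + |c2|) * |one n| := by
  rcases Nat.eq_zero_or_pos n with rfl | hpos
  · simp
  have hone : one n = 1 := by
    simp [one, ArithmeticFunction.natCoe_apply, ArithmeticFunction.zeta_apply, hpos.ne']
  rw [hone, abs_one, mul_one]
  show |betf th c1 c2 T n| ≤ _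
  unfold betf
  split_ifs with h
  · obtain ⟨h0, h1⟩ := arg_mem hth hT hpos h
    set x := 1 - Real.log n / (th * Real.log T) with hx
    have hmu : |((ArithmeticFunction.moebius n : ℤ) : ℝ)| ≤ 1 := by
      have := ArithmeticFunction.abs_moebius_le_one (n := n)
      exact_mod_cast this
    have hP : |PP c1 c2 x| ≤ |c1| + |c2| := by
      unfold PP
      calc |c1 * x + c2 * x ^ 2| ≤ |c1 * x| + |c2 * x ^ 2| := abs_add_le _ _
        _ = |c1| * x + |c2| * x ^ 2 := by
          rw [abs_mul, abs_mul, abs_of_nonneg h0, abs_of_nonneg (pow_nonneg h0 2)]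
        _ ≤ |c1| * 1 + |c2| * 1 := by
          have hx2 : x ^ 2 ≤ 1 := pow_le_one₀ h0 h1
          exact add_le_add (mul_le_mul_of_nonneg_left h1 (abs_nonneg _))
            (mul_le_mul_of_nonneg_left hx2 (abs_nonneg _))
        _ = |c1| + |c2| := by ring
    rw [abs_mul]
    calc |((ArithmeticFunction.moebius n : ℤ) : ℝ)| * |PP c1 c2 x|
        ≤ 1 * (|c1| + |c2|) := mul_le_mul hmu hP (abs_nonneg _) zero_le_one
      _ = |c1| + |c2| := one_mul _
  · rw [abs_zero]
    positivity

theorem bb_le (lam T : ℝ) (hlam : 0 < lam) (hT : 1 < T) (hL : 1 ≤ lam * Real.log T) (n : ℕ) :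
    |bb lam T n| ≤ 1 * |La n| := by
  rw [one_mul]
  rcases Nat.eq_zero_or_pos n with rfl | hpos
  · simp
  show |bbf lam T n| ≤ |La n|
  unfold bbf
  split_ifs with h
  · obtain ⟨h0, h1⟩ := arg_mem hlam hT hpos h
    set x := 1 - Real.log n / (lam * Real.log T) with hx
    rw [abs_div, abs_mul, abs_of_nonneg h0, abs_of_pos (by linarith : 0 < lam * Real.log T)]
    rw [div_le_iff₀ (by linarith)]
    have hΛ : 0 ≤ |ArithmeticFunction.vonMangoldt n| := abs_nonneg _
    show _ ≤ |ArithmeticFunction.vonMangoldt n| * _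
    exact mul_le_mul_of_nonneg_left (h1.trans hL) hΛ
  · rw [abs_zero]
    positivity

theorem an_le {c K : ℝ} {f g : ArithmeticFunction ℝ} (hf : ASum c f) (hg : ASum c g)
    (h : ∀ n, |f n| ≤ K * |g n|) : AN c f ≤ K * AN c g := by
  unfold AN
  rw [← tsum_mul_left]
  refine Summable.tsum_le_tsum (fun n => ?_) hf (Summable.mul_left K hg)
  have : (0 : ℝ) ≤ (n : ℝ) ^ (-c) := Real.rpow_nonneg (Nat.cast_nonneg n) _
  rw [← mul_assoc]
  exact mul_le_mul_of_nonneg_right (h n) this

theorem lser : LSerStatement := by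
  refine ⟨fun s hs => hLa hs, fun s hs => hlg hs, fun s hs => hone hs, fun c hc => summ hc,
    fun c f g hf hg => conv c f g hf hg, fun th c1 c2 T c _ _ => ?_, fun lam T c _ _ => ?_,
    fun th c1 c2 c hth hc => ?_, fun lam c hlam hc => ?_⟩
  · exact finsupp _ (T ^ th) (bet_zero th c1 c2 T) c
  · exact finsupp _ (T ^ lam) (bb_zero lam T) c
  · refine ⟨(|c1| + |c2|) * AN c one, fun T hT => ?_⟩
    exact an_le (finsupp _ (T ^ th) (bet_zero th c1 c2 T) c).1 (summ hc).2.2
      (bet_le th c1 c2 T hth hT)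
  · refine ⟨1 * AN c La, max 2 (Real.exp (1 / lam)), fun T hT => ?_⟩
    have hT1 : (1 : ℝ) < T := by
      have := (le_max_left _ _).trans hT
      linarith
    have hT2 : Real.exp (1 / lam) ≤ T := (le_max_right _ _).trans hT
    have hL : 1 ≤ lam * Real.log T := by
      have h1 : 1 / lam ≤ Real.log T := by
        rw [← Real.log_exp (1 / lam)]
        exact Real.log_le_log (Real.exp_pos _) hT2
      have h2 : lam * (1 / lam) ≤ lam * Real.log T := mul_le_mul_of_nonneg_left h1 hlam.le
      rwa [mul_one_div_cancel hlam.ne'] at h2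
    exact an_le (finsupp _ (T ^ lam) (bb_zero lam T) c).1 (summ hc).1 (bb_le lam T hlam hT1 hL)

end Pool.Agent.Lib.MP_6bc78b_nt.MS.P1.LSER
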