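import Pool.Agent.Lib.MP_6bc78b_nt.MS.P1.CHO

/-! Project MS, Part I, module OML (helper5): `ω` and `ω'` on a vertical line. -/

set_option autoImplicit false

open Complex Filter Topology MeasureTheory ArithmeticFunction

namespace Pool.Agent.Lib.MP_6bc78b_nt.MS.P1.OML

open Pool.Agent.Lib.MP_6bc78b_nt Pool.Agent.Lib.MP_6bc78b_nt.MS.P1

lemma XX_conj (s : ℂ) : XX (starRingEnd ℂ s) = starRingEnd ℂ (XX s) := by
  unfold XX
  have h2 : (starRingEnd ℂ) (2 : ℂ) = 2 := map_ofNat _ 2
  have h1 : (2 * Real.pi : ℂ) ^ (-(starRingEnd ℂ) s) =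
      (starRingEnd ℂ) ((2 * Real.pi : ℂ) ^ (-s)) := by
    rw [Complex.cpow_def_of_ne_zero CHO.two_pi_ne, Complex.cpow_def_of_ne_zero CHO.two_pi_ne,
      ← Complex.exp_conj]
    have : Complex.log (2 * Real.pi : ℂ) = ((Real.log (2 * Real.pi) : ℝ) : ℂ) := by
      rw [Complex.ofReal_log (by positivity)]; norm_cast
    rw [this]
    simp
  rw [h1, Complex.Gamma_conj]
  have h3 : Complex.cos (Real.pi * (starRingEnd ℂ) s / 2) =
      (starRingEnd ℂ) (Complex.cos (Real.pi * s / 2)) := by
    rw [← Complex.cos_conj]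
    congr 1
    simp [h2]
  rw [h3]
  simp [h2]

lemma deriv_XX_conj (s : ℂ) : deriv XX (starRingEnd ℂ s) = starRingEnd ℂ (deriv XX s) := by
  have h : (⇑(starRingEnd ℂ) ∘ XX ∘ ⇑(starRingEnd ℂ)) = XX := by
    funext z
    simp only [Function.comp_apply]
    rw [XX_conj, Complex.conj_conj]
  have h2 := deriv_conj_conj (f := XX)
  rw [h] at h2
  have h3 := congrFun h2 (starRingEnd ℂ s)
  simpa using h3

lemma om_conj (s : ℂ) : om (starRingEnd ℂ s) = starRingEnd ℂ (om s) := by
  unfold om
  rw [logDeriv_apply, logDeriv_apply, XX_conj, deriv_XX_conj, map_div₀]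

lemma deriv_om_conj (s : ℂ) : deriv om (starRingEnd ℂ s) = starRingEnd ℂ (deriv om s) := by
  have h : (⇑(starRingEnd ℂ) ∘ om ∘ ⇑(starRingEnd ℂ)) = om := by
    funext z
    simp only [Function.comp_apply]
    rw [om_conj, Complex.conj_conj]
  have h2 := deriv_conj_conj (f := om)
  rw [h] at h2
  have h3 := congrFun h2 (starRingEnd ℂ s)
  simpa using h3

/-- the set where `om` is analytic -/
def UU : Set ℂ := {s : ℂ | 0 < s.re ∧ Complex.cos (Real.pi * s / 2) ≠ 0}

lemma UU_open : IsOpen UU := by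
  apply IsOpen.inter (isOpen_lt continuous_const Complex.continuous_re)
  exact isOpen_ne_fun (by fun_prop) continuous_const

lemma XX_ne {s : ℂ} (hs : s ∈ UU) : XX s ≠ 0 := by
  unfold XX
  refine mul_ne_zero (mul_ne_zero (mul_ne_zero two_ne_zero ?_) ?_) hs.2
  · rw [Complex.cpow_def_of_ne_zero CHO.two_pi_ne]
    exact Complex.exp_ne_zero _
  · exact Complex.Gamma_ne_zero_of_re_pos hs.1

lemma XX_diffOn : DifferentiableOn ℂ XX UU := fun s hs =>
  (CHO.XX_hasDerivAt hs.1).differentiableAt.differentiableWithinAt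

lemma om_diffOn : DifferentiableOn ℂ om UU := by
  have h1 : DifferentiableOn ℂ (deriv XX) UU := XX_diffOn.deriv UU_open
  exact (h1.div XX_diffOn (fun s hs => XX_ne hs)).congr (fun s _ => by
    unfold om; rw [logDeriv_apply]; rfl)

lemma om_diffAt {s : ℂ} (hs : s ∈ UU) : DifferentiableAt ℂ om s :=
  om_diffOn.differentiableAt (UU_open.mem_nhds hs)

lemma om'_contOn : ContinuousOn (deriv om) UU := (om_diffOn.deriv UU_open).continuousOn

lemma line_mem {c : ℝ} (h1 : 1 < c) (h2 : c < 3 / 2) (t : ℝ) : (c + t * I : ℂ) ∈ UU := by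
  refine ⟨by simp; linarith, ?_⟩
  intro h
  rw [Complex.cos_eq_zero_iff] at h
  obtain ⟨k, hk⟩ := h
  have h3 : (c + t * I : ℂ) = 2 * k + 1 := by
    have hpc : (Real.pi : ℂ) ≠ 0 := by exact_mod_cast Real.pi_ne_zero
    field_simp at hk
    linear_combination hk
  have h4 := congrArg Complex.re h3
  simp at h4
  have h5 : (1 : ℝ) < 2 * k + 1 := by linarith
  have h6 : (2 * k + 1 : ℝ) < 3 / 2 := by linarith
  have h7 : (0 : ℝ) < k := by linarith
  have h8 : (k : ℝ) < 1 := by linarith
  have h9 : (0 : ℤ) < k := by exact_mod_cast h7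
  have h10 : k < (1 : ℤ) := by exact_mod_cast h8
  omega

lemma upper_mem {z : ℂ} (h1 : 0 < z.re) (h2 : z.im ≠ 0) : z ∈ UU := ⟨h1, CHO.cos_ne h2⟩

/-- bound of the derivative high up -/
lemma deriv_bound {C : ℝ} (hC : ∀ s : ℂ, 0 < s.re → s.re ≤ 2 → 1 ≤ s.im →
    ‖om s - (Real.log (s.im / (2 * Real.pi)) : ℂ)‖ ≤ C / s.im) {c t : ℝ} (h1 : 1 < c)
    (h2 : c < 3 / 2) (ht : 2 ≤ t) : ‖deriv om (c + t * I)‖ ≤ 2 * (C + 2) / (t - 1 / 2) + 1 / t := by
  set s : ℂ := c + t * I with hs
  have hre : s.re = c := by simp [hs]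
  have him : s.im = t := by simp [hs]
  have hpi := Real.pi_pos
  -- the ball
  have hball : ∀ z ∈ Metric.closedBall s (1 / 2), 1 / 2 < z.re ∧ z.re ≤ 2 ∧ t - 1 / 2 ≤ z.im := by
    intro z hz
    rw [Metric.mem_closedBall, dist_eq_norm] at hz
    have e1 := (Complex.abs_re_le_norm (z - s)).trans hz
    have e2 := (Complex.abs_im_le_norm (z - s)).trans hz
    rw [Complex.sub_re, hre] at e1
    rw [Complex.sub_im, him] at e2
    rw [abs_le] at e1 e2
    refine ⟨by linarith [e1.1], by linarith [e1.2], by linarith [e2.1]⟩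
  set K : ℂ := -(Real.log (2 * Real.pi) : ℂ) - (Real.pi / 2) * I with hK
  have hdf : ∀ z ∈ Metric.closedBall s (1 / 2),
      DifferentiableAt ℂ (fun z => om z - Complex.log z - K) z := by
    intro z hz
    obtain ⟨a1, a2, a3⟩ := hball z hz
    apply DifferentiableAt.sub_const
    apply DifferentiableAt.sub
    · exact om_diffAt (upper_mem (by linarith) (by linarith))
    · apply Complex.differentiableAt_log
      right
      intro h
      linarith
  have hb : ∀ z ∈ Metric.sphere s (1 / 2), ‖om z - Complex.log z - K‖ ≤ (C + 2) / (t - 1 / 2) := by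
    intro z hz
    obtain ⟨a1, a2, a3⟩ := hball z (Metric.sphere_subset_closedBall hz)
    have b1 := hC z (by linarith) a2 (by linarith)
    have b2 := CHO.log_bound (s := z) (by linarith) a2 (by linarith)
    have hz0 : 0 < z.im := by linarith
    have hlog : (Real.log (z.im / (2 * Real.pi)) : ℂ) = (Real.log z.im : ℂ) -
        (Real.log (2 * Real.pi) : ℂ) := by
      rw [Real.log_div hz0.ne' (by positivity)]
      push_cast
      rfl
    have e : om z - Complex.log z - K = (om z - (Real.log (z.im / (2 * Real.pi)) : ℂ)) -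
        (Complex.log z - ((Real.log z.im : ℂ) + (Real.pi / 2) * I)) := by
      rw [hlog, hK]; ring
    rw [e]
    have hC0 : 0 ≤ C + 2 := by
      have : 0 ≤ C / z.im := (norm_nonneg _).trans b1
      have : 0 ≤ C := by
        by_contra h
        push Not at h
        have := div_neg_of_neg_of_pos h hz0
        linarith
      linarith
    calc _ ≤ C / z.im + 2 / z.im := (norm_sub_le _ _).trans (add_le_add b1 b2)
      _ = (C + 2) / z.im := by ring
      _ ≤ (C + 2) / (t - 1 / 2) := div_le_div_of_nonneg_left hC0 (by linarith) a3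
  have hcl : DiffContOnCl ℂ (fun z => om z - Complex.log z - K) (Metric.ball s (1 / 2)) := by
    constructor
    · intro z hz
      exact (hdf z (Metric.ball_subset_closedBall hz)).differentiableWithinAt
    · rw [closure_ball s (by norm_num)]
      intro z hz
      exact (hdf z hz).continuousAt.continuousWithinAt
  have hd := Complex.norm_deriv_le_of_forall_mem_sphere_norm_le (by norm_num) hcl hb
  have hs1 : s ∈ Metric.closedBall s (1 / 2) := Metric.mem_closedBall_self (by norm_num)
  have homd : DifferentiableAt ℂ om s := om_diffAt (upper_mem (by rw [hre]; linarith)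
    (by rw [him]; linarith))
  have hsl : s ∈ slitPlane := by
    right
    rw [him]
    linarith
  have hder : deriv om s = deriv (fun z => om z - Complex.log z - K) s + s⁻¹ := by
    have e : HasDerivAt (fun z => om z - Complex.log z - K) (deriv om s - s⁻¹) s :=
      (homd.hasDerivAt.sub (Complex.hasDerivAt_log hsl)).sub_const K
    rw [e.deriv]; ring
  rw [hder]
  have hinv : ‖s⁻¹‖ ≤ 1 / t := by
    rw [norm_inv, ← one_div]
    apply one_div_le_one_div_of_le (by linarith)
    calc t = s.im := him.symm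
      _ ≤ |s.im| := le_abs_self _
      _ ≤ ‖s‖ := Complex.abs_im_le_norm s
  calc _ ≤ (C + 2) / (t - 1 / 2) / (1 / 2) + 1 / t := (norm_add_le _ _).trans (add_le_add hd hinv)
    _ = 2 * (C + 2) / (t - 1 / 2) + 1 / t := by ring

lemma log_abs_bound {t : ℝ} (ht : 2 ≤ t) : |Real.log (t / (2 * Real.pi))| ≤ Real.log (3 + t) := by
  have hpi := Real.pi_pos
  have hp3 := Real.pi_gt_three
  have hp4 := Real.pi_lt_four
  rw [abs_le]
  constructor
  · rw [neg_le, ← Real.log_inv]
    apply Real.log_le_log (by positivity)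
    rw [inv_div, div_le_iff₀ (by linarith)]
    nlinarith
  · apply Real.log_le_log (by positivity)
    rw [div_le_iff₀ (by positivity)]
    nlinarith

lemma one_le_log {t : ℝ} (ht : 0 ≤ t) : 1 ≤ Real.log (3 + t) := by
  rw [Real.le_log_iff_exp_le (by linarith)]
  have := Real.exp_one_lt_three
  linarith

/-- module OML -/
theorem oml (h2 : OmAsympStatement) : OmLineStatement := by
  intro c hc1 hc2
  obtain ⟨C, hC0, hC⟩ := h2
  -- compact part
  have hcont1 : ContinuousOn (fun t : ℝ => ‖om (c + t * I)‖) (Set.Icc (-2) 2) := by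
    apply ContinuousOn.norm
    apply om_diffOn.continuousOn.comp (t := UU)
    · fun_prop
    · intro t _; exact line_mem hc1 hc2 t
  have hcont2 : ContinuousOn (fun t : ℝ => ‖deriv om (c + t * I)‖) (Set.Icc (-2) 2) := by
    apply ContinuousOn.norm
    apply om'_contOn.comp (t := UU)
    · fun_prop
    · intro t _; exact line_mem hc1 hc2 t
  obtain ⟨C1, hC1⟩ := isCompact_Icc.bddAbove_image hcont1
  obtain ⟨C2, hC2⟩ := isCompact_Icc.bddAbove_image hcont2
  have k1 : ∀ t ∈ Set.Icc (-2 : ℝ) 2, ‖om (c + t * I)‖ ≤ |C1| := fun t ht =>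
    (hC1 (Set.mem_image_of_mem _ ht)).trans (le_abs_self _)
  have k2 : ∀ t ∈ Set.Icc (-2 : ℝ) 2, ‖deriv om (c + t * I)‖ ≤ |C2| := fun t ht =>
    (hC2 (Set.mem_image_of_mem _ ht)).trans (le_abs_self _)
  have a1 := abs_nonneg C1
  have a2 := abs_nonneg C2
  -- upper part
  have u1 : ∀ t : ℝ, 2 ≤ t → ‖om (c + t * I)‖ ≤ (1 + C) * Real.log (3 + t) := by
    intro t ht
    have e := hC (c + t * I) (by simp; linarith) (by simp; linarith) (by simp; linarith)
    have him : (c + t * I : ℂ).im = t := by simp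
    rw [him] at e
    have e2 : ‖om (c + t * I)‖ ≤ ‖om (c + t * I) - (Real.log (t / (2 * Real.pi)) : ℂ)‖ +
        ‖(Real.log (t / (2 * Real.pi)) : ℂ)‖ := by
      have := norm_add_le (om (c + t * I) - (Real.log (t / (2 * Real.pi)) : ℂ))
        (Real.log (t / (2 * Real.pi)) : ℂ)
      rwa [sub_add_cancel] at this
    rw [Complex.norm_real, Real.norm_eq_abs] at e2
    have e3 := log_abs_bound ht
    have e4 := one_le_log (t := t) (by linarith)
    have e5 : C / t ≤ C * Real.log (3 + t) := by
      rw [div_le_iff₀ (by linarith)]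
      have : 1 ≤ Real.log (3 + t) * t := by nlinarith
      nlinarith
    linarith
  have u2 : ∀ t : ℝ, 2 ≤ t → ‖deriv om (c + t * I)‖ ≤ (4 * (C + 2) + 2) / (1 + t) := by
    intro t ht
    refine (deriv_bound hC hc1 hc2 ht).trans ?_
    have e1 : 2 * (C + 2) / (t - 1 / 2) ≤ 4 * (C + 2) / (1 + t) := by
      rw [div_le_div_iff₀ (by linarith) (by linarith)]
      nlinarith
    have e2 : 1 / t ≤ 2 / (1 + t) := by
      rw [div_le_div_iff₀ (by linarith) (by linarith)]
      linarith
    calc _ ≤ 4 * (C + 2) / (1 + t) + 2 / (1 + t) := add_le_add e1 e2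
      _ = _ := by ring
  have hconj : ∀ t : ℝ, (c + (-t : ℝ) * I : ℂ) = (starRingEnd ℂ) (c + t * I) := by
    intro t
    simp
  refine ⟨(1 + C) + |C1| + 3 * |C2| + (4 * (C + 2) + 2), by positivity, ?_, ?_, ?_, ?_⟩
  · intro t
    have e4 := one_le_log (t := |t|) (abs_nonneg t)
    have key : ‖om (c + t * I)‖ ≤ (1 + C + |C1|) * Real.log (3 + |t|) := by
      rcases le_or_gt 2 |t| with h | h
      · have e : ‖om (c + t * I)‖ = ‖om (c + |t| * I)‖ := by
          rcases abs_cases t with ⟨h3, _⟩ | ⟨h3, _⟩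
          · rw [h3]
          · rw [h3, hconj, om_conj, RCLike.norm_conj]
        rw [e]
        refine (u1 |t| h).trans ?_
        nlinarith
      · rw [abs_lt] at h
        refine (k1 t ⟨h.1.le, h.2.le⟩).trans ?_
        nlinarith
    refine key.trans ?_
    apply mul_le_mul_of_nonneg_right _ (by linarith)
    linarith
  · intro t
    have hat := abs_nonneg t
    have key : ‖deriv om (c + t * I)‖ ≤ (3 * |C2| + (4 * (C + 2) + 2)) / (1 + |t|) := by
      rcases le_or_gt 2 |t| with h | h
      · have e : ‖deriv om (c + t * I)‖ = ‖deriv om (c + |t| * I)‖ := by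
          rcases abs_cases t with ⟨h3, _⟩ | ⟨h3, _⟩
          · rw [h3]
          · rw [h3, hconj, deriv_om_conj, RCLike.norm_conj]
        rw [e]
        refine (u2 |t| h).trans ?_
        apply div_le_div_of_nonneg_right _ (by linarith)
        linarith
      · have h' := h
        rw [abs_lt] at h
        refine (k2 t ⟨h.1.le, h.2.le⟩).trans ?_
        rw [le_div_iff₀ (by linarith)]
        nlinarith
    refine key.trans ?_
    apply div_le_div_of_nonneg_right _ (by linarith)
    linarith
  · intro t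
    exact om_diffAt (line_mem hc1 hc2 t)
  · intro t
    exact XX_ne (line_mem hc1 hc2 t)

end Pool.Agent.Lib.MP_6bc78b_nt.MS.P1.OML
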