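import Pool.Agent.Lib.MP_6bc78b_nt.MS.P1.Iface
import Pool.Agent.Lib.MP_6bc78b_nt.H11.Digamma

/-! Project MS, Part I, module CHO (helper5): `ω(s) = log (t/2π) + O(1/t)`. -/

set_option autoImplicit false

open Complex Filter Topology MeasureTheory ArithmeticFunction

namespace Pool.Agent.Lib.MP_6bc78b_nt.MS.P1.CHO

open Pool.Agent.Lib.MP_6bc78b_nt Pool.Agent.Lib.MP_6bc78b_nt.MS.P1

lemma two_pi_ne : (2 * Real.pi : ℂ) ≠ 0 := by
  have := Real.pi_ne_zero
  norm_cast
  positivity

lemma XX_hasDerivAt {s : ℂ} (hs : 0 < s.re) :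
    HasDerivAt XX (2 * ((2 * Real.pi : ℂ) ^ (-s) * (-(Real.log (2 * Real.pi) : ℂ))) * Gamma s *
      Complex.cos (Real.pi * s / 2) +
      2 * (2 * Real.pi : ℂ) ^ (-s) * deriv Gamma s * Complex.cos (Real.pi * s / 2) +
      2 * (2 * Real.pi : ℂ) ^ (-s) * Gamma s * (-Complex.sin (Real.pi * s / 2) * (Real.pi / 2))) s := by
  have hG : DifferentiableAt ℂ Gamma s := by
    apply differentiableAt_Gamma
    intro m h
    rw [h] at hs
    simp only [neg_re, natCast_re, Left.neg_pos_iff] at hs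
    have : (0 : ℝ) ≤ m := by positivity
    linarith
  have h1 : HasDerivAt (fun s : ℂ => (2 * Real.pi : ℂ) ^ (-s))
      ((2 * Real.pi : ℂ) ^ (-s) * (-(Real.log (2 * Real.pi) : ℂ))) s := by
    have e := (hasDerivAt_neg s).const_cpow (c := (2 * Real.pi : ℂ)) (Or.inl two_pi_ne)
    have e2 : Complex.log (2 * Real.pi : ℂ) = (Real.log (2 * Real.pi) : ℂ) := by
      rw [Complex.ofReal_log (by positivity)]
      norm_cast
    rw [e2] at e
    convert e using 1
    ring
  have h2 := h1.const_mul 2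
  have h3 : HasDerivAt (fun s : ℂ => Complex.cos (Real.pi * s / 2))
      (-Complex.sin (Real.pi * s / 2) * (Real.pi / 2)) s := by
    have e : HasDerivAt (fun s : ℂ => (Real.pi : ℂ) * s / 2) (Real.pi / 2) s := by
      have := ((hasDerivAt_id s).const_mul (Real.pi : ℂ)).div_const 2
      simpa using this
    exact e.ccos
  have h4 := (h2.mul hG.hasDerivAt).mul h3
  refine (h4.congr_deriv ?_)
  simp only [Pi.mul_apply]
  ring

lemma cos_ne {s : ℂ} (ht : s.im ≠ 0) : Complex.cos (Real.pi * s / 2) ≠ 0 := by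
  intro h
  rw [Complex.cos_eq_zero_iff] at h
  obtain ⟨k, hk⟩ := h
  have hp := Real.pi_pos
  have h3 : s = 2 * k + 1 := by
    have hpc : (Real.pi : ℂ) ≠ 0 := by exact_mod_cast hp.ne'
    field_simp at hk
    linear_combination hk
  apply ht
  rw [h3]
  simp

lemma om_eq {s : ℂ} (hs : 0 < s.re) (hc : Complex.cos (Real.pi * s / 2) ≠ 0) :
    om s = -(Real.log (2 * Real.pi) : ℂ) + logDeriv Gamma s -
      (Real.pi / 2) * (Complex.sin (Real.pi * s / 2) / Complex.cos (Real.pi * s / 2)) := by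
  have hG : Gamma s ≠ 0 := Gamma_ne_zero_of_re_pos hs
  have hp : (2 * Real.pi : ℂ) ^ (-s) ≠ 0 := by
    rw [Complex.cpow_def_of_ne_zero two_pi_ne]
    exact Complex.exp_ne_zero _
  unfold om
  rw [logDeriv_apply, logDeriv_apply, (XX_hasDerivAt hs).deriv]
  unfold XX
  field_simp
  ring

lemma tan_bound {z : ℂ} (h : 1 ≤ z.im) :
    ‖Complex.sin z / Complex.cos z - I‖ ≤ 4 * Real.exp (-(2 * z.im)) := by
  have n1 : ‖Complex.exp (z * I)‖ = Real.exp (-z.im) := by
    rw [Complex.norm_exp]; simp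
  have n2 : ‖Complex.exp (-z * I)‖ = Real.exp z.im := by
    rw [Complex.norm_exp]; simp
  have hy : Real.exp (-z.im) ≤ Real.exp z.im / 2 := by
    have h1 : Real.exp z.im = Real.exp (-z.im) * Real.exp (2 * z.im) := by
      rw [← Real.exp_add]; congr 1; ring
    have h2 : (2 : ℝ) ≤ Real.exp (2 * z.im) := by
      have := Real.add_one_le_exp (2 * z.im)
      linarith
    have h3 := Real.exp_pos (-z.im)
    nlinarith
  have hden : Real.exp z.im / 2 ≤ ‖Complex.exp (z * I) + Complex.exp (-z * I)‖ := by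
    have := norm_sub_norm_le (Complex.exp (-z * I)) (-Complex.exp (z * I))
    rw [norm_neg, n1, n2, sub_neg_eq_add, add_comm] at this
    linarith
  have hpos := Real.exp_pos z.im
  have hne : Complex.exp (z * I) + Complex.exp (-z * I) ≠ 0 := by
    intro h0
    rw [h0, norm_zero] at hden
    linarith
  have e : Complex.sin z / Complex.cos z - I =
      -2 * I * Complex.exp (z * I) / (Complex.exp (z * I) + Complex.exp (-z * I)) := by
    have h6 : ∀ a b : ℂ, a + b ≠ 0 →
        ((b - a) * I / 2) / ((a + b) / 2) - I = -2 * I * a / (a + b) := by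
      intro a b h
      field_simp
      ring
    rw [Complex.sin, Complex.cos]
    exact h6 _ _ hne
  rw [e, norm_div, norm_mul, n1]
  have n3 : ‖(-2 * I : ℂ)‖ = 2 := by simp
  rw [n3, div_le_iff₀ (by linarith)]
  have h4 : Real.exp (-(2 * z.im)) * Real.exp z.im = Real.exp (-z.im) := by
    rw [← Real.exp_add]; congr 1; ring
  have h5 := Real.exp_pos (-(2 * z.im))
  calc 2 * Real.exp (-z.im) = 4 * Real.exp (-(2 * z.im)) * (Real.exp z.im / 2) := by
        rw [← h4]; ring
    _ ≤ _ := mul_le_mul_of_nonneg_left hden (by positivity)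

lemma log_bound {s : ℂ} (h0 : 0 < s.re) (h2 : s.re ≤ 2) (ht : 1 ≤ s.im) :
    ‖Complex.log s - ((Real.log s.im : ℂ) + (Real.pi / 2) * I)‖ ≤ 2 / s.im := by
  have hlogit : Complex.log ((s.im : ℂ) * I) = (Real.log s.im : ℂ) + (Real.pi / 2) * I := by
    rw [Complex.log_ofReal_mul (by linarith) I_ne_zero, Complex.log_I]
  rw [← hlogit]
  have hconv : Convex ℝ {z : ℂ | s.im ≤ z.im} := convex_halfSpace_im_ge s.im
  have hd : ∀ z ∈ {z : ℂ | s.im ≤ z.im}, DifferentiableAt ℂ Complex.log z := by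
    intro z hz
    apply Complex.differentiableAt_log
    right
    have : s.im ≤ z.im := hz
    intro h
    linarith
  have hb : ∀ z ∈ {z : ℂ | s.im ≤ z.im}, ‖deriv Complex.log z‖ ≤ 1 / s.im := by
    intro z hz
    have hz' : s.im ≤ z.im := hz
    have hsl : z ∈ slitPlane := by
      right
      intro h
      linarith
    rw [(Complex.hasDerivAt_log hsl).deriv, norm_inv, ← one_div]
    apply one_div_le_one_div_of_le (by linarith)
    calc s.im ≤ z.im := hz'
      _ ≤ |z.im| := le_abs_self _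
      _ ≤ ‖z‖ := Complex.abs_im_le_norm z
  have hx : ((s.im : ℂ) * I) ∈ {z : ℂ | s.im ≤ z.im} := by simp
  have hy : s ∈ {z : ℂ | s.im ≤ z.im} := by simp
  have h := hconv.norm_image_sub_le_of_norm_deriv_le hd hb hx hy
  have hn : ‖s - (s.im : ℂ) * I‖ = s.re := by
    have : s - (s.im : ℂ) * I = (s.re : ℂ) := by
      apply Complex.ext <;> simp
    rw [this, Complex.norm_real, Real.norm_of_nonneg h0.le]
  rw [hn] at h
  refine h.trans ?_
  rw [one_div, inv_mul_eq_div]
  exact div_le_div_of_nonneg_right h2 (by linarith)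

/-- module CHO -/
theorem cho : OmAsympStatement := by
  refine ⟨7, by norm_num, fun s h0 h2 ht => ?_⟩
  have ht0 : 0 < s.im := by linarith
  have hpi := Real.pi_pos
  have hc := cos_ne (s := s) (by linarith)
  rw [om_eq h0 hc]
  have e1 := Pool.Agent.Lib.MP_6bc78b_nt.H11.digamma_sub_log h0 (by rw [abs_of_pos ht0]; exact ht)
  rw [abs_of_pos ht0] at e1
  have e2 := log_bound h0 h2 ht
  have him : ((Real.pi : ℂ) * s / 2).im = Real.pi * s.im / 2 := by simp
  have e3 := tan_bound (z := (Real.pi : ℂ) * s / 2) (by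
    rw [him]
    nlinarith [Real.pi_gt_three])
  rw [him] at e3
  have e4 : Real.exp (-(2 * (Real.pi * s.im / 2))) ≤ 1 / (Real.pi * s.im) := by
    rw [show -(2 * (Real.pi * s.im / 2)) = -(Real.pi * s.im) by ring, Real.exp_neg, ← one_div]
    apply one_div_le_one_div_of_le (by positivity)
    have := Real.add_one_le_exp (Real.pi * s.im)
    linarith
  have hlog : (Real.log (s.im / (2 * Real.pi)) : ℂ) = (Real.log s.im : ℂ) -
      (Real.log (2 * Real.pi) : ℂ) := by
    rw [Real.log_div ht0.ne' (by positivity)]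
    push_cast
    rfl
  rw [hlog]
  set A := logDeriv Gamma s - Complex.log s with hA
  set B := Complex.log s - ((Real.log s.im : ℂ) + (Real.pi / 2) * I) with hB
  set D := Complex.sin (Real.pi * s / 2) / Complex.cos (Real.pi * s / 2) - I with hD
  have key : -(Real.log (2 * Real.pi) : ℂ) + logDeriv Gamma s -
      (Real.pi / 2) * (Complex.sin (Real.pi * s / 2) / Complex.cos (Real.pi * s / 2)) -
      ((Real.log s.im : ℂ) - (Real.log (2 * Real.pi) : ℂ)) = A + B - (Real.pi / 2) * D := by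
    rw [hA, hB, hD]
    ring
  rw [key]
  have n1 : ‖((Real.pi : ℂ) / 2) * D‖ ≤ 2 / s.im := by
    rw [norm_mul]
    have : ‖((Real.pi : ℂ) / 2)‖ = Real.pi / 2 := by
      rw [norm_div, Complex.norm_real, Real.norm_of_nonneg hpi.le]; simp
    rw [this]
    have h5 : ‖D‖ ≤ 4 * (1 / (Real.pi * s.im)) := e3.trans (by linarith)
    calc Real.pi / 2 * ‖D‖ ≤ Real.pi / 2 * (4 * (1 / (Real.pi * s.im))) :=
          mul_le_mul_of_nonneg_left h5 (by positivity)
      _ = 2 / s.im := by field_simp; norm_num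
  calc ‖A + B - (Real.pi / 2) * D‖ ≤ ‖A + B‖ + ‖((Real.pi : ℂ) / 2) * D‖ := norm_sub_le _ _
    _ ≤ (‖A‖ + ‖B‖) + 2 / s.im := add_le_add (norm_add_le _ _) n1
    _ ≤ (3 / s.im + 2 / s.im) + 2 / s.im := by linarith
    _ = 7 / s.im := by ring

end Pool.Agent.Lib.MP_6bc78b_nt.MS.P1.CHO
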