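import Pool.Agent.Lib.MP_6bc78b_nt.MS.Defs

/-! Project MS, Part I: definitions. -/

set_option autoImplicit false

open Complex Filter Topology MeasureTheory

namespace Pool.Agent.Lib.MP_6bc78b_nt.MS.P1

/-- `χ(1-s) = 2 (2π)^(-s) Γ(s) cos(πs/2)`, so that `ζ(1-s) = XX s * ζ(s)`. -/
noncomputable def XX (s : ℂ) : ℂ :=
  2 * (2 * Real.pi : ℂ) ^ (-s) * Complex.Gamma s * Complex.cos (Real.pi * s / 2)

/-- `ω(s) = (d/ds) log χ(1-s) ≈ log (s/2πi)`. -/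
noncomputable def om (s : ℂ) : ℂ := logDeriv XX s

/-- `(1/2πi) ∫_{Re s = c} f(s) ds`. -/
noncomputable def VI (c : ℝ) (f : ℂ → ℂ) : ℂ :=
  (1 / (2 * Real.pi) : ℂ) * ∫ t : ℝ, f (c + t * I)

/-- `(1/2πi) ∫ f(s) ds` over `Re s = c`, `T/2 ≤ Im s ≤ 2T`. -/
noncomputable def VF (c T : ℝ) (f : ℂ → ℂ) : ℂ :=
  (1 / (2 * Real.pi) : ℂ) * ∫ t in (T / 2)..(2 * T), f (c + t * I)

/-- The kernel `K_j(r) = (1/2πi) ∫_{(c)} χ(1-s) ω(s)^j W(s) r^(-s) ds`. -/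
noncomputable def Ker (c T : ℝ) (j : ℕ) (r : ℝ) : ℂ :=
  VI c (fun s => XX s * om s ^ j * WW T s * (r : ℂ) ^ (-s))

/-- The box in which the test functions are analytic. -/
def SB (T : ℝ) : Set ℂ :=
  {s : ℂ | (-(1 / 2) < s.re ∧ s.re < 3 / 2) ∧ (T / 2 - 1 < s.im ∧ s.im < 2 * T + 1)}

/-- Dirichlet series of a real arithmetic function. -/
noncomputable def LS (α : ArithmeticFunction ℝ) (s : ℂ) : ℂ :=
  LSeries (fun n => ((α n : ℝ) : ℂ)) s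

/-- Absolute convergence at `c` (real arithmetic functions). -/
def ASum (c : ℝ) (α : ArithmeticFunction ℝ) : Prop :=
  Summable (fun n : ℕ => |α n| * (n : ℝ) ^ (-c))

/-- `∑ |α(n)| n^(-c)`. -/
noncomputable def AN (c : ℝ) (α : ArithmeticFunction ℝ) : ℝ :=
  ∑' n : ℕ, |α n| * (n : ℝ) ^ (-c)

end Pool.Agent.Lib.MP_6bc78b_nt.MS.P1
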