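import Pool.Agent.Lib.MP_6bc78b_nt.MS.Top
import Pool.Agent.Lib.MP_6bc78b_nt.MS.P1.Defs1

/-! Project MS, Part I: the statements of the modules (see Paper.md). -/

set_option autoImplicit false

open Complex Filter Topology MeasureTheory ArithmeticFunction

namespace Pool.Agent.Lib.MP_6bc78b_nt.MS.P1

/-! ## CHI: functional equation -/

/-- CHI -/
def ChiStatement : Prop :=
  (∀ s : ℂ, 0 < s.re → DifferentiableAt ℂ XX s) ∧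
  (∀ s : ℂ, 0 < s.re → s.im ≠ 0 → XX s ≠ 0) ∧
  (∀ s : ℂ, 0 < s.re → s.im ≠ 0 → riemannZeta (1 - s) = XX s * riemannZeta s) ∧
  (∀ s : ℂ, 0 < s.re → s.im ≠ 0 → deriv riemannZeta (1 - s) =
    -(XX s * (om s * riemannZeta s + deriv riemannZeta s))) ∧
  (∀ s : ℂ, 0 < s.re → s.im ≠ 0 → riemannZeta s ≠ 0 →
    logDeriv riemannZeta (1 - s) = -(om s + logDeriv riemannZeta s))

/-- CHX: size of `χ(1-s)`, all `t` (also small). -/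
def ChiSizeStatement : Prop :=
  ∃ C : ℝ, 0 < C ∧ ∀ s : ℂ, 1 / 2 ≤ s.re → s.re ≤ 8 → ‖XX s‖ ≤ C * (1 + |s.im|) ^ (s.re - 1 / 2)

/-- CHO: `ω(s) = log (t/2π) + O(1/t)`, `0 < Re s ≤ 2`, `t = Im s ≥ 1`. -/
def OmAsympStatement : Prop :=
  ∃ C : ℝ, 0 < C ∧ ∀ s : ℂ, 0 < s.re → s.re ≤ 2 → 1 ≤ s.im →
    ‖om s - (Real.log (s.im / (2 * Real.pi)) : ℂ)‖ ≤ C / s.im

/-- OML: `ω` and `ω'` on a line `Re s = c`, `1 < c < 3/2`, all `t`. -/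
def OmLineStatement : Prop := ∀ c : ℝ, 1 < c → c < 3 / 2 →
  ∃ C : ℝ, 0 < C ∧ (∀ t : ℝ, ‖om (c + t * I)‖ ≤ C * Real.log (3 + |t|)) ∧
    (∀ t : ℝ, ‖deriv om (c + t * I)‖ ≤ C / (1 + |t|)) ∧
    (∀ t : ℝ, DifferentiableAt ℂ om (c + t * I)) ∧
    (∀ t : ℝ, XX (c + t * I) ≠ 0)

/-! ## GAU, TAIL, MOM: the Gaussian weight -/

/-- GAU: symmetry, size, and `(1/2πi) ∫ W(s) r^(-s) ds`. -/
def GaussStatement : Prop :=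
  (∀ (T : ℝ) (s : ℂ), WW T (1 - (starRingEnd ℂ) s) = (starRingEnd ℂ) (WW T s)) ∧
  (∀ T c t : ℝ, ‖WW T (c + t * I)‖ = Real.exp (((c - 1 / 2) ^ 2 - (t - T) ^ 2) / DD T ^ 2)) ∧
  (∀ T c r : ℝ, 0 < DD T → 0 < r → VI c (fun s => WW T s * (r : ℂ) ^ (-s)) =
    (cG T : ℂ) * Complex.exp (-(1 / 2 + T * I) * Real.log r - (DD T) ^ 2 * (Real.log r) ^ 2 / 4))

/-- TAIL: outside `[T/2, 2T]` the weight is negligible. -/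
def TailStatement : Prop := ∀ A c : ℝ, 0 ≤ c → c ≤ 8 → ∀ᶠ T : ℝ in atTop, ∀ g : ℂ → ℂ,
  AEStronglyMeasurable (fun t : ℝ => g (c + t * I)) volume →
  (∀ t : ℝ, ‖g (c + t * I)‖ ≤ T ^ A * (1 + |t|) ^ A) →
    Integrable (fun t : ℝ => g (c + t * I) * WW T (c + t * I)) ∧
    ‖VI c (fun s => g s * WW T s) - VF c T (fun s => g s * WW T s)‖ ≤ 1 / T

/-- MOM: moments of the weight; `k = 0, 1, 2`, any real `A`. -/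
def MomentStatement : Prop := ∀ (A c : ℝ) (B k : ℕ), 0 ≤ c → c ≤ 8 → k ≤ 2 →
  ∃ C T0 : ℝ, 0 < C ∧ 1 < T0 ∧ ∀ T : ℝ, T0 ≤ T →
    Integrable (fun t : ℝ => (1 + |t|) ^ A * Real.log (3 + |t|) ^ B * ‖(c + t * I : ℂ) - 1 / 2 - T * I‖ ^ k *
      ‖WW T (c + t * I)‖) ∧
    ∫ t : ℝ, (1 + |t|) ^ A * Real.log (3 + |t|) ^ B * ‖(c + t * I : ℂ) - 1 / 2 - T * I‖ ^ k *
      ‖WW T (c + t * I)‖ ≤ C * T ^ A * Real.log T ^ B * DD T ^ (k + 1)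

/-- DDF: elementary facts on `DD` and `cG`. -/
def DDStatement : Prop :=
  (∀ A : ℝ, ∀ᶠ T : ℝ in atTop, Real.exp (-(T ^ 2 / (16 * DD T ^ 2))) ≤ T ^ (-A)) ∧
  (∀ δ : ℝ, 0 < δ → ∀ᶠ T : ℝ in atTop, T ^ (1 - δ) ≤ DD T) ∧
  (∀ᶠ T : ℝ in atTop, DD T ≤ T ∧ 1 ≤ DD T ∧ 0 < cG T ∧ cG T ≤ T) ∧
  (∀ lam A : ℝ, lam < 1 → ∀ᶠ T : ℝ in atTop,
    Real.exp (-(DD T ^ 2 * T ^ (-(2 * lam)) / 64)) ≤ T ^ (-A))

/-! ## SWAP: Dirichlet series against an integrable function on a line -/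

/-- SWAP -/
def SwapStatement : Prop := ∀ (c : ℝ) (a : ℕ → ℂ) (g : ℂ → ℂ),
  Summable (fun n : ℕ => ‖a n‖ * (n : ℝ) ^ (-c)) → Integrable (fun t : ℝ => g (c + t * I)) →
    Integrable (fun t : ℝ => LSeries a (c + t * I) * g (c + t * I)) ∧
    Summable (fun n : ℕ => ‖if n = 0 then 0 else a n * VI c (fun s => g s * (n : ℂ) ^ (-s))‖) ∧
    VI c (fun s => LSeries a s * g s) =
      ∑' n : ℕ, if n = 0 then 0 else a n * VI c (fun s => g s * (n : ℂ) ^ (-s))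

/-! ## The kernel -/

/-- K0F: exact formula. -/
def K0FStatement : Prop := ∀ T c r : ℝ, 0 < DD T → 0 < c → 0 < r →
  Ker c T 0 r = (cG T : ℂ) * ∫ u : ℝ,
    Complex.exp (-((DD T) ^ 2 * u ^ 2 / 4) - (1 / 2 + T * I) * u) *
      (2 * Complex.cos (2 * Real.pi * r * Real.exp (-u)))

/-- K0T: the saddle point, all `r > 0`. -/
def K0TStatement : Prop := ∃ C T0 : ℝ, 0 < C ∧ 1 < T0 ∧ ∀ T c r : ℝ, T0 ≤ T → 0 < c → 0 < r →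
  ‖Ker c T 0 r - ee (-r) * GG T r‖ ≤ C * (1 / DD T + r / DD T ^ 2)

/-- K0L: trivial bound on the line `Re s = 7`. -/
def K0LStatement : Prop := ∃ C T0 : ℝ, 0 < C ∧ 1 < T0 ∧ ∀ T c r : ℝ, T0 ≤ T → 1 / 2 ≤ c → c ≤ 7 →
  0 < r → ‖Ker c T 0 r‖ ≤ C * T ^ (15 / 2 : ℝ) * r ^ (-(7 : ℝ))

/-- K0C: combination. -/
def K0Statement : Prop := ∀ c : ℝ, 1 < c → c < 3 / 2 → ∃ C T0 : ℝ, 0 < C ∧ 1 < T0 ∧
  ∀ T r : ℝ, T0 ≤ T → 1 / T ≤ r →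
    ‖Ker c T 0 r - ee (-r) * GG T r‖ ≤
      C * T ^ (c - 1 / 2) * Real.log T ^ 3 * r ^ (-c) / (1 + |Real.log r|) ^ 2

/-- KBP: the kernels `K_j`, `j ≤ 2` (integration by parts). -/
def KerStatement : Prop := ∀ c : ℝ, 1 < c → c < 3 / 2 → ∃ C T0 : ℝ, 0 < C ∧ 1 < T0 ∧
  ∀ T r : ℝ, T0 ≤ T → 1 / T ≤ r → ∀ j : ℕ, j ≤ 2 →
    ‖Ker c T j r - (Real.log r : ℂ) ^ j * ee (-r) * GG T r‖ ≤
      C * T ^ (c - 1 / 2) * Real.log T ^ 5 * r ^ (-c)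

/-- KSUM: from the contour integral to `S_j(α)`. -/
def KSumStatement : Prop := ∀ th c1 c2 c K : ℝ, 0 < th → th < 1 / 2 → 1 < c → c < 3 / 2 →
  ∃ C T0 : ℝ, 0 < C ∧ 1 < T0 ∧ ∀ T : ℝ, T0 ≤ T → ∀ α : ArithmeticFunction ℝ,
    ASum c α → AN c α ≤ K → ∀ j : ℕ, j ≤ 2 →
      ‖VI c (fun s => XX s * om s ^ j * LS α s * MM th c1 c2 T (1 - s) * WW T s) -
        Ssum th c1 c2 T j α‖ ≤ C * T ^ (c - 1 / 2 + th * c) * Real.log T ^ 5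

/-! ## Edges without `χ` -/

/-- EDG0: no constant term. -/
def Edge0Statement : Prop := ∀ c A : ℝ, 1 < c → c < 3 / 2 → ∀ᶠ T : ℝ in atTop, ∀ a : ℕ → ℂ,
  a 1 = 0 → Summable (fun n : ℕ => ‖a n‖ * (n : ℝ) ^ (-c)) →
  (∑' n : ℕ, ‖a n‖ * (n : ℝ) ^ (-c)) ≤ T ^ A →
    ‖VI c (fun s => LSeries a s * WW T s)‖ ≤ 1 / T

/-- EDG1: only the diagonal survives. -/
def Edge1Statement : Prop := ∀ lam c A : ℝ, 0 < lam → lam < 1 → 1 < c → c < 3 / 2 →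
  ∀ᶠ T : ℝ in atTop, ∀ a b : ℕ → ℂ,
  Summable (fun n : ℕ => ‖a n‖ * (n : ℝ) ^ (-c)) →
  (∑' n : ℕ, ‖a n‖ * (n : ℝ) ^ (-c)) ≤ T ^ A → (∀ k, ‖b k‖ ≤ T ^ A) →
    ‖VI c (fun s => LSeries a s *
        (∑ k ∈ Finset.Icc 1 ⌊T ^ lam⌋₊, b k * (k : ℂ) ^ (-(1 - s))) * WW T s) -
      (cG T : ℂ) * ∑ k ∈ Finset.Icc 1 ⌊T ^ lam⌋₊, a k * b k / k‖ ≤ 1 / T

/-- OM1: the mean of `ω`. -/
def Om1Statement : Prop := ∀ c : ℝ, 1 < c → c < 3 / 2 →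
  Tendsto (fun T : ℝ => VI c (fun s => om s * WW T s) / ((cG T * Real.log T : ℝ) : ℂ)) atTop (𝓝 1)

/-- OM2: `ω` against an oscillation. -/
def Om2Statement : Prop := ∀ c : ℝ, 1 < c → c < 3 / 2 → ∃ C T0 : ℝ, 0 < C ∧ 1 < T0 ∧
  ∀ T r : ℝ, T0 ≤ T → 0 < r → r ≠ 1 →
    ‖VI c (fun s => om s * WW T s * (r : ℂ) ^ (-s))‖ ≤ C * Real.log T * r ^ (-c) / |Real.log r|

/-! ## Prime sums, Dirichlet series -/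

/-- PRIM -/
def PrimeSumStatement : Prop :=
  (∀ lam : ℝ, 0 < lam → lam < 1 → Tendsto (fun T : ℝ =>
    (∑ k ∈ Finset.Icc 1 ⌊T ^ lam⌋₊, La k * bb lam T k / k) / Real.log T) atTop (𝓝 (lam / 6))) ∧
  (∀ lam : ℝ, 0 < lam → lam < 1 → Tendsto (fun T : ℝ =>
    ∑ k ∈ Finset.Icc 1 ⌊T ^ lam⌋₊, bb lam T k * bb lam T k / k) atTop (𝓝 (1 / 12)))

/-- LSER: Dirichlet series identities and uniform absolute convergence. -/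
def LSerStatement : Prop :=
  (∀ s : ℂ, 1 < s.re → LS La s = -logDeriv riemannZeta s) ∧
  (∀ s : ℂ, 1 < s.re → LS lg s = -deriv riemannZeta s) ∧
  (∀ s : ℂ, 1 < s.re → LS one s = riemannZeta s) ∧
  (∀ c : ℝ, 1 < c → ASum c La ∧ ASum c lg ∧ ASum c one) ∧
  (∀ (c : ℝ) (f g : ArithmeticFunction ℝ), ASum c f → ASum c g →
    ASum c (f * g) ∧ AN c (f * g) ≤ AN c f * AN c g ∧
      ∀ s : ℂ, s.re = c → LS (f * g) s = LS f s * LS g s) ∧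
  (∀ (th c1 c2 T c : ℝ), 0 < th → 1 < T → ASum c (bet th c1 c2 T) ∧
    (∀ s : ℂ, LS (bet th c1 c2 T) s = MM th c1 c2 T s)) ∧
  (∀ (lam T c : ℝ), 0 < lam → 1 < T → ASum c (bb lam T) ∧
    (∀ s : ℂ, LS (bb lam T) s = BB lam T s)) ∧
  (∀ (th c1 c2 c : ℝ), 0 < th → 1 < c → ∃ K : ℝ, ∀ T : ℝ, 1 < T → AN c (bet th c1 c2 T) ≤ K) ∧
  (∀ (lam c : ℝ), 0 < lam → 1 < c → ∃ K T0 : ℝ, ∀ T : ℝ, T0 ≤ T → AN c (bb lam T) ≤ K)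

/-- DIAG: the diagonal sums with `La` are bounded (prime powers `p^a`, `a ≥ 2`, only). -/
def DiagStatement : Prop :=
  (∀ th lam c1 c2 : ℝ, 0 < th → th < 1 / 2 → 0 < lam → lam < 1 → ∃ C T0 : ℝ, ∀ T : ℝ, T0 ≤ T →
    |∑ k ∈ Finset.Icc 1 ⌊T ^ lam⌋₊, (La * lg * bet th c1 c2 T) k * bb lam T k / k| ≤ C) ∧
  (∀ lam : ℝ, 0 < lam → lam < 1 → ∃ C T0 : ℝ, ∀ T : ℝ, T0 ≤ T →
    |∑ k ∈ Finset.Icc 1 ⌊T ^ lam⌋₊, (La * bb lam T) k * bb lam T k / k| ≤ C)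

/-- POLY: polynomial bounds in the box. -/
def PolyStatement : Prop :=
  (∀ᶠ T : ℝ in atTop, ∀ s ∈ SB T, DifferentiableAt ℂ riemannZeta s ∧
    DifferentiableAt ℂ (deriv riemannZeta) s ∧ ‖riemannZeta s‖ ≤ T ^ (3 : ℝ) ∧
    ‖deriv riemannZeta s‖ ≤ T ^ (3 : ℝ) ∧ ‖deriv riemannZeta (1 - s)‖ ≤ T ^ (3 : ℝ)) ∧
  (∀ th c1 c2 : ℝ, 0 < th → th < 1 / 2 → ∀ᶠ T : ℝ in atTop, ∀ s ∈ SB T,
    ‖MM th c1 c2 T s‖ ≤ T ^ (3 : ℝ) ∧ ‖MM th c1 c2 T (1 - s)‖ ≤ T ^ (3 : ℝ)) ∧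
  (∀ lam : ℝ, 0 < lam → lam < 1 → ∀ᶠ T : ℝ in atTop, ∀ s ∈ SB T,
    ‖BB lam T s‖ ≤ T ^ (3 : ℝ) ∧ ‖BB lam T (1 - s)‖ ≤ T ^ (3 : ℝ)) ∧
  (∀ (th c1 c2 T : ℝ), Differentiable ℂ (MM th c1 c2 T)) ∧
  (∀ (lam T : ℝ), Differentiable ℂ (BB lam T)) ∧
  (∀ (th c1 c2 T : ℝ) (s : ℂ), MM th c1 c2 T ((starRingEnd ℂ) s) = (starRingEnd ℂ) (MM th c1 c2 T s)) ∧
  (∀ (lam T : ℝ) (s : ℂ), BB lam T ((starRingEnd ℂ) s) = (starRingEnd ℂ) (BB lam T s)) ∧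
  (∀ s : ℂ, deriv riemannZeta ((starRingEnd ℂ) s) = (starRingEnd ℂ) (deriv riemannZeta s))

/-! ## The zero-sum formula -/

/-- ZSF (needs RH). -/
def ZeroSumStatement : Prop := ∀ A c : ℝ, 1 < c → c < 3 / 2 → ∀ᶠ T : ℝ in atTop, ∀ F : ℂ → ℂ,
  DifferentiableOn ℂ F (SB T) → (∀ s ∈ SB T, ‖F s‖ ≤ T ^ A) →
    ‖ZS T F - (VF c T (fun s => logDeriv riemannZeta s * F s * WW T s) +
      (starRingEnd ℂ) (VF c T (fun s => (om s + logDeriv riemannZeta s) *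
        (starRingEnd ℂ) (F (1 - (starRingEnd ℂ) s)) * WW T s)))‖ ≤ 1

end Pool.Agent.Lib.MP_6bc78b_nt.MS.P1
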