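import Mathlib
import Pool.Agent.Lib.MP_6bc78b_nt.LL.Heights
import Pool.Agent.Lib.MP_6bc78b_nt.H11.Order
import Pool.Agent.Lib.MP_6bc78b_nt.MS.P1.Iface

/-! Good heights for `ζ'/ζ` on `-1/2 ≤ Re s ≤ 3/2`, conjugation, multiplicities. -/

set_option autoImplicit false

open Complex Set Filter Topology MeasureTheory

namespace Pool.Agent.Lib.MP_6bc78b_nt.MS.P1

open Pool.Agent.Lib.MP_6bc78b_nt Pool.Agent.Lib.MP_6bc78b_nt.LL Pool.Agent.Lib.MP_6bc78b_nt.H11

lemma deriv_zeta_conj (s : ℂ) :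
    deriv riemannZeta ((starRingEnd ℂ) s) = (starRingEnd ℂ) (deriv riemannZeta s) := by
  have h4 : ((starRingEnd ℂ) ∘ riemannZeta ∘ (starRingEnd ℂ) : ℂ → ℂ) = riemannZeta := by
    funext z
    simp only [Function.comp]
    rw [riemannZeta_conj, Complex.conj_conj]
  have h := congrFun (deriv_conj_conj (f := riemannZeta)) ((starRingEnd ℂ) s)
  rw [h4] at h
  simp only [Function.comp, Complex.conj_conj] at h
  exact h

lemma logDeriv_zeta_conj (s : ℂ) :
    logDeriv riemannZeta ((starRingEnd ℂ) s) = (starRingEnd ℂ) (logDeriv riemannZeta s) := by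
  rw [logDeriv_apply, logDeriv_apply, deriv_zeta_conj, riemannZeta_conj, map_div₀]

lemma mz_eq (γ : ℝ) : mz γ = zeroMult γ := by
  unfold mz
  rw [analyticOrderNatAt, order_eq]
  rfl

/-- the reflected logarithmic derivative. -/
lemma logDeriv_zeta_reflect (hchi : ChiStatement) {s : ℂ} (h0 : 0 < s.re) (h1 : s.im ≠ 0)
    (hz : riemannZeta s ≠ 0) :
    logDeriv riemannZeta (1 - (starRingEnd ℂ) s) =
      -(starRingEnd ℂ) (om s + logDeriv riemannZeta s) := by
  have e : 1 - (starRingEnd ℂ) s = (starRingEnd ℂ) (1 - s) := by simp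
  rw [e, logDeriv_zeta_conj, hchi.2.2.2.2 s h0 h1 hz, map_neg]

lemma zeta_reflect_ne_zero (hchi : ChiStatement) {s : ℂ} (h0 : 0 < s.re) (h1 : s.im ≠ 0)
    (hz : riemannZeta s ≠ 0) : riemannZeta (1 - (starRingEnd ℂ) s) ≠ 0 := by
  have e : 1 - (starRingEnd ℂ) s = (starRingEnd ℂ) (1 - s) := by simp
  rw [e, riemannZeta_conj, hchi.2.2.1 s h0 h1]
  intro h
  have h2 := (map_eq_zero (starRingEnd ℂ)).1 h
  exact mul_ne_zero (hchi.2.1 s h0 h1) hz h2

/-- size of `ω` in the strip. -/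
lemma om_le (hom : OmAsympStatement) : ∃ C : ℝ, 0 < C ∧ ∀ s : ℂ, 0 < s.re → s.re ≤ 2 → 3 ≤ s.im →
    ‖om s‖ ≤ C * Real.log s.im := by
  obtain ⟨C, hC, h⟩ := hom
  refine ⟨C + 3, by positivity, fun s h0 h1 h2 => ?_⟩
  have h3 := h s h0 h1 (by linarith)
  have hl : 1 ≤ Real.log s.im := by
    rw [Real.le_log_iff_exp_le (by linarith)]
    exact Real.exp_one_lt_d9.le.trans (by linarith)
  have h4 : C / s.im ≤ C := by
    rw [div_le_iff₀ (by linarith)]
    nlinarith
  have hpi := Real.pi_gt_three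
  have hpi4 := Real.pi_lt_four
  have h5 : |Real.log (s.im / (2 * Real.pi))| ≤ 3 * Real.log s.im := by
    rw [Real.log_div (by linarith) (by positivity)]
    have h6 : 0 ≤ Real.log (2 * Real.pi) := Real.log_nonneg (by linarith)
    have h7 : Real.log (2 * Real.pi) ≤ 3 := by
      have h8 : Real.log (2 * Real.pi) ≤ Real.log (2 ^ 3) :=
        Real.log_le_log (by positivity) (by norm_num; linarith)
      rw [Real.log_pow] at h8
      have := Real.log_two_lt_d9
      push_cast at h8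
      linarith
    rw [abs_le]
    constructor <;> linarith
  have h6 : ‖om s‖ ≤ ‖om s - (Real.log (s.im / (2 * Real.pi)) : ℂ)‖ +
      ‖(Real.log (s.im / (2 * Real.pi)) : ℂ)‖ := by
    have := norm_add_le (om s - (Real.log (s.im / (2 * Real.pi)) : ℂ))
      (Real.log (s.im / (2 * Real.pi)) : ℂ)
    simpa using this
  rw [Complex.norm_real, Real.norm_eq_abs] at h6
  nlinarith

/-- **good heights** for `ζ'/ζ` in `-1/2 ≤ Re s ≤ 3/2`. -/
theorem good_zeta (hchi : ChiStatement) (hom : OmAsympStatement) :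
    ∃ C : ℝ, 0 < C ∧ ∀ u : ℝ, 9 ≤ u → ∃ v ∈ Icc (u - 1/4) (u + 1/4),
      ∀ x ∈ Icc (-(1/2) : ℝ) (3/2), riemannZeta (x + v * I) ≠ 0 ∧
        ‖logDeriv riemannZeta (x + v * I)‖ ≤ C * (Real.log u) ^ 2 := by
  obtain ⟨C₁, hC₁, h1⟩ := exists_good_height
  obtain ⟨G, hG, hGb⟩ := om_le hom
  refine ⟨C₁ + 2 * G, by positivity, fun u hu => ?_⟩
  obtain ⟨v, hv, hx⟩ := h1 u (by rw [abs_of_pos (by linarith)]; linarith)
  rw [abs_of_pos (by linarith : (0:ℝ) < u)] at hx
  have hl : 1 ≤ Real.log u := by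
    rw [Real.le_log_iff_exp_le (by linarith)]
    exact Real.exp_one_lt_d9.le.trans (by linarith)
  refine ⟨v, hv, fun x hx2 => ?_⟩
  have hl2 : Real.log u ≤ (Real.log u) ^ 2 := by nlinarith
  rcases le_total (1/2) x with h5 | h5
  · obtain ⟨h2, h3⟩ := hx x ⟨h5, by linarith [hx2.2]⟩
    refine ⟨h2, h3.trans ?_⟩
    nlinarith [sq_nonneg (Real.log u)]
  · obtain ⟨h2, h3⟩ := hx (1 - x) ⟨by linarith, by linarith [hx2.1]⟩
    obtain ⟨s, hs⟩ : ∃ s : ℂ, s = ((1 - x : ℝ) : ℂ) + v * I := ⟨_, rfl⟩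
    have hre : s.re = 1 - x := by rw [hs]; simp
    have him : s.im = v := by rw [hs]; simp
    have e : (x : ℂ) + v * I = 1 - (starRingEnd ℂ) s := by
      rw [hs]; apply Complex.ext <;> simp
    rw [← hs] at h2 h3
    have hs0 : 0 < s.re := by rw [hre]; linarith
    have hs1 : s.im ≠ 0 := by rw [him]; linarith [hv.1]
    rw [e]
    refine ⟨zeta_reflect_ne_zero hchi hs0 hs1 h2, ?_⟩
    rw [logDeriv_zeta_reflect hchi hs0 hs1 h2, norm_neg, Complex.norm_conj]
    refine (norm_add_le _ _).trans ?_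
    have h4 := hGb s hs0 (by rw [hre]; linarith [hx2.1]) (by rw [him]; linarith [hv.1])
    rw [him] at h4
    have h6 : Real.log v ≤ 2 * Real.log u := by
      have h7 : Real.log v ≤ Real.log (u ^ 2) :=
        Real.log_le_log (by linarith [hv.1]) (by nlinarith [hv.2])
      rw [Real.log_pow] at h7
      push_cast at h7
      exact h7
    nlinarith

end Pool.Agent.Lib.MP_6bc78b_nt.MS.P1
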