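import Mathlib
import Pool.Agent.Lib.MP_6bc78b_nt.LL.Rect

/-! The argument principle with a weight, local version. -/

set_option autoImplicit false

open Complex Set Filter Topology MeasureTheory intervalIntegral

namespace Pool.Agent.Lib.MP_6bc78b_nt.MS.P1

open Pool.Agent.Lib.MP_6bc78b_nt.LL

variable {a b c d : ℝ}

lemma bdry_sub : bdry a b c d ⊆ Icc a b ×ℂ Icc c d :=
  fun _ hz => ⟨⟨hz.2.1.1, hz.2.1.2⟩, hz.2.2.1, hz.2.2.2⟩

lemma rectI_cauchy_on {k : ℂ → ℂ} {U : Set ℂ} (hU : IsOpen U) (hk : DifferentiableOn ℂ k U)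
    (hsub : Icc a b ×ℂ Icc c d ⊆ U) {w : ℂ} (ha : a < w.re) (hb : w.re < b)
    (hc : c < w.im) (hd : w.im < d) :
    rectI (fun z => k z / (z - w)) a b c d = 2 * Real.pi * I * k w := by
  have hab : a ≤ b := by linarith
  have hcd : c ≤ d := by linarith
  have hwU : w ∈ U := hsub ⟨⟨ha.le, hb.le⟩, hc.le, hd.le⟩
  have h1 : rectI (fun z => k z / (z - w)) a b c d =
      rectI (fun z => dslope k w z + k w * (1 / (z - w))) a b c d := by
    apply rectI_congr hab hcd
    intro z hz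
    have hne := not_mem_bdry ha hb hc hd hz
    simp only
    rw [dslope_of_ne _ hne, slope_def_field]
    have := sub_ne_zero.2 hne
    field_simp
    ring
  have hds : DifferentiableOn ℂ (dslope k w) U :=
    (Complex.differentiableOn_dslope (hU.mem_nhds hwU)).2 hk
  rw [h1, rectI_add hab hcd (hds.continuousOn.mono (bdry_sub.trans hsub)), rectI_const_mul,
    rectI_zero hab hcd (hds.mono hsub), rectI_inv ha hb hc hd]
  · ring
  · apply ContinuousOn.mul continuousOn_const
    apply ContinuousOn.div (by fun_prop) (by fun_prop)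
    intro z hz
    exact sub_ne_zero.2 (not_mem_bdry ha hb hc hd hz)

/-- The argument principle with a weight, for a rectangle (local version). -/
theorem rectI_logDeriv_on {F h k : ℂ → ℂ} {U : Set ℂ} (hU : IsOpen U)
    (hk : DifferentiableOn ℂ k U) (hh : DifferentiableOn ℂ h U)
    (hsub : Icc a b ×ℂ Icc c d ⊆ U) (hab : a ≤ b) (hcd : c ≤ d)
    (Z : Finset ℂ) (m : ℂ → ℕ) (hF : ∀ z ∈ U, F z = (∏ w ∈ Z, (z - w) ^ m w) * h z)
    (hZ : ∀ w ∈ Z, (a < w.re ∧ w.re < b) ∧ (c < w.im ∧ w.im < d))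
    (h0 : ∀ z ∈ Icc a b ×ℂ Icc c d, h z ≠ 0) :
    rectI (fun z => logDeriv F z * k z) a b c d = 2 * Real.pi * I * ∑ w ∈ Z, (m w : ℂ) * k w := by
  have hne : ∀ z ∈ bdry a b c d, ∀ w ∈ Z, z ≠ w := by
    intro z hz w hw
    obtain ⟨⟨h1, h2⟩, h3, h4⟩ := hZ w hw
    exact not_mem_bdry h1 h2 h3 h4 hz
  have hlog : ∀ z ∈ bdry a b c d, logDeriv F z * k z =
      (∑ w ∈ Z, (m w : ℂ) * (k z / (z - w))) + logDeriv h z * k z := by
    intro z hz
    have hzU : z ∈ U := hsub (bdry_sub hz)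
    have hev : F =ᶠ[𝓝 z] fun z => (∏ w ∈ Z, (z - w) ^ m w) * h z := by
      filter_upwards [hU.mem_nhds hzU] with y hy
      exact hF y hy
    have hlF : logDeriv F z = logDeriv (fun z => (∏ w ∈ Z, (z - w) ^ m w) * h z) z := by
      rw [logDeriv_apply, logDeriv_apply, hev.deriv_eq, hF z hzU]
    have hPne : (∏ w ∈ Z, (z - w) ^ m w) ≠ 0 :=
      Finset.prod_ne_zero_iff.2 fun w hw => pow_ne_zero _ (sub_ne_zero.2 (hne z hz w hw))
    have hPd : DifferentiableAt ℂ (fun z : ℂ => ∏ w ∈ Z, (z - w) ^ m w) z :=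
      (by fun_prop : Differentiable ℂ fun z : ℂ => ∏ w ∈ Z, (z - w) ^ m w) z
    have hhz : DifferentiableAt ℂ h z := (hh z hzU).differentiableAt (hU.mem_nhds hzU)
    rw [hlF, logDeriv_mul z hPne (h0 z (bdry_sub hz)) hPd hhz]
    have e1 : logDeriv (fun z : ℂ => ∏ w ∈ Z, (z - w) ^ m w) z = ∑ w ∈ Z, (m w : ℂ) / (z - w) := by
      rw [logDeriv_prod (f := fun (w z : ℂ) => (z - w) ^ m w)
        (fun w hw => pow_ne_zero _ (sub_ne_zero.2 (hne z hz w hw)))
        (fun w hw => by fun_prop)]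
      apply Finset.sum_congr rfl
      intro w _
      have : logDeriv (fun z : ℂ => (z - w) ^ m w) z = m w * logDeriv (fun z : ℂ => z - w) z :=
        logDeriv_fun_pow (by fun_prop) _
      rw [this, logDeriv_apply, deriv_sub_const, deriv_id'']
      ring
    rw [e1, add_mul, Finset.sum_mul]
    congr 1
    apply Finset.sum_congr rfl
    intro w _
    ring
  have hcont1 : ∀ w ∈ Z, ContinuousOn (fun z => (m w : ℂ) * (k z / (z - w))) (bdry a b c d) := by
    intro w hw
    apply ContinuousOn.mul continuousOn_const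
    apply ContinuousOn.div (hk.continuousOn.mono (bdry_sub.trans hsub)) (by fun_prop)
    intro z hz
    exact sub_ne_zero.2 (hne z hz w hw)
  have hdiff : DifferentiableOn ℂ (fun z => logDeriv h z * k z) (Icc a b ×ℂ Icc c d) := by
    intro z hz
    have hz0 : h z ≠ 0 := h0 z hz
    have hzU : U ∈ 𝓝 z := hU.mem_nhds (hsub hz)
    have h1 : DifferentiableOn ℂ (deriv h) U := hh.deriv hU
    have h2 : DifferentiableAt ℂ (fun z => logDeriv h z * k z) z := by
      simp only [logDeriv_apply]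
      exact ((h1.differentiableAt hzU).div (hh.differentiableAt hzU) hz0).mul
        (hk.differentiableAt hzU)
    exact h2.differentiableWithinAt
  rw [rectI_congr hab hcd hlog, rectI_add hab hcd (continuousOn_finsetSum _ hcont1)
    (hdiff.continuousOn.mono bdry_sub),
    rectI_sum hab hcd Z hcont1, rectI_zero hab hcd hdiff, add_zero, Finset.mul_sum]
  apply Finset.sum_congr rfl
  intro w hw
  obtain ⟨⟨h1, h2⟩, h3, h4⟩ := hZ w hw
  rw [rectI_const_mul, rectI_cauchy_on hU hk hsub h1 h2 h3 h4]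
  ring

end Pool.Agent.Lib.MP_6bc78b_nt.MS.P1
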