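import Mathlib
import Pool.Agent.Lib.MP_6bc78b_nt.H11.Light
import Pool.Agent.Lib.MP_6bc78b_nt.H11.ExpSum
import Pool.Agent.Lib.MP_6bc78b_nt.H11.Weight
import Pool.Agent.Lib.MP_6bc78b_nt.MS.P1.RectOn
import Pool.Agent.Lib.MP_6bc78b_nt.MS.P1.Good

/-! The zero-sum formula (RH): `ZeroSumStatement`. -/

set_option autoImplicit false

open Complex Set Filter Topology MeasureTheory intervalIntegral

namespace Pool.Agent.Lib.MP_6bc78b_nt.MS.P1.ZSF

open Pool.Agent.Lib.MP_6bc78b_nt Pool.Agent.Lib.MP_6bc78b_nt.LL Pool.Agent.Lib.MP_6bc78b_nt.H11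

lemma zeta1_order {s : ℂ} (hs1 : s ≠ 1) :
    analyticOrderAt riemannZeta₁ s = analyticOrderAt riemannZeta s := by
  have h1 : riemannZeta₁ =ᶠ[𝓝 s] (fun s => s - 1) * riemannZeta := by
    filter_upwards [isOpen_ne.mem_nhds hs1] with z hz
    rw [zeta1_eq hz]; rfl
  have h2 : AnalyticAt ℂ (fun s : ℂ => s - 1) s := by fun_prop
  have h3 : AnalyticAt ℂ riemannZeta s := analyticOn_riemannZeta s hs1
  rw [analyticOrderAt_congr h1, analyticOrderAt_mul h2 h3]
  have h4 : analyticOrderAt (fun s : ℂ => s - 1) s = 0 := by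
    rw [h2.analyticOrderAt_eq_zero]
    exact sub_ne_zero.2 hs1
  rw [h4, zero_add]

lemma zeta1_order_crit (γ : ℝ) : analyticOrderNatAt riemannZeta₁ (1 / 2 + γ * I) = mz γ := by
  unfold mz
  rw [analyticOrderNatAt, analyticOrderNatAt, zeta1_order (crit_ne_one γ)]

lemma zeta1_order_ne_top (γ : ℝ) : analyticOrderAt riemannZeta₁ (1 / 2 + γ * I) ≠ ⊤ := by
  rw [zeta1_order (crit_ne_one γ), order_eq]
  simp

/-- Under RH the zeros off the real axis are on the critical line. -/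
lemma zero_im {s : ℂ} (hRH : RiemannHypothesis) (h0 : riemannZeta s = 0) (him : s.im ≠ 0) :
    s = 1 / 2 + s.im * I := by
  have h1 : ¬∃ n : ℕ, s = -2 * (n + 1) := by
    rintro ⟨n, hn⟩
    apply him
    rw [hn]
    simp
  have h2 : s ≠ 1 := by rintro rfl; simp at him
  have h3 := hRH s h0 h1 h2
  apply Complex.ext
  · simp [h3]
  · simp

/-- the residue theorem on a rectangle above the real axis. -/
theorem zeros_rect (hRH : RiemannHypothesis) {k : ℂ → ℂ} {U : Set ℂ} (hU : IsOpen U)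
    (hk : DifferentiableOn ℂ k U) {a b v w : ℝ} (ha : a < 1/2) (hb : 1/2 < b)
    (hvw : v ≤ w) (hsub : Icc a b ×ℂ Icc v w ⊆ U) (hUim : ∀ s ∈ U, 0 < s.im)
    (hv0 : riemannZeta (1/2 + v * I) ≠ 0) (hw0 : riemannZeta (1/2 + w * I) ≠ 0) (Fn : Finset ℝ)
    (hFn : ∀ γ : ℝ, γ ∈ Fn ↔ (v ≤ γ ∧ γ ≤ w) ∧ riemannZeta (1/2 + γ * I) = 0) :
    rectI (fun z => logDeriv riemannZeta z * k z) a b v w =
      2 * Real.pi * I * ∑ γ ∈ Fn, (mz γ : ℂ) * k (1/2 + γ * I) := by
  classical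
  obtain ⟨Z, hZ⟩ : ∃ Z : Finset ℂ, Z = Fn.image (fun γ : ℝ => (1/2 + γ * I : ℂ)) := ⟨_, rfl⟩
  have hinj : Set.InjOn (fun γ : ℝ => (1/2 + γ * I : ℂ)) (Fn : Set ℝ) :=
    fun x _ y _ h => crit_injective h
  have hZmem : ∀ s, s ∈ Z ↔ ∃ γ ∈ Fn, (1/2 + γ * I : ℂ) = s := by
    intro s; rw [hZ, Finset.mem_image]
  obtain ⟨h, hh, hFh, hhZ⟩ := exists_cofactor_light differentiable_riemannZeta₁ Z (by
    intro s hs
    obtain ⟨γ, hγ, rfl⟩ := (hZmem s).1 hs
    exact zeta1_order_ne_top γ)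
  have hU1 : ∀ s ∈ U, s ≠ 1 := by
    intro s hs h1
    have := hUim s hs
    rw [h1] at this
    simp at this
  have hR := rectI_logDeriv_on (F := riemannZeta) (h := fun s => h s / (s - 1)) (k := k) (a := a)
    (b := b) (c := v) (d := w) hU hk
    (by
      intro s hs
      have h1 : DifferentiableAt ℂ (fun s : ℂ => s - 1) s := by fun_prop
      exact ((hh s).fun_div h1 (sub_ne_zero.2 (hU1 s hs))).differentiableWithinAt)
    hsub (by linarith) hvw Z (fun s => analyticOrderNatAt riemannZeta₁ s)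
    (by
      intro s hs
      have h1 := hFh s
      rw [zeta1_eq (hU1 s hs)] at h1
      have h2 : s - 1 ≠ 0 := sub_ne_zero.2 (hU1 s hs)
      rw [mul_div_assoc', eq_div_iff h2, ← h1]
      ring)
    (by
      intro s hs
      obtain ⟨γ, hγ, rfl⟩ := (hZmem s).1 hs
      obtain ⟨⟨h1, h2⟩, h3⟩ := (hFn γ).1 hγ
      have h4 : v < γ := lt_of_le_of_ne h1 (fun h => hv0 (by rw [h]; exact h3))
      have h5 : γ < w := lt_of_le_of_ne h2 (fun h => hw0 (by rw [← h]; exact h3))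
      have e1 : (1/2 + γ * I : ℂ).re = 1/2 := by simp
      have e2 : (1/2 + γ * I : ℂ).im = γ := by simp
      rw [e1, e2]
      exact ⟨⟨ha, hb⟩, h4, h5⟩)
    (by
      intro s hs h5
      have hsU := hsub hs
      have h2 : s - 1 ≠ 0 := sub_ne_zero.2 (hU1 s hsU)
      have h6 : h s = 0 := by
        rcases div_eq_zero_iff.1 h5 with h7 | h7
        · exact h7
        · exact absurd h7 h2
      have h7 : riemannZeta₁ s = 0 := by rw [hFh s, h6, mul_zero]
      rw [zeta1_eq (hU1 s hsU)] at h7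
      have h8 : riemannZeta s = 0 := (mul_eq_zero.1 h7).resolve_left h2
      have h9 := zero_im hRH h8 (hUim s hsU).ne'
      have hm : s.im ∈ Fn := (hFn _).2 ⟨⟨hs.2.1, hs.2.2⟩, by rw [← h9]; exact h8⟩
      exact hhZ s ((hZmem s).2 ⟨s.im, hm, h9.symm⟩) h6)
  rw [hR, hZ, Finset.sum_image hinj]
  congr 1
  apply Finset.sum_congr rfl
  intro γ _
  rw [zeta1_order_crit]

/-- the weight is negligible away from `T`. -/
lemma W_small (hg : GaussStatement) (hd : DDStatement) (B : ℝ) : ∀ᶠ T : ℝ in atTop,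
    ∀ s : ℂ, -(1/2) ≤ s.re → s.re ≤ 3/2 → T / 4 ≤ |s.im - T| → ‖WW T s‖ ≤ 3 * T ^ (-B) := by
  filter_upwards [hd.1 B, hd.2.2.1, eventually_ge_atTop 1] with T h1 h2 hT s hs1 hs2 hs3
  obtain ⟨h3, h4, h5, h6⟩ := h2
  have hD : 0 < DD T ^ 2 := by positivity
  have e : s = ((s.re : ℝ) : ℂ) + (s.im : ℝ) * I := (re_add_im s).symm
  rw [e, hg.2.1]
  have h7 : ((s.re - 1 / 2) ^ 2 - (s.im - T) ^ 2) / DD T ^ 2 ≤ 1 + -(T ^ 2 / (16 * DD T ^ 2)) := by
    rw [div_le_iff₀ hD]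
    have h8 : (1 + -(T ^ 2 / (16 * DD T ^ 2))) * DD T ^ 2 = DD T ^ 2 - T ^ 2 / 16 := by
      field_simp
      ring
    rw [h8]
    have h9 : (s.re - 1 / 2) ^ 2 ≤ 1 := by nlinarith
    have h10 : T ^ 2 / 16 ≤ (s.im - T) ^ 2 := by
      rw [← sq_abs (s.im - T)]
      nlinarith
    nlinarith
  calc Real.exp (((s.re - 1 / 2) ^ 2 - (s.im - T) ^ 2) / DD T ^ 2)
      ≤ Real.exp (1 + -(T ^ 2 / (16 * DD T ^ 2))) := Real.exp_le_exp.2 h7
    _ = Real.exp 1 * Real.exp (-(T ^ 2 / (16 * DD T ^ 2))) := Real.exp_add _ _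
    _ ≤ 3 * T ^ (-B) := by
        gcongr
        exact Real.exp_one_lt_d9.le.trans (by norm_num)

lemma WW_diff (T : ℝ) : Differentiable ℂ (WW T) := by
  unfold WW
  fun_prop

lemma SB_open (T : ℝ) : IsOpen (SB T) := by
  unfold SB
  have h1 : IsOpen {s : ℂ | -(1 / 2) < s.re} := isOpen_lt continuous_const continuous_re
  have h2 : IsOpen {s : ℂ | s.re < 3 / 2} := isOpen_lt continuous_re continuous_const
  have h3 : IsOpen {s : ℂ | T / 2 - 1 < s.im} := isOpen_lt continuous_const continuous_im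
  have h4 : IsOpen {s : ℂ | s.im < 2 * T + 1} := isOpen_lt continuous_im continuous_const
  exact (h1.inter h2).inter (h3.inter h4)

/-- continuity of `ζ'/ζ * k` off the zeros. -/
lemma f_contAt {k : ℂ → ℂ} {z : ℂ} (hk : ContinuousAt k z) (h1 : z ≠ 1) (h0 : riemannZeta z ≠ 0) :
    ContinuousAt (fun z => logDeriv riemannZeta z * k z) z := by
  have h2 : AnalyticAt ℂ riemannZeta z := analyticOn_riemannZeta z h1
  have h3 : ContinuousAt (fun z => deriv riemannZeta z / riemannZeta z) z :=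
    h2.deriv.continuousAt.div h2.continuousAt h0
  exact h3.mul hk

/-- ZSF. -/
theorem zsf (hRH : RiemannHypothesis) (hchi : ChiStatement) (hom : OmAsympStatement)
    (hg : GaussStatement) (hd : DDStatement) : ZeroSumStatement := by
  classical
  intro A c hc1 hc2
  obtain ⟨Cg, hCg, hgood⟩ := good_zeta hchi hom
  obtain ⟨Co, hCo, homle⟩ := om_le hom
  obtain ⟨Tm, hTm4, hmult⟩ := mult_window
  obtain ⟨M, hM, hMb⟩ := exists_logDeriv_zeta_bound hc1
  obtain ⟨K, hK⟩ : ∃ K : ℝ, K = Real.cosh (Real.pi / 2) := ⟨_, rfl⟩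
  have hK0 : 0 < K := by rw [hK]; exact Real.cosh_pos _
  rw [← hK] at hmult
  obtain ⟨Q, hQ⟩ : ∃ Q : ℝ, Q = 18 * K + 108 * Cg + 12 * M + 18 * Co := ⟨_, rfl⟩
  filter_upwards [W_small hg hd (A + 10), eventually_ge_atTop 40, eventually_ge_atTop (2 * Tm + 1),
    eventually_ge_atTop Q] with T hW hT40 hTm hTQ F hF hFb
  have hT0 : 0 < T := by linarith
  -- the function k
  obtain ⟨k, hkdef⟩ : ∃ k : ℂ → ℂ, k = fun s => F s * WW T s := ⟨_, rfl⟩
  have hk : DifferentiableOn ℂ k (SB T) := by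
    rw [hkdef]
    exact hF.mul (WW_diff T).differentiableOn
  have hksmall : ∀ s ∈ SB T, T / 4 ≤ |s.im - T| → ‖k s‖ ≤ 3 * T ^ (-10 : ℝ) := by
    intro s hs h1
    rw [hkdef]
    simp only
    rw [norm_mul]
    have h2 := hW s hs.1.1.le hs.1.2.le h1
    calc ‖F s‖ * ‖WW T s‖ ≤ T ^ A * (3 * T ^ (-(A + 10))) := by
          gcongr
          exact hFb s hs
      _ = 3 * T ^ (-10 : ℝ) := by
          have e : T ^ A * T ^ (-(A + 10)) = T ^ (-10 : ℝ) := by
            rw [← Real.rpow_add hT0]; congr 1; ring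
          rw [← e]; ring
  obtain ⟨E, hE⟩ : ∃ E : ℝ, E = T ^ (-10 : ℝ) := ⟨_, rfl⟩
  rw [← hE] at hksmall
  have hE0 : 0 < E := by rw [hE]; positivity
  -- heights
  obtain ⟨v, hv, hvx⟩ := hgood (T / 2 - 1 / 2) (by linarith)
  obtain ⟨w, hw, hwx⟩ := hgood (2 * T + 1 / 2) (by linarith)
  have hv1 : T / 2 - 3 / 4 ≤ v := by linarith [hv.1]
  have hv2 : v ≤ T / 2 - 1 / 4 := by linarith [hv.2]
  have hw1 : 2 * T + 1 / 4 ≤ w := by linarith [hw.1]
  have hw2 : w ≤ 2 * T + 3 / 4 := by linarith [hw.2]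
  have hvw : v ≤ w := by linarith
  have hsub : Icc (1 - c) c ×ℂ Icc v w ⊆ SB T := by
    intro s hs
    obtain ⟨⟨h1, h2⟩, h3, h4⟩ := hs
    exact ⟨⟨by linarith, by linarith⟩, by linarith, by linarith⟩
  have hsubm : ∀ s : ℂ, s.re ∈ Icc (1 - c) c → s.im ∈ Icc v w → s ∈ SB T :=
    fun s h1 h2 => hsub ⟨h1, h2⟩
  have hUim : ∀ s ∈ SB T, 0 < s.im := fun s hs => by linarith [hs.2.1]
  -- the zeros
  obtain ⟨Fn, hFn⟩ : ∃ Fn : Finset ℝ, ∀ γ : ℝ, γ ∈ Fn ↔
      (v ≤ γ ∧ γ ≤ w) ∧ riemannZeta (1/2 + γ * I) = 0 := by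
    refine ⟨(zeros_in_compact_finite w).toFinset.filter (fun γ => v ≤ γ), fun γ => ?_⟩
    rw [Finset.mem_filter]
    simp only [Set.Finite.mem_toFinset, Set.mem_ofPred_eq]
    constructor
    · rintro ⟨⟨h1, h2⟩, h3⟩
      exact ⟨⟨h3, (abs_le.1 h1).2⟩, h2⟩
    · rintro ⟨⟨h1, h2⟩, h3⟩
      exact ⟨⟨abs_le.2 ⟨by linarith, h2⟩, h3⟩, h1⟩
  have hv0 : riemannZeta (1/2 + v * I) ≠ 0 := by
    have := (hvx (1/2) ⟨by norm_num, by norm_num⟩).1
    push_cast at this
    exact this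
  have hw0 : riemannZeta (1/2 + w * I) ≠ 0 := by
    have := (hwx (1/2) ⟨by norm_num, by norm_num⟩).1
    push_cast at this
    exact this
  have hres := zeros_rect hRH (SB_open T) hk (a := 1 - c) (b := c) (v := v) (w := w) (by linarith)
    (by linarith) hvw hsub hUim hv0 hw0 Fn hFn
  -- the finsum
  have hzset : zset T = ((Fn.filter (fun γ => T / 2 < γ ∧ γ < 2 * T) : Finset ℝ) : Set ℝ) := by
    ext γ
    simp only [zset, Set.mem_ofPred_eq, Finset.coe_filter]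
    constructor
    · rintro ⟨h1, h2, h3⟩
      exact ⟨(hFn γ).2 ⟨⟨by linarith, by linarith⟩, h3⟩, h1, h2⟩
    · rintro ⟨h1, h2, h3⟩
      exact ⟨h2, h3, ((hFn γ).1 h1).2⟩
  have hZS : ZS T F = ∑ γ ∈ Fn.filter (fun γ => T / 2 < γ ∧ γ < 2 * T),
      (mz γ : ℂ) * k (1/2 + γ * I) := by
    unfold ZS
    rw [hzset, finsum_mem_coe_finset]
    apply Finset.sum_congr rfl
    intro γ _
    rw [hkdef]
    ring
  have hsplit := Finset.sum_filter_add_sum_filter_not Fn (fun γ => T / 2 < γ ∧ γ < 2 * T)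
    (fun γ => (mz γ : ℂ) * k (1/2 + γ * I))
  obtain ⟨D1, hD1⟩ : ∃ D1 : ℂ, D1 = ∑ γ ∈ Fn.filter (fun γ => ¬ (T / 2 < γ ∧ γ < 2 * T)),
      (mz γ : ℂ) * k (1/2 + γ * I) := ⟨_, rfl⟩
  rw [← hZS, ← hD1] at hsplit
  -- bound for D1
  have hD1b : ‖D1‖ ≤ 18 * K * T * E := by
    have h1 : ‖D1‖ ≤ ∑ γ ∈ Fn.filter (fun γ => ¬ (T / 2 < γ ∧ γ < 2 * T)),
        (zeroMult γ : ℝ) * (3 * E) := by
      rw [hD1]
      refine (norm_sum_le _ _).trans (Finset.sum_le_sum fun γ hγ => ?_)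
      rw [Finset.mem_filter] at hγ
      obtain ⟨hγ1, hγ2⟩ := hγ
      obtain ⟨⟨h2, h3⟩, h4⟩ := (hFn γ).1 hγ1
      rw [norm_mul, Complex.norm_natCast, mz_eq]
      have e1 : (1/2 + γ * I : ℂ).re = 1/2 := by simp
      have e2 : (1/2 + γ * I : ℂ).im = γ := by simp
      have h5 : T / 4 ≤ |(1/2 + γ * I : ℂ).im - T| := by
        rw [e2]
        by_cases h6 : T / 2 < γ
        · have h7 : ¬ γ < 2 * T := fun h => hγ2 ⟨h6, h⟩
          rw [le_abs]; left; linarith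
        · rw [le_abs]; right; linarith
      have h6 := hksmall (1/2 + γ * I) (hsubm _ (by rw [e1]; exact ⟨by linarith, by linarith⟩)
        (by rw [e2]; exact ⟨h2, h3⟩)) h5
      gcongr
    rw [← Finset.sum_mul] at h1
    have h2 : ∑ γ ∈ Fn.filter (fun γ => ¬ (T / 2 < γ ∧ γ < 2 * T)), (zeroMult γ : ℝ) ≤
        6 * K * T := by
      rw [← Finset.sum_filter_add_sum_filter_not _ (fun γ => γ ≤ T / 2)]
      have h3 := hmult (T / 2 - 1 / 4) (by rw [abs_of_pos (by linarith)]; linarith)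
        ((Fn.filter (fun γ => ¬ (T / 2 < γ ∧ γ < 2 * T))).filter (fun γ => γ ≤ T / 2)) (by
          intro γ hγ
          simp only [Finset.mem_filter] at hγ
          obtain ⟨⟨hγ1, _⟩, hγ3⟩ := hγ
          obtain ⟨⟨h2, h3⟩, _⟩ := (hFn γ).1 hγ1
          rw [abs_le]; constructor <;> linarith)
      have h4 := hmult (2 * T + 1 / 4) (by rw [abs_of_pos (by linarith)]; linarith)
        ((Fn.filter (fun γ => ¬ (T / 2 < γ ∧ γ < 2 * T))).filter (fun γ => ¬ γ ≤ T / 2)) (by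
          intro γ hγ
          simp only [Finset.mem_filter] at hγ
          obtain ⟨⟨hγ1, hγ2⟩, hγ3⟩ := hγ
          obtain ⟨⟨h2, h3⟩, _⟩ := (hFn γ).1 hγ1
          have h5 : ¬ γ < 2 * T := fun h => hγ2 ⟨not_le.1 hγ3, h⟩
          rw [abs_le]; constructor <;> linarith)
      rw [abs_of_pos (by linarith)] at h3 h4
      have h5 := Real.log_le_self (show (0:ℝ) ≤ T / 2 - 1 / 4 by linarith)
      have h6 := Real.log_le_self (show (0:ℝ) ≤ 2 * T + 1 / 4 by linarith)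
      nlinarith
    calc ‖D1‖ ≤ _ := h1
      _ ≤ (6 * K * T) * (3 * E) := by gcongr
      _ = 18 * K * T * E := by ring
  -- continuity on the vertical lines
  obtain ⟨f, hf⟩ : ∃ f : ℂ → ℂ, f = fun z => logDeriv riemannZeta z * k z := ⟨_, rfl⟩
  have hne : ∀ s : ℂ, s.re ≠ 1/2 → 0 < s.im → riemannZeta s ≠ 0 := by
    intro s h1 h2 h0
    have h3 := zero_im hRH h0 h2.ne'
    apply h1
    rw [h3]; simp
  have hcontf : ∀ x : ℝ, x ≠ 1/2 → x ∈ Icc (1 - c) c →
      ContinuousOn (fun y : ℝ => f (x + y * I)) (Icc v w) := by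
    intro x hx1 hx2 y hy
    have e1 : (x + y * I : ℂ).re = x := by simp
    have e2 : (x + y * I : ℂ).im = y := by simp
    have hmem : (x + y * I : ℂ) ∈ SB T := hsubm _ (by rw [e1]; exact hx2)
      (by rw [e2]; exact hy)
    have h1 : ContinuousAt k (x + y * I : ℂ) :=
      (hk.differentiableAt ((SB_open T).mem_nhds hmem)).continuousAt
    have h2 : ContinuousAt f (x + y * I : ℂ) := by
      rw [hf]
      apply f_contAt h1
      · intro h; have := congrArg Complex.im h; rw [e2] at this; simp at this; linarith [hy.1]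
      · exact hne _ (by rw [e1]; exact hx1) (by rw [e2]; linarith [hy.1])
    have h3 : ContinuousAt (fun y : ℝ => (x + y * I : ℂ)) y := by fun_prop
    exact (ContinuousAt.comp (f := fun y : ℝ => (x + y * I : ℂ)) (g := f) h2 h3).continuousWithinAt
  have hcR := hcontf c (by linarith) ⟨by linarith, le_rfl⟩
  have hcL := hcontf (1 - c) (by linarith) ⟨le_rfl, by linarith⟩
  have hint : ∀ x : ℝ, ContinuousOn (fun y : ℝ => f (x + y * I)) (Icc v w) → ∀ p q : ℝ,
      p ∈ Icc v w → q ∈ Icc v w → IntervalIntegrable (fun y : ℝ => f (x + y * I)) volume p q := by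
    intro x hx p q hp hq
    exact (hx.mono (uIcc_subset_Icc hp hq)).intervalIntegrable
  have mv : v ∈ Icc v w := ⟨le_rfl, hvw⟩
  have mw : w ∈ Icc v w := ⟨hvw, le_rfl⟩
  have m1 : T / 2 ∈ Icc v w := ⟨by linarith, by linarith⟩
  have m2 : 2 * T ∈ Icc v w := ⟨by linarith, by linarith⟩
  -- the left line
  have hleft : ∀ y : ℝ, 0 < y → f (((1 - c : ℝ) : ℂ) + y * I) =
      -(starRingEnd ℂ) ((om (c + y * I) + logDeriv riemannZeta (c + y * I)) *
        (starRingEnd ℂ) (F (1 - (starRingEnd ℂ) (c + y * I))) * WW T (c + y * I)) := by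
    intro y hy
    have e : (((1 - c : ℝ) : ℂ) + y * I) = 1 - (starRingEnd ℂ) (c + y * I) := by
      apply Complex.ext <;> simp
    have e1 : (c + y * I : ℂ).re = c := by simp
    have e2 : (c + y * I : ℂ).im = y := by simp
    rw [hf, e, hkdef]
    simp only
    rw [logDeriv_zeta_reflect hchi (by rw [e1]; linarith) (by rw [e2]; exact hy.ne')
      (hne _ (by rw [e1]; linarith) (by rw [e2]; exact hy)), hg.1]
    simp only [map_mul, Complex.conj_conj]
    ring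
  -- vertical integrals
  have hR : (∫ y in v..w, f (c + y * I)) = (∫ y in v..(T/2), f (c + y * I)) +
      (∫ y in (T/2)..(2*T), f (c + y * I)) + ∫ y in (2*T)..w, f (c + y * I) := by
    rw [integral_add_adjacent_intervals (hint c hcR _ _ mv m1) (hint c hcR _ _ m1 m2),
      integral_add_adjacent_intervals (hint c hcR _ _ mv m2) (hint c hcR _ _ m2 mw)]
  have hL : (∫ y in v..w, f (((1 - c : ℝ) : ℂ) + y * I)) =
      (∫ y in v..(T/2), f (((1 - c : ℝ) : ℂ) + y * I)) +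
      (∫ y in (T/2)..(2*T), f (((1 - c : ℝ) : ℂ) + y * I)) +
      ∫ y in (2*T)..w, f (((1 - c : ℝ) : ℂ) + y * I) := by
    rw [integral_add_adjacent_intervals (hint _ hcL _ _ mv m1) (hint _ hcL _ _ m1 m2),
      integral_add_adjacent_intervals (hint _ hcL _ _ mv m2) (hint _ hcL _ _ m2 mw)]
  have hLmid : (∫ y in (T/2)..(2*T), f (((1 - c : ℝ) : ℂ) + y * I)) =
      -(starRingEnd ℂ) (∫ y in (T/2)..(2*T),
        (om (c + y * I) + logDeriv riemannZeta (c + y * I)) *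
        (starRingEnd ℂ) (F (1 - (starRingEnd ℂ) (c + y * I))) * WW T (c + y * I)) := by
    rw [intervalIntegral.integral_of_le (by linarith), intervalIntegral.integral_of_le (by linarith),
      ← integral_conj, ← MeasureTheory.integral_neg]
    apply setIntegral_congr_fun measurableSet_Ioc
    intro y hy
    exact hleft y (by linarith [hy.1])
  -- small pieces
  have hsm : ∀ (x p q : ℝ) (B : ℝ), x ∈ Icc (1 - c) c → p ∈ Icc v w → q ∈ Icc v w → p ≤ q →
      q - p ≤ 1 → 0 ≤ B → (∀ y ∈ Icc p q, T / 4 ≤ |y - T|) →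
      (∀ y ∈ Icc p q, ‖logDeriv riemannZeta (x + y * I)‖ ≤ B) →
      ‖∫ y in p..q, f (x + y * I)‖ ≤ B * (3 * E) := by
    intro x p q B hx hp hq hpq hpq1 hB h1 h2
    have h3 : ‖∫ y in p..q, f (x + y * I)‖ ≤ (B * (3 * E)) * |q - p| := by
      apply intervalIntegral.norm_integral_le_of_norm_le_const
      intro y hy
      rw [uIoc_of_le hpq] at hy
      have hy' : y ∈ Icc p q := ⟨hy.1.le, hy.2⟩
      have e1 : (x + y * I : ℂ).re = x := by simp
      have e2 : (x + y * I : ℂ).im = y := by simp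
      have hmem : (x + y * I : ℂ) ∈ SB T := hsubm _ (by rw [e1]; exact hx)
        (by rw [e2]; exact ⟨hp.1.trans hy'.1, hy'.2.trans hq.2⟩)
      have h4 := hksmall _ hmem (by rw [e2]; exact h1 y hy')
      rw [hf]
      simp only
      rw [norm_mul]
      gcongr
      exact h2 y hy'
    refine h3.trans ?_
    rw [abs_of_nonneg (by linarith)]
    have : 0 ≤ B * (3 * E) := by positivity
    nlinarith
  have hMb' : ∀ y : ℝ, ‖logDeriv riemannZeta (c + y * I)‖ ≤ M := fun y => hMb _ (by simp)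
  have hLb' : ∀ y : ℝ, 3 ≤ y → y ≤ 3 * T →
      ‖logDeriv riemannZeta (((1 - c : ℝ) : ℂ) + y * I)‖ ≤ 3 * Co * T + M := by
    intro y hy hy2
    have e : (((1 - c : ℝ) : ℂ) + y * I) = 1 - (starRingEnd ℂ) (c + y * I) := by
      apply Complex.ext <;> simp
    have e1 : (c + y * I : ℂ).re = c := by simp
    have e2 : (c + y * I : ℂ).im = y := by simp
    rw [e, logDeriv_zeta_reflect hchi (by rw [e1]; linarith) (by rw [e2]; linarith)
      (hne _ (by rw [e1]; linarith) (by rw [e2]; linarith)), norm_neg, Complex.norm_conj]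
    refine (norm_add_le _ _).trans ?_
    have h1 := homle (c + y * I) (by rw [e1]; linarith) (by rw [e1]; linarith) (by rw [e2]; exact hy)
    rw [e2] at h1
    have h2 := Real.log_le_self (show (0:ℝ) ≤ y by linarith)
    have h3 := hMb' y
    nlinarith
  have s1 := hsm c v (T/2) M ⟨by linarith, le_rfl⟩ mv m1 (by linarith) (by linarith) hM.le
    (fun y hy => by rw [le_abs]; right; linarith [hy.2]) (fun y _ => hMb' y)
  have s2 := hsm c (2*T) w M ⟨by linarith, le_rfl⟩ m2 mw (by linarith) (by linarith) hM.le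
    (fun y hy => by rw [le_abs]; left; linarith [hy.1]) (fun y _ => hMb' y)
  have s3 := hsm (1 - c) v (T/2) (3 * Co * T + M) ⟨le_rfl, by linarith⟩ mv m1 (by linarith)
    (by linarith) (by positivity)
    (fun y hy => by rw [le_abs]; right; linarith [hy.2])
    (fun y hy => hLb' y (by linarith [hy.1]) (by linarith [hy.2]))
  have s4 := hsm (1 - c) (2*T) w (3 * Co * T + M) ⟨le_rfl, by linarith⟩ m2 mw (by linarith)
    (by linarith) (by positivity)
    (fun y hy => by rw [le_abs]; left; linarith [hy.1])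
    (fun y hy => hLb' y (by linarith [hy.1]) (by linarith [hy.2]))
  -- horizontal pieces
  have hhor : ∀ (u y : ℝ), 1 ≤ u → u ≤ 3 * T → y ∈ Icc v w → T / 4 ≤ |y - T| →
      (∀ x ∈ Icc (-(1/2) : ℝ) (3/2), ‖logDeriv riemannZeta (x + y * I)‖ ≤ Cg * (Real.log u) ^ 2) →
      ‖∫ x in (1 - c)..c, f (x + y * I)‖ ≤ 54 * Cg * T ^ 2 * E := by
    intro u y hu1 hu hy h1 h2
    have h3 : ‖∫ x in (1 - c)..c, f (x + y * I)‖ ≤ (Cg * (9 * T ^ 2) * (3 * E)) * |c - (1 - c)| := by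
      apply intervalIntegral.norm_integral_le_of_norm_le_const
      intro x hx
      rw [uIoc_of_le (by linarith)] at hx
      have e1 : (x + y * I : ℂ).re = x := by simp
      have e2 : (x + y * I : ℂ).im = y := by simp
      have hmem : (x + y * I : ℂ) ∈ SB T := hsubm _ (by rw [e1]; exact ⟨hx.1.le, hx.2⟩)
        (by rw [e2]; exact hy)
      have h4 := hksmall _ hmem (by rw [e2]; exact h1)
      rw [hf]
      simp only
      rw [norm_mul]
      have h5 : (Real.log u) ^ 2 ≤ 9 * T ^ 2 := by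
        have h6 := Real.log_nonneg hu1
        have h7 := Real.log_le_self (show (0:ℝ) ≤ u by linarith)
        nlinarith
      have h6 := h2 x ⟨by linarith [hx.1], by linarith [hx.2]⟩
      have h7 : ‖logDeriv riemannZeta (x + y * I)‖ ≤ Cg * (9 * T ^ 2) := h6.trans (by gcongr)
      gcongr
    refine h3.trans ?_
    rw [abs_of_nonneg (by linarith)]
    have : 0 ≤ Cg * (9 * T ^ 2) * (3 * E) := by positivity
    nlinarith
  have s5 := hhor (T / 2 - 1 / 2) v (by linarith) (by linarith) mv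
    (by rw [le_abs]; right; linarith) (fun x hx => (hvx x hx).2)
  have s6 := hhor (2 * T + 1 / 2) w (by linarith) (by linarith) mw
    (by rw [le_abs]; left; linarith) (fun x hx => (hwx x hx).2)
  -- assembly
  rw [← hf, ← hsplit] at hres
  unfold rectI at hres
  rw [hR, hL, hLmid] at hres
  have hVF1 : VF c T (fun s => logDeriv riemannZeta s * F s * WW T s) =
      (1 / (2 * Real.pi) : ℂ) * ∫ y in (T/2)..(2*T), f (c + y * I) := by
    unfold VF
    congr 1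
    apply intervalIntegral.integral_congr
    intro y _
    rw [hf, hkdef]
    ring
  rw [hVF1]
  unfold VF
  obtain ⟨X1, hX1⟩ : ∃ X : ℂ, X = ∫ x in (1 - c)..c, f (x + v * I) := ⟨_, rfl⟩
  obtain ⟨X2, hX2⟩ : ∃ X : ℂ, X = ∫ x in (1 - c)..c, f (x + w * I) := ⟨_, rfl⟩
  obtain ⟨X3, hX3⟩ : ∃ X : ℂ, X = ∫ y in v..(T/2), f (c + y * I) := ⟨_, rfl⟩
  obtain ⟨X4, hX4⟩ : ∃ X : ℂ, X = ∫ y in (2*T)..w, f (c + y * I) := ⟨_, rfl⟩
  obtain ⟨X5, hX5⟩ : ∃ X : ℂ, X = ∫ y in v..(T/2), f (((1 - c : ℝ) : ℂ) + y * I) := ⟨_, rfl⟩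
  obtain ⟨X6, hX6⟩ : ∃ X : ℂ, X = ∫ y in (2*T)..w, f (((1 - c : ℝ) : ℂ) + y * I) := ⟨_, rfl⟩
  obtain ⟨Y1, hY1⟩ : ∃ X : ℂ, X = ∫ y in (T/2)..(2*T), f (c + y * I) := ⟨_, rfl⟩
  obtain ⟨Y2, hY2⟩ : ∃ X : ℂ, X = ∫ y in (T/2)..(2*T),
        (om (c + y * I) + logDeriv riemannZeta (c + y * I)) *
        (starRingEnd ℂ) (F (1 - (starRingEnd ℂ) (c + y * I))) * WW T (c + y * I) := ⟨_, rfl⟩
  rw [← hX1, ← hX2, ← hX3, ← hX4, ← hX5, ← hX6, ← hY1, ← hY2] at hres
  rw [← hX1] at s5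
  rw [← hX2] at s6
  rw [← hX3] at s1
  rw [← hX4] at s2
  rw [← hX5] at s3
  rw [← hX6] at s4
  rw [← hY1, ← hY2]
  have hpi : (Real.pi : ℂ) ≠ 0 := by exact_mod_cast Real.pi_ne_zero
  have key : ZS T F - ((1 / (2 * Real.pi) : ℂ) * Y1 + (starRingEnd ℂ) ((1 / (2 * Real.pi) : ℂ) * Y2)) =
      -D1 + (1 / (2 * Real.pi) : ℂ) * (-I * (X1 - X2) + X3 + X4 - X5 - X6) := by
    have hconj : (starRingEnd ℂ) ((1 / (2 * Real.pi) : ℂ) * Y2) =
        (1 / (2 * Real.pi) : ℂ) * (starRingEnd ℂ) Y2 := by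
      rw [map_mul]
      congr 1
      rw [show (1 / (2 * Real.pi) : ℂ) = ((1 / (2 * Real.pi) : ℝ) : ℂ) by push_cast; rfl,
        Complex.conj_ofReal]
    rw [hconj]
    obtain ⟨p, hp⟩ : ∃ p : ℂ, p = 1 / (2 * Real.pi) := ⟨_, rfl⟩
    rw [← hp]
    have hp2 : 2 * Real.pi * p = 1 := by
      rw [hp]; field_simp
    have h1 : (2 * Real.pi * I : ℂ) ≠ 0 := by
      simp [hpi]
    apply mul_left_cancel₀ h1
    have hI : I * I = -1 := I_mul_I
    linear_combination (-1 : ℂ) * hres + (X1 - X2) * hI -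
      (I * Y1 + I * (starRingEnd ℂ) Y2 + I * (-I * (X1 - X2) + X3 + X4 - X5 - X6)) * hp2
  rw [key]
  have hp1 : ‖(1 / (2 * Real.pi) : ℂ)‖ ≤ 1 := by
    rw [norm_div, norm_mul, Complex.norm_real, Real.norm_eq_abs, abs_of_pos Real.pi_pos]
    simp only [norm_one, Complex.norm_ofNat]
    rw [div_le_one (by positivity)]
    linarith [Real.pi_gt_three]
  have hn : ‖-I * (X1 - X2) + X3 + X4 - X5 - X6‖ ≤ 108 * Cg * T ^ 2 * E + 2 * (M * (3 * E)) +
      2 * ((3 * Co * T + M) * (3 * E)) := by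
    have t1 : ‖-I * (X1 - X2)‖ ≤ ‖X1‖ + ‖X2‖ := by
      rw [norm_mul, norm_neg, norm_I, one_mul]; exact norm_sub_le _ _
    have t2 := norm_add_le (-I * (X1 - X2)) X3
    have t3 := norm_add_le (-I * (X1 - X2) + X3) X4
    have t4 := norm_sub_le (-I * (X1 - X2) + X3 + X4) X5
    have t5 := norm_sub_le (-I * (X1 - X2) + X3 + X4 - X5) X6
    linarith
  have hTE : T ^ 2 * E * T ≤ 1 := by
    rw [hE]
    have : T ^ 2 * T ^ (-10 : ℝ) * T = T ^ (-7 : ℝ) := by
      rw [← Real.rpow_natCast T 2, ← Real.rpow_add hT0]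
      nth_rewrite 2 [← Real.rpow_one T]
      rw [← Real.rpow_add hT0]
      norm_num
    rw [this]
    exact Real.rpow_le_one_of_one_le_of_nonpos (by linarith) (by norm_num)
  have hfin : ‖-D1 + (1 / (2 * Real.pi) : ℂ) * (-I * (X1 - X2) + X3 + X4 - X5 - X6)‖ ≤
      Q * (T ^ 2 * E) := by
    refine (norm_add_le _ _).trans ?_
    rw [norm_neg, norm_mul]
    have h1 : ‖(1 / (2 * Real.pi) : ℂ)‖ * ‖-I * (X1 - X2) + X3 + X4 - X5 - X6‖ ≤
        1 * (108 * Cg * T ^ 2 * E + 2 * (M * (3 * E)) + 2 * ((3 * Co * T + M) * (3 * E))) := by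
      gcongr
    rw [hQ]
    have h2 : T * E ≤ T ^ 2 * E := by
      have : T ≤ T ^ 2 := by nlinarith
      gcongr
    have h3 : E ≤ T ^ 2 * E := by
      have : 1 ≤ T ^ 2 := by nlinarith
      nlinarith
    nlinarith
  refine hfin.trans ?_
  have h8 : Q * (T ^ 2 * E) ≤ T * (T ^ 2 * E) := by
    have : 0 ≤ T ^ 2 * E := by positivity
    nlinarith
  linarith

end Pool.Agent.Lib.MP_6bc78b_nt.MS.P1.ZSF
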