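import Pool.Agent.Lib.MP_6bc78b_nt.MS.P1.Iface
import Pool.Agent.Lib.MP_6bc78b_nt.H11.GammaCos

/-! Project MS, Part I, module CHX: size of `XX s`, `1/2 ≤ Re s ≤ 8`. -/

set_option autoImplicit false

open Complex Filter Topology MeasureTheory

namespace Pool.Agent.Lib.MP_6bc78b_nt.MS.P1.CHX

lemma cos_eq (s : ℂ) : (Real.pi : ℂ) * s / 2 =
    ((Real.pi * s.re / 2 : ℝ) : ℂ) + ((Real.pi * s.im / 2 : ℝ) : ℂ) * I := by
  apply Complex.ext
  · simp
  · simp

lemma norm_cos_le (s : ℂ) : ‖Complex.cos (Real.pi * s / 2)‖ ≤ Real.cosh (Real.pi * s.im / 2) := by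
  rw [cos_eq]; exact H11.norm_cos_le_cosh _ _

lemma sinh_le_norm_cos (s : ℂ) : |Real.sinh (Real.pi * s.im / 2)| ≤
    ‖Complex.cos (Real.pi * s / 2)‖ := by
  rw [cos_eq]; exact H11.abs_sinh_le_norm_cos _ _

lemma cosh_le (y : ℝ) (hy : 1 ≤ |y|) :
    Real.cosh (Real.pi * y / 2) ≤ 2 * |Real.sinh (Real.pi * y / 2)| := by
  rw [← Real.cosh_abs, Real.abs_sinh]
  apply cosh_le_two_mul_sinh
  rw [abs_div, abs_mul, abs_of_pos Real.pi_pos, abs_of_pos (by norm_num : (0:ℝ) < 2)]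
  have := Real.pi_gt_three
  rw [le_div_iff₀ (by norm_num)]
  nlinarith

lemma gamma_cosh_le (n : ℕ) : ∃ C : ℝ, 0 < C ∧ ∀ s : ℂ, 1 / 2 ≤ s.re → s.re ≤ n + 2 →
    1 ≤ |s.im| → ‖Complex.Gamma s‖ * Real.cosh (Real.pi * s.im / 2) ≤
      C * (1 + |s.im|) ^ (s.re - 1 / 2) := by
  induction n with
  | zero =>
    obtain ⟨C, hC, h⟩ := H11.exists_norm_Gamma_cos_le_half
    refine ⟨2 * C, by positivity, ?_⟩
    intro s h1 h2 h3
    have h4 := h s h1 (by simpa using h2) h3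
    rw [norm_mul] at h4
    have h5 : Real.cosh (Real.pi * s.im / 2) ≤ 2 * ‖Complex.cos (Real.pi * s / 2)‖ :=
      (cosh_le s.im h3).trans (by linarith [sinh_le_norm_cos s])
    calc ‖Complex.Gamma s‖ * Real.cosh (Real.pi * s.im / 2)
        ≤ ‖Complex.Gamma s‖ * (2 * ‖Complex.cos (Real.pi * s / 2)‖) :=
          mul_le_mul_of_nonneg_left h5 (norm_nonneg _)
      _ = 2 * (‖Complex.Gamma s‖ * ‖Complex.cos (Real.pi * s / 2)‖) := by ring
      _ ≤ 2 * (C * (1 + |s.im|) ^ (s.re - 1 / 2)) := by linarith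
      _ = 2 * C * (1 + |s.im|) ^ (s.re - 1 / 2) := by ring
  | succ n ih =>
    obtain ⟨C, hC, h⟩ := ih
    refine ⟨(n + 3) * C, by positivity, ?_⟩
    intro s h1 h2 h3
    have hpow : 0 ≤ (1 + |s.im|) ^ (s.re - 1 / 2) := by positivity
    rcases le_or_gt s.re (n + 2) with h4 | h4
    · refine (h s h1 h4 h3).trans ?_
      have hn : (0 : ℝ) ≤ n := Nat.cast_nonneg n
      have : 0 ≤ C * (1 + |s.im|) ^ (s.re - 1 / 2) := by positivity
      nlinarith
    · have hn : (0 : ℝ) ≤ n := Nat.cast_nonneg n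
      push_cast at h2
      have hre : (s - 1).re = s.re - 1 := by simp
      have him : (s - 1).im = s.im := by simp
      have hs0 : s - 1 ≠ 0 := by
        intro hh
        have : (s - 1).re = 0 := by rw [hh]; simp
        rw [hre] at this
        linarith
      have h5 := h (s - 1) (by rw [hre]; linarith) (by rw [hre]; linarith) (by rw [him]; exact h3)
      rw [hre, him] at h5
      have h6 : Complex.Gamma s = (s - 1) * Complex.Gamma (s - 1) := by
        have := Complex.Gamma_add_one (s - 1) hs0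
        rwa [sub_add_cancel] at this
      have h7 : ‖s - 1‖ ≤ (n + 3) * (1 + |s.im|) := by
        have h8 := Complex.norm_le_abs_re_add_abs_im (s - 1)
        rw [hre, him, abs_of_nonneg (by linarith : 0 ≤ s.re - 1)] at h8
        have h9 := abs_nonneg s.im
        nlinarith
      have hw : 0 < 1 + |s.im| := by positivity
      have e7 : (1 + |s.im|) ^ (s.re - 1 / 2) =
          (1 + |s.im|) ^ (s.re - 1 - 1 / 2) * (1 + |s.im|) := by
        rw [← Real.rpow_add_one hw.ne']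
        congr 1; ring
      rw [h6, norm_mul, e7]
      have hcosh : 0 ≤ Real.cosh (Real.pi * s.im / 2) := (Real.cosh_pos _).le
      calc ‖s - 1‖ * ‖Complex.Gamma (s - 1)‖ * Real.cosh (Real.pi * s.im / 2)
          = ‖s - 1‖ * (‖Complex.Gamma (s - 1)‖ * Real.cosh (Real.pi * s.im / 2)) := by ring
        _ ≤ ((n + 3) * (1 + |s.im|)) * (C * (1 + |s.im|) ^ (s.re - 1 - 1 / 2)) := by
            apply mul_le_mul h7 h5 (mul_nonneg (norm_nonneg _) hcosh)
            positivity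
        _ = (n + 3) * C * ((1 + |s.im|) ^ (s.re - 1 - 1 / 2) * (1 + |s.im|)) := by ring

lemma cpow_le {s : ℂ} (hs : 0 ≤ s.re) : ‖(2 * (Real.pi : ℂ)) ^ (-s)‖ ≤ 1 := by
  have h4 : (2 * (Real.pi : ℂ)) = ((2 * Real.pi : ℝ) : ℂ) := by push_cast; rfl
  rw [h4, Complex.norm_cpow_eq_rpow_re_of_pos (by positivity)]
  apply Real.rpow_le_one_of_one_le_of_nonpos
  · have := Real.pi_gt_three; linarith
  · simp; linarith

lemma continuousAt_XX {s : ℂ} (hs : 0 < s.re) : ContinuousAt XX s := by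
  unfold XX
  have h1 : ContinuousAt (fun s : ℂ => (2 * (Real.pi : ℂ)) ^ (-s)) s := by
    apply ContinuousAt.const_cpow
    · exact continuousAt_neg
    · left
      have := Real.pi_ne_zero
      simp [this]
  have h2 : ContinuousAt Complex.Gamma s := by
    apply (Complex.differentiableAt_Gamma s _).continuousAt
    intro m hm
    rw [hm] at hs
    simp at hs
    have : (0 : ℝ) ≤ m := Nat.cast_nonneg m
    linarith
  have h3 : ContinuousAt (fun s : ℂ => Complex.cos (Real.pi * s / 2)) s := by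
    fun_prop
  exact ((continuousAt_const.mul h1).mul h2).mul h3

theorem chx : ChiSizeStatement := by
  obtain ⟨C, hC, h⟩ := gamma_cosh_le 6
  -- compact part
  have hcomp : IsCompact (Set.Icc (1 / 2 : ℝ) 8 ×ℂ Set.Icc (-1 : ℝ) 1) :=
    IsCompact.reProdIm isCompact_Icc isCompact_Icc
  have hcont : ContinuousOn (fun s => ‖XX s‖) (Set.Icc (1 / 2 : ℝ) 8 ×ℂ Set.Icc (-1 : ℝ) 1) := by
    intro s hs
    have hs' : s.re ∈ Set.Icc (1 / 2 : ℝ) 8 := (Complex.mem_reProdIm.1 hs).1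
    exact (continuousAt_XX (by linarith [hs'.1])).norm.continuousWithinAt
  obtain ⟨M, hM⟩ := hcomp.bddAbove_image hcont
  have hM' : ∀ s : ℂ, 1 / 2 ≤ s.re → s.re ≤ 8 → |s.im| ≤ 1 → ‖XX s‖ ≤ |M| := by
    intro s h1 h2 h3
    refine le_trans (hM ⟨s, ?_, rfl⟩) (le_abs_self M)
    exact Complex.mem_reProdIm.2 ⟨⟨h1, h2⟩, ⟨(abs_le.1 h3).1, (abs_le.1 h3).2⟩⟩
  refine ⟨2 * C + |M|, by positivity, ?_⟩
  intro s h1 h2
  have hp1 : 1 ≤ (1 + |s.im|) ^ (s.re - 1 / 2) := by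
    apply Real.one_le_rpow
    · linarith [abs_nonneg s.im]
    · linarith
  have hp0 : 0 ≤ (1 + |s.im|) ^ (s.re - 1 / 2) := by positivity
  rcases le_or_gt |s.im| 1 with h3 | h3
  · have h4 := hM' s h1 h2 h3
    have h5 : 0 ≤ |M| := abs_nonneg M
    nlinarith
  · have h4 := h s h1 (by norm_num; linarith) h3.le
    have h5 : ‖XX s‖ ≤ 2 * (‖Complex.Gamma s‖ * Real.cosh (Real.pi * s.im / 2)) := by
      unfold XX
      rw [norm_mul, norm_mul, norm_mul]
      have e3 : ‖(2 : ℂ)‖ = 2 := by simp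
      rw [e3]
      have hG : 0 ≤ ‖Complex.Gamma s‖ := norm_nonneg _
      have hc := norm_cos_le s
      have hz := cpow_le (s := s) (by linarith)
      have hc0 : 0 ≤ ‖Complex.cos (Real.pi * s / 2)‖ := norm_nonneg _
      calc 2 * ‖(2 * (Real.pi : ℂ)) ^ (-s)‖ * ‖Complex.Gamma s‖ * ‖Complex.cos (Real.pi * s / 2)‖
          ≤ 2 * 1 * ‖Complex.Gamma s‖ * Real.cosh (Real.pi * s.im / 2) := by
            gcongr
        _ = 2 * (‖Complex.Gamma s‖ * Real.cosh (Real.pi * s.im / 2)) := by ring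
    have h6 : 0 ≤ |M| := abs_nonneg M
    calc ‖XX s‖ ≤ 2 * (C * (1 + |s.im|) ^ (s.re - 1 / 2)) := by linarith
      _ ≤ (2 * C + |M|) * (1 + |s.im|) ^ (s.re - 1 / 2) := by nlinarith

end Pool.Agent.Lib.MP_6bc78b_nt.MS.P1.CHX
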