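import Pool.Agent.Lib.MP_6bc78b_nt.MS.P1.Iface

/-! Project MS, Part I: EDG1, only the diagonal survives. -/

set_option autoImplicit false

open Complex Filter Topology MeasureTheory

namespace Pool.Agent.Lib.MP_6bc78b_nt.MS.P1.EDG1

open Pool.Agent.Lib.MP_6bc78b_nt.MS Pool.Agent.Lib.MP_6bc78b_nt.MS.P1

lemma cpow_pos {x : ℝ} (hx : 0 < x) (w : ℂ) : (x : ℂ) ^ w = Complex.exp ((Real.log x : ℂ) * w) := by
  rw [Complex.cpow_def_of_ne_zero (by exact_mod_cast hx.ne'), Complex.ofReal_log hx.le]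

lemma quot_cpow {n k : ℕ} (hn : n ≠ 0) (hk : k ≠ 0) (s : ℂ) :
    (k : ℂ) ^ s * (n : ℂ) ^ (-s) = ((((n : ℝ) / k : ℝ)) : ℂ) ^ (-s) := by
  have hn' : (0 : ℝ) < n := by exact_mod_cast Nat.pos_of_ne_zero hn
  have hk' : (0 : ℝ) < k := by exact_mod_cast Nat.pos_of_ne_zero hk
  have h1 : (k : ℂ) = ((k : ℝ) : ℂ) := by push_cast; rfl
  have h2 : (n : ℂ) = ((n : ℝ) : ℂ) := by push_cast; rfl
  rw [h1, h2, cpow_pos hk', cpow_pos hn', cpow_pos (div_pos hn' hk'), ← Complex.exp_add,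
    Real.log_div hn'.ne' hk'.ne']
  congr 1
  push_cast
  ring

/-- the logarithm of a quotient of two different small integers. -/
lemma log_quot {n k : ℕ} (hn : n ≠ 0) (hk : k ≠ 0) (hne : n ≠ k) :
    1 / (2 * (k : ℝ)) ≤ |Real.log ((n : ℝ) / k)| := by
  have hn' : (0 : ℝ) < n := by exact_mod_cast Nat.pos_of_ne_zero hn
  have hk' : (0 : ℝ) < k := by exact_mod_cast Nat.pos_of_ne_zero hk
  rcases lt_or_gt_of_ne hne with h | h
  · -- n < k
    have h1 : (n : ℝ) + 1 ≤ k := by exact_mod_cast h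
    have h2 : Real.log ((n : ℝ) / k) ≤ (n : ℝ) / k - 1 := Real.log_le_sub_one_of_pos (div_pos hn' hk')
    have h3 : (n : ℝ) / k - 1 ≤ -(1 / k) := by
      rw [div_sub_one hk'.ne', ← neg_div]
      exact div_le_div_of_nonneg_right (by linarith) hk'.le
    have h4 : 1 / (2 * (k : ℝ)) ≤ 1 / k := by
      apply one_div_le_one_div_of_le hk'
      linarith
    rw [abs_of_nonpos (by have : (0:ℝ) < 1 / k := by positivity
                          linarith)]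
    linarith
  · -- k < n
    have h1 : (k : ℝ) + 1 ≤ n := by exact_mod_cast h
    have h2 : 1 - ((n : ℝ) / k)⁻¹ ≤ Real.log ((n : ℝ) / k) := Real.one_sub_inv_le_log_of_pos (div_pos hn' hk')
    have h3 : 1 / (2 * (k : ℝ)) ≤ 1 - ((n : ℝ) / k)⁻¹ := by
      rw [inv_div]
      have h4 : (k : ℝ) / n ≤ k / (k + 1) := div_le_div_of_nonneg_left hk'.le (by linarith) h1
      have h5 : (k : ℝ) / (k + 1) ≤ 1 - 1 / (2 * k) := by
        have hk1 : (1 : ℝ) ≤ k := by exact_mod_cast Nat.pos_of_ne_zero hk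
        rw [div_le_iff₀ (by linarith), sub_mul, one_div, one_mul]
        have h6 : (2 * (k : ℝ))⁻¹ * (k + 1) ≤ 1 := by
          rw [inv_mul_le_iff₀ (by positivity)]
          linarith
        linarith
      linarith
    exact h3.trans (h2.trans (le_abs_self _))

/-- size of the kernel. -/
lemma kernel_bound {D c x : ℝ} (hD : 2 ≤ D) (hc1 : 1 < c) (hc2 : c < 3 / 2) :
    Real.exp (-(1 / 2) * x - D ^ 2 * x ^ 2 / 4) ≤
      3 * Real.exp (-(c * x)) * Real.exp (-(D ^ 2 * x ^ 2 / 8)) := by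
  have h3 : (3 : ℝ) = Real.exp (Real.log 3) := (Real.exp_log (by norm_num)).symm
  rw [h3, ← Real.exp_add, ← Real.exp_add, Real.exp_le_exp]
  have hlog : (1 : ℝ) / 2 ≤ Real.log 3 := by
    have h1 := Real.one_sub_inv_le_log_of_pos (show (0:ℝ) < 3 by norm_num)
    norm_num at h1 ⊢
    linarith
  have h4 : (c - 1 / 2) * x ≤ |x| := by
    rcases le_total 0 x with h | h
    · rw [abs_of_nonneg h]; nlinarith
    · rw [abs_of_nonpos h]; nlinarith
  have h5 : |x| ≤ D ^ 2 * x ^ 2 / 8 + 1 / 2 := by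
    have h6 : x ^ 2 = |x| ^ 2 := (sq_abs x).symm
    rw [h6]
    have h7 : 4 * |x| ^ 2 ≤ D ^ 2 * |x| ^ 2 :=
      mul_le_mul_of_nonneg_right (by nlinarith) (sq_nonneg _)
    nlinarith [sq_nonneg (|x| - 1)]
  linarith

lemma integrable_W (hG : GaussStatement) {T c : ℝ} (hD : 0 < DD T) {k : ℕ} (hk : k ≠ 0) :
    Integrable (fun t : ℝ => WW T (c + t * I) * (k : ℂ) ^ ((c : ℂ) + t * I)) := by
  have hk' : (0 : ℝ) < k := by exact_mod_cast Nat.pos_of_ne_zero hk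
  have hk0 : (k : ℂ) ≠ 0 := by exact_mod_cast hk
  have hcont : Continuous (fun t : ℝ => WW T (c + t * I) * (k : ℂ) ^ ((c : ℂ) + t * I)) := by
    unfold WW
    have h1 : Continuous (fun t : ℝ => (k : ℂ) ^ ((c : ℂ) + t * I)) :=
      Continuous.const_cpow (by fun_prop) (Or.inl hk0)
    exact Continuous.mul (by fun_prop) h1
  have hb : 0 < 1 / DD T ^ 2 := by positivity
  have hint : Integrable (fun t : ℝ => Real.exp ((c - 1 / 2) ^ 2 / DD T ^ 2) * (k : ℝ) ^ c *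
      Real.exp (-(1 / DD T ^ 2) * (t - T) ^ 2)) :=
    ((integrable_exp_neg_mul_sq hb).comp_sub_right T).const_mul _
  refine hint.mono' hcont.aestronglyMeasurable (Filter.Eventually.of_forall fun t => ?_)
  rw [norm_mul, hG.2.1 T c t]
  have h2 : (k : ℂ) = ((k : ℝ) : ℂ) := by push_cast; rfl
  have h1 : ‖(k : ℂ) ^ ((c : ℂ) + t * I)‖ = (k : ℝ) ^ c := by
    rw [h2, Complex.norm_cpow_eq_rpow_re_of_pos hk']
    simp
  rw [h1]
  have h3 : Real.exp (((c - 1 / 2) ^ 2 - (t - T) ^ 2) / DD T ^ 2) =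
      Real.exp ((c - 1 / 2) ^ 2 / DD T ^ 2) * Real.exp (-(1 / DD T ^ 2) * (t - T) ^ 2) := by
    rw [← Real.exp_add]
    congr 1
    ring
  rw [h3]
  exact le_of_eq (by ring)

/-- the kernel value. -/
lemma VI_quot (hG : GaussStatement) {T c : ℝ} (hD : 0 < DD T) {n k : ℕ} (hn : n ≠ 0) (hk : k ≠ 0) :
    VI c (fun s => WW T s * (k : ℂ) ^ s * (n : ℂ) ^ (-s)) =
      (cG T : ℂ) * Complex.exp (-(1 / 2 + T * I) * Real.log ((n : ℝ) / k) -
        (DD T) ^ 2 * (Real.log ((n : ℝ) / k)) ^ 2 / 4) := by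
  have hn' : (0 : ℝ) < n := by exact_mod_cast Nat.pos_of_ne_zero hn
  have hk' : (0 : ℝ) < k := by exact_mod_cast Nat.pos_of_ne_zero hk
  rw [← hG.2.2 T c ((n : ℝ) / k) hD (div_pos hn' hk')]
  congr 1
  funext s
  rw [mul_assoc, quot_cpow hn hk]

lemma norm_kernel {T x : ℝ} (hc : 0 < cG T) :
    ‖(cG T : ℂ) * Complex.exp (-(1 / 2 + T * I) * x - (DD T) ^ 2 * x ^ 2 / 4)‖ =
      cG T * Real.exp (-(1 / 2) * x - DD T ^ 2 * x ^ 2 / 4) := by
  have h1 : (-(1 / 2 + (T : ℂ) * I) * x - (DD T : ℂ) ^ 2 * (x : ℂ) ^ 2 / 4) =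
      ((-(1 / 2) * x - DD T ^ 2 * x ^ 2 / 4 : ℝ) : ℂ) + ((-(T * x) : ℝ) : ℂ) * I := by
    push_cast
    ring
  have h2 : (-(1 / 2 + (T : ℂ) * I) * x - (DD T : ℂ) ^ 2 * (x : ℂ) ^ 2 / 4).re =
      -(1 / 2) * x - DD T ^ 2 * x ^ 2 / 4 := by
    rw [h1, Complex.add_re, Complex.ofReal_re, Complex.re_ofReal_mul, Complex.I_re, mul_zero,
      add_zero]
  rw [norm_mul, Complex.norm_real, Real.norm_eq_abs, abs_of_pos hc, Complex.norm_exp, h2]

/-- one term. -/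
lemma term_bound (hG : GaussStatement) {T lam c : ℝ} (hD2 : 2 ≤ DD T) (hcG : 0 < cG T)
    (hT : 1 ≤ T)
    (hc1 : 1 < c) (hc2 : c < 3 / 2) {n k : ℕ} (hn : n ≠ 0) (hk : k ≠ 0) (hne : n ≠ k)
    (hkT : (k : ℝ) ≤ T ^ lam) :
    ‖VI c (fun s => WW T s * (k : ℂ) ^ s * (n : ℂ) ^ (-s))‖ ≤
      (n : ℝ) ^ (-c) * (3 * cG T * (k : ℝ) ^ c *
        Real.exp (-(DD T ^ 2 * T ^ (-(2 * lam)) / 64))) := by
  have hn' : (0 : ℝ) < n := by exact_mod_cast Nat.pos_of_ne_zero hn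
  have hk' : (0 : ℝ) < k := by exact_mod_cast Nat.pos_of_ne_zero hk
  have hT0 : 0 < T := by linarith
  rw [VI_quot hG (by linarith) hn hk]
  set x := Real.log ((n : ℝ) / k) with hx
  have h0 := norm_kernel (T := T) (x := x) hcG
  have hcast : (Real.log ((n : ℝ) / k) : ℂ) = (x : ℂ) := rfl
  rw [h0]
  have h1 := kernel_bound (x := x) hD2 hc1 hc2
  have h2 : Real.exp (-(c * x)) = (n : ℝ) ^ (-c) * (k : ℝ) ^ c := by
    rw [hx, Real.log_div hn'.ne' hk'.ne', Real.rpow_def_of_pos hn', Real.rpow_def_of_pos hk',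
      ← Real.exp_add]
    congr 1
    ring
  have h3 : Real.exp (-(DD T ^ 2 * x ^ 2 / 8)) ≤
      Real.exp (-(DD T ^ 2 * T ^ (-(2 * lam)) / 64)) := by
    rw [Real.exp_le_exp]
    have h4 : 1 / (2 * T ^ lam) ≤ |x| := by
      refine le_trans ?_ (log_quot hn hk hne)
      apply one_div_le_one_div_of_le (by positivity)
      linarith
    have h5 : T ^ (-(2 * lam)) / 4 ≤ x ^ 2 := by
      have h6 : T ^ (-(2 * lam)) / 4 = (1 / (2 * T ^ lam)) ^ 2 := by
        rw [Real.rpow_neg hT0.le, mul_comm (2 : ℝ) lam, Real.rpow_mul hT0.le]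
        have h7 : (T ^ lam) ^ (2 : ℝ) = (T ^ lam) ^ 2 := by
          exact_mod_cast Real.rpow_natCast (T ^ lam) 2
        rw [h7]
        field_simp
        ring
      rw [h6, ← sq_abs x]
      exact pow_le_pow_left₀ (by positivity) h4 2
    have h6 : 0 ≤ T ^ (-(2 * lam)) := Real.rpow_nonneg hT0.le _
    have h7 : DD T ^ 2 * (T ^ (-(2 * lam)) / 4) ≤ DD T ^ 2 * x ^ 2 :=
      mul_le_mul_of_nonneg_left h5 (sq_nonneg _)
    have h8 : 0 ≤ DD T ^ 2 * T ^ (-(2 * lam)) := mul_nonneg (sq_nonneg _) h6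
    linarith
  rw [h2] at h1
  have h4 : 0 ≤ (n : ℝ) ^ (-c) * (k : ℝ) ^ c := by positivity
  calc cG T * Real.exp (-(1 / 2) * x - DD T ^ 2 * x ^ 2 / 4)
      ≤ cG T * (3 * ((n : ℝ) ^ (-c) * (k : ℝ) ^ c) * Real.exp (-(DD T ^ 2 * x ^ 2 / 8))) :=
        mul_le_mul_of_nonneg_left h1 hcG.le
    _ ≤ cG T * (3 * ((n : ℝ) ^ (-c) * (k : ℝ) ^ c) *
        Real.exp (-(DD T ^ 2 * T ^ (-(2 * lam)) / 64))) := by
        refine mul_le_mul_of_nonneg_left ?_ hcG.le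
        exact mul_le_mul_of_nonneg_left h3 (by positivity)
    _ = _ := by ring

/-- the sum over `n` for one `k`. -/
lemma one_k (hG : GaussStatement) (hS : SwapStatement) {T lam c A : ℝ} (hD2 : 2 ≤ DD T)
    (hcG : 0 < cG T) (hT : 1 ≤ T) (hc1 : 1 < c) (hc2 : c < 3 / 2) {k : ℕ} (hk : k ≠ 0)
    (hkT : (k : ℝ) ≤ T ^ lam) (a : ℕ → ℂ)
    (hsum : Summable (fun n : ℕ => ‖a n‖ * (n : ℝ) ^ (-c)))
    (hA : (∑' n : ℕ, ‖a n‖ * (n : ℝ) ^ (-c)) ≤ T ^ A) :
    Integrable (fun t : ℝ => LSeries a (c + t * I) *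
      (WW T (c + t * I) * (k : ℂ) ^ ((c : ℂ) + t * I))) ∧
    ‖VI c (fun s => LSeries a s * (WW T s * (k : ℂ) ^ s)) - (cG T : ℂ) * a k‖ ≤
      T ^ A * (3 * cG T * (k : ℝ) ^ c * Real.exp (-(DD T ^ 2 * T ^ (-(2 * lam)) / 64))) := by
  have hD0 : 0 < DD T := by linarith
  obtain ⟨h1, h2, h3⟩ := hS c a (fun s => WW T s * (k : ℂ) ^ s) hsum (integrable_W hG hD0 hk)
  refine ⟨h1, ?_⟩
  rw [h3]
  have h2' : Summable (fun n : ℕ => if n = 0 then 0 else
      a n * VI c (fun s => WW T s * (k : ℂ) ^ s * (n : ℂ) ^ (-s))) := h2.of_norm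
  rw [h2'.tsum_eq_add_tsum_ite k, if_neg hk, VI_quot hG hD0 hk hk]
  have hk0 : (k : ℝ) ≠ 0 := by exact_mod_cast hk
  rw [div_self hk0, Real.log_one]
  have e1 : a k * ((cG T : ℂ) * Complex.exp (-(1 / 2 + T * I) * ((0 : ℝ) : ℂ) -
      (DD T : ℂ) ^ 2 * ((0 : ℝ) : ℂ) ^ 2 / 4)) = (cG T : ℂ) * a k := by
    simp
    ring
  rw [e1, add_sub_cancel_left]
  set M := 3 * cG T * (k : ℝ) ^ c * Real.exp (-(DD T ^ 2 * T ^ (-(2 * lam)) / 64)) with hM
  have hM0 : 0 ≤ M := by positivity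
  refine (tsum_of_norm_bounded (hsum.hasSum.mul_right M) ?_).trans
    (mul_le_mul_of_nonneg_right hA hM0)
  intro n
  by_cases hnk : n = k
  · rw [if_pos hnk, norm_zero]
    positivity
  · rw [if_neg hnk]
    by_cases hn : n = 0
    · rw [if_pos hn, norm_zero]
      positivity
    · rw [if_neg hn, norm_mul, mul_assoc]
      exact mul_le_mul_of_nonneg_left (term_bound hG hD2 hcG hT hc1 hc2 hn hk hnk hkT)
        (norm_nonneg _)

end Pool.Agent.Lib.MP_6bc78b_nt.MS.P1.EDG1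

namespace Pool.Agent.Lib.MP_6bc78b_nt.MS.P1

open Pool.Agent.Lib.MP_6bc78b_nt.MS EDG1

theorem edg1 (hG : GaussStatement) (hS : SwapStatement) (hD : DDStatement) : Edge1Statement := by
  intro lam c A hl0 hl1 hc1 hc2
  obtain ⟨hD1, hDl, hDc, hDe⟩ := hD
  filter_upwards [hDl (1 / 2) (by norm_num), hDc, hDe lam (2 * A + c + 4) hl1,
    eventually_ge_atTop (4 : ℝ)] with T h1 h2 h3 hT4
  obtain ⟨hDT, hD1', hcG, hcGT⟩ := h2
  have hT0 : 0 < T := by linarith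
  have hT1 : 1 ≤ T := by linarith
  have hD2 : 2 ≤ DD T := by
    refine le_trans ?_ h1
    have h4 : (2 : ℝ) = 4 ^ (1 / 2 : ℝ) := by
      rw [show (4 : ℝ) = 2 ^ (2 : ℝ) by norm_num, ← Real.rpow_mul (by norm_num)]
      norm_num
    have h5 : (4 : ℝ) ^ (1 / 2 : ℝ) ≤ T ^ (1 / 2 : ℝ) :=
      Real.rpow_le_rpow (by norm_num) hT4 (by norm_num)
    have h6 : (1 : ℝ) - 1 / 2 = 1 / 2 := by norm_num
    rw [h6]
    linarith
  intro a b hsum hA hb
  set N := ⌊T ^ lam⌋₊ with hN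
  have hk : ∀ k ∈ Finset.Icc 1 N, k ≠ 0 ∧ (k : ℝ) ≤ T ^ lam := by
    intro k hk
    rw [Finset.mem_Icc] at hk
    exact ⟨by omega, (Nat.le_floor_iff (by positivity)).1 hk.2⟩
  have hone := fun k (hk' : k ∈ Finset.Icc 1 N) =>
    one_k (A := A) hG hS hD2 hcG hT1 hc1 hc2 (hk k hk').1 (hk k hk').2 a hsum hA
  -- the finite sum
  have e1 : VI c (fun s => LSeries a s * (∑ k ∈ Finset.Icc 1 N, b k * (k : ℂ) ^ (-(1 - s))) *
      WW T s) = ∑ k ∈ Finset.Icc 1 N, b k / k *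
        VI c (fun s => LSeries a s * (WW T s * (k : ℂ) ^ s)) := by
    unfold VI
    have e2 : (fun t : ℝ => LSeries a (c + t * I) *
        (∑ k ∈ Finset.Icc 1 N, b k * (k : ℂ) ^ (-(1 - ((c : ℂ) + t * I)))) *
        WW T (c + t * I)) = fun t : ℝ => ∑ k ∈ Finset.Icc 1 N, b k / k *
          (LSeries a (c + t * I) * (WW T (c + t * I) * (k : ℂ) ^ ((c : ℂ) + t * I))) := by
      funext t
      rw [Finset.mul_sum, Finset.sum_mul]
      refine Finset.sum_congr rfl fun k hk' => ?_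
      have hk0 : (k : ℂ) ≠ 0 := by exact_mod_cast (hk k hk').1
      have e3 : (k : ℂ) ^ (-(1 - ((c : ℂ) + t * I))) = (k : ℂ) ^ ((c : ℂ) + t * I) / k := by
        rw [neg_sub, Complex.cpow_sub _ _ hk0, Complex.cpow_one]
      rw [e3]
      field_simp
    rw [e2, integral_finsetSum]
    · rw [Finset.mul_sum]
      refine Finset.sum_congr rfl fun k _ => ?_
      rw [integral_const_mul]
      ring
    · intro k hk'
      exact ((hone k hk').1).const_mul _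
  rw [e1, Finset.mul_sum, ← Finset.sum_sub_distrib]
  set Ex := Real.exp (-(DD T ^ 2 * T ^ (-(2 * lam)) / 64)) with hEx
  have hEx0 : 0 ≤ Ex := (Real.exp_pos _).le
  have hTA : 0 ≤ T ^ A := Real.rpow_nonneg hT0.le _
  have hTlam : T ^ lam ≤ T := by
    calc T ^ lam ≤ T ^ (1 : ℝ) := Real.rpow_le_rpow_of_exponent_le hT1 hl1.le
      _ = T := Real.rpow_one T
  have e2 : ∀ k ∈ Finset.Icc 1 N, ‖b k / k * VI c (fun s => LSeries a s * (WW T s * (k : ℂ) ^ s)) -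
      (cG T : ℂ) * (a k * b k / k)‖ ≤ T ^ A * (T ^ A * (3 * T * T ^ c * Ex)) := by
    intro k hk'
    have hk0 : (k : ℂ) ≠ 0 := by exact_mod_cast (hk k hk').1
    have hk1 : (1 : ℝ) ≤ k := by exact_mod_cast Nat.pos_of_ne_zero (hk k hk').1
    have e3 : b k / k * VI c (fun s => LSeries a s * (WW T s * (k : ℂ) ^ s)) -
        (cG T : ℂ) * (a k * b k / k) =
        b k / k * (VI c (fun s => LSeries a s * (WW T s * (k : ℂ) ^ s)) - (cG T : ℂ) * a k) := by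
      field_simp
    rw [e3, norm_mul, norm_div, Complex.norm_natCast]
    have e4 : ‖b k‖ / k ≤ T ^ A := (div_le_self (norm_nonneg _) hk1).trans (hb k)
    refine mul_le_mul e4 (((hone k hk').2).trans ?_) (norm_nonneg _) hTA
    refine mul_le_mul_of_nonneg_left ?_ hTA
    refine mul_le_mul_of_nonneg_right ?_ hEx0
    have e5 : (k : ℝ) ^ c ≤ T ^ c :=
      Real.rpow_le_rpow (by positivity) ((hk k hk').2.trans hTlam) (by linarith)
    have e6 : 0 ≤ (k : ℝ) ^ c := by positivity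
    nlinarith [mul_le_mul hcGT e5 e6 hT0.le]
  refine (norm_sum_le _ _).trans ((Finset.sum_le_sum e2).trans ?_)
  rw [Finset.sum_const, Nat.card_Icc, nsmul_eq_mul, Nat.add_sub_cancel]
  have hNT : (N : ℝ) ≤ T := (Nat.floor_le (by positivity)).trans hTlam
  have hTc : 0 ≤ T ^ c := Real.rpow_nonneg hT0.le _
  have hX : 0 ≤ T ^ A * (T ^ A * (3 * T * T ^ c)) := by positivity
  calc (N : ℝ) * (T ^ A * (T ^ A * (3 * T * T ^ c * Ex)))
      = (N : ℝ) * (T ^ A * (T ^ A * (3 * T * T ^ c))) * Ex := by ring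
    _ ≤ T * (T ^ A * (T ^ A * (3 * T * T ^ c))) * T ^ (-(2 * A + c + 4)) :=
        mul_le_mul (mul_le_mul_of_nonneg_right hNT hX) h3 hEx0 (by positivity)
    _ = 3 * (T ^ (1 : ℝ) * (T ^ A * (T ^ A * (T ^ (1 : ℝ) * T ^ c))) *
          T ^ (-(2 * A + c + 4))) := by
        rw [Real.rpow_one]
        ring
    _ = 3 * T ^ (-(2 : ℝ)) := by
        rw [← Real.rpow_add hT0, ← Real.rpow_add hT0, ← Real.rpow_add hT0, ← Real.rpow_add hT0,
          ← Real.rpow_add hT0]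
        congr 2
        ring
    _ ≤ 1 / T := by
        rw [Real.rpow_neg hT0.le]
        have e7 : T ^ (2 : ℝ) = T ^ 2 := by exact_mod_cast Real.rpow_natCast T 2
        rw [e7, le_div_iff₀ hT0]
        have e8 : 3 * (T ^ 2)⁻¹ * T = 3 / T := by
          field_simp
        rw [e8, div_le_one hT0]
        linarith

end Pool.Agent.Lib.MP_6bc78b_nt.MS.P1
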