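import Pool.Agent.Lib.MP_6bc78b_nt.MS.P1.Iface
import Pool.Agent.Lib.MP_6bc78b_nt.MS.P1.H70.PPow

/-! Project MS, Part I, module PRIM: the prime sums. -/

set_option autoImplicit false

open Finset Filter Topology

namespace Pool.Agent.Lib.MP_6bc78b_nt.MS.P1.PRIM

open Pool.Agent.Lib.MP_6bc78b_nt.MS Pool.Agent.Lib.MP_6bc78b_nt.MS.P1
  Pool.Agent.Lib.MP_6bc78b_nt.MS.P1.H70

lemma pow_diff (x y : ℝ) (hy : 0 ≤ y) (hxy : y ≤ x) (j : ℕ) :
    ((j : ℝ) + 1) * (x - y) * y ^ j ≤ x ^ (j + 1) - y ^ (j + 1) ∧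
    x ^ (j + 1) - y ^ (j + 1) ≤ ((j : ℝ) + 1) * (x - y) * x ^ j := by
  have hx : 0 ≤ x := hy.trans hxy
  have hd : 0 ≤ x - y := by linarith
  induction j with
  | zero => simp
  | succ j ih =>
    have e : x ^ (j + 1 + 1) - y ^ (j + 1 + 1) =
        x * (x ^ (j + 1) - y ^ (j + 1)) + (x - y) * y ^ (j + 1) := by ring
    have h1 := mul_le_mul_of_nonneg_left ih.1 hx
    have h2 := mul_le_mul_of_nonneg_left ih.2 hx
    have h3 : (x - y) * y ^ (j + 1) ≤ (x - y) * x ^ (j + 1) :=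
      mul_le_mul_of_nonneg_left (pow_le_pow_left₀ hy hxy _) hd
    have hj : (0 : ℝ) ≤ (j : ℝ) + 1 := by positivity
    have h4 : ((j : ℝ) + 1) * (x - y) * (y * y ^ j) ≤ ((j : ℝ) + 1) * (x - y) * (x * y ^ j) :=
      mul_le_mul_of_nonneg_left (mul_le_mul_of_nonneg_right hxy (pow_nonneg hy _))
        (mul_nonneg hj hd)
    rw [e]
    push_cast
    constructor
    · calc ((j : ℝ) + 1 + 1) * (x - y) * y ^ (j + 1)
          = ((j : ℝ) + 1) * (x - y) * (y * y ^ j) + (x - y) * y ^ (j + 1) := by ring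
        _ ≤ ((j : ℝ) + 1) * (x - y) * (x * y ^ j) + (x - y) * y ^ (j + 1) := by linarith
        _ = x * (((j : ℝ) + 1) * (x - y) * y ^ j) + (x - y) * y ^ (j + 1) := by ring
        _ ≤ _ := by linarith
    · calc x * (x ^ (j + 1) - y ^ (j + 1)) + (x - y) * y ^ (j + 1)
          ≤ x * (((j : ℝ) + 1) * (x - y) * x ^ j) + (x - y) * x ^ (j + 1) := by linarith
        _ = _ := by ring

/-- Partial summation. -/
theorem abel (a : ℕ → ℝ) (C : ℝ)
    (ha : ∀ n : ℕ, 1 ≤ n → |∑ k ∈ Icc 1 n, a k - Real.log n| ≤ C) (j : ℕ) (hj : 1 ≤ j) :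
    ∀ N : ℕ, 1 ≤ N → |∑ k ∈ Icc 1 N, a k * Real.log k ^ j -
      Real.log N ^ (j + 1) / ((j : ℝ) + 1)| ≤ (2 * C + 1) * Real.log N ^ j := by
  have key : ∀ N : ℕ, 1 ≤ N → |∑ k ∈ Icc 1 N, a k * Real.log k ^ j -
      (∑ k ∈ Icc 1 N, a k - Real.log N) * Real.log N ^ j -
      Real.log N ^ (j + 1) / ((j : ℝ) + 1)| ≤ (C + 1) * Real.log N ^ j := by
    intro N hN
    induction N, hN using Nat.le_induction with
    | base =>
      have hj0 : j ≠ 0 := by omega
      simp [hj0]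
    | succ N hN ih =>
      have hN1 : (1 : ℝ) ≤ N := by exact_mod_cast hN
      set x : ℝ := Real.log ((N + 1 : ℕ) : ℝ) with hx
      set y : ℝ := Real.log (N : ℝ) with hy
      have hy0 : 0 ≤ y := Real.log_nonneg hN1
      have hxy : y ≤ x := Real.log_le_log (by linarith) (by push_cast; linarith)
      have hxy1 : x - y ≤ 1 := by
        have h1 : x ≤ Real.log (2 * N) :=
          Real.log_le_log (by push_cast; linarith) (by push_cast; linarith)
        rw [Real.log_mul (by norm_num) (by linarith)] at h1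
        have h2 : Real.log 2 ≤ 1 := by
          have := Real.log_two_lt_d9
          linarith
        linarith
      have hE := ha N hN
      rw [Finset.sum_Icc_succ_top (by omega), Finset.sum_Icc_succ_top (by omega)]
      set A : ℝ := ∑ k ∈ Icc 1 N, a k with hA
      set B : ℝ := ∑ k ∈ Icc 1 N, a k * Real.log k ^ j with hB
      have hw : y ^ j ≤ x ^ j := pow_le_pow_left₀ hy0 hxy j
      have hpd := pow_diff x y hy0 hxy j
      have hj1 : (0 : ℝ) < (j : ℝ) + 1 := by positivity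
      -- the bracket
      have hb1 : (x ^ (j + 1) - y ^ (j + 1)) / ((j : ℝ) + 1) ≤ (x - y) * x ^ j := by
        rw [div_le_iff₀ hj1]; linarith [hpd.2]
      have hb2 : (x - y) * y ^ j ≤ (x ^ (j + 1) - y ^ (j + 1)) / ((j : ℝ) + 1) := by
        rw [le_div_iff₀ hj1]; linarith [hpd.1]
      have hb3 : (x - y) * (x ^ j - y ^ j) ≤ x ^ j - y ^ j := by
        nlinarith
      have hE1 : |(A - y) * (x ^ j - y ^ j)| ≤ C * (x ^ j - y ^ j) := by
        rw [abs_mul, abs_of_nonneg (by linarith : 0 ≤ x ^ j - y ^ j)]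
        exact mul_le_mul_of_nonneg_right hE (by linarith)
      have e : B + a (N + 1) * x ^ j - (A + a (N + 1) - x) * x ^ j - x ^ (j + 1) / ((j : ℝ) + 1)
          = (B - (A - y) * y ^ j - y ^ (j + 1) / ((j : ℝ) + 1)) - (A - y) * (x ^ j - y ^ j)
            + ((x - y) * x ^ j - (x ^ (j + 1) - y ^ (j + 1)) / ((j : ℝ) + 1)) := by
        ring
      rw [e]
      have h1 := abs_le.mp ih
      have h2 := abs_le.mp hE1
      rw [abs_le]
      constructor
      · nlinarith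
      · nlinarith
  intro N hN
  have h1 := key N hN
  have hl : 0 ≤ Real.log (N : ℝ) ^ j :=
    pow_nonneg (Real.log_nonneg (by exact_mod_cast hN)) _
  have h2 : |(∑ k ∈ Icc 1 N, a k - Real.log N) * Real.log N ^ j| ≤ C * Real.log N ^ j := by
    rw [abs_mul, abs_of_nonneg hl]
    exact mul_le_mul_of_nonneg_right (ha N hN) hl
  have e : ∑ k ∈ Icc 1 N, a k * Real.log k ^ j - Real.log N ^ (j + 1) / ((j : ℝ) + 1) =
      (∑ k ∈ Icc 1 N, a k * Real.log k ^ j -
      (∑ k ∈ Icc 1 N, a k - Real.log N) * Real.log N ^ j -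
      Real.log N ^ (j + 1) / ((j : ℝ) + 1)) + (∑ k ∈ Icc 1 N, a k - Real.log N) *
        Real.log N ^ j := by ring
  rw [e]
  refine (abs_add_le _ _).trans ?_
  linarith

/-- The second moment sums. -/
noncomputable def SS (j N : ℕ) : ℝ := ∑ k ∈ Icc 1 N, Lm k ^ 2 * Real.log k ^ j / k

theorem SS_asymp (j : ℕ) : ∃ K : ℝ, 0 ≤ K ∧ ∀ N : ℕ, 1 ≤ N →
    |SS j N - Real.log N ^ (j + 2) / ((j : ℝ) + 2)| ≤ K * Real.log N ^ (j + 1) + K := by
  obtain ⟨C, hC0, hC⟩ := mertens
  obtain ⟨C', hC'0, hC'⟩ := ppow_sum (j + 1)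
  refine ⟨2 * C + 1 + C', by linarith, fun N hN => ?_⟩
  have h1 := abel (fun k => Lm k / k) C hC (j + 1) (by omega) N hN
  have hl : 0 ≤ Real.log (N : ℝ) ^ (j + 1) :=
    pow_nonneg (Real.log_nonneg (by exact_mod_cast hN)) _
  -- difference
  have h2 : 0 ≤ ∑ k ∈ Icc 1 N, Lm k / k * Real.log k ^ (j + 1) - SS j N := by
    unfold SS
    rw [← Finset.sum_sub_distrib]
    refine Finset.sum_nonneg fun k hk => ?_
    rw [mem_Icc] at hk
    have hk1 : (1 : ℝ) ≤ k := by exact_mod_cast hk.1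
    have hlk : 0 ≤ Real.log (k : ℝ) := Real.log_nonneg hk1
    have e : Lm k / k * Real.log k ^ (j + 1) - Lm k ^ 2 * Real.log k ^ j / k
        = Lm k * Real.log k ^ j / k * (Real.log k - Lm k) := by ring
    rw [e]
    exact mul_nonneg (div_nonneg (mul_nonneg (Lm_nonneg k) (pow_nonneg hlk _)) (by linarith))
      (by linarith [Lm_le_log k])
  have h3 : ∑ k ∈ Icc 1 N, Lm k / k * Real.log k ^ (j + 1) - SS j N ≤ C' := by
    refine le_trans ?_ (hC' N)
    unfold SS
    rw [← Finset.sum_sub_distrib, Finset.sum_filter]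
    refine Finset.sum_le_sum fun k hk => ?_
    rw [mem_Icc] at hk
    have hk1 : (1 : ℝ) ≤ k := by exact_mod_cast hk.1
    have hlk : 0 ≤ Real.log (k : ℝ) := Real.log_nonneg hk1
    by_cases hp : k.Prime
    · rw [if_neg (not_not.mpr hp), Lm_prime hp]
      apply le_of_eq
      ring
    · rw [if_pos hp]
      have : 0 ≤ Lm k ^ 2 * Real.log k ^ j / k := by
        have := Lm_nonneg k
        positivity
      calc Lm k / k * Real.log k ^ (j + 1) - Lm k ^ 2 * Real.log k ^ j / k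
          ≤ Lm k / k * Real.log k ^ (j + 1) := by linarith
        _ = _ := by ring
  have e : SS j N - Real.log N ^ (j + 2) / ((j : ℝ) + 2) =
      (∑ k ∈ Icc 1 N, Lm k / k * Real.log k ^ (j + 1) -
        Real.log N ^ (j + 1 + 1) / (((j + 1 : ℕ) : ℝ) + 1)) -
      (∑ k ∈ Icc 1 N, Lm k / k * Real.log k ^ (j + 1) - SS j N) := by
    push_cast
    ring
  rw [e]
  have h4 := abs_le.mp h1
  rw [abs_le]
  constructor
  · nlinarith
  · nlinarith

theorem SS_lim (j : ℕ) : Tendsto (fun N : ℕ => SS j N / Real.log N ^ (j + 2)) atTop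
    (𝓝 (1 / ((j : ℝ) + 2))) := by
  obtain ⟨K, hK0, hK⟩ := SS_asymp j
  have hlog : Tendsto (fun N : ℕ => Real.log (N : ℝ)) atTop atTop :=
    Real.tendsto_log_atTop.comp tendsto_natCast_atTop_atTop
  have h0 : Tendsto (fun N : ℕ => 2 * K / Real.log (N : ℝ)) atTop (𝓝 0) :=
    hlog.const_div_atTop _
  rw [tendsto_iff_norm_sub_tendsto_zero]
  refine squeeze_zero' (Eventually.of_forall fun _ => norm_nonneg _) ?_ h0
  filter_upwards [hlog.eventually_ge_atTop 1, eventually_ge_atTop 1] with N hN1 hN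
  have hpos : 0 < Real.log (N : ℝ) := by linarith
  have hp2 : 0 < Real.log (N : ℝ) ^ (j + 2) := pow_pos hpos _
  have e : SS j N / Real.log N ^ (j + 2) - 1 / ((j : ℝ) + 2)
      = (SS j N - Real.log N ^ (j + 2) / ((j : ℝ) + 2)) / Real.log N ^ (j + 2) := by
    have : (j : ℝ) + 2 ≠ 0 := by positivity
    field_simp
  rw [e, Real.norm_eq_abs, abs_div, abs_of_pos hp2, div_le_div_iff₀ hp2 hpos]
  have h1 := hK N hN
  have h2 : (1 : ℝ) ≤ Real.log (N : ℝ) ^ (j + 1) := one_le_pow₀ hN1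
  calc |SS j N - Real.log N ^ (j + 2) / ((j : ℝ) + 2)| * Real.log N
      ≤ (K * Real.log N ^ (j + 1) + K) * Real.log N := mul_le_mul_of_nonneg_right h1 hpos.le
    _ ≤ (2 * K * Real.log N ^ (j + 1)) * Real.log N := by
        refine mul_le_mul_of_nonneg_right ?_ hpos.le
        nlinarith
    _ = 2 * K * Real.log N ^ (j + 2) := by ring

/-- The logarithm of the length. -/
lemma log_floor (lam : ℝ) (hlam : 0 < lam) :
    Tendsto (fun T : ℝ => Real.log (⌊T ^ lam⌋₊ : ℝ) / (lam * Real.log T)) atTop (𝓝 1) := by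
  have hL : Tendsto (fun T : ℝ => lam * Real.log T) atTop atTop :=
    Real.tendsto_log_atTop.const_mul_atTop hlam
  have h0 : Tendsto (fun T : ℝ => 1 / (lam * Real.log T)) atTop (𝓝 0) := hL.const_div_atTop 1
  rw [tendsto_iff_norm_sub_tendsto_zero]
  refine squeeze_zero' (Eventually.of_forall fun _ => norm_nonneg _) ?_ h0
  filter_upwards [hL.eventually_ge_atTop 1, eventually_ge_atTop 1] with T hT1 hT
  have hpos : 0 < lam * Real.log T := by linarith
  have hX1 : 1 ≤ T ^ lam := Real.one_le_rpow hT hlam.le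
  have hX : Real.log (T ^ lam) = lam * Real.log T := Real.log_rpow (by linarith) _
  have hN1 : 1 ≤ ⌊T ^ lam⌋₊ := by rwa [Nat.one_le_floor_iff]
  have hN1' : (1 : ℝ) ≤ (⌊T ^ lam⌋₊ : ℝ) := by exact_mod_cast hN1
  have h1 : (⌊T ^ lam⌋₊ : ℝ) ≤ T ^ lam := Nat.floor_le (by linarith)
  have h2 : T ^ lam ≤ 2 * (⌊T ^ lam⌋₊ : ℝ) := by
    have := Nat.lt_floor_add_one (T ^ lam)
    linarith
  have h3 := Real.log_le_log (by linarith) h1
  have h4 := Real.log_le_log (by linarith) h2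
  rw [Real.log_mul (by norm_num) (by linarith)] at h4
  have h5 : Real.log 2 ≤ 1 := by
    have := Real.log_two_lt_d9
    linarith
  rw [hX] at h3 h4
  have e : Real.log (⌊T ^ lam⌋₊ : ℝ) / (lam * Real.log T) - 1 =
      (Real.log (⌊T ^ lam⌋₊ : ℝ) - lam * Real.log T) / (lam * Real.log T) := by
    rw [sub_div, div_self hpos.ne']
  rw [e, Real.norm_eq_abs, abs_div, abs_of_pos hpos]
  refine div_le_div_of_nonneg_right ?_ hpos.le
  rw [abs_le]
  constructor <;> linarith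

theorem SS_lim_T (lam : ℝ) (hlam : 0 < lam) (j : ℕ) :
    Tendsto (fun T : ℝ => SS j ⌊T ^ lam⌋₊ / (lam * Real.log T) ^ (j + 2)) atTop
    (𝓝 (1 / ((j : ℝ) + 2))) := by
  have hN : Tendsto (fun T : ℝ => ⌊T ^ lam⌋₊) atTop atTop :=
    tendsto_nat_floor_atTop.comp (tendsto_rpow_atTop hlam)
  have h1 := (SS_lim j).comp hN
  have h2 := (log_floor lam hlam).pow (j + 2)
  have h3 := h1.mul h2
  rw [one_pow, mul_one] at h3
  refine h3.congr' ?_
  have hlog : Tendsto (fun N : ℕ => Real.log (N : ℝ)) atTop atTop :=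
    Real.tendsto_log_atTop.comp tendsto_natCast_atTop_atTop
  filter_upwards [(hlog.comp hN).eventually_ge_atTop 1] with T hT
  simp only [Function.comp] at hT ⊢
  have h4 : Real.log (⌊T ^ lam⌋₊ : ℝ) ^ (j + 2) ≠ 0 := pow_ne_zero _ (by linarith)
  rw [div_pow, div_mul_div_comm, mul_comm (SS j ⌊T ^ lam⌋₊), mul_div_mul_left _ _ h4]

lemma bb_eq {lam T : ℝ} (hT : 0 ≤ T) {k : ℕ} (hk : k ∈ Icc 1 ⌊T ^ lam⌋₊) :
    bb lam T k = Lm k * (1 - Real.log k / (lam * Real.log T)) / (lam * Real.log T) := by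
  rw [mem_Icc, Nat.le_floor_iff (Real.rpow_nonneg hT _)] at hk
  change bbf lam T k = _
  unfold bbf
  rw [if_pos hk.2]
  rfl

/-- PRIM -/
theorem prim : PrimeSumStatement := by
  constructor
  · intro lam hlam0 _
    have h0 := SS_lim_T lam hlam0 0
    have h1 := SS_lim_T lam hlam0 1
    have h := (h0.sub h1).const_mul lam
    have e : lam * (1 / (((0 : ℕ) : ℝ) + 2) - 1 / (((1 : ℕ) : ℝ) + 2)) = lam / 6 := by
      norm_num
      ring
    rw [e] at h
    refine h.congr' ?_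
    filter_upwards [eventually_gt_atTop (1 : ℝ)] with T hT
    have hL : Real.log T ≠ 0 := (Real.log_pos hT).ne'
    have e1 : ∑ k ∈ Icc 1 ⌊T ^ lam⌋₊, La k * bb lam T k / k =
        SS 0 ⌊T ^ lam⌋₊ / (lam * Real.log T) - SS 1 ⌊T ^ lam⌋₊ / (lam * Real.log T) ^ 2 := by
      unfold SS
      rw [Finset.sum_div, Finset.sum_div, ← Finset.sum_sub_distrib]
      refine Finset.sum_congr rfl fun k hk => ?_
      rw [bb_eq (by linarith) hk]
      change Lm k * _ / _ = _
      field_simp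
    rw [e1]
    have : lam ≠ 0 := hlam0.ne'
    field_simp
    ring
  · intro lam hlam0 _
    have h0 := SS_lim_T lam hlam0 0
    have h1 := SS_lim_T lam hlam0 1
    have h2 := SS_lim_T lam hlam0 2
    have h := (h0.sub (h1.const_mul 2)).add h2
    have e : 1 / (((0 : ℕ) : ℝ) + 2) - 2 * (1 / (((1 : ℕ) : ℝ) + 2)) +
        1 / (((2 : ℕ) : ℝ) + 2) = 1 / 12 := by norm_num
    rw [e] at h
    refine h.congr' ?_
    filter_upwards [eventually_gt_atTop (1 : ℝ)] with T hT
    have hL : Real.log T ≠ 0 := (Real.log_pos hT).ne'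
    have : lam ≠ 0 := hlam0.ne'
    unfold SS
    rw [Finset.sum_div, Finset.sum_div, Finset.sum_div, Finset.mul_sum,
      ← Finset.sum_sub_distrib, ← Finset.sum_add_distrib]
    refine Finset.sum_congr rfl fun k hk => ?_
    rw [bb_eq (by linarith) hk]
    field_simp
    ring

end Pool.Agent.Lib.MP_6bc78b_nt.MS.P1.PRIM
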