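import Mathlib
import Pool.Agent.Lib.MP_6bc78b_nt.MS.P1.PT.Err
import Pool.Agent.Lib.MP_6bc78b_nt.MS.P1.Good

/-! Project MS, Part I, chapter PT: the pointwise bound for the prime polynomial at the zeros. -/

set_option autoImplicit false

open Complex Filter Topology MeasureTheory Set

namespace Pool.Agent.Lib.MP_6bc78b_nt.MS.P1.PT

open Pool.Agent.Lib.MP_6bc78b_nt Pool.Agent.Lib.MP_6bc78b_nt.LL Pool.Agent.Lib.MP_6bc78b_nt.H11
  Pool.Agent.Lib.MP_6bc78b_nt.MS.P1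

/-- from the zeros to one vertical integral (Fejer kernel centred at `1/2 + iy`). -/
theorem zero_side (hRH : RiemannHypothesis) {l : ℝ} (hl : 0 < l) (y : ℝ) :
    Real.pi * (mz y : ℝ) / 2 ≤
      (∫ t : ℝ, logDeriv xi ((3 / 2 : ℝ) + t * I) * KF l (1 + ((t - y : ℝ) : ℂ) * I)).re := by
  obtain ⟨k, hk⟩ : ∃ k : ℂ → ℂ, k = fun s => KF l (s - (1 / 2 + y * I)) := ⟨_, rfl⟩
  have hke : ∀ s, k s = KF l (s - (1 / 2 + y * I)) := fun s => by rw [hk]
  have hkd : Differentiable ℂ k := by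
    rw [hk]
    exact (KF_diff l).comp (by fun_prop : Differentiable ℂ fun s : ℂ => s - (1 / 2 + y * I))
  obtain ⟨A, hA⟩ : ∃ A : ℝ, A = Real.exp l * (1 / 2 + 2 / l ^ 2) := ⟨_, rfl⟩
  have hA0 : 0 < A := by rw [hA]; positivity
  have hkC : ∀ s : ℂ, -(1/2) ≤ s.re → s.re ≤ 3/2 →
      ‖k s‖ ≤ (A * (2 * (1 + y ^ 2))) / (1 + s.im ^ 2) := by
    intro s h1 h2
    rw [hke]
    have hre : (s - (1 / 2 + y * I)).re = s.re - 1 / 2 := by simp
    have him : (s - (1 / 2 + y * I)).im = s.im - y := by simp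
    have h3 := KF_decay hl (w := s - (1 / 2 + y * I)) (by rw [hre, abs_le]; constructor <;> linarith)
    rw [him, ← hA] at h3
    refine h3.trans ?_
    rw [div_le_div_iff₀ (by positivity) (by positivity), mul_assoc]
    apply mul_le_mul_of_nonneg_left _ hA0.le
    have e : s.im = (s.im - y) + y := by ring
    obtain ⟨u, hu⟩ : ∃ u, u = s.im - y := ⟨_, rfl⟩
    rw [← hu] at e ⊢
    rw [e]
    nlinarith [sq_nonneg (u - y), mul_nonneg (sq_nonneg u) (sq_nonneg y)]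
  obtain ⟨hs1, -, -, hs4⟩ := zero_sum hRH hkd hkC (w := 1) (by norm_num) le_rfl
  have e32 : (1 / 2 + 1 : ℝ) = 3 / 2 := by norm_num
  rw [e32] at hs4
  obtain ⟨J, hJ⟩ : ∃ J : ℂ, J = ∫ t : ℝ, logDeriv xi ((3 / 2 : ℝ) + t * I) *
    KF l (1 + ((t - y : ℝ) : ℂ) * I) := ⟨_, rfl⟩
  have hJ1 : (∫ t : ℝ, logDeriv xi ((3 / 2 : ℝ) + t * I) * k ((3 / 2 : ℝ) + t * I)) = J := by
    rw [hJ]
    congr 1
    funext t
    rw [hke]
    congr 2
    push_cast; ring
  have hJ2 : (∫ t : ℝ, logDeriv xi ((3 / 2 : ℝ) + t * I) * k (1 - ((3 / 2 : ℝ) + t * I))) =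
      (starRingEnd ℂ) J := by
    rw [hJ, ← integral_conj, ← integral_neg_eq_self]
    congr 1
    funext t
    rw [map_mul, ← logDeriv_xi_conj, ← KF_conj, hke, ← KF_neg l (1 - _ - _)]
    have e1 : (starRingEnd ℂ) ((3 / 2 : ℝ) + t * I) = (3 / 2 : ℝ) + ((-t : ℝ) : ℂ) * I := by
      rw [map_add, map_mul, Complex.conj_ofReal, Complex.conj_ofReal, Complex.conj_I]
      push_cast; ring
    have e2 : (starRingEnd ℂ) (1 + ((t - y : ℝ) : ℂ) * I) =
        -(1 - ((3 / 2 : ℝ) + ((-t : ℝ) : ℂ) * I) - (1 / 2 + y * I)) := by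
      apply Complex.ext
      · simp; norm_num
      · simp
    rw [e1, e2]
  rw [hJ1, hJ2] at hs4
  have hterm : ∀ γ : ℝ, ∃ r : ℝ, 0 ≤ r ∧ (zeroMult γ : ℂ) * k (1 / 2 + γ * I) = (r : ℂ) := by
    intro γ
    obtain ⟨r, hr, hr2⟩ := KF_I l (γ - y)
    refine ⟨zeroMult γ * r, by positivity, ?_⟩
    rw [hke, show (1 / 2 + γ * I : ℂ) - (1 / 2 + y * I) = ((γ - y : ℝ) : ℂ) * I by push_cast; ring,
      hr2]
    push_cast; ring
  have hre : (∑' γ : ℝ, (zeroMult γ : ℂ) * k (1 / 2 + γ * I)).re =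
      ∑' γ : ℝ, ((zeroMult γ : ℂ) * k (1 / 2 + γ * I)).re := Complex.re_tsum hs1
  have hsr : Summable (fun γ : ℝ => ((zeroMult γ : ℂ) * k (1 / 2 + γ * I)).re) :=
    (Complex.hasSum_re hs1.hasSum).summable
  have hle := hsr.le_tsum y (fun γ _ => by
    obtain ⟨r, hr, hr2⟩ := hterm γ
    rw [hr2, Complex.ofReal_re]; exact hr)
  rw [← hre] at hle
  have hy : ((zeroMult y : ℂ) * k (1 / 2 + y * I)).re = (zeroMult y : ℝ) / 2 := by
    rw [hke, sub_self, KF_zero]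
    have : (zeroMult y : ℂ) * (1 / 2) = (((zeroMult y : ℝ) / 2 : ℝ) : ℂ) := by push_cast; ring
    rw [this, Complex.ofReal_re]
  rw [hy] at hle
  have h2 := congrArg Complex.re hs4
  have h3 : (2 * Real.pi * ∑' γ : ℝ, (zeroMult γ : ℂ) * k (1 / 2 + γ * I) : ℂ).re =
      2 * Real.pi * (∑' γ : ℝ, (zeroMult γ : ℂ) * k (1 / 2 + γ * I)).re := by
    rw [show (2 * Real.pi : ℂ) = ((2 * Real.pi : ℝ) : ℂ) by push_cast; ring,
      Complex.re_ofReal_mul]
  rw [h3, Complex.add_re, Complex.conj_re] at h2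
  rw [← hJ, mz_eq]
  have hp := Real.pi_pos
  have h4 := mul_le_mul_of_nonneg_left hle hp.le
  linarith

/-- The pointwise inequality, uniformly in `lam`. -/
theorem pt_uniform (hRH : RiemannHypothesis) {δ : ℝ} (hδ : 0 < δ) (hδ1 : δ < 1) :
    ∃ C : ℝ, 0 < C ∧ ∀ T lam y : ℝ, 6 ≤ T → 1 / Real.log T ≤ lam → lam ≤ 1 - δ →
      T / 2 < y → y < 2 * T →
      (BB lam T (1 / 2 + y * I)).re ≤ 1 / (2 * lam) - (mz y : ℝ) / 2 + C / (lam * Real.log T) := by
  obtain ⟨C, hC, h⟩ := gam_part hδ hδ1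
  refine ⟨C, hC, fun T lam y hT hlam hlam1 hy1 hy2 => ?_⟩
  have hT0 : 0 < T := by linarith
  have hlogT : 1 ≤ Real.log T := by
    rw [Real.le_log_iff_exp_le hT0]
    exact Real.exp_one_lt_d9.le.trans (by linarith)
  have hlogT0 : 0 < Real.log T := by linarith
  have hlam0 : 0 < lam := lt_of_lt_of_le (by positivity) hlam
  have hl : 0 < lam * Real.log T := by positivity
  obtain ⟨hg1, hg2⟩ := h T lam y hT hlam hlam1 hy1 hy2
  obtain ⟨hd1, hd2⟩ := dir_part (T := T) (by linarith) hlam0 y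
  have hz := zero_side hRH hl y
  have hre : ∀ t : ℝ, ((3 / 2 : ℝ) + t * I : ℂ).re = 3 / 2 := fun t => by simp
  have hsplit : (∫ t : ℝ, logDeriv xi ((3 / 2 : ℝ) + t * I) *
      KF (lam * Real.log T) (1 + ((t - y : ℝ) : ℂ) * I)) =
      (∫ t : ℝ, gPart ((3 / 2 : ℝ) + t * I) *
        KF (lam * Real.log T) (1 + ((t - y : ℝ) : ℂ) * I)) +
      ∫ t : ℝ, logDeriv riemannZeta ((3 / 2 : ℝ) + t * I) *
        KF (lam * Real.log T) (1 + ((t - y : ℝ) : ℂ) * I) := by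
    rw [← integral_add hg1 hd1]
    congr 1
    funext t
    have hne1 : ((3 / 2 : ℝ) + t * I : ℂ) ≠ 1 := by
      intro h
      have := congrArg Complex.re h
      rw [hre] at this
      norm_num at this
    rw [logDeriv_xi_eq (by rw [hre]; norm_num) hne1
      (riemannZeta_ne_zero_of_one_le_re (by rw [hre]; norm_num))]
    ring
  rw [hsplit, hd2, Complex.add_re, Complex.neg_re, Complex.re_ofReal_mul] at hz
  have hp := Real.pi_gt_three
  have hp0 := Real.pi_pos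
  have h1 : Real.pi * ((BB lam T (1 / 2 + y * I)).re) ≤
      Real.pi * (1 / (2 * lam) - (mz y : ℝ) / 2) + C / (lam * Real.log T) := by
    have e : Real.pi * (1 / (2 * lam) - (mz y : ℝ) / 2) =
      Real.pi / (2 * lam) - Real.pi * (mz y : ℝ) / 2 := by ring
    rw [e]; linarith
  have h2 : C / (lam * Real.log T) ≤ Real.pi * (C / (lam * Real.log T)) := by
    have : 0 < C / (lam * Real.log T) := by positivity
    nlinarith
  have h3 : Real.pi * ((BB lam T (1 / 2 + y * I)).re) ≤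
      Real.pi * (1 / (2 * lam) - (mz y : ℝ) / 2 + C / (lam * Real.log T)) := by
    rw [mul_add]; linarith
  exact le_of_mul_le_mul_left h3 hp0

/-- **PT** -/
theorem pt (hRH : RiemannHypothesis) : PTStatement := by
  intro lam ε hlam hlam1 hε
  obtain ⟨C, hC, h⟩ := pt_uniform hRH (δ := 1 - lam) (by linarith) (by linarith)
  have hlog := Real.tendsto_log_atTop
  have e1 : ∀ᶠ T : ℝ in atTop, max (1 / lam) (C / (lam * ε)) ≤ Real.log T :=
    hlog.eventually_ge_atTop _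
  filter_upwards [e1, eventually_ge_atTop 6] with T h1 h2 γ hγ
  have hlogT : 1 ≤ Real.log T := by
    rw [Real.le_log_iff_exp_le (by linarith)]
    exact Real.exp_one_lt_d9.le.trans (by linarith)
  have hlogT0 : 0 < Real.log T := by linarith
  have h3 : 1 / lam ≤ Real.log T := (le_max_left _ _).trans h1
  have h4 : C / (lam * ε) ≤ Real.log T := (le_max_right _ _).trans h1
  have h5 := h T lam γ h2 (by
    rw [div_le_iff₀ hlogT0]
    rw [div_le_iff₀ hlam] at h3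
    linarith) (by linarith) hγ.1 hγ.2.1
  have h6 : C / (lam * Real.log T) ≤ ε := by
    rw [div_le_iff₀ (by positivity)]
    rw [div_le_iff₀ (by positivity)] at h4
    linarith
  linarith

end Pool.Agent.Lib.MP_6bc78b_nt.MS.P1.PT
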