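import Mathlib

/-! Project MS, Part I, module ZBB: the elementary off-diagonal sum. -/

set_option autoImplicit false

namespace Pool.Agent.Lib.MP_6bc78b_nt.MS.P1.ZBB

lemma harm_le (N : ℕ) : ∑ d ∈ Finset.Icc 1 N, (1 : ℝ) / d ≤ 1 + Real.log N := by
  have h := harmonic_le_one_add_log N
  have h2 : ((harmonic N : ℚ) : ℝ) = ∑ d ∈ Finset.Icc 1 N, (1 : ℝ) / d := by
    rw [harmonic_eq_sum_Icc]
    push_cast
    refine Finset.sum_congr rfl (fun d _ => ?_)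
    rw [one_div]
  rw [h2] at h
  exact h

lemma sum_lt (N n : ℕ) (hn : n ≤ N) :
    ∑ k ∈ (Finset.Icc 1 N).filter (fun k => k < n), 1 / |(n : ℝ) - k| ≤ 1 + Real.log N := by
  refine le_trans ?_ (harm_le N)
  have h1 : ∑ k ∈ (Finset.Icc 1 N).filter (fun k => k < n), 1 / |(n : ℝ) - k| =
      ∑ d ∈ (Finset.Icc 1 N).filter (fun d => d < n), (1 : ℝ) / d := by
    refine Finset.sum_nbij' (fun k => n - k) (fun d => n - d) ?_ ?_ ?_ ?_ ?_
    · intro k hk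
      simp only [Finset.mem_filter, Finset.mem_Icc] at hk ⊢
      omega
    · intro k hk
      simp only [Finset.mem_filter, Finset.mem_Icc] at hk ⊢
      omega
    · intro k hk
      simp only [Finset.mem_filter, Finset.mem_Icc] at hk
      omega
    · intro k hk
      simp only [Finset.mem_filter, Finset.mem_Icc] at hk
      omega
    · intro k hk
      simp only [Finset.mem_filter, Finset.mem_Icc] at hk
      have h2 : (k : ℝ) < n := by exact_mod_cast hk.2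
      rw [abs_of_pos (by linarith), Nat.cast_sub hk.2.le]
  rw [h1]
  exact Finset.sum_le_sum_of_subset_of_nonneg (Finset.filter_subset _ _)
    (fun d _ _ => by positivity)

lemma sum_gt (N n : ℕ) :
    ∑ k ∈ (Finset.Icc 1 N).filter (fun k => n < k), 1 / |(n : ℝ) - k| ≤ 1 + Real.log N := by
  refine le_trans ?_ (harm_le N)
  have h1 : ∑ k ∈ (Finset.Icc 1 N).filter (fun k => n < k), 1 / |(n : ℝ) - k| =
      ∑ d ∈ Finset.Icc 1 (N - n), (1 : ℝ) / d := by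
    refine Finset.sum_nbij' (fun k => k - n) (fun d => d + n) ?_ ?_ ?_ ?_ ?_
    · intro k hk
      simp only [Finset.mem_filter, Finset.mem_Icc] at hk ⊢
      omega
    · intro k hk
      simp only [Finset.mem_filter, Finset.mem_Icc] at hk ⊢
      omega
    · intro k hk
      simp only [Finset.mem_filter, Finset.mem_Icc] at hk
      omega
    · intro k hk
      simp only [Finset.mem_Icc] at hk
      omega
    · intro k hk
      simp only [Finset.mem_filter, Finset.mem_Icc] at hk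
      have h2 : (n : ℝ) < k := by exact_mod_cast hk.2
      rw [abs_of_neg (by linarith), Nat.cast_sub hk.2.le, neg_sub]
  rw [h1]
  refine Finset.sum_le_sum_of_subset_of_nonneg ?_ (fun d _ _ => by positivity)
  intro d hd
  rw [Finset.mem_Icc] at hd ⊢
  omega

lemma sum_ne (N n : ℕ) (hn : n ≤ N) :
    ∑ k ∈ (Finset.Icc 1 N).filter (fun k => k ≠ n), 1 / |(n : ℝ) - k| ≤ 2 * (1 + Real.log N) := by
  have h1 : (Finset.Icc 1 N).filter (fun k => k ≠ n) =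
      (Finset.Icc 1 N).filter (fun k => k < n) ∪ (Finset.Icc 1 N).filter (fun k => n < k) := by
    ext k
    simp only [Finset.mem_filter, Finset.mem_union]
    constructor
    · rintro ⟨h, h2⟩
      rcases Nat.lt_or_gt_of_ne h2 with h3 | h3
      · exact Or.inl ⟨h, h3⟩
      · exact Or.inr ⟨h, h3⟩
    · rintro (⟨h, h2⟩ | ⟨h, h2⟩)
      · exact ⟨h, by omega⟩
      · exact ⟨h, by omega⟩
  have hd : Disjoint ((Finset.Icc 1 N).filter (fun k => k < n))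
      ((Finset.Icc 1 N).filter (fun k => n < k)) := by
    rw [Finset.disjoint_left]
    intro k hk hk'
    simp only [Finset.mem_filter] at hk hk'
    omega
  rw [h1, Finset.sum_union hd]
  have := sum_lt N n hn
  have := sum_gt N n
  linarith

lemma abs_log_ge (n k : ℕ) (hn : 1 ≤ n) (hk : 1 ≤ k) :
    |(n : ℝ) - k| / max (n : ℝ) k ≤ |Real.log ((n : ℝ) / k)| := by
  have hn' : (0 : ℝ) < n := by exact_mod_cast hn
  have hk' : (0 : ℝ) < k := by exact_mod_cast hk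
  rcases le_total (n : ℝ) k with h | h
  · rw [max_eq_right h, abs_of_nonpos (by linarith : (n : ℝ) - k ≤ 0)]
    have h1 := Real.log_le_sub_one_of_pos (div_pos hn' hk')
    have h2 : (n : ℝ) / k ≤ 1 := (div_le_one hk').2 h
    have h3 : -((n : ℝ) - k) / k = 1 - (n : ℝ) / k := by field_simp; ring
    rw [h3]
    refine le_trans ?_ (neg_le_abs _)
    linarith
  · rw [max_eq_left h, abs_of_nonneg (by linarith : 0 ≤ (n : ℝ) - k)]
    have h1 := Real.log_le_sub_one_of_pos (div_pos hk' hn')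
    have h3 : ((n : ℝ) - k) / n = 1 - (k : ℝ) / n := by field_simp
    have h4 : Real.log ((k : ℝ) / n) = - Real.log ((n : ℝ) / k) := by
      rw [← Real.log_inv, inv_div]
    rw [h3]
    rw [h4] at h1
    refine le_trans ?_ (le_abs_self _)
    linarith

lemma term_le (c : ℝ) (hc1 : 1 < c) (hc2 : c < 3 / 2) (N n k : ℕ) (hn : 1 ≤ n) (hk : 1 ≤ k)
    (hkN : k ≤ N) (hne : k ≠ n) :
    1 / (k : ℝ) * ((n : ℝ) / k) ^ (-c) / |Real.log ((n : ℝ) / k)| ≤
      4 * (1 / |(n : ℝ) - k|) + 2 * (N : ℝ) ^ (c - 1) * (n : ℝ) ^ (-c) := by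
  have hn' : (0 : ℝ) < n := by exact_mod_cast hn
  have hk' : (0 : ℝ) < k := by exact_mod_cast hk
  have hkN' : (k : ℝ) ≤ N := by exact_mod_cast hkN
  have hne' : (n : ℝ) - k ≠ 0 := by
    intro h
    apply hne
    have : (n : ℝ) = k := by linarith
    exact_mod_cast this.symm
  have habs : 0 < |(n : ℝ) - k| := abs_pos.2 hne'
  have hmax : 0 < max (n : ℝ) k := lt_max_of_lt_left hn'
  have h1 := abs_log_ge n k hn hk
  have hlow : 0 < |(n : ℝ) - k| / max (n : ℝ) k := div_pos habs hmax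
  have hpos : 0 ≤ 1 / (k : ℝ) * ((n : ℝ) / k) ^ (-c) := by positivity
  have hsec : 0 ≤ 2 * (N : ℝ) ^ (c - 1) * (n : ℝ) ^ (-c) := by positivity
  have h2 : 1 / (k : ℝ) * ((n : ℝ) / k) ^ (-c) / |Real.log ((n : ℝ) / k)| ≤
      1 / (k : ℝ) * ((n : ℝ) / k) ^ (-c) / (|(n : ℝ) - k| / max (n : ℝ) k) :=
    div_le_div_of_nonneg_left hpos hlow h1
  refine le_trans h2 ?_
  have h3 : ((n : ℝ) / k) ^ (-c) = (k : ℝ) ^ c * (n : ℝ) ^ (-c) := by
    rw [Real.div_rpow hn'.le hk'.le, Real.rpow_neg hk'.le, div_inv_eq_mul, mul_comm]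
  have hkc : (k : ℝ) ^ c = k * (k : ℝ) ^ (c - 1) := by
    rw [Real.rpow_sub_one hk'.ne']
    field_simp
  rcases lt_or_ge (k : ℝ) n with h | h
  · rw [max_eq_left h.le]
    have h4 : 1 / (k : ℝ) * ((n : ℝ) / k) ^ (-c) / (|(n : ℝ) - k| / n) =
        ((k : ℝ) ^ (c - 1) * ((n : ℝ) * (n : ℝ) ^ (-c))) * (1 / |(n : ℝ) - k|) := by
      rw [h3, hkc]
      field_simp
    have h5 : (n : ℝ) * (n : ℝ) ^ (-c) = (n : ℝ) ^ (-(c - 1)) := by
      rw [← Real.rpow_one_add' hn'.le (by linarith)]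
      congr 1
      ring
    have h6 : (k : ℝ) ^ (c - 1) * (n : ℝ) ^ (-(c - 1)) ≤ 1 := by
      have h7 : (k : ℝ) ^ (c - 1) ≤ (n : ℝ) ^ (c - 1) :=
        Real.rpow_le_rpow hk'.le h.le (by linarith)
      calc (k : ℝ) ^ (c - 1) * (n : ℝ) ^ (-(c - 1)) ≤ (n : ℝ) ^ (c - 1) * (n : ℝ) ^ (-(c - 1)) := by
            gcongr
        _ = 1 := by rw [← Real.rpow_add hn']; simp
    rw [h4, h5]
    have h8 : 0 ≤ 1 / |(n : ℝ) - k| := by positivity
    nlinarith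
  · rw [max_eq_right h]
    have hlt : (n : ℝ) < k := lt_of_le_of_ne h (fun h' => hne (by exact_mod_cast h'.symm))
    have habs' : |(n : ℝ) - k| = k - n := by
      rw [abs_of_neg (by linarith)]; ring
    rw [habs']
    have hkn : 0 < (k : ℝ) - n := by linarith
    have h4 : 1 / (k : ℝ) * ((n : ℝ) / k) ^ (-c) / (((k : ℝ) - n) / k) =
        (k : ℝ) ^ c * (n : ℝ) ^ (-c) / (k - n) := by
      rw [h3]
      field_simp
    rw [h4]
    rcases le_or_gt (k : ℝ) (2 * n) with h5 | h5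
    · have h6 : (k : ℝ) ^ c * (n : ℝ) ^ (-c) ≤ 4 := by
        have h7 : (k : ℝ) ^ c ≤ (2 * n : ℝ) ^ c := Real.rpow_le_rpow hk'.le h5 (by linarith)
        have h8 : (2 * n : ℝ) ^ c = 2 ^ c * (n : ℝ) ^ c := Real.mul_rpow (by norm_num) hn'.le
        have h9 : (2 : ℝ) ^ c ≤ 2 ^ (2 : ℝ) := Real.rpow_le_rpow_of_exponent_le (by norm_num) (by linarith)
        have h10 : (2 : ℝ) ^ (2 : ℝ) = 4 := by norm_num
        have h11 : (n : ℝ) ^ c * (n : ℝ) ^ (-c) = 1 := by rw [← Real.rpow_add hn']; simp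
        calc (k : ℝ) ^ c * (n : ℝ) ^ (-c) ≤ (2 ^ c * (n : ℝ) ^ c) * (n : ℝ) ^ (-c) := by
              rw [← h8]; gcongr
          _ = 2 ^ c := by rw [mul_assoc, h11, mul_one]
          _ ≤ 4 := by rw [← h10]; exact h9
      have h7 : (k : ℝ) ^ c * (n : ℝ) ^ (-c) / (k - n) ≤ 4 * (1 / (k - n)) := by
        rw [mul_one_div]
        gcongr
      linarith
    · have h6 : (k : ℝ) / 2 ≤ k - n := by linarith
      have h7 : (k : ℝ) ^ c * (n : ℝ) ^ (-c) / (k - n) ≤ (k : ℝ) ^ c * (n : ℝ) ^ (-c) / (k / 2) := by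
        apply div_le_div_of_nonneg_left (by positivity) (by positivity) h6
      have h8 : (k : ℝ) ^ c * (n : ℝ) ^ (-c) / (k / 2) = 2 * (k : ℝ) ^ (c - 1) * (n : ℝ) ^ (-c) := by
        rw [hkc]
        field_simp
      have h9 : (k : ℝ) ^ (c - 1) ≤ (N : ℝ) ^ (c - 1) := Real.rpow_le_rpow hk'.le hkN' (by linarith)
      have h10 : 2 * (k : ℝ) ^ (c - 1) * (n : ℝ) ^ (-c) ≤ 2 * (N : ℝ) ^ (c - 1) * (n : ℝ) ^ (-c) := by
        gcongr
      have h11 : 0 ≤ 4 * (1 / ((k : ℝ) - n)) := by positivity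
      linarith

/-- The off-diagonal sum. -/
lemma off_le (c : ℝ) (hc1 : 1 < c) (hc2 : c < 3 / 2) (N : ℕ) (hN : 1 ≤ N) :
    ∑ n ∈ Finset.Icc 1 N, ∑ k ∈ (Finset.Icc 1 N).filter (fun k => k ≠ n),
      1 / (k : ℝ) * ((n : ℝ) / k) ^ (-c) / |Real.log ((n : ℝ) / k)| ≤
      (8 + 2 * ∑' n : ℕ, (n : ℝ) ^ (-c)) * ((N : ℝ) ^ c * (1 + Real.log N)) := by
  have hN' : (1 : ℝ) ≤ N := by exact_mod_cast hN
  have hN0 : (0 : ℝ) < N := by linarith
  have hZ : Summable (fun n : ℕ => (n : ℝ) ^ (-c)) := Real.summable_nat_rpow.2 (by linarith)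
  have hlog : 0 ≤ Real.log N := Real.log_nonneg hN'
  have h1 : ∀ n ∈ Finset.Icc 1 N, ∑ k ∈ (Finset.Icc 1 N).filter (fun k => k ≠ n),
      1 / (k : ℝ) * ((n : ℝ) / k) ^ (-c) / |Real.log ((n : ℝ) / k)| ≤
      8 * (1 + Real.log N) + 2 * (N : ℝ) ^ c * (n : ℝ) ^ (-c) := by
    intro n hn
    rw [Finset.mem_Icc] at hn
    have h2 : ∀ k ∈ (Finset.Icc 1 N).filter (fun k => k ≠ n),
        1 / (k : ℝ) * ((n : ℝ) / k) ^ (-c) / |Real.log ((n : ℝ) / k)| ≤
        4 * (1 / |(n : ℝ) - k|) + 2 * (N : ℝ) ^ (c - 1) * (n : ℝ) ^ (-c) := by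
      intro k hk
      simp only [Finset.mem_filter, Finset.mem_Icc] at hk
      exact term_le c hc1 hc2 N n k hn.1 hk.1.1 hk.1.2 hk.2
    refine le_trans (Finset.sum_le_sum h2) ?_
    rw [Finset.sum_add_distrib, ← Finset.mul_sum, Finset.sum_const, nsmul_eq_mul]
    have h3 := sum_ne N n hn.2
    have h4 : (((Finset.Icc 1 N).filter (fun k => k ≠ n)).card : ℝ) ≤ N := by
      have : ((Finset.Icc 1 N).filter (fun k => k ≠ n)).card ≤ N := by
        refine le_trans (Finset.card_filter_le _ _) ?_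
        simp
      exact_mod_cast this
    have h5 : (N : ℝ) * (2 * (N : ℝ) ^ (c - 1) * (n : ℝ) ^ (-c)) = 2 * (N : ℝ) ^ c * (n : ℝ) ^ (-c) := by
      rw [Real.rpow_sub_one hN0.ne']
      field_simp
    have h6 : (((Finset.Icc 1 N).filter (fun k => k ≠ n)).card : ℝ) *
        (2 * (N : ℝ) ^ (c - 1) * (n : ℝ) ^ (-c)) ≤ (N : ℝ) * (2 * (N : ℝ) ^ (c - 1) * (n : ℝ) ^ (-c)) := by
      gcongr
    linarith
  refine le_trans (Finset.sum_le_sum h1) ?_
  rw [Finset.sum_add_distrib, Finset.sum_const, Nat.card_Icc, ← Finset.mul_sum, nsmul_eq_mul]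
  have h2 : ∑ n ∈ Finset.Icc 1 N, (n : ℝ) ^ (-c) ≤ ∑' n : ℕ, (n : ℝ) ^ (-c) :=
    hZ.sum_le_tsum _ (fun n _ => by positivity)
  have h3 : (N : ℝ) ≤ (N : ℝ) ^ c := by
    calc (N : ℝ) = (N : ℝ) ^ (1 : ℝ) := (Real.rpow_one _).symm
      _ ≤ (N : ℝ) ^ c := Real.rpow_le_rpow_of_exponent_le hN' hc1.le
  have hZ0 : 0 ≤ ∑' n : ℕ, (n : ℝ) ^ (-c) := tsum_nonneg (fun n => by positivity)
  have hcast : ((N + 1 - 1 : ℕ) : ℝ) = N := by simp
  rw [hcast]
  have h4 : (N : ℝ) * (8 * (1 + Real.log N)) ≤ (N : ℝ) ^ c * (8 * (1 + Real.log N)) := by gcongr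
  have h5 : 2 * (N : ℝ) ^ c * ∑ n ∈ Finset.Icc 1 N, (n : ℝ) ^ (-c) ≤
      2 * (N : ℝ) ^ c * ∑' n : ℕ, (n : ℝ) ^ (-c) := by gcongr
  have h6 : 2 * (N : ℝ) ^ c * ∑' n : ℕ, (n : ℝ) ^ (-c) ≤
      2 * (N : ℝ) ^ c * (∑' n : ℕ, (n : ℝ) ^ (-c)) * (1 + Real.log N) := by
    have : 0 ≤ 2 * (N : ℝ) ^ c * ∑' n : ℕ, (n : ℝ) ^ (-c) := by positivity
    nlinarith
  calc (N : ℝ) * (8 * (1 + Real.log N)) + 2 * (N : ℝ) ^ c * ∑ n ∈ Finset.Icc 1 N, (n : ℝ) ^ (-c) ≤
      (N : ℝ) ^ c * (8 * (1 + Real.log N)) +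
        2 * (N : ℝ) ^ c * (∑' n : ℕ, (n : ℝ) ^ (-c)) * (1 + Real.log N) := by linarith
    _ = _ := by ring

end Pool.Agent.Lib.MP_6bc78b_nt.MS.P1.ZBB
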