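import Mathlib
import Pool.Agent.Lib.MP_6bc78b_nt.MS.P1.Iface
import Pool.Agent.Lib.MP_6bc78b_nt.MS.P1.ZBBoff

/-! Project MS, Part I, module ZBB. -/

set_option autoImplicit false

open Complex Filter Topology MeasureTheory ArithmeticFunction

namespace Pool.Agent.Lib.MP_6bc78b_nt.MS.P1.ZBB

open Pool.Agent.Lib.MP_6bc78b_nt.MS Pool.Agent.Lib.MP_6bc78b_nt.MS.P1

lemma abs_bb_le (lam T : ℝ) (hlam : 0 < lam) (hT : 1 < T) (n : ℕ) : |bb lam T n| ≤ 1 := by
  show |bbf lam T n| ≤ 1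
  unfold bbf
  split_ifs with h
  · rcases Nat.eq_zero_or_pos n with hn | hn
    · subst hn
      simp
    · have hn' : (1 : ℝ) ≤ n := by exact_mod_cast hn
      have hL : 0 < lam * Real.log T := mul_pos hlam (Real.log_pos hT)
      have h1 : 0 ≤ Real.log n := Real.log_nonneg hn'
      have h2 : Real.log n ≤ lam * Real.log T := by
        rw [← Real.log_rpow (by linarith)]
        exact Real.log_le_log (by linarith) h
      have h3 : ArithmeticFunction.vonMangoldt n ≤ Real.log n := ArithmeticFunction.vonMangoldt_le_log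
      have h4 : 0 ≤ ArithmeticFunction.vonMangoldt n := ArithmeticFunction.vonMangoldt_nonneg
      have h5 : Real.log n / (lam * Real.log T) ≤ 1 := (div_le_one hL).2 h2
      have h6 : 0 ≤ Real.log n / (lam * Real.log T) := by positivity
      rw [abs_of_nonneg (by apply div_nonneg (mul_nonneg h4 (by linarith)) hL.le), div_le_one hL]
      calc ArithmeticFunction.vonMangoldt n * (1 - Real.log n / (lam * Real.log T)) ≤
          (lam * Real.log T) * 1 := by
            apply mul_le_mul (le_trans h3 h2) (by linarith) (by linarith) hL.le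
        _ = _ := mul_one _
  · simp

lemma floor_le (lam T : ℝ) (hlam1 : lam < 1) (hT : 1 < T) : ((⌊T ^ lam⌋₊ : ℕ) : ℝ) ≤ T := by
  have h1 : ((⌊T ^ lam⌋₊ : ℕ) : ℝ) ≤ T ^ lam := Nat.floor_le (by positivity)
  have h2 : T ^ lam ≤ T ^ (1 : ℝ) := Real.rpow_le_rpow_of_exponent_le hT.le hlam1.le
  rw [Real.rpow_one] at h2
  linarith

lemma norm_BB_le (lam T : ℝ) (hlam : 0 < lam) (hlam1 : lam < 1) (hT : 1 < T) (s : ℂ)
    (hs : -1 ≤ s.re) : ‖BB lam T s‖ ≤ T ^ 2 := by
  unfold BB dpoly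
  have hN := floor_le lam T hlam1 hT
  have h1 : ∀ n ∈ Finset.Icc 1 ⌊T ^ lam⌋₊, ‖((bb lam T n : ℝ) : ℂ) * (n : ℂ) ^ (-s)‖ ≤ T := by
    intro n hn
    rw [Finset.mem_Icc] at hn
    have hn' : (1 : ℝ) ≤ n := by exact_mod_cast hn.1
    have hn2 : (n : ℝ) ≤ T := by
      have : (n : ℝ) ≤ (⌊T ^ lam⌋₊ : ℕ) := by exact_mod_cast hn.2
      linarith
    rw [norm_mul, Complex.norm_real, Real.norm_eq_abs,
      Complex.norm_natCast_cpow_of_pos (by omega)]
    have h2 := abs_bb_le lam T hlam hT n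
    have h3 : (n : ℝ) ^ (-s).re ≤ n := by
      calc (n : ℝ) ^ (-s).re ≤ (n : ℝ) ^ (1 : ℝ) :=
            Real.rpow_le_rpow_of_exponent_le hn' (by rw [Complex.neg_re]; linarith)
        _ = n := Real.rpow_one _
    calc |bb lam T n| * (n : ℝ) ^ (-s).re ≤ 1 * n := by gcongr
      _ ≤ T := by linarith
  refine le_trans (norm_sum_le _ _) (le_trans (Finset.sum_le_sum h1) ?_)
  rw [Finset.sum_const, Nat.card_Icc, nsmul_eq_mul]
  have h2 : ((⌊T ^ lam⌋₊ + 1 - 1 : ℕ) : ℝ) ≤ T := by simpa using hN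
  nlinarith

lemma norm_LS_le (α : ArithmeticFunction ℝ) (c : ℝ) (hα : ASum c α) (s : ℂ) (hs : s.re = c) :
    ‖LS α s‖ ≤ AN c α := by
  have h1 : ∀ n : ℕ, ‖LSeries.term (fun n => ((α n : ℝ) : ℂ)) s n‖ = |α n| * (n : ℝ) ^ (-c) := by
    intro n
    rw [LSeries.norm_term_eq]
    split_ifs with h
    · rw [h]; simp
    · rw [Complex.norm_real, Real.norm_eq_abs, hs, Real.rpow_neg (by positivity), div_eq_mul_inv]
  unfold LS AN LSeries
  have h2 : Summable (fun n => ‖LSeries.term (fun n => ((α n : ℝ) : ℂ)) s n‖) := by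
    simp_rw [h1]; exact hα
  refine le_trans (norm_tsum_le_tsum_norm h2) (le_of_eq ?_)
  exact tsum_congr h1

lemma VI_congr (c : ℝ) (f g : ℂ → ℂ) (h : ∀ t : ℝ, f (c + t * I) = g (c + t * I)) :
    VI c f = VI c g := by
  unfold VI
  simp_rw [h]

lemma VI_const_mul (c : ℝ) (a : ℂ) (f : ℂ → ℂ) : VI c (fun s => a * f s) = a * VI c f := by
  unfold VI
  rw [MeasureTheory.integral_const_mul]
  ring

lemma VI_neg (c : ℝ) (f : ℂ → ℂ) : VI c (fun s => - f s) = - VI c f := by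
  unfold VI
  rw [MeasureTheory.integral_neg]
  ring

lemma VI_add (c : ℝ) (f g : ℂ → ℂ) (hf : Integrable (fun t : ℝ => f (c + t * I)))
    (hg : Integrable (fun t : ℝ => g (c + t * I))) :
    VI c (fun s => f s + g s) = VI c f + VI c g := by
  unfold VI
  rw [MeasureTheory.integral_add hf hg]
  ring

lemma VI_sum {ι : Type*} (c : ℝ) (S : Finset ι) (f : ι → ℂ → ℂ)
    (hf : ∀ i ∈ S, Integrable (fun t : ℝ => f i (c + t * I))) :
    VI c (fun s => ∑ i ∈ S, f i s) = ∑ i ∈ S, VI c (f i) := by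
  unfold VI
  rw [MeasureTheory.integral_finsetSum S hf, Finset.mul_sum]

lemma poly_le (T t x : ℝ) (hT : 1 ≤ T) (hx : x ≤ T ^ 6 * (1 + |t|)) :
    x ≤ T ^ (6 : ℝ) * (1 + |t|) ^ (6 : ℝ) := by
  have h6 : (6 : ℝ) = ((6 : ℕ) : ℝ) := by norm_num
  rw [h6, Real.rpow_natCast, Real.rpow_natCast]
  have h1 : (1 : ℝ) ≤ 1 + |t| := by linarith [abs_nonneg t]
  have h2 : 1 + |t| ≤ (1 + |t|) ^ 6 := le_self_pow₀ h1 (by norm_num)
  have h3 : 0 ≤ T ^ 6 := by positivity
  nlinarith

lemma ratio_cpow (n k : ℕ) (hn : 1 ≤ n) (hk : 1 ≤ k) (s : ℂ) :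
    (n : ℂ) ^ (-s) * (k : ℂ) ^ (-(1 - s)) = (1 / (k : ℂ)) * (((n : ℝ) / k : ℝ) : ℂ) ^ (-s) := by
  have hn' : (0 : ℝ) < n := by exact_mod_cast hn
  have hk' : (0 : ℝ) < k := by exact_mod_cast hk
  have hnc : (n : ℂ) ≠ 0 := by exact_mod_cast (by omega : n ≠ 0)
  have hkc : (k : ℂ) ≠ 0 := by exact_mod_cast (by omega : k ≠ 0)
  have hr : (((n : ℝ) / k : ℝ) : ℂ) ≠ 0 := by
    exact_mod_cast (div_pos hn' hk').ne'
  have h1 : (k : ℂ) ^ (-(1 - s)) = (1 / (k : ℂ)) * (k : ℂ) ^ s := by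
    rw [show -(1 - s) = -1 + s by ring, Complex.cpow_add _ _ hkc, Complex.cpow_neg_one]
    simp
  have h2 : (((n : ℝ) / k : ℝ) : ℂ) ^ (-s) = (n : ℂ) ^ (-s) * (k : ℂ) ^ s := by
    rw [Complex.cpow_def_of_ne_zero hr, Complex.cpow_def_of_ne_zero hnc,
      Complex.cpow_def_of_ne_zero hkc, ← Complex.exp_add, ← Complex.ofReal_log (div_pos hn' hk').le,
      Real.log_div hn'.ne' hk'.ne', Complex.ofReal_sub, Complex.ofReal_log hn'.le,
      Complex.ofReal_log hk'.le, Complex.ofReal_natCast, Complex.ofReal_natCast]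
    congr 1
    ring
  rw [h1, h2]
  ring

lemma log_bound (t : ℝ) : Real.log (3 + |t|) ≤ 3 * (1 + |t|) := by
  have h := abs_nonneg t
  have := Real.log_le_sub_one_of_pos (by linarith : (0 : ℝ) < 3 + |t|)
  linarith

lemma meas_zeta (c : ℝ) (hc : 1 < c) : Measurable (fun t : ℝ => logDeriv riemannZeta (c + t * I)) := by
  have hline : Continuous (fun t : ℝ => (c + t * I : ℂ)) := by fun_prop
  have h1 : Measurable (fun t : ℝ => deriv riemannZeta (c + t * I)) :=
    (measurable_deriv riemannZeta).comp hline.measurable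
  have h2 : Continuous (fun t : ℝ => riemannZeta (c + t * I)) := by
    rw [continuous_iff_continuousAt]
    intro t
    have hne : (c + t * I : ℂ) ≠ 1 := by
      intro h
      have := congrArg Complex.re h
      simp at this
      linarith
    exact ContinuousAt.comp (f := fun t : ℝ => (c + t * I : ℂ)) (g := riemannZeta)
      (differentiableAt_riemannZeta hne).continuousAt hline.continuousAt
  exact h1.div h2.measurable

/-- The om-part: diagonal and off-diagonal. -/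
lemma om_part (lam c T : ℝ) (hlam : 0 < lam) (hlam1 : lam < 1) (hT16 : 16 ≤ T)
    (hc1 : 1 < c) (hc2 : c < 3 / 2) (C2 Co : ℝ) (hC20 : 0 < C2)
    (hC2 : ∀ r : ℝ, 0 < r → r ≠ 1 →
      ‖VI c (fun s => om s * WW T s * (r : ℂ) ^ (-s))‖ ≤ C2 * Real.log T * r ^ (-c) / |Real.log r|)
    (hCo0 : 0 < Co) (hOm1 : ∀ t : ℝ, ‖om (c + t * I)‖ ≤ Co * Real.log (3 + |t|))
    (hOm3 : ∀ t : ℝ, DifferentiableAt ℂ om (c + t * I)) (hCoT : 3 * Co ≤ T)
    (hTT : ∀ g : ℂ → ℂ,
      AEStronglyMeasurable (fun t : ℝ => g (c + t * I)) volume →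
      (∀ t : ℝ, ‖g (c + t * I)‖ ≤ T ^ (6 : ℝ) * (1 + |t|) ^ (6 : ℝ)) →
        Integrable (fun t : ℝ => g (c + t * I) * WW T (c + t * I)) ∧
        ‖VI c (fun s => g s * WW T s) - VF c T (fun s => g s * WW T s)‖ ≤ 1 / T) :
    ‖VI c (fun s => (om s * (BB lam T s * BB lam T (1 - s))) * WW T s) -
      VI c (fun s => om s * WW T s) *
        ((∑ k ∈ Finset.Icc 1 ⌊T ^ lam⌋₊, bb lam T k * bb lam T k / k : ℝ) : ℂ)‖ ≤
    C2 * Real.log T * ((8 + 2 * ∑' n : ℕ, (n : ℝ) ^ (-c)) * (T ^ (lam * c) * (1 + Real.log T))) := by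
  classical
  have hT0 : 0 < T := by linarith
  have hT1 : 1 < T := by linarith
  set N : ℕ := ⌊T ^ lam⌋₊ with hN
  have hNT : (N : ℝ) ≤ T := floor_le lam T hlam1 hT1
  have hNl : (N : ℝ) ≤ T ^ lam := Nat.floor_le (by positivity)
  have hN1 : 1 ≤ N := by
    rw [hN, Nat.one_le_floor_iff]
    exact Real.one_le_rpow hT1.le hlam.le
  have hL0 : 0 < Real.log T := Real.log_pos hT1
  set G : ℕ → ℕ → ℂ → ℂ := fun n k s =>
    (((bb lam T n * bb lam T k / k : ℝ)) : ℂ) * (om s * WW T s * (((n : ℝ) / k : ℝ) : ℂ) ^ (-s))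
    with hG
  have homc : Continuous (fun t : ℝ => om (c + t * I)) := by
    rw [continuous_iff_continuousAt]
    intro t
    exact ContinuousAt.comp (f := fun t : ℝ => (c + t * I : ℂ)) (g := om)
      (hOm3 t).continuousAt (by fun_prop)
  have hint : ∀ n ∈ Finset.Icc 1 N, ∀ k ∈ Finset.Icc 1 N,
      Integrable (fun t : ℝ => G n k (c + t * I)) := by
    intro n hn k hk
    rw [Finset.mem_Icc] at hn hk
    have hn' : (1 : ℝ) ≤ n := by exact_mod_cast hn.1
    have hk' : (1 : ℝ) ≤ k := by exact_mod_cast hk.1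
    have hr : 0 < (n : ℝ) / k := by positivity
    have hrc : (((n : ℝ) / k : ℝ) : ℂ) ≠ 0 := by exact_mod_cast hr.ne'
    have h1 := (hTT (fun s => om s * (((n : ℝ) / k : ℝ) : ℂ) ^ (-s)) ?_ ?_).1
    · refine (h1.const_mul (((bb lam T n * bb lam T k / k : ℝ)) : ℂ)).congr
        (Filter.Eventually.of_forall (fun t => ?_))
      simp only [hG]
      ring
    · apply Continuous.aestronglyMeasurable
      apply homc.mul
      exact Continuous.const_cpow (by fun_prop) (Or.inl hrc)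
    · intro t
      apply poly_le _ _ _ hT1.le
      rw [norm_mul, Complex.norm_cpow_eq_rpow_re_of_pos hr]
      have h2 : (-(c + t * I : ℂ)).re = -c := by simp
      rw [h2]
      have h3 : ((n : ℝ) / k) ^ (-c) ≤ T ^ 2 := by
        rw [Real.rpow_neg hr.le, ← Real.inv_rpow hr.le, inv_div]
        have h4 : (k : ℝ) / n ≤ T := by
          rw [div_le_iff₀ (by linarith)]
          have : (k : ℝ) ≤ N := by exact_mod_cast hk.2
          nlinarith
        calc ((k : ℝ) / n) ^ c ≤ T ^ c := Real.rpow_le_rpow (by positivity) h4 (by linarith)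
          _ ≤ T ^ (2 : ℝ) := Real.rpow_le_rpow_of_exponent_le hT1.le (by linarith)
          _ = T ^ 2 := by norm_num
      have h4 := hOm1 t
      have h5 := log_bound t
      have h6 : ‖om (c + t * I)‖ ≤ T * (1 + |t|) := by
        have h7 : Co * Real.log (3 + |t|) ≤ Co * (3 * (1 + |t|)) := by gcongr
        have h8 : 3 * Co * (1 + |t|) ≤ T * (1 + |t|) := by
          have := abs_nonneg t
          gcongr
        linarith
      have h9 : (0 : ℝ) ≤ 1 + |t| := by linarith [abs_nonneg t]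
      calc ‖om (c + t * I)‖ * ((n : ℝ) / k) ^ (-c) ≤ (T * (1 + |t|)) * T ^ 2 := by gcongr
        _ = T ^ 3 * (1 + |t|) := by ring
        _ ≤ T ^ 6 * (1 + |t|) := by
            have : T ^ 3 ≤ T ^ 6 := pow_le_pow_right₀ hT1.le (by norm_num)
            gcongr
  have hexp : VI c (fun s => (om s * (BB lam T s * BB lam T (1 - s))) * WW T s) =
      ∑ n ∈ Finset.Icc 1 N, ∑ k ∈ Finset.Icc 1 N, VI c (G n k) := by
    have h1 : VI c (fun s => (om s * (BB lam T s * BB lam T (1 - s))) * WW T s) =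
        VI c (fun s => ∑ n ∈ Finset.Icc 1 N, ∑ k ∈ Finset.Icc 1 N, G n k s) := by
      apply VI_congr
      intro t
      set s : ℂ := c + t * I with hs
      have h2 : BB lam T s * BB lam T (1 - s) = ∑ n ∈ Finset.Icc 1 N, ∑ k ∈ Finset.Icc 1 N,
          (((bb lam T n * bb lam T k / k : ℝ)) : ℂ) * (((n : ℝ) / k : ℝ) : ℂ) ^ (-s) := by
        unfold BB dpoly
        rw [Finset.sum_mul_sum]
        refine Finset.sum_congr rfl (fun n hn => Finset.sum_congr rfl (fun k hk => ?_))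
        rw [Finset.mem_Icc] at hn hk
        have h3 := ratio_cpow n k hn.1 hk.1 s
        calc ((bb lam T n : ℝ) : ℂ) * (n : ℂ) ^ (-s) * (((bb lam T k : ℝ) : ℂ) * (k : ℂ) ^ (-(1 - s))) =
            ((bb lam T n : ℝ) : ℂ) * ((bb lam T k : ℝ) : ℂ) * ((n : ℂ) ^ (-s) * (k : ℂ) ^ (-(1 - s))) := by
              ring
          _ = _ := by
              rw [h3]
              push_cast
              ring
      rw [h2, Finset.mul_sum, Finset.sum_mul]
      refine Finset.sum_congr rfl (fun n _ => ?_)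
      rw [Finset.mul_sum, Finset.sum_mul]
      refine Finset.sum_congr rfl (fun k _ => ?_)
      simp only [hG]
      ring
    rw [h1, VI_sum]
    · refine Finset.sum_congr rfl (fun n hn => ?_)
      rw [VI_sum c _ (fun k => G n k)]
      intro k hk
      exact hint n hn k hk
    · intro n hn
      exact integrable_finsetSum _ (fun k hk => hint n hn k hk)
  have hsplit : ∀ n ∈ Finset.Icc 1 N, ∑ k ∈ Finset.Icc 1 N, VI c (G n k) =
      VI c (G n n) + ∑ k ∈ (Finset.Icc 1 N).filter (fun k => k ≠ n), VI c (G n k) := by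
    intro n hn
    rw [Finset.filter_ne']
    exact (Finset.add_sum_erase _ (fun k => VI c (G n k)) hn).symm
  have hdiag : ∀ n ∈ Finset.Icc 1 N, VI c (G n n) =
      VI c (fun s => om s * WW T s) * (((bb lam T n * bb lam T n / n : ℝ)) : ℂ) := by
    intro n hn
    rw [Finset.mem_Icc] at hn
    have hn' : (n : ℝ) ≠ 0 := by
      have : (1 : ℝ) ≤ n := by exact_mod_cast hn.1
      linarith
    rw [mul_comm, ← VI_const_mul]
    apply VI_congr
    intro t
    simp only [hG]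
    rw [div_self hn', Complex.ofReal_one, Complex.one_cpow, mul_one]
  rw [hexp, Finset.sum_congr rfl hsplit, Finset.sum_add_distrib, Finset.sum_congr rfl hdiag,
    ← Finset.mul_sum, ← Complex.ofReal_sum, add_sub_cancel_left]
  have hoff : ∀ n ∈ Finset.Icc 1 N, ∀ k ∈ (Finset.Icc 1 N).filter (fun k => k ≠ n),
      ‖VI c (G n k)‖ ≤ C2 * Real.log T *
        (1 / (k : ℝ) * ((n : ℝ) / k) ^ (-c) / |Real.log ((n : ℝ) / k)|) := by
    intro n hn k hk
    rw [Finset.mem_filter, Finset.mem_Icc] at hk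
    rw [Finset.mem_Icc] at hn
    have hn' : (1 : ℝ) ≤ n := by exact_mod_cast hn.1
    have hk' : (1 : ℝ) ≤ k := by exact_mod_cast hk.1.1
    have hr : 0 < (n : ℝ) / k := by positivity
    have hr1 : (n : ℝ) / k ≠ 1 := by
      intro h
      rw [div_eq_one_iff_eq (by linarith)] at h
      exact hk.2 (by exact_mod_cast h.symm)
    have h1 := hC2 _ hr hr1
    simp only [hG]
    rw [VI_const_mul, norm_mul, Complex.norm_real, Real.norm_eq_abs, abs_div, abs_mul,
      abs_of_pos (by linarith : (0 : ℝ) < k)]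
    have h2 := abs_bb_le lam T hlam hT1 n
    have h3 := abs_bb_le lam T hlam hT1 k
    have h4 : |bb lam T n| * |bb lam T k| / k ≤ 1 / k := by
      have h5 : |bb lam T n| * |bb lam T k| ≤ 1 := by
        calc |bb lam T n| * |bb lam T k| ≤ 1 * 1 := by gcongr
          _ = 1 := one_mul 1
      gcongr
    calc |bb lam T n| * |bb lam T k| / k * ‖VI c fun s => om s * WW T s * (((n : ℝ) / k : ℝ) : ℂ) ^ (-s)‖ ≤
        1 / k * (C2 * Real.log T * ((n : ℝ) / k) ^ (-c) / |Real.log ((n : ℝ) / k)|) := by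
          gcongr
      _ = _ := by ring
  refine le_trans (norm_sum_le _ _) ?_
  have h1 : ∀ n ∈ Finset.Icc 1 N, ‖∑ k ∈ (Finset.Icc 1 N).filter (fun k => k ≠ n), VI c (G n k)‖ ≤
      C2 * Real.log T * ∑ k ∈ (Finset.Icc 1 N).filter (fun k => k ≠ n),
        (1 / (k : ℝ) * ((n : ℝ) / k) ^ (-c) / |Real.log ((n : ℝ) / k)|) := by
    intro n hn
    rw [Finset.mul_sum]
    exact le_trans (norm_sum_le _ _) (Finset.sum_le_sum (hoff n hn))
  refine le_trans (Finset.sum_le_sum h1) ?_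
  rw [← Finset.mul_sum]
  have h2 := off_le c hc1 hc2 N hN1
  have hZ0 : 0 ≤ ∑' n : ℕ, (n : ℝ) ^ (-c) := tsum_nonneg (fun n => by positivity)
  have hN0 : (0 : ℝ) < N := by exact_mod_cast hN1
  have h3 : (N : ℝ) ^ c ≤ T ^ (lam * c) := by
    rw [Real.rpow_mul hT0.le]
    exact Real.rpow_le_rpow hN0.le hNl (by linarith)
  have h4 : Real.log N ≤ Real.log T := Real.log_le_log hN0 hNT
  have h5 : 0 ≤ Real.log N := Real.log_nonneg (by exact_mod_cast hN1)
  refine mul_le_mul_of_nonneg_left (le_trans h2 ?_) (by positivity)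
  gcongr

/-- The estimate for one `T`. -/
lemma zbb_key (lam c : ℝ) (hlam : 0 < lam) (hlam1 : lam < 1) (hc1 : 1 < c) (hc2 : c < 3 / 2)
    (hZ : ZeroSumStatement) (hE : Edge1Statement) (hO2 : Om2Statement) (hTl : TailStatement)
    (hLS : LSerStatement) (hPo : PolyStatement) (hDi : DiagStatement) (hOm : OmLineStatement)
    (hDD : DDStatement) :
    ∃ C K Z : ℝ, ∀ᶠ T : ℝ in atTop,
      ‖ZS T (fun s => BB lam T s * (starRingEnd ℂ) (BB lam T s)) -
        (starRingEnd ℂ) (VI c (fun s => om s * WW T s)) *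
        ((∑ k ∈ Finset.Icc 1 ⌊T ^ lam⌋₊, bb lam T k * bb lam T k / k : ℝ) : ℂ)‖ ≤
      5 + K * cG T + C * Real.log T * (Z * (T ^ (lam * c) * (1 + Real.log T))) := by
  classical
  obtain ⟨hL1, hL2, hL3, hL4, hL5, hL6, hL7, hL8, hL9⟩ := hLS
  obtain ⟨hP1, hP2, hP3, hP4, hP5, hP6, hP7, hP8⟩ := hPo
  obtain ⟨hD1, hD2, hD3, hD4⟩ := hDD
  obtain ⟨hALa, hAlg, hAone⟩ := hL4 c hc1
  obtain ⟨K9, T9, hK9⟩ := hL9 lam c hlam hc1
  obtain ⟨Cd, Td, hCd⟩ := hDi.2 lam hlam hlam1
  obtain ⟨C2, T2, hC20, hT21, hC2⟩ := hO2 c hc1 hc2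
  obtain ⟨Co, hCo0, hOm1, hOm2, hOm3, hOm4⟩ := hOm c hc1 hc2
  set A1 : ℝ := AN c La with hA1
  have hA10 : 0 ≤ A1 := tsum_nonneg (fun n => by positivity)
  refine ⟨C2, 2 * |Cd|, 8 + 2 * ∑' n : ℕ, (n : ℝ) ^ (-c), ?_⟩
  filter_upwards [hZ 6 c hc1 hc2, hTl 6 c (by linarith) (by linarith), hE lam c 1 hlam hlam1 hc1 hc2,
    hP3 lam hlam hlam1, eventually_ge_atTop T9, eventually_ge_atTop Td, eventually_ge_atTop T2,
    eventually_ge_atTop (16 : ℝ), eventually_ge_atTop (3 * Co + A1), eventually_ge_atTop (A1 * K9),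
    hD3] with T hZT hTT hET hPT hT9 hTd hT2 hT16 hTA hTK hDT
  have hT0 : 0 < T := by linarith
  have hT1 : 1 < T := by linarith
  have hcG : 0 < cG T := hDT.2.2.1
  have hTinv : 1 / T ≤ 1 := by rw [div_le_one hT0]; linarith
  set F : ℂ → ℂ := fun s => BB lam T s * BB lam T (1 - s) with hF
  have hBd : Differentiable ℂ (BB lam T) := hP5 lam T
  have hFd : Differentiable ℂ F := by
    apply hBd.mul
    exact hBd.comp ((differentiable_const _).sub differentiable_id)
  have hFconj : ∀ s : ℂ, (starRingEnd ℂ) (F (1 - (starRingEnd ℂ) s)) = F s := by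
    intro s
    simp only [hF]
    rw [map_mul, ← hP7, ← hP7, map_sub, map_one, Complex.conj_conj, map_sub, map_one, map_sub,
      map_one, Complex.conj_conj, mul_comm]
    congr 2
    ring
  have hZS : ZS T (fun s => BB lam T s * (starRingEnd ℂ) (BB lam T s)) = ZS T F := by
    unfold ZS
    apply finsum_mem_congr rfl
    intro γ _
    simp only [hF]
    rw [← hP7]
    congr 3
    simp only [map_add, map_mul, Complex.conj_ofReal, Complex.conj_I, map_div₀, map_one, map_ofNat]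
    ring
  rw [hZS]
  -- the zero-sum formula
  have hz := hZT F hFd.differentiableOn (fun s hs => by
    obtain ⟨h1, h2⟩ := hPT s hs
    simp only [hF]
    rw [norm_mul]
    have h6 : T ^ (6 : ℝ) = T ^ (3 : ℝ) * T ^ (3 : ℝ) := by
      rw [← Real.rpow_add hT0]; norm_num
    rw [h6]
    gcongr)
  simp_rw [hFconj] at hz
  set g1 : ℂ → ℂ := fun s => logDeriv riemannZeta s * F s with hg1
  set g3 : ℂ → ℂ := fun s => om s * F s with hg3
  set g2 : ℂ → ℂ := fun s => (om s + logDeriv riemannZeta s) * F s with hg2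
  have hline : Continuous (fun t : ℝ => (c + t * I : ℂ)) := by fun_prop
  have hre : ∀ t : ℝ, (c + t * I : ℂ).re = c := by intro t; simp
  have homc : Continuous (fun t : ℝ => om (c + t * I)) := by
    rw [continuous_iff_continuousAt]
    intro t
    exact ContinuousAt.comp (f := fun t : ℝ => (c + t * I : ℂ)) (g := om)
      (hOm3 t).continuousAt (by fun_prop)
  have hFc : Continuous (fun t : ℝ => F (c + t * I)) := hFd.continuous.comp hline
  have hFb : ∀ t : ℝ, ‖F (c + t * I)‖ ≤ T ^ 4 := by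
    intro t
    simp only [hF]
    rw [norm_mul]
    have h1 := norm_BB_le lam T hlam hlam1 hT1 (c + t * I) (by rw [hre]; linarith)
    have h2 := norm_BB_le lam T hlam hlam1 hT1 (1 - (c + t * I)) (by
      rw [Complex.sub_re, hre, Complex.one_re]; linarith)
    calc ‖BB lam T (c + t * I)‖ * ‖BB lam T (1 - (c + t * I))‖ ≤ T ^ 2 * T ^ 2 := by gcongr
      _ = T ^ 4 := by ring
  have hzeta : ∀ t : ℝ, ‖logDeriv riemannZeta (c + t * I)‖ ≤ A1 := by
    intro t
    have h1 := norm_LS_le La c hALa (c + t * I) (hre t)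
    rw [hL1 _ (by rw [hre]; exact hc1), norm_neg] at h1
    exact h1
  have homb : ∀ t : ℝ, ‖om (c + t * I)‖ ≤ 3 * Co * (1 + |t|) := by
    intro t
    have h4 := hOm1 t
    have h5 := log_bound t
    have h7 : Co * Real.log (3 + |t|) ≤ Co * (3 * (1 + |t|)) := by gcongr
    linarith
  have hsum : ∀ t : ℝ, ‖om (c + t * I)‖ + ‖logDeriv riemannZeta (c + t * I)‖ ≤ T * (1 + |t|) := by
    intro t
    have h1 := homb t
    have h2 := hzeta t
    have h3 := abs_nonneg t
    have h4 : (3 * Co + A1) * (1 + |t|) ≤ T * (1 + |t|) := by gcongr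
    nlinarith
  have hb5 : ∀ (t x y : ℝ), 0 ≤ x → x ≤ T * (1 + |t|) → 0 ≤ y → y ≤ T ^ 4 →
      x * y ≤ T ^ 6 * (1 + |t|) := by
    intro t x y hx0 hx hy0 hy
    have h3 := abs_nonneg t
    calc x * y ≤ (T * (1 + |t|)) * T ^ 4 := by gcongr
      _ = T ^ 5 * (1 + |t|) := by ring
      _ ≤ T ^ 6 * (1 + |t|) := by
          have : T ^ 5 ≤ T ^ 6 := pow_le_pow_right₀ hT1.le (by norm_num)
          gcongr
  obtain ⟨i1, t1⟩ := hTT g1 (by
    exact ((meas_zeta c hc1).mul hFc.measurable).aestronglyMeasurable) (fun t => by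
    apply poly_le _ _ _ hT1.le
    simp only [hg1]
    rw [norm_mul]
    exact hb5 t _ _ (norm_nonneg _) (by linarith [hsum t, norm_nonneg (om (c + t * I))])
      (norm_nonneg _) (hFb t))
  obtain ⟨i3, t3⟩ := hTT g3 (by
    exact (homc.mul hFc).aestronglyMeasurable) (fun t => by
    apply poly_le _ _ _ hT1.le
    simp only [hg3]
    rw [norm_mul]
    exact hb5 t _ _ (norm_nonneg _)
      (by linarith [hsum t, norm_nonneg (logDeriv riemannZeta (c + t * I))])
      (norm_nonneg _) (hFb t))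
  obtain ⟨i2, t2⟩ := hTT g2 (by
    exact ((homc.measurable.add (meas_zeta c hc1)).mul hFc.measurable).aestronglyMeasurable)
    (fun t => by
    apply poly_le _ _ _ hT1.le
    simp only [hg2]
    rw [norm_mul]
    exact hb5 t _ _ (norm_nonneg _) (le_trans (norm_add_le _ _) (hsum t))
      (norm_nonneg _) (hFb t))
  set V1 := VI c (fun s => g1 s * WW T s) with hV1
  set V3 := VI c (fun s => g3 s * WW T s) with hV3
  have hV2 : VI c (fun s => g2 s * WW T s) = V3 + V1 := by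
    rw [hV3, hV1, ← VI_add c _ _ i3 i1]
    apply VI_congr
    intro t
    simp only [hg1, hg2, hg3]
    ring
  -- the zeta part
  have hV1b : ‖V1‖ ≤ cG T * |Cd| + 1 := by
    have hbb := hL7 lam T c hlam hT1
    obtain ⟨h51, h52, h53⟩ := hL5 c La (bb lam T) hALa hbb.1
    have hab := hK9 T hT9
    have h52' : AN c (La * bb lam T) ≤ T := by
      refine le_trans h52 (le_trans ?_ hTK)
      gcongr
    have hnorm : ∀ n : ℕ, ‖(((La * bb lam T) n : ℝ) : ℂ)‖ * (n : ℝ) ^ (-c) =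
        |(La * bb lam T) n| * (n : ℝ) ^ (-c) := by
      intro n
      rw [Complex.norm_real, Real.norm_eq_abs]
    have he := hET (fun n => (((La * bb lam T) n : ℝ) : ℂ)) (fun k => ((bb lam T k : ℝ) : ℂ))
      (by simp_rw [hnorm]; exact h51) (by
        simp_rw [hnorm]
        rw [Real.rpow_one]
        exact h52') (fun k => by
        rw [Complex.norm_real, Real.norm_eq_abs, Real.rpow_one]
        linarith [abs_bb_le lam T hlam hT1 k])
    have h1 : VI c (fun s => LSeries (fun n => (((La * bb lam T) n : ℝ) : ℂ)) s *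
        (∑ k ∈ Finset.Icc 1 ⌊T ^ lam⌋₊, ((bb lam T k : ℝ) : ℂ) * (k : ℂ) ^ (-(1 - s))) * WW T s) =
        - V1 := by
      rw [hV1, ← VI_neg]
      apply VI_congr
      intro t
      have h2 : LSeries (fun n => (((La * bb lam T) n : ℝ) : ℂ)) (c + t * I) =
          (-logDeriv riemannZeta (c + t * I)) * BB lam T (c + t * I) := by
        have h3 := h53 (c + t * I) (hre t)
        rw [hL1 _ (by rw [hre]; exact hc1), hbb.2] at h3
        exact h3
      rw [h2]
      simp only [hg1, hF]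
      show _ * (dpoly (bb lam T) (T ^ lam) (1 - (c + t * I))) * _ = _
      unfold BB
      ring
    rw [h1] at he
    have h2 : (cG T : ℂ) * ∑ k ∈ Finset.Icc 1 ⌊T ^ lam⌋₊, (((La * bb lam T) k : ℝ) : ℂ) *
        ((bb lam T k : ℝ) : ℂ) / (k : ℂ) =
        ((cG T * ∑ k ∈ Finset.Icc 1 ⌊T ^ lam⌋₊, (La * bb lam T) k * bb lam T k / k : ℝ) : ℂ) := by
      push_cast
      rfl
    rw [h2] at he
    have h3 := hCd T hTd
    have h4 : ‖((cG T * ∑ k ∈ Finset.Icc 1 ⌊T ^ lam⌋₊, (La * bb lam T) k * bb lam T k / k : ℝ) : ℂ)‖ ≤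
        cG T * |Cd| := by
      rw [Complex.norm_real, Real.norm_eq_abs, abs_mul, abs_of_pos hcG]
      have := le_trans h3 (le_abs_self Cd)
      gcongr
    have h5 : ‖V1‖ = ‖-V1‖ := (norm_neg _).symm
    have h6 : ‖-V1‖ ≤ ‖-V1 - ((cG T * ∑ k ∈ Finset.Icc 1 ⌊T ^ lam⌋₊,
        (La * bb lam T) k * bb lam T k / k : ℝ) : ℂ)‖ + ‖((cG T * ∑ k ∈ Finset.Icc 1 ⌊T ^ lam⌋₊,
        (La * bb lam T) k * bb lam T k / k : ℝ) : ℂ)‖ := by
      have := norm_add_le (-V1 - ((cG T * ∑ k ∈ Finset.Icc 1 ⌊T ^ lam⌋₊,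
        (La * bb lam T) k * bb lam T k / k : ℝ) : ℂ)) ((cG T * ∑ k ∈ Finset.Icc 1 ⌊T ^ lam⌋₊,
        (La * bb lam T) k * bb lam T k / k : ℝ) : ℂ)
      rwa [sub_add_cancel] at this
    rw [h5]
    linarith
  -- the om part
  have hR := om_part lam c T hlam hlam1 hT16 hc1 hc2 C2 Co hC20 (fun r hr hr1 => hC2 T r hT2 hr hr1)
    hCo0 hOm1 hOm3 (by linarith) hTT
  set M : ℝ := ∑ k ∈ Finset.Icc 1 ⌊T ^ lam⌋₊, bb lam T k * bb lam T k / k with hM
  set U := VI c (fun s => om s * WW T s) with hU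
  have hV3' : VI c (fun s => (om s * (BB lam T s * BB lam T (1 - s))) * WW T s) = V3 := rfl
  rw [hV3'] at hR
  set Q1 := VF c T (fun s => g1 s * WW T s) with hQ1
  set Q2 := VF c T (fun s => g2 s * WW T s) with hQ2
  rw [hV2] at t2
  have hdec : ZS T F - (starRingEnd ℂ) U * (M : ℂ) =
      (ZS T F - (Q1 + (starRingEnd ℂ) Q2)) + (-(V1 - Q1)) + (-(starRingEnd ℂ) (V3 + V1 - Q2)) +
      V1 + (starRingEnd ℂ) V1 + (starRingEnd ℂ) (V3 - U * (M : ℂ)) := by
    simp only [map_sub, map_add, map_mul, Complex.conj_ofReal]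
    ring
  rw [hdec]
  have n1 : ‖ZS T F - (Q1 + (starRingEnd ℂ) Q2)‖ ≤ 1 := hz
  have n2 : ‖-(V1 - Q1)‖ ≤ 1 := by rw [norm_neg]; linarith
  have n3 : ‖-(starRingEnd ℂ) (V3 + V1 - Q2)‖ ≤ 1 := by
    rw [norm_neg, RCLike.norm_conj]; linarith
  have n4 : ‖(starRingEnd ℂ) V1‖ ≤ cG T * |Cd| + 1 := by rw [RCLike.norm_conj]; exact hV1b
  have n5 : ‖(starRingEnd ℂ) (V3 - U * (M : ℂ))‖ ≤
      C2 * Real.log T * ((8 + 2 * ∑' n : ℕ, (n : ℝ) ^ (-c)) * (T ^ (lam * c) * (1 + Real.log T))) := by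
    rw [RCLike.norm_conj]; exact hR
  refine le_trans (norm_add_le _ _) ?_
  refine le_trans (add_le_add_left (le_trans (norm_add_le _ _) (add_le_add_left
    (le_trans (norm_add_le _ _) (add_le_add_left (le_trans (norm_add_le _ _) (add_le_add_left
    (norm_add_le _ _) _)) _)) _)) _) ?_
  linarith

/-- ZBB. -/
theorem zbb (hZ : ZeroSumStatement) (hE : Edge1Statement) (hO1 : Om1Statement)
    (hO2 : Om2Statement) (hTl : TailStatement) (hPr : PrimeSumStatement)
    (hLS : LSerStatement) (hPo : PolyStatement) (hDi : DiagStatement) (hOm : OmLineStatement)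
    (hDD : DDStatement) : ZBBStatement := by
  intro lam hlam hlam1
  set c : ℝ := 1 + (1 - lam) / 4 with hc
  have hc1 : 1 < c := by rw [hc]; linarith
  have hc2 : c < 3 / 2 := by rw [hc]; linarith
  have hlc : lam * c < 1 := by rw [hc]; nlinarith
  set δ : ℝ := (1 - lam * c) / 2 with hδ
  have hδ0 : 0 < δ := by rw [hδ]; linarith
  have hδ1 : δ < 1 := by
    have : 0 < lam * c := by positivity
    rw [hδ]; linarith
  obtain ⟨C, K, Z, hkey⟩ := zbb_key lam c hlam hlam1 hc1 hc2 hZ hE hO2 hTl hLS hPo hDi hOm hDD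
  have h1 := hO1 c hc1 hc2
  have h2 := hPr.2 lam hlam hlam1
  obtain ⟨hD1, hD2, hD3, hD4⟩ := hDD
  set U : ℝ → ℂ := fun T => VI c (fun s => om s * WW T s) with hU
  set M : ℝ → ℝ := fun T => ∑ k ∈ Finset.Icc 1 ⌊T ^ lam⌋₊, bb lam T k * bb lam T k / k with hM
  set X : ℝ → ℂ := fun T => ZS T (fun s => BB lam T s * (starRingEnd ℂ) (BB lam T s)) with hX
  set Y : ℝ → ℝ := fun T => cG T * Real.log T with hY
  have hmainlim : Tendsto (fun T : ℝ => (starRingEnd ℂ) (U T / ((Y T : ℝ) : ℂ)) * ((M T : ℝ) : ℂ))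
      atTop (𝓝 (((1 / 12 : ℝ)) : ℂ)) := by
    have h3 : Tendsto (fun T : ℝ => (starRingEnd ℂ) (U T / ((Y T : ℝ) : ℂ))) atTop
        (𝓝 ((starRingEnd ℂ) 1)) := (Complex.continuous_conj.tendsto 1).comp h1
    have h4 : Tendsto (fun T : ℝ => ((M T : ℝ) : ℂ)) atTop (𝓝 (((1 / 12 : ℝ)) : ℂ)) :=
      (Complex.continuous_ofReal.tendsto _).comp h2
    have h5 := h3.mul h4
    rw [map_one, one_mul] at h5
    exact h5
  have herr : Tendsto (fun T : ℝ => 20 * T ^ (-(1 - δ)) + |K| / Real.log T +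
      4 * |C * Z| * (T ^ (-δ) + Real.log T / T ^ δ)) atTop (𝓝 0) := by
    have e1 : Tendsto (fun T : ℝ => 20 * T ^ (-(1 - δ))) atTop (𝓝 (20 * 0)) :=
      (tendsto_rpow_neg_atTop (by linarith : 0 < 1 - δ)).const_mul 20
    have e2 : Tendsto (fun T : ℝ => |K| / Real.log T) atTop (𝓝 0) :=
      Real.tendsto_log_atTop.const_div_atTop _
    have e3 : Tendsto (fun T : ℝ => T ^ (-δ)) atTop (𝓝 0) := tendsto_rpow_neg_atTop hδ0
    have e4 : Tendsto (fun T : ℝ => Real.log T / T ^ δ) atTop (𝓝 0) :=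
      (isLittleO_log_rpow_atTop hδ0).tendsto_div_nhds_zero
    have e5 := (e1.add e2).add ((e3.add e4).const_mul (4 * |C * Z|))
    simpa using e5
  have hbound : ∀ᶠ T : ℝ in atTop,
      ‖X T / ((Y T : ℝ) : ℂ) - (starRingEnd ℂ) (U T / ((Y T : ℝ) : ℂ)) * ((M T : ℝ) : ℂ)‖ ≤
      20 * T ^ (-(1 - δ)) + |K| / Real.log T + 4 * |C * Z| * (T ^ (-δ) + Real.log T / T ^ δ) := by
    filter_upwards [hkey, hD2 δ hδ0, hD3, eventually_ge_atTop (16 : ℝ)] with T hk hd hd3 hT16
    have hT0 : 0 < T := by linarith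
    have hT1 : 1 < T := by linarith
    have hcG : 0 < cG T := hd3.2.2.1
    have hL : 1 ≤ Real.log T := by
      rw [Real.le_log_iff_exp_le hT0]
      have := Real.exp_one_lt_d9
      linarith
    have hL0 : 0 < Real.log T := by linarith
    have hY0 : 0 < Y T := mul_pos hcG hL0
    have hp : 0 < T ^ (1 - δ) := by positivity
    have hcG2 : T ^ (1 - δ) / 4 ≤ cG T := by
      unfold cG
      have hpi : Real.sqrt Real.pi ≤ 2 := by
        rw [show (2 : ℝ) = Real.sqrt 4 by rw [show (4 : ℝ) = 2 ^ 2 by norm_num]; exact (Real.sqrt_sq (by norm_num)).symm]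
        exact Real.sqrt_le_sqrt Real.pi_le_four
      have hpi0 : 0 < Real.sqrt Real.pi := Real.sqrt_pos.2 Real.pi_pos
      have : 2 * Real.sqrt Real.pi ≤ 4 := by linarith
      have hDD0 : 0 ≤ DD T := by linarith [hd3.2.1]
      gcongr
    have hconj : (starRingEnd ℂ) (U T / ((Y T : ℝ) : ℂ)) = (starRingEnd ℂ) (U T) / ((Y T : ℝ) : ℂ) := by
      rw [map_div₀, Complex.conj_ofReal]
    have h3 : X T / ((Y T : ℝ) : ℂ) - (starRingEnd ℂ) (U T / ((Y T : ℝ) : ℂ)) * ((M T : ℝ) : ℂ) =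
        (X T - (starRingEnd ℂ) (U T) * ((M T : ℝ) : ℂ)) / ((Y T : ℝ) : ℂ) := by
      rw [hconj]
      ring
    rw [h3, norm_div, Complex.norm_real, Real.norm_eq_abs, abs_of_pos hY0]
    have hk' : ‖X T - (starRingEnd ℂ) (U T) * ((M T : ℝ) : ℂ)‖ ≤
        5 + K * cG T + C * Real.log T * (Z * (T ^ (lam * c) * (1 + Real.log T))) := hk
    have h4 : (5 + K * cG T + C * Real.log T * (Z * (T ^ (lam * c) * (1 + Real.log T)))) / Y T =
        5 / Y T + K / Real.log T + C * Z * (T ^ (lam * c) * (1 + Real.log T)) / cG T := by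
      simp only [hY]
      field_simp
    refine le_trans (div_le_div_of_nonneg_right hk' hY0.le) ?_
    rw [h4]
    have e1 : 5 / Y T ≤ 20 * T ^ (-(1 - δ)) := by
      have h5 : T ^ (1 - δ) / 4 ≤ Y T := by
        simp only [hY]
        nlinarith
      calc 5 / Y T ≤ 5 / (T ^ (1 - δ) / 4) := by gcongr
        _ = 20 * T ^ (-(1 - δ)) := by
            rw [Real.rpow_neg hT0.le]
            field_simp
            norm_num
    have e2 : K / Real.log T ≤ |K| / Real.log T := by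
      have := le_abs_self K
      gcongr
    have e3 : C * Z * (T ^ (lam * c) * (1 + Real.log T)) / cG T ≤
        4 * |C * Z| * (T ^ (-δ) + Real.log T / T ^ δ) := by
      have hq : 0 ≤ T ^ (lam * c) * (1 + Real.log T) := by positivity
      have h5 : C * Z * (T ^ (lam * c) * (1 + Real.log T)) / cG T ≤
          |C * Z| * (T ^ (lam * c) * (1 + Real.log T)) / (T ^ (1 - δ) / 4) := by
        have := le_abs_self (C * Z)
        gcongr
      refine le_trans h5 (le_of_eq ?_)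
      have h6 : T ^ (lam * c) = T ^ (-δ) * T ^ (1 - δ) := by
        rw [← Real.rpow_add hT0]
        congr 1
        rw [hδ]; ring
      have h7 : T ^ (-δ) = (T ^ δ)⁻¹ := Real.rpow_neg hT0.le _
      rw [h6, h7]
      field_simp
    linarith
  have hlim : Tendsto (fun T : ℝ => X T / ((Y T : ℝ) : ℂ)) atTop (𝓝 (((1 / 12 : ℝ)) : ℂ)) := by
    have h3 : Tendsto (fun T : ℝ => X T / ((Y T : ℝ) : ℂ) -
        (starRingEnd ℂ) (U T / ((Y T : ℝ) : ℂ)) * ((M T : ℝ) : ℂ)) atTop (𝓝 0) :=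
      squeeze_zero_norm' hbound herr
    have h4 := h3.add hmainlim
    simpa using h4
  have hre := (Complex.continuous_re.tendsto _).comp hlim
  rw [Complex.ofReal_re] at hre
  refine hre.congr (fun T => ?_)
  simp only [Function.comp]
  rw [Complex.div_ofReal_re]

end Pool.Agent.Lib.MP_6bc78b_nt.MS.P1.ZBB
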