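import Mathlib
import Pool.Agent.Lib.MP_6bc78b_nt.MS.P1.Iface
import Pool.Agent.Lib.MP_6bc78b_nt.MS.P1.ZBB

/-! Project MS, Part I, module ZB (helper65): the mean of the prime polynomial over the zeros. -/

set_option autoImplicit false

open Complex Filter Topology MeasureTheory ArithmeticFunction

namespace Pool.Agent.Lib.MP_6bc78b_nt.MS.P1.ZB

open Pool.Agent.Lib.MP_6bc78b_nt.MS Pool.Agent.Lib.MP_6bc78b_nt.MS.P1
open Pool.Agent.Lib.MP_6bc78b_nt.MS.P1.ZBB

/-- The values at `1`. -/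
lemma bb_one (lam T : ℝ) : bb lam T 1 = 0 := by
  show bbf lam T 1 = 0
  unfold bbf
  simp

lemma La_mul_bb_one (lam T : ℝ) : (La * bb lam T) 1 = 0 := by
  rw [ArithmeticFunction.mul_apply]
  simp [bb_one]

/-- The om-part. -/
lemma om_part (lam c T : ℝ) (hlam : 0 < lam) (hlam1 : lam < 1) (hT16 : 16 ≤ T)
    (hc1 : 1 < c) (hc2 : c < 3 / 2) (C2 Co : ℝ) (hC20 : 0 < C2)
    (hC2 : ∀ r : ℝ, 0 < r → r ≠ 1 →
      ‖VI c (fun s => om s * WW T s * (r : ℂ) ^ (-s))‖ ≤ C2 * Real.log T * r ^ (-c) / |Real.log r|)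
    (hCo0 : 0 < Co) (hOm1 : ∀ t : ℝ, ‖om (c + t * I)‖ ≤ Co * Real.log (3 + |t|))
    (hOm3 : ∀ t : ℝ, DifferentiableAt ℂ om (c + t * I)) (hCoT : 3 * Co ≤ T)
    (hTT : ∀ g : ℂ → ℂ,
      AEStronglyMeasurable (fun t : ℝ => g (c + t * I)) volume →
      (∀ t : ℝ, ‖g (c + t * I)‖ ≤ T ^ (6 : ℝ) * (1 + |t|) ^ (6 : ℝ)) →
        Integrable (fun t : ℝ => g (c + t * I) * WW T (c + t * I)) ∧
        ‖VI c (fun s => g s * WW T s) - VF c T (fun s => g s * WW T s)‖ ≤ 1 / T) :
    ‖VI c (fun s => (om s * BB lam T (1 - s)) * WW T s)‖ ≤ 2 * C2 * Real.log T * T ^ (lam * c) := by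
  classical
  have hT0 : 0 < T := by linarith
  have hT1 : 1 < T := by linarith
  set N : ℕ := ⌊T ^ lam⌋₊ with hN
  have hNT : (N : ℝ) ≤ T := floor_le lam T hlam1 hT1
  have hNl : (N : ℝ) ≤ T ^ lam := Nat.floor_le (by positivity)
  have hN1 : 1 ≤ N := by
    rw [hN, Nat.one_le_floor_iff]
    exact Real.one_le_rpow hT1.le hlam.le
  have hL0 : 0 < Real.log T := Real.log_pos hT1
  set G : ℕ → ℂ → ℂ := fun k s =>
    (((bb lam T k / k : ℝ)) : ℂ) * (om s * WW T s * (((1 : ℕ) : ℝ) / k : ℝ) ^ (-s))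
    with hG
  have homc : Continuous (fun t : ℝ => om (c + t * I)) := by
    rw [continuous_iff_continuousAt]
    intro t
    exact ContinuousAt.comp (f := fun t : ℝ => (c + t * I : ℂ)) (g := om)
      (hOm3 t).continuousAt (by fun_prop)
  have hint : ∀ k ∈ Finset.Icc 1 N, Integrable (fun t : ℝ => G k (c + t * I)) := by
    intro k hk
    rw [Finset.mem_Icc] at hk
    have hk' : (1 : ℝ) ≤ k := by exact_mod_cast hk.1
    have hr : 0 < ((1 : ℕ) : ℝ) / k := by positivity
    have hrc : ((((1 : ℕ) : ℝ) / k : ℝ) : ℂ) ≠ 0 := by exact_mod_cast hr.ne'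
    have h1 := (hTT (fun s => om s * ((((1 : ℕ) : ℝ) / k : ℝ) : ℂ) ^ (-s)) ?_ ?_).1
    · refine (h1.const_mul (((bb lam T k / k : ℝ)) : ℂ)).congr
        (Filter.Eventually.of_forall (fun t => ?_))
      simp only [hG]
      ring
    · apply Continuous.aestronglyMeasurable
      apply homc.mul
      exact Continuous.const_cpow (by fun_prop) (Or.inl hrc)
    · intro t
      apply poly_le _ _ _ hT1.le
      rw [norm_mul, Complex.norm_cpow_eq_rpow_re_of_pos hr]
      have h2 : (-(c + t * I : ℂ)).re = -c := by simp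
      rw [h2]
      have h3 : (((1 : ℕ) : ℝ) / k) ^ (-c) ≤ T ^ 2 := by
        rw [Real.rpow_neg hr.le, ← Real.inv_rpow hr.le, inv_div]
        have h4 : (k : ℝ) / ((1 : ℕ) : ℝ) ≤ T := by
          rw [Nat.cast_one, div_one]
          have : (k : ℝ) ≤ N := by exact_mod_cast hk.2
          linarith
        calc ((k : ℝ) / ((1 : ℕ) : ℝ)) ^ c ≤ T ^ c :=
              Real.rpow_le_rpow (by positivity) h4 (by linarith)
          _ ≤ T ^ (2 : ℝ) := Real.rpow_le_rpow_of_exponent_le hT1.le (by linarith)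
          _ = T ^ 2 := by norm_num
      have h4 := hOm1 t
      have h5 := log_bound t
      have h6 : ‖om (c + t * I)‖ ≤ T * (1 + |t|) := by
        have h7 : Co * Real.log (3 + |t|) ≤ Co * (3 * (1 + |t|)) := by gcongr
        have h8 : 3 * Co * (1 + |t|) ≤ T * (1 + |t|) := by
          have := abs_nonneg t
          gcongr
        linarith
      have h9 : (0 : ℝ) ≤ 1 + |t| := by linarith [abs_nonneg t]
      calc ‖om (c + t * I)‖ * (((1 : ℕ) : ℝ) / k) ^ (-c) ≤ (T * (1 + |t|)) * T ^ 2 := by gcongr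
        _ = T ^ 3 * (1 + |t|) := by ring
        _ ≤ T ^ 6 * (1 + |t|) := by
            have : T ^ 3 ≤ T ^ 6 := pow_le_pow_right₀ hT1.le (by norm_num)
            gcongr
  have hexp : VI c (fun s => (om s * BB lam T (1 - s)) * WW T s) =
      ∑ k ∈ Finset.Icc 1 N, VI c (G k) := by
    rw [← VI_sum c _ G hint]
    apply VI_congr
    intro t
    set s : ℂ := c + t * I with hs
    have h2 : BB lam T (1 - s) = ∑ k ∈ Finset.Icc 1 N,
        (((bb lam T k / k : ℝ)) : ℂ) * ((((1 : ℕ) : ℝ) / k : ℝ) : ℂ) ^ (-s) := by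
      unfold BB dpoly
      refine Finset.sum_congr rfl (fun k hk => ?_)
      rw [Finset.mem_Icc] at hk
      have h3 := ratio_cpow 1 k le_rfl hk.1 s
      rw [Nat.cast_one, Complex.one_cpow, one_mul] at h3
      rw [h3]
      push_cast
      ring
    rw [h2, Finset.mul_sum, Finset.sum_mul]
    refine Finset.sum_congr rfl (fun k _ => ?_)
    simp only [hG]
    ring
  rw [hexp]
  have hterm : ∀ k ∈ Finset.Icc 1 N, ‖VI c (G k)‖ ≤
      2 * C2 * Real.log T * (N : ℝ) ^ (c - 1) := by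
    intro k hk
    rw [Finset.mem_Icc] at hk
    have hk' : (1 : ℝ) ≤ k := by exact_mod_cast hk.1
    have hkN : (k : ℝ) ≤ N := by exact_mod_cast hk.2
    simp only [hG]
    rw [VI_const_mul, norm_mul]
    rcases Nat.eq_or_lt_of_le hk.1 with h1 | h1
    · subst h1
      rw [bb_one]
      simp only [zero_div, Complex.ofReal_zero, norm_zero, zero_mul]
      positivity
    · have hk2 : (2 : ℝ) ≤ k := by exact_mod_cast h1
      have hr : 0 < ((1 : ℕ) : ℝ) / k := by positivity
      have hr1 : ((1 : ℕ) : ℝ) / k ≠ 1 := by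
        rw [Nat.cast_one]
        intro h
        rw [div_eq_one_iff_eq (by linarith)] at h
        linarith
      have h2 := hC2 _ hr hr1
      have h3 : Real.log (((1 : ℕ) : ℝ) / k) = -Real.log k := by
        rw [Nat.cast_one, one_div, Real.log_inv]
      have hlog2 : 1 / 2 ≤ Real.log k := by
        have h4 : Real.log 2 ≤ Real.log k := Real.log_le_log (by norm_num) hk2
        have := Real.log_two_gt_d9
        linarith
      rw [h3, abs_neg, abs_of_pos (by linarith)] at h2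
      have h5 : (((1 : ℕ) : ℝ) / k) ^ (-c) = (k : ℝ) ^ c := by
        rw [Real.rpow_neg hr.le, ← Real.inv_rpow hr.le, inv_div, Nat.cast_one, div_one]
      rw [h5] at h2
      have h6 : ‖(((bb lam T k / k : ℝ)) : ℂ)‖ ≤ 1 / k := by
        rw [Complex.norm_real, Real.norm_eq_abs, abs_div, abs_of_pos (by linarith : (0 : ℝ) < k)]
        have := abs_bb_le lam T hlam hT1 k
        gcongr
      have h7 : C2 * Real.log T * (k : ℝ) ^ c / Real.log k ≤ 2 * (C2 * Real.log T * (k : ℝ) ^ c) := by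
        rw [div_le_iff₀ (by linarith)]
        have h8 : 0 ≤ C2 * Real.log T * (k : ℝ) ^ c := by positivity
        nlinarith
      have h9 : (k : ℝ) ^ c = k ^ (c - 1) * k := by
        conv_rhs => rw [← Real.rpow_one (k : ℝ), ← Real.rpow_mul (by linarith), one_mul,
          ← Real.rpow_add (by linarith)]
        congr 1
        ring
      have h10 : (k : ℝ) ^ (c - 1) ≤ (N : ℝ) ^ (c - 1) :=
        Real.rpow_le_rpow (by linarith) hkN (by linarith)
      calc ‖(((bb lam T k / k : ℝ)) : ℂ)‖ *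
            ‖VI c fun s => om s * WW T s * ((((1 : ℕ) : ℝ) / k : ℝ) : ℂ) ^ (-s)‖
          ≤ 1 / k * (2 * (C2 * Real.log T * (k : ℝ) ^ c)) := by
            have := h2.trans h7
            gcongr
        _ = 2 * C2 * Real.log T * (k : ℝ) ^ (c - 1) := by
            rw [h9]
            field_simp
        _ ≤ 2 * C2 * Real.log T * (N : ℝ) ^ (c - 1) := by gcongr
  refine le_trans (norm_sum_le _ _) (le_trans (Finset.sum_le_sum hterm) ?_)
  rw [Finset.sum_const, Nat.card_Icc, nsmul_eq_mul, Nat.add_sub_cancel]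
  have hN0 : (0 : ℝ) < N := by exact_mod_cast hN1
  have h3 : (N : ℝ) ^ c ≤ T ^ (lam * c) := by
    rw [Real.rpow_mul hT0.le]
    exact Real.rpow_le_rpow hN0.le hNl (by linarith)
  have h4 : (N : ℝ) * (N : ℝ) ^ (c - 1) = (N : ℝ) ^ c := by
    conv_lhs => rw [← Real.rpow_one (N : ℝ), ← Real.rpow_mul hN0.le, one_mul,
      ← Real.rpow_add hN0]
    congr 1
    ring
  calc (N : ℝ) * (2 * C2 * Real.log T * (N : ℝ) ^ (c - 1)) =
        2 * C2 * Real.log T * ((N : ℝ) * (N : ℝ) ^ (c - 1)) := by ring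
    _ ≤ 2 * C2 * Real.log T * T ^ (lam * c) := by
        rw [h4]
        gcongr

/-- The estimate for one `T`. -/
lemma zb_key (lam c : ℝ) (hlam : 0 < lam) (hlam1 : lam < 1) (hc1 : 1 < c) (hc2 : c < 3 / 2)
    (hZ : ZeroSumStatement) (hE0 : Edge0Statement) (hE : Edge1Statement) (hO2 : Om2Statement)
    (hTl : TailStatement) (hLS : LSerStatement) (hPo : PolyStatement) (hOm : OmLineStatement)
    (hDD : DDStatement) :
    ∃ C : ℝ, ∀ᶠ T : ℝ in atTop,
      ‖ZS T (BB lam T) +
        ((cG T * ∑ k ∈ Finset.Icc 1 ⌊T ^ lam⌋₊, La k * bb lam T k / k : ℝ) : ℂ)‖ ≤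
      6 + C * Real.log T * T ^ (lam * c) := by
  classical
  obtain ⟨hL1, hL2, hL3, hL4, hL5, hL6, hL7, hL8, hL9⟩ := hLS
  obtain ⟨hP1, hP2, hP3, hP4, hP5, hP6, hP7, hP8⟩ := hPo
  obtain ⟨hD1, hD2, hD3, hD4⟩ := hDD
  obtain ⟨hALa, hAlg, hAone⟩ := hL4 c hc1
  obtain ⟨K9, T9, hK9⟩ := hL9 lam c hlam hc1
  obtain ⟨C2, T2, hC20, hT21, hC2⟩ := hO2 c hc1 hc2
  obtain ⟨Co, hCo0, hOm1, hOm2, hOm3, hOm4⟩ := hOm c hc1 hc2
  set A1 : ℝ := AN c La with hA1
  have hA10 : 0 ≤ A1 := tsum_nonneg (fun n => by positivity)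
  refine ⟨2 * C2, ?_⟩
  filter_upwards [hZ 6 c hc1 hc2, hTl 6 c (by linarith) (by linarith), hE0 c 1 hc1 hc2,
    hE lam c 1 hlam hlam1 hc1 hc2,
    hP3 lam hlam hlam1, eventually_ge_atTop T9, eventually_ge_atTop T2,
    eventually_ge_atTop (16 : ℝ), eventually_ge_atTop (3 * Co + A1), eventually_ge_atTop (A1 * K9),
    hD3] with T hZT hTT hE0T hET hPT hT9 hT2 hT16 hTA hTK hDT
  have hT0 : 0 < T := by linarith
  have hT1 : 1 < T := by linarith
  have hcG : 0 < cG T := hDT.2.2.1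
  have hTinv : 1 / T ≤ 1 := by rw [div_le_one hT0]; linarith
  have hBd : Differentiable ℂ (BB lam T) := hP5 lam T
  have hB1d : Differentiable ℂ (fun s => BB lam T (1 - s)) :=
    hBd.comp ((differentiable_const _).sub differentiable_id)
  have hFconj : ∀ s : ℂ, (starRingEnd ℂ) (BB lam T (1 - (starRingEnd ℂ) s)) = BB lam T (1 - s) := by
    intro s
    rw [← hP7, map_sub, map_one, Complex.conj_conj]
  -- the zero-sum formula
  have hz := hZT (BB lam T) hBd.differentiableOn (fun s hs => by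
    obtain ⟨h1, h2⟩ := hPT s hs
    exact h1.trans (Real.rpow_le_rpow_of_exponent_le hT1.le (by norm_num)))
  simp_rw [hFconj] at hz
  set g1 : ℂ → ℂ := fun s => logDeriv riemannZeta s * BB lam T s with hg1
  set g3 : ℂ → ℂ := fun s => om s * BB lam T (1 - s) with hg3
  set g4 : ℂ → ℂ := fun s => logDeriv riemannZeta s * BB lam T (1 - s) with hg4
  set g2 : ℂ → ℂ := fun s => (om s + logDeriv riemannZeta s) * BB lam T (1 - s) with hg2
  have hline : Continuous (fun t : ℝ => (c + t * I : ℂ)) := by fun_prop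
  have hre : ∀ t : ℝ, (c + t * I : ℂ).re = c := by intro t; simp
  have homc : Continuous (fun t : ℝ => om (c + t * I)) := by
    rw [continuous_iff_continuousAt]
    intro t
    exact ContinuousAt.comp (f := fun t : ℝ => (c + t * I : ℂ)) (g := om)
      (hOm3 t).continuousAt (by fun_prop)
  have hBc : Continuous (fun t : ℝ => BB lam T (c + t * I)) := hBd.continuous.comp hline
  have hB1c : Continuous (fun t : ℝ => BB lam T (1 - (c + t * I))) := hB1d.continuous.comp hline
  have hT24 : T ^ 2 ≤ T ^ 4 := pow_le_pow_right₀ hT1.le (by norm_num)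
  have hBb : ∀ t : ℝ, ‖BB lam T (c + t * I)‖ ≤ T ^ 4 := fun t =>
    (norm_BB_le lam T hlam hlam1 hT1 (c + t * I) (by rw [hre]; linarith)).trans hT24
  have hB1b : ∀ t : ℝ, ‖BB lam T (1 - (c + t * I))‖ ≤ T ^ 4 := fun t =>
    (norm_BB_le lam T hlam hlam1 hT1 (1 - (c + t * I)) (by
      rw [Complex.sub_re, hre, Complex.one_re]; linarith)).trans hT24
  have hzeta : ∀ t : ℝ, ‖logDeriv riemannZeta (c + t * I)‖ ≤ A1 := by
    intro t
    have h1 := norm_LS_le La c hALa (c + t * I) (hre t)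
    rw [hL1 _ (by rw [hre]; exact hc1), norm_neg] at h1
    exact h1
  have homb : ∀ t : ℝ, ‖om (c + t * I)‖ ≤ 3 * Co * (1 + |t|) := by
    intro t
    have h4 := hOm1 t
    have h5 := log_bound t
    have h7 : Co * Real.log (3 + |t|) ≤ Co * (3 * (1 + |t|)) := by gcongr
    linarith
  have hsum : ∀ t : ℝ, ‖om (c + t * I)‖ + ‖logDeriv riemannZeta (c + t * I)‖ ≤ T * (1 + |t|) := by
    intro t
    have h1 := homb t
    have h2 := hzeta t
    have h3 := abs_nonneg t
    have h4 : (3 * Co + A1) * (1 + |t|) ≤ T * (1 + |t|) := by gcongr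
    nlinarith
  have hb5 : ∀ (t x y : ℝ), 0 ≤ x → x ≤ T * (1 + |t|) → 0 ≤ y → y ≤ T ^ 4 →
      x * y ≤ T ^ 6 * (1 + |t|) := by
    intro t x y hx0 hx hy0 hy
    have h3 := abs_nonneg t
    calc x * y ≤ (T * (1 + |t|)) * T ^ 4 := by gcongr
      _ = T ^ 5 * (1 + |t|) := by ring
      _ ≤ T ^ 6 * (1 + |t|) := by
          have : T ^ 5 ≤ T ^ 6 := pow_le_pow_right₀ hT1.le (by norm_num)
          gcongr
  obtain ⟨i1, t1⟩ := hTT g1 (by
    exact ((meas_zeta c hc1).mul hBc.measurable).aestronglyMeasurable) (fun t => by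
    apply poly_le _ _ _ hT1.le
    simp only [hg1]
    rw [norm_mul]
    exact hb5 t _ _ (norm_nonneg _) (by linarith [hsum t, norm_nonneg (om (c + t * I))])
      (norm_nonneg _) (hBb t))
  obtain ⟨i4, -⟩ := hTT g4 (by
    exact ((meas_zeta c hc1).mul hB1c.measurable).aestronglyMeasurable) (fun t => by
    apply poly_le _ _ _ hT1.le
    simp only [hg4]
    rw [norm_mul]
    exact hb5 t _ _ (norm_nonneg _) (by linarith [hsum t, norm_nonneg (om (c + t * I))])
      (norm_nonneg _) (hB1b t))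
  obtain ⟨i3, -⟩ := hTT g3 (by
    exact (homc.mul hB1c).aestronglyMeasurable) (fun t => by
    apply poly_le _ _ _ hT1.le
    simp only [hg3]
    rw [norm_mul]
    exact hb5 t _ _ (norm_nonneg _)
      (by linarith [hsum t, norm_nonneg (logDeriv riemannZeta (c + t * I))])
      (norm_nonneg _) (hB1b t))
  obtain ⟨i2, t2⟩ := hTT g2 (by
    exact ((homc.measurable.add (meas_zeta c hc1)).mul hB1c.measurable).aestronglyMeasurable)
    (fun t => by
    apply poly_le _ _ _ hT1.le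
    simp only [hg2]
    rw [norm_mul]
    exact hb5 t _ _ (norm_nonneg _) (le_trans (norm_add_le _ _) (hsum t))
      (norm_nonneg _) (hB1b t))
  set V1 := VI c (fun s => g1 s * WW T s) with hV1
  set V3 := VI c (fun s => g3 s * WW T s) with hV3
  set V4 := VI c (fun s => g4 s * WW T s) with hV4
  have hV2 : VI c (fun s => g2 s * WW T s) = V3 + V4 := by
    rw [hV3, hV4, ← VI_add c _ _ i3 i4]
    apply VI_congr
    intro t
    simp only [hg4, hg2, hg3]
    ring
  have hbb := hL7 lam T c hlam hT1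
  -- the first edge
  have hV1b : ‖V1‖ ≤ 1 := by
    obtain ⟨h51, h52, h53⟩ := hL5 c La (bb lam T) hALa hbb.1
    have hab := hK9 T hT9
    have h52' : AN c (La * bb lam T) ≤ T := by
      refine le_trans h52 (le_trans ?_ hTK)
      gcongr
    have hnorm : ∀ n : ℕ, ‖(((La * bb lam T) n : ℝ) : ℂ)‖ * (n : ℝ) ^ (-c) =
        |(La * bb lam T) n| * (n : ℝ) ^ (-c) := by
      intro n
      rw [Complex.norm_real, Real.norm_eq_abs]
    have he := hE0T (fun n => (((La * bb lam T) n : ℝ) : ℂ))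
      (by rw [La_mul_bb_one]; simp)
      (by simp_rw [hnorm]; exact h51) (by
        simp_rw [hnorm]
        rw [Real.rpow_one]
        exact h52')
    have h1 : VI c (fun s => LSeries (fun n => (((La * bb lam T) n : ℝ) : ℂ)) s * WW T s) =
        - V1 := by
      rw [hV1, ← VI_neg]
      apply VI_congr
      intro t
      have h2 : LSeries (fun n => (((La * bb lam T) n : ℝ) : ℂ)) (c + t * I) =
          (-logDeriv riemannZeta (c + t * I)) * BB lam T (c + t * I) := by
        have h3 := h53 (c + t * I) (hre t)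
        rw [hL1 _ (by rw [hre]; exact hc1), hbb.2] at h3
        exact h3
      rw [h2]
      simp only [hg1]
      ring
    rw [h1, norm_neg] at he
    linarith
  -- the diagonal
  set M : ℝ := ∑ k ∈ Finset.Icc 1 ⌊T ^ lam⌋₊, La k * bb lam T k / k with hM
  have hV4b : ‖V4 + ((cG T * M : ℝ) : ℂ)‖ ≤ 1 := by
    have hnorm : ∀ n : ℕ, ‖((La n : ℝ) : ℂ)‖ * (n : ℝ) ^ (-c) = |La n| * (n : ℝ) ^ (-c) := by
      intro n
      rw [Complex.norm_real, Real.norm_eq_abs]
    have he := hET (fun n => ((La n : ℝ) : ℂ)) (fun k => ((bb lam T k : ℝ) : ℂ))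
      (by simp_rw [hnorm]; exact hALa) (by
        simp_rw [hnorm]
        rw [Real.rpow_one]
        show A1 ≤ T
        linarith) (fun k => by
        rw [Complex.norm_real, Real.norm_eq_abs, Real.rpow_one]
        linarith [abs_bb_le lam T hlam hT1 k])
    have h1 : VI c (fun s => LSeries (fun n => ((La n : ℝ) : ℂ)) s *
        (∑ k ∈ Finset.Icc 1 ⌊T ^ lam⌋₊, ((bb lam T k : ℝ) : ℂ) * (k : ℂ) ^ (-(1 - s))) * WW T s) =
        - V4 := by
      rw [hV4, ← VI_neg]
      apply VI_congr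
      intro t
      have h2 : LSeries (fun n => ((La n : ℝ) : ℂ)) (c + t * I) =
          (-logDeriv riemannZeta (c + t * I)) := hL1 _ (by rw [hre]; exact hc1)
      rw [h2]
      simp only [hg4]
      show _ * (dpoly (bb lam T) (T ^ lam) (1 - (c + t * I))) * _ = _
      unfold BB
      ring
    rw [h1] at he
    have h2 : (cG T : ℂ) * ∑ k ∈ Finset.Icc 1 ⌊T ^ lam⌋₊, ((La k : ℝ) : ℂ) *
        ((bb lam T k : ℝ) : ℂ) / (k : ℂ) = ((cG T * M : ℝ) : ℂ) := by
      rw [hM]
      push_cast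
      rfl
    rw [h2] at he
    have h3 : V4 + ((cG T * M : ℝ) : ℂ) = -(-V4 - ((cG T * M : ℝ) : ℂ)) := by ring
    rw [h3, norm_neg]
    linarith
  -- the om part
  have hR := om_part lam c T hlam hlam1 hT16 hc1 hc2 C2 Co hC20 (fun r hr hr1 => hC2 T r hT2 hr hr1)
    hCo0 hOm1 hOm3 (by linarith) hTT
  have hV3' : VI c (fun s => (om s * BB lam T (1 - s)) * WW T s) = V3 := rfl
  rw [hV3'] at hR
  set Q1 := VF c T (fun s => g1 s * WW T s) with hQ1
  set Q2 := VF c T (fun s => g2 s * WW T s) with hQ2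
  rw [hV2] at t2
  have hdec : ZS T (BB lam T) + ((cG T * M : ℝ) : ℂ) =
      (ZS T (BB lam T) - (Q1 + (starRingEnd ℂ) Q2)) + (-(V1 - Q1)) +
      (-(starRingEnd ℂ) (V3 + V4 - Q2)) +
      V1 + (starRingEnd ℂ) (V4 + ((cG T * M : ℝ) : ℂ)) + (starRingEnd ℂ) V3 := by
    simp only [map_sub, map_add, Complex.conj_ofReal]
    ring
  rw [hdec]
  have n1 : ‖ZS T (BB lam T) - (Q1 + (starRingEnd ℂ) Q2)‖ ≤ 1 := hz
  have n2 : ‖-(V1 - Q1)‖ ≤ 1 := by rw [norm_neg]; linarith
  have n3 : ‖-(starRingEnd ℂ) (V3 + V4 - Q2)‖ ≤ 1 := by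
    rw [norm_neg, RCLike.norm_conj]; linarith
  have n4 : ‖(starRingEnd ℂ) (V4 + ((cG T * M : ℝ) : ℂ))‖ ≤ 1 := by
    rw [RCLike.norm_conj]; exact hV4b
  have n5 : ‖(starRingEnd ℂ) V3‖ ≤ 2 * C2 * Real.log T * T ^ (lam * c) := by
    rw [RCLike.norm_conj]; exact hR
  refine le_trans (norm_add_le _ _) ?_
  refine le_trans (add_le_add_left (le_trans (norm_add_le _ _) (add_le_add_left
    (le_trans (norm_add_le _ _) (add_le_add_left (le_trans (norm_add_le _ _) (add_le_add_left
    (norm_add_le _ _) _)) _)) _)) _) ?_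
  linarith

/-- ZB. -/
theorem zb (hZ : ZeroSumStatement) (hE0 : Edge0Statement) (hE : Edge1Statement)
    (hO2 : Om2Statement) (hTl : TailStatement) (hPr : PrimeSumStatement)
    (hLS : LSerStatement) (hPo : PolyStatement) (hOm : OmLineStatement)
    (hDD : DDStatement) : ZBStatement := by
  intro lam hlam hlam1
  set c : ℝ := 1 + (1 - lam) / 4 with hc
  have hc1 : 1 < c := by rw [hc]; linarith
  have hc2 : c < 3 / 2 := by rw [hc]; linarith
  have hlc : lam * c < 1 := by rw [hc]; nlinarith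
  set δ : ℝ := (1 - lam * c) / 2 with hδ
  have hδ0 : 0 < δ := by rw [hδ]; linarith
  have hδ1 : δ < 1 := by
    have : 0 < lam * c := by positivity
    rw [hδ]; linarith
  obtain ⟨C, hkey⟩ := zb_key lam c hlam hlam1 hc1 hc2 hZ hE0 hE hO2 hTl hLS hPo hOm hDD
  have h2 := hPr.1 lam hlam hlam1
  obtain ⟨hD1, hD2, hD3, hD4⟩ := hDD
  set M : ℝ → ℝ := fun T => ∑ k ∈ Finset.Icc 1 ⌊T ^ lam⌋₊, La k * bb lam T k / k with hM
  set X : ℝ → ℝ := fun T => (ZS T (BB lam T)).re with hX
  set Y : ℝ → ℝ := fun T => cG T * Real.log T with hY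
  have herr : Tendsto (fun T : ℝ => 24 * T ^ (-(1 - δ)) + 4 * |C| * T ^ (-δ)) atTop (𝓝 0) := by
    have e1 : Tendsto (fun T : ℝ => 24 * T ^ (-(1 - δ))) atTop (𝓝 (24 * 0)) :=
      (tendsto_rpow_neg_atTop (by linarith : 0 < 1 - δ)).const_mul 24
    have e3 : Tendsto (fun T : ℝ => T ^ (-δ)) atTop (𝓝 0) := tendsto_rpow_neg_atTop hδ0
    have e5 := e1.add (e3.const_mul (4 * |C|))
    simpa using e5
  have hbound : ∀ᶠ T : ℝ in atTop, ‖X T / Y T + M T / Real.log T‖ ≤
      24 * T ^ (-(1 - δ)) + 4 * |C| * T ^ (-δ) := by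
    filter_upwards [hkey, hD2 δ hδ0, hD3, eventually_ge_atTop (16 : ℝ)] with T hk hd hd3 hT16
    have hT0 : 0 < T := by linarith
    have hT1 : 1 < T := by linarith
    have hcG : 0 < cG T := hd3.2.2.1
    have hL : 1 ≤ Real.log T := by
      rw [Real.le_log_iff_exp_le hT0]
      have := Real.exp_one_lt_d9
      linarith
    have hL0 : 0 < Real.log T := by linarith
    have hY0 : 0 < Y T := mul_pos hcG hL0
    have hp : 0 < T ^ (1 - δ) := by positivity
    have hcG2 : T ^ (1 - δ) / 4 ≤ cG T := by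
      unfold cG
      have hpi : Real.sqrt Real.pi ≤ 2 := by
        rw [show (2 : ℝ) = Real.sqrt 4 by rw [show (4 : ℝ) = 2 ^ 2 by norm_num]; exact (Real.sqrt_sq (by norm_num)).symm]
        exact Real.sqrt_le_sqrt Real.pi_le_four
      have hpi0 : 0 < Real.sqrt Real.pi := Real.sqrt_pos.2 Real.pi_pos
      have : 2 * Real.sqrt Real.pi ≤ 4 := by linarith
      have hDD0 : 0 ≤ DD T := by linarith [hd3.2.1]
      gcongr
    have h3 : X T / Y T + M T / Real.log T = (X T + cG T * M T) / Y T := by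
      simp only [hY]
      field_simp
    rw [h3, norm_div, Real.norm_eq_abs, Real.norm_eq_abs, abs_of_pos hY0]
    have hk' : |X T + cG T * M T| ≤ 6 + C * Real.log T * T ^ (lam * c) := by
      refine le_trans ?_ hk
      have h5 := Complex.abs_re_le_norm (ZS T (BB lam T) + ((cG T * M T : ℝ) : ℂ))
      rw [Complex.add_re, Complex.ofReal_re] at h5
      exact h5
    have h4 : (6 + C * Real.log T * T ^ (lam * c)) / Y T =
        6 / Y T + C * T ^ (lam * c) / cG T := by
      simp only [hY]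
      field_simp
    refine le_trans (div_le_div_of_nonneg_right hk' hY0.le) ?_
    rw [h4]
    have e1 : 6 / Y T ≤ 24 * T ^ (-(1 - δ)) := by
      have h5 : T ^ (1 - δ) / 4 ≤ Y T := by
        simp only [hY]
        nlinarith
      calc 6 / Y T ≤ 6 / (T ^ (1 - δ) / 4) := by gcongr
        _ = 24 * T ^ (-(1 - δ)) := by
            rw [Real.rpow_neg hT0.le]
            field_simp
            norm_num
    have e3 : C * T ^ (lam * c) / cG T ≤ 4 * |C| * T ^ (-δ) := by
      have hq : 0 ≤ T ^ (lam * c) := by positivity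
      have h5 : C * T ^ (lam * c) / cG T ≤ |C| * T ^ (lam * c) / (T ^ (1 - δ) / 4) := by
        have := le_abs_self C
        gcongr
      refine le_trans h5 (le_of_eq ?_)
      have h6 : T ^ (lam * c) = T ^ (-δ) * T ^ (1 - δ) := by
        rw [← Real.rpow_add hT0]
        congr 1
        rw [hδ]; ring
      rw [h6]
      field_simp
    linarith
  have h3 : Tendsto (fun T : ℝ => X T / Y T + M T / Real.log T) atTop (𝓝 0) :=
    squeeze_zero_norm' hbound herr
  have h4 := h3.sub h2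
  rw [zero_sub] at h4
  refine h4.congr fun T => ?_
  simp only [hX, hM, hY]
  ring

end Pool.Agent.Lib.MP_6bc78b_nt.MS.P1.ZB
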