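import Pool.Agent.Lib.MP_6bc78b_nt.MS.P1.Iface

/-! Project MS, Part I, module DDF: elementary facts on `DD` and `cG`. -/

set_option autoImplicit false

open Complex Filter Topology MeasureTheory

namespace Pool.Agent.Lib.MP_6bc78b_nt.MS.P1.DDF

theorem log_rpow_le (a δ : ℝ) (hδ : 0 < δ) : ∀ᶠ T : ℝ in atTop, Real.log T ^ a ≤ T ^ δ := by
  have h := (isLittleO_log_rpow_rpow_atTop a hδ).bound one_pos
  filter_upwards [h, eventually_gt_atTop 1] with T hT hT1
  have h1 : 0 ≤ Real.log T ^ a := Real.rpow_nonneg (Real.log_nonneg hT1.le) _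
  have h2 : 0 ≤ T ^ δ := Real.rpow_nonneg (by linarith) _
  rwa [one_mul, Real.norm_of_nonneg h1, Real.norm_of_nonneg h2] at hT

theorem dd_lower (δ : ℝ) (hδ : 0 < δ) : ∀ᶠ T : ℝ in atTop, T ^ (1 - δ) ≤ DD T := by
  filter_upwards [log_rpow_le (2 / 3) δ hδ, eventually_gt_atTop 1] with T hT hT1
  have hT0 : 0 < T := by linarith
  have h1 : 0 < Real.log T ^ (2 / 3 : ℝ) := Real.rpow_pos_of_pos (Real.log_pos hT1) _
  rw [DD, le_div_iff₀ h1]
  calc T ^ (1 - δ) * Real.log T ^ (2 / 3 : ℝ) ≤ T ^ (1 - δ) * T ^ δ :=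
        mul_le_mul_of_nonneg_left hT (Real.rpow_nonneg hT0.le _)
    _ = T := by rw [← Real.rpow_add hT0]; simp

/-- `exp(-x) ≤ T^(-A)` if `A log T ≤ x`. -/
theorem exp_le_rpow {T x A : ℝ} (hT : 0 < T) (h : A * Real.log T ≤ x) :
    Real.exp (-x) ≤ T ^ (-A) := by
  rw [Real.rpow_def_of_pos hT]
  apply Real.exp_le_exp.2
  linarith

theorem ddf : DDStatement := by
  refine ⟨fun A => ?_, fun δ hδ => dd_lower δ hδ, ?_, fun lam A hlam => ?_⟩
  · have hl : Tendsto (fun T : ℝ => Real.log T ^ (1 / 3 : ℝ)) atTop atTop :=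
      (tendsto_rpow_atTop (by norm_num)).comp Real.tendsto_log_atTop
    filter_upwards [hl.eventually_ge_atTop (16 * A), eventually_gt_atTop 1] with T hT hT1
    have hT0 : 0 < T := by linarith
    have hL : 0 < Real.log T := Real.log_pos hT1
    apply exp_le_rpow hT0
    have h1 : T ^ 2 / (16 * DD T ^ 2) = Real.log T ^ (1 / 3 : ℝ) * Real.log T / 16 := by
      have h2 : Real.log T ^ (1 / 3 : ℝ) * Real.log T = (Real.log T ^ (2 / 3 : ℝ)) ^ 2 := by
        rw [← Real.rpow_natCast, ← Real.rpow_mul hL.le]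
        nth_rewrite 2 [← Real.rpow_one (Real.log T)]
        rw [← Real.rpow_add hL]
        norm_num
      rw [h2, DD]
      have h3 : 0 < Real.log T ^ (2 / 3 : ℝ) := Real.rpow_pos_of_pos hL _
      field_simp
    rw [h1]
    nlinarith
  · have hcG : ∀ T : ℝ, cG T = DD T / (2 * Real.sqrt Real.pi) := fun T => rfl
    have hpi : 1 ≤ 2 * Real.sqrt Real.pi := by
      have h1 : 1 ≤ Real.sqrt Real.pi := by
        rw [Real.one_le_sqrt]
        linarith [Real.pi_gt_three]
      linarith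
    filter_upwards [dd_lower 1 one_pos, eventually_ge_atTop (Real.exp 1)] with T h1 hT
    have hT0 : 0 < T := (Real.exp_pos 1).trans_le hT
    have hL : 1 ≤ Real.log T := by
      rw [Real.le_log_iff_exp_le hT0]; exact hT
    have h2 : 1 ≤ Real.log T ^ (2 / 3 : ℝ) := Real.one_le_rpow hL (by norm_num)
    have h3 : DD T ≤ T := by
      rw [DD]
      exact div_le_self hT0.le h2
    have h4 : 1 ≤ DD T := by
      simpa using h1
    have h5 : 0 < cG T := by
      rw [hcG]; positivity
    refine ⟨h3, h4, h5, ?_⟩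
    rw [hcG]
    exact (div_le_self (by linarith) hpi).trans h3
  · have hd : 0 < (1 - lam) / 2 := by linarith
    have hlog := log_rpow_le 2 ((1 - lam) / 2) hd
    filter_upwards [dd_lower ((1 - lam) / 2) hd, hlog,
      (tendsto_rpow_atTop (show 0 < (1 - lam) / 2 by linarith)).eventually_ge_atTop (64 * |A|),
      eventually_ge_atTop (Real.exp 1)] with T h1 h2 h3 hT
    have hT0 : 0 < T := (Real.exp_pos 1).trans_le hT
    have hL : 1 ≤ Real.log T := by
      rw [Real.le_log_iff_exp_le hT0]; exact hT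
    apply exp_le_rpow hT0
    have h4 : T ^ (1 - lam) ≤ DD T ^ 2 * T ^ (-(2 * lam)) := by
      have h5 : (T ^ (1 - (1 - lam) / 2)) ^ 2 ≤ DD T ^ 2 :=
        pow_le_pow_left₀ (Real.rpow_nonneg hT0.le _) h1 2
      calc T ^ (1 - lam) = (T ^ (1 - (1 - lam) / 2)) ^ 2 * T ^ (-(2 * lam)) := by
            rw [← Real.rpow_natCast, ← Real.rpow_mul hT0.le, ← Real.rpow_add hT0]
            congr 1
            push_cast
            ring
        _ ≤ DD T ^ 2 * T ^ (-(2 * lam)) :=
            mul_le_mul_of_nonneg_right h5 (Real.rpow_nonneg hT0.le _)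
    have h6 : T ^ (1 - lam) = T ^ ((1 - lam) / 2) * T ^ ((1 - lam) / 2) := by
      rw [← Real.rpow_add hT0]; congr 1; ring
    have h7 : Real.log T ≤ T ^ ((1 - lam) / 2) := by
      refine le_trans ?_ h2
      have : Real.log T ^ (2 : ℝ) = Real.log T * Real.log T := by
        rw [Real.rpow_two]; ring
      rw [this]
      nlinarith
    have h8 : 64 * |A| * Real.log T ≤ T ^ (1 - lam) := by
      rw [h6]
      exact mul_le_mul h3 h7 (by linarith) (by positivity)
    have h9 : A * Real.log T ≤ |A| * Real.log T :=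
      mul_le_mul_of_nonneg_right (le_abs_self A) (by linarith)
    linarith

end Pool.Agent.Lib.MP_6bc78b_nt.MS.P1.DDF
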