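import Pool.Agent.Lib.MP_6bc78b_nt.MS.P1.Iface

/-! Project MS, Part I, module GAU: the Gaussian weight on vertical lines. -/

set_option autoImplicit false

open Complex Filter Topology MeasureTheory

namespace Pool.Agent.Lib.MP_6bc78b_nt.MS.P1.GAU

open Pool.Agent.Lib.MP_6bc78b_nt.MS Pool.Agent.Lib.MP_6bc78b_nt.MS.P1

lemma WW_symm (T : ℝ) (s : ℂ) : WW T (1 - (starRingEnd ℂ) s) = (starRingEnd ℂ) (WW T s) := by
  unfold WW
  rw [← Complex.exp_conj]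
  congr 1
  simp only [map_div₀, map_pow, map_sub, map_mul, Complex.conj_ofReal, Complex.conj_I, map_one,
    map_ofNat]
  congr 1
  ring

lemma norm_WW (T c t : ℝ) :
    ‖WW T (c + t * I)‖ = Real.exp (((c - 1 / 2) ^ 2 - (t - T) ^ 2) / DD T ^ 2) := by
  unfold WW
  rw [Complex.norm_exp]
  congr 1
  have h : ((c : ℂ) + t * I - 1 / 2 - T * I) ^ 2 / (DD T : ℂ) ^ 2
      = (((((c - 1 / 2) ^ 2 - (t - T) ^ 2) / DD T ^ 2 : ℝ)) : ℂ)
        + (((2 * (c - 1 / 2) * (t - T) / DD T ^ 2 : ℝ)) : ℂ) * I := by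
    push_cast
    have hI : I ^ 2 = -1 := Complex.I_sq
    linear_combination ((t - T : ℂ) ^ 2 / (DD T : ℂ) ^ 2) * hI
  rw [h, Complex.add_re, Complex.re_ofReal_mul, Complex.ofReal_re, Complex.I_re, mul_zero,
    add_zero]

lemma sqrt_factor {D : ℝ} (hD : 0 < D) :
    ((Real.pi : ℂ) / -(-(1 / (D : ℂ) ^ 2))) ^ (1 / 2 : ℂ) = ((Real.sqrt Real.pi * D : ℝ) : ℂ) := by
  have h1 : ((Real.pi : ℂ) / -(-(1 / (D : ℂ) ^ 2))) = ((Real.pi * D ^ 2 : ℝ) : ℂ) := by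
    push_cast
    have : (D : ℂ) ≠ 0 := by exact_mod_cast hD.ne'
    field_simp
  have h2 : (1 / 2 : ℂ) = ((1 / 2 : ℝ) : ℂ) := by push_cast; rfl
  rw [h1, h2, ← Complex.ofReal_cpow (by positivity), ← Real.sqrt_eq_rpow,
    Real.sqrt_mul Real.pi_pos.le, Real.sqrt_sq hD.le]

lemma VI_WW (T c r : ℝ) (hD : 0 < DD T) (hr : 0 < r) :
    VI c (fun s => WW T s * (r : ℂ) ^ (-s)) = (cG T : ℂ) *
      Complex.exp (-(1 / 2 + T * I) * Real.log r - (DD T) ^ 2 * (Real.log r) ^ 2 / 4) := by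
  have hDc : (DD T : ℂ) ≠ 0 := by exact_mod_cast hD.ne'
  have hrc : (r : ℂ) ≠ 0 := by exact_mod_cast hr.ne'
  have e1 : ∀ t : ℝ, WW T ((c : ℂ) + t * I) * (r : ℂ) ^ (-((c : ℂ) + t * I)) =
      Complex.exp (-(1 / (DD T : ℂ) ^ 2) * (t : ℂ) ^ 2 +
        ((2 * T + 2 * I * (c - 1 / 2)) / (DD T : ℂ) ^ 2 - I * Real.log r) * t +
        (((c - 1 / 2 : ℂ) ^ 2 - T ^ 2 - 2 * I * (c - 1 / 2) * T) / (DD T : ℂ) ^ 2
          - c * Real.log r)) := by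
    intro t
    unfold WW
    rw [Complex.cpow_def_of_ne_zero hrc, ← Complex.ofReal_log hr.le, ← Complex.exp_add]
    congr 1
    have hI : I ^ 2 = -1 := Complex.I_sq
    linear_combination ((t - T : ℂ) ^ 2 / (DD T : ℂ) ^ 2) * hI
  unfold VI
  simp only [e1]
  rw [integral_cexp_quadratic (by
    have : (-(1 / (DD T : ℂ) ^ 2)) = ((-(1 / DD T ^ 2) : ℝ) : ℂ) := by push_cast; rfl
    rw [this, Complex.ofReal_re]
    have : 0 < 1 / DD T ^ 2 := by positivity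
    linarith), sqrt_factor hD]
  have e2 : (((c - 1 / 2 : ℂ) ^ 2 - T ^ 2 - 2 * I * (c - 1 / 2) * T) / (DD T : ℂ) ^ 2
          - c * Real.log r) - ((2 * T + 2 * I * (c - 1 / 2)) / (DD T : ℂ) ^ 2
            - I * Real.log r) ^ 2 / (4 * -(1 / (DD T : ℂ) ^ 2))
      = -(1 / 2 + T * I) * Real.log r - (DD T) ^ 2 * (Real.log r) ^ 2 / 4 := by
    have hI : I ^ 2 = -1 := Complex.I_sq
    field_simp
    ring_nf
    rw [hI]
    ring
  rw [e2, ← mul_assoc]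
  congr 1
  unfold cG
  push_cast
  have hpi : (Real.sqrt Real.pi : ℂ) ^ 2 = Real.pi := by
    rw [← Complex.ofReal_pow, Real.sq_sqrt Real.pi_pos.le]
  have hpi0 : (Real.sqrt Real.pi : ℂ) ≠ 0 := by
    exact_mod_cast (Real.sqrt_pos.mpr Real.pi_pos).ne'
  rw [← hpi]
  field_simp

/-- GAU -/
theorem gau : GaussStatement :=
  ⟨WW_symm, norm_WW, fun T c r hD hr => VI_WW T c r hD hr⟩

end Pool.Agent.Lib.MP_6bc78b_nt.MS.P1.GAU
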