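import Pool.Agent.Lib.MP_6bc78b_nt.MS.P1.Iface
import Pool.Agent.Lib.MP_6bc78b_nt.MS.P1.H70.PPow

/-! Project MS, Part I, module DIAG: the diagonal sums that contain the von Mangoldt function. -/

set_option autoImplicit false

open Finset Filter Topology

namespace Pool.Agent.Lib.MP_6bc78b_nt.MS.P1.DIAG

open Pool.Agent.Lib.MP_6bc78b_nt.MS Pool.Agent.Lib.MP_6bc78b_nt.MS.P1
  Pool.Agent.Lib.MP_6bc78b_nt.MS.P1.H70

/-- A convolution is at most (number of divisors) x bounds. -/
lemma conv_bound {f g : ArithmeticFunction ℝ} {n : ℕ} {F G : ℝ} (hF0 : 0 ≤ F)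
    (hF : ∀ d, d ∣ n → |f d| ≤ F) (hG : ∀ d, d ∣ n → |g d| ≤ G) :
    |(f * g) n| ≤ (n.divisors.card : ℝ) * (F * G) := by
  rw [ArithmeticFunction.mul_apply]
  refine (Finset.abs_sum_le_sum_abs _ _).trans ?_
  rw [Nat.sum_divisorsAntidiagonal (f := fun a b => |f a * g b|), ← nsmul_eq_mul]
  refine Finset.sum_le_card_nsmul _ _ _ fun d hd => ?_
  rw [Nat.mem_divisors] at hd
  rw [abs_mul]
  exact mul_le_mul (hF d hd.1) (hG _ (Nat.div_dvd_of_dvd hd.1)) (abs_nonneg _) hF0

/-- A convolution of functions that vanish at `1` vanishes at the primes. -/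
lemma conv_prime {f g : ArithmeticFunction ℝ} (hf : f 1 = 0) (hg : g 1 = 0) {p : ℕ}
    (hp : p.Prime) : (f * g) p = 0 := by
  rw [ArithmeticFunction.mul_apply]
  refine Finset.sum_eq_zero fun x hx => ?_
  rw [Nat.mem_divisorsAntidiagonal] at hx
  rcases (Nat.dvd_prime hp).mp (Dvd.intro _ hx.1) with h | h
  · rw [h, hf, zero_mul]
  · have : x.2 = 1 := by
      have h1 := hx.1
      rw [h] at h1
      exact Nat.eq_of_mul_eq_mul_left hp.pos (by rw [h1, mul_one])
    rw [this, hg, mul_zero]

lemma conv_one {f g : ArithmeticFunction ℝ} (hf : f 1 = 0) : (f * g) 1 = 0 := by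
  rw [ArithmeticFunction.mul_apply_one, hf, zero_mul]

lemma La_one : La 1 = 0 := ArithmeticFunction.vonMangoldt_apply_one

lemma lg_one : lg 1 = 0 := by
  change ArithmeticFunction.log 1 = 0
  rw [ArithmeticFunction.log_apply]
  simp

/-- Number of divisors of a prime power. -/
lemma card_divisors_le {k : ℕ} (hk : IsPrimePow k) :
    (k.divisors.card : ℝ) ≤ 3 * Real.log k := by
  have h := hk.minFac_pow_factorization_eq
  have hp : k.minFac.Prime := Nat.minFac_prime hk.one_lt.ne'
  set m := k.factorization k.minFac with hm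
  have hcard : k.divisors.card = m + 1 := by
    conv_lhs => rw [← h]
    rw [Nat.divisors_prime_pow hp, Finset.card_map, Finset.card_range]
  have hk' : (k : ℝ) = (k.minFac : ℝ) ^ m := by exact_mod_cast h.symm
  have hlog : Real.log k = (m : ℝ) * Real.log k.minFac := by
    conv_lhs => rw [hk']
    rw [Real.log_pow]
  have h2 : Real.log 2 ≤ Real.log k.minFac :=
    Real.log_le_log (by norm_num) (by exact_mod_cast hp.two_le)
  have h2k : Real.log 2 ≤ Real.log k :=
    Real.log_le_log (by norm_num) (by exact_mod_cast hk.two_le)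
  have h3 : (0.69 : ℝ) ≤ Real.log 2 := by
    have := Real.log_two_gt_d9
    linarith
  have hm0 : (0 : ℝ) ≤ m := Nat.cast_nonneg _
  rw [hcard]
  push_cast
  have h4 : (m : ℝ) * 0.69 ≤ Real.log k := by
    rw [hlog]
    exact mul_le_mul_of_nonneg_left (h3.trans h2) hm0
  linarith

/-- Bound for the prime coefficients. -/
lemma abs_bb_le {lam T : ℝ} (hT : 1 < T) (hL : 1 ≤ lam * Real.log T) (k : ℕ) :
    |bb lam T k| ≤ Lm k := by
  change |bbf lam T k| ≤ _
  unfold bbf
  split_ifs with hk
  · rcases Nat.eq_zero_or_pos k with rfl | hk0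
    · simp [Lm]
    have hk1 : (1 : ℝ) ≤ k := by exact_mod_cast hk0
    have hlk : 0 ≤ Real.log k := Real.log_nonneg hk1
    have hle : Real.log k ≤ lam * Real.log T := by
      rw [← Real.log_rpow (by linarith)]
      exact Real.log_le_log (by linarith) hk
    have h1 : 0 ≤ 1 - Real.log k / (lam * Real.log T) := by
      rw [sub_nonneg, div_le_one (by linarith)]
      exact hle
    have h2 : 1 - Real.log k / (lam * Real.log T) ≤ 1 := by
      have : 0 ≤ Real.log k / (lam * Real.log T) := div_nonneg hlk (by linarith)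
      linarith
    have hLm := Lm_nonneg k
    change |Lm k * _ / _| ≤ _
    rw [abs_of_nonneg (div_nonneg (mul_nonneg hLm h1) (by linarith)), div_le_iff₀ (by linarith)]
    calc Lm k * (1 - Real.log k / (lam * Real.log T)) ≤ Lm k * 1 :=
          mul_le_mul_of_nonneg_left h2 hLm
      _ ≤ Lm k * (lam * Real.log T) := mul_le_mul_of_nonneg_left hL hLm
  · rw [abs_zero]; exact Lm_nonneg k

lemma bb_one {lam T : ℝ} : bb lam T 1 = 0 := by
  change bbf lam T 1 = 0
  unfold bbf
  simp

/-- Bound for the mollifier coefficients. -/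
lemma abs_bet_le {th T : ℝ} (c1 c2 : ℝ) (hth : 0 < th) (hT : 1 < T) (n : ℕ) :
    |bet th c1 c2 T n| ≤ |c1| + |c2| := by
  change |betf th c1 c2 T n| ≤ _
  unfold betf
  split_ifs with hn
  · rcases Nat.eq_zero_or_pos n with rfl | hn0
    · simp; positivity
    have hn1 : (1 : ℝ) ≤ n := by exact_mod_cast hn0
    have hln : 0 ≤ Real.log n := Real.log_nonneg hn1
    have hL : 0 < th * Real.log T := mul_pos hth (Real.log_pos hT)
    have hle : Real.log n ≤ th * Real.log T := by
      rw [← Real.log_rpow (by linarith)]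
      exact Real.log_le_log (by linarith) hn
    set x : ℝ := 1 - Real.log n / (th * Real.log T) with hx
    have h1 : 0 ≤ x := by
      rw [hx, sub_nonneg, div_le_one hL]
      exact hle
    have h2 : x ≤ 1 := by
      have : 0 ≤ Real.log n / (th * Real.log T) := div_nonneg hln hL.le
      rw [hx]
      linarith
    have hmu : |((ArithmeticFunction.moebius n : ℤ) : ℝ)| ≤ 1 := by
      have := ArithmeticFunction.abs_moebius_le_one (n := n)
      exact_mod_cast this
    have hP : |PP c1 c2 x| ≤ |c1| + |c2| := by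
      unfold PP
      have hx2 : x ^ 2 ≤ 1 := pow_le_one₀ h1 h2
      calc |c1 * x + c2 * x ^ 2| ≤ |c1 * x| + |c2 * x ^ 2| := abs_add_le _ _
        _ = |c1| * x + |c2| * x ^ 2 := by
            rw [abs_mul, abs_mul, abs_of_nonneg h1, abs_of_nonneg (sq_nonneg x)]
        _ ≤ |c1| * 1 + |c2| * 1 := add_le_add (mul_le_mul_of_nonneg_left h2 (abs_nonneg _))
            (mul_le_mul_of_nonneg_left hx2 (abs_nonneg _))
        _ = _ := by ring
    rw [abs_mul]
    calc |((ArithmeticFunction.moebius n : ℤ) : ℝ)| * |PP c1 c2 x|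
        ≤ 1 * (|c1| + |c2|) := mul_le_mul hmu hP (abs_nonneg _) (by norm_num)
      _ = _ := one_mul _
  · rw [abs_zero]; positivity

/-- The general bound: `f` vanishes at the primes and at `1`, and is at most `D log^4` at the
prime powers. -/
lemma diag_bound {D : ℝ} {C : ℝ}
    (hC : ∀ N : ℕ, ∑ k ∈ (Icc 1 N).filter (fun k => ¬ k.Prime), Lm k * Real.log k ^ 4 / k ≤ C)
    {lam T : ℝ} (hT : 1 < T) (hL : 1 ≤ lam * Real.log T) (f : ArithmeticFunction ℝ) (hD : 0 ≤ D)
    (hfp : ∀ p : ℕ, p.Prime → f p = 0)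
    (hf : ∀ k : ℕ, IsPrimePow k → |f k| ≤ D * Real.log k ^ 4) (N : ℕ) :
    |∑ k ∈ Icc 1 N, f k * bb lam T k / k| ≤ D * C := by
  refine (Finset.abs_sum_le_sum_abs _ _).trans ?_
  refine le_trans ?_ (mul_le_mul_of_nonneg_left (hC N) hD)
  rw [Finset.mul_sum, Finset.sum_filter]
  refine Finset.sum_le_sum fun k hk => ?_
  rw [mem_Icc] at hk
  have hk1 : (1 : ℝ) ≤ k := by exact_mod_cast hk.1
  by_cases hp : k.Prime
  · rw [if_neg (not_not.mpr hp), hfp k hp]
    simp
  · rw [if_pos hp, abs_div, abs_mul, abs_of_nonneg (by linarith : (0 : ℝ) ≤ k)]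
    have hb := abs_bb_le (k := k) hT hL
    by_cases hpp : IsPrimePow k
    · calc |f k| * |bb lam T k| / k ≤ (D * Real.log k ^ 4) * Lm k / k :=
            div_le_div_of_nonneg_right (mul_le_mul (hf k hpp) hb (abs_nonneg _)
              (mul_nonneg hD (pow_nonneg (Real.log_nonneg hk1) _))) (by linarith)
        _ = _ := by ring
    · have h0 : Lm k = 0 := by
        by_contra h
        exact hpp (ArithmeticFunction.vonMangoldt_ne_zero_iff.mp h)
      rw [h0] at hb
      have : |bb lam T k| = 0 := le_antisymm hb (abs_nonneg _)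
      rw [this, h0]
      simp

/-- `|La d| <= log k` and `|lg d| <= log k` for `d ∣ k`. -/
lemma abs_La_le {d k : ℕ} (hk : 0 < k) (hd : d ∣ k) : |La d| ≤ Real.log k := by
  change |Lm d| ≤ _
  rw [abs_of_nonneg (Lm_nonneg d)]
  refine (Lm_le_log d).trans (Real.log_le_log ?_ ?_)
  · exact_mod_cast Nat.pos_of_dvd_of_pos hd hk
  · exact_mod_cast Nat.le_of_dvd hk hd

lemma abs_lg_le {d k : ℕ} (hk : 0 < k) (hd : d ∣ k) : |lg d| ≤ Real.log k := by
  have hd0 : 0 < d := Nat.pos_of_dvd_of_pos hd hk
  change |ArithmeticFunction.log d| ≤ _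
  rw [ArithmeticFunction.log_apply, abs_of_nonneg (Real.log_nonneg (by exact_mod_cast hd0))]
  refine Real.log_le_log ?_ ?_
  · exact_mod_cast hd0
  · exact_mod_cast Nat.le_of_dvd hk hd

/-- DIAG -/
theorem diag : DiagStatement := by
  obtain ⟨C, hC0, hC⟩ := ppow_sum 4
  constructor
  · intro th lam c1 c2 hth0 _ hlam0 _
    have hev : ∀ᶠ T : ℝ in atTop, 1 < T ∧ 1 ≤ lam * Real.log T :=
      (eventually_gt_atTop 1).and
        ((Real.tendsto_log_atTop.const_mul_atTop hlam0).eventually_ge_atTop 1)
    obtain ⟨T0, hT0⟩ := Filter.eventually_atTop.mp hev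
    refine ⟨(9 * (|c1| + |c2|)) * C, T0, fun T hT => ?_⟩
    obtain ⟨hT1, hL⟩ := hT0 T hT
    refine diag_bound hC hT1 hL _ (by positivity) (fun p hp => ?_) (fun k hk => ?_) _
    · -- primes
      rw [ArithmeticFunction.mul_apply]
      refine Finset.sum_eq_zero fun x hx => ?_
      rw [Nat.mem_divisorsAntidiagonal] at hx
      rcases (Nat.dvd_prime hp).mp (Dvd.intro _ hx.1) with h | h
      · rw [h, conv_one La_one, zero_mul]
      · rw [h, conv_prime La_one lg_one hp, zero_mul]
    · -- prime powers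
      have hk0 : 0 < k := hk.pos
      have hcard := card_divisors_le hk
      have hlk : 0 ≤ Real.log k := Real.log_nonneg (by exact_mod_cast hk0)
      have h1 : ∀ d, d ∣ k → |(La * lg) d| ≤ (k.divisors.card : ℝ) * (Real.log k * Real.log k) := by
        intro d hd
        have h2 := conv_bound (f := La) (g := lg) (n := d) hlk
          (fun e he => abs_La_le hk0 (he.trans hd)) (fun e he => abs_lg_le hk0 (he.trans hd))
        refine h2.trans (mul_le_mul_of_nonneg_right ?_ (mul_nonneg hlk hlk))
        exact_mod_cast Finset.card_le_card (Nat.divisors_subset_of_dvd hk0.ne' hd)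
      have h3 := conv_bound (f := La * lg) (g := bet th c1 c2 T) (n := k)
        (mul_nonneg (Nat.cast_nonneg _) (mul_nonneg hlk hlk)) h1
        (fun e _ => abs_bet_le c1 c2 hth0 hT1 e)
      refine h3.trans ?_
      have hcc : (k.divisors.card : ℝ) * (k.divisors.card : ℝ) ≤
          (3 * Real.log k) * (3 * Real.log k) :=
        mul_le_mul hcard hcard (Nat.cast_nonneg _) (by linarith)
      calc (k.divisors.card : ℝ) * ((k.divisors.card : ℝ) * (Real.log k * Real.log k) *
            (|c1| + |c2|))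
          = ((k.divisors.card : ℝ) * (k.divisors.card : ℝ)) *
              ((Real.log k * Real.log k) * (|c1| + |c2|)) := by ring
        _ ≤ ((3 * Real.log k) * (3 * Real.log k)) *
              ((Real.log k * Real.log k) * (|c1| + |c2|)) :=
            mul_le_mul_of_nonneg_right hcc (mul_nonneg (mul_nonneg hlk hlk) (by positivity))
        _ = _ := by ring
  · intro lam hlam0 _
    have hev : ∀ᶠ T : ℝ in atTop, 1 < T ∧ 1 ≤ lam * Real.log T :=
      (eventually_gt_atTop 1).and
        ((Real.tendsto_log_atTop.const_mul_atTop hlam0).eventually_ge_atTop 1)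
    obtain ⟨T0, hT0⟩ := Filter.eventually_atTop.mp hev
    refine ⟨5 * C, T0, fun T hT => ?_⟩
    obtain ⟨hT1, hL⟩ := hT0 T hT
    refine diag_bound hC hT1 hL _ (by norm_num) (fun p hp => conv_prime La_one bb_one hp)
      (fun k hk => ?_) _
    have hk0 : 0 < k := hk.pos
    have hcard := card_divisors_le hk
    have hlk : 0 ≤ Real.log k := Real.log_nonneg (by exact_mod_cast hk0)
    have h2k : (0.69 : ℝ) ≤ Real.log k := by
      have h2 : Real.log 2 ≤ Real.log k :=
        Real.log_le_log (by norm_num) (by exact_mod_cast hk.two_le)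
      have := Real.log_two_gt_d9
      linarith
    have h3 := conv_bound (f := La) (g := bb lam T) (n := k) hlk
      (fun e he => abs_La_le hk0 he)
      (fun e he => (abs_bb_le hT1 hL e).trans (by
        have := abs_La_le hk0 he
        change |Lm e| ≤ _ at this
        rwa [abs_of_nonneg (Lm_nonneg e)] at this))
    refine h3.trans ?_
    calc (k.divisors.card : ℝ) * (Real.log k * Real.log k)
        ≤ (3 * Real.log k) * (Real.log k * Real.log k) :=
          mul_le_mul_of_nonneg_right hcard (mul_nonneg hlk hlk)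
      _ = 3 * Real.log k ^ 3 := by ring
      _ ≤ 5 * Real.log k ^ 4 := by
          have h5 : 0 ≤ Real.log k ^ 3 := pow_nonneg hlk _
          nlinarith

end Pool.Agent.Lib.MP_6bc78b_nt.MS.P1.DIAG
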