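import Pool.Agent.Lib.MP_6bc78b_nt.MS.P1.Iface

/-! Project MS, Part I, module K0C: combination of the two kernel bounds. -/

set_option autoImplicit false

open Complex Filter Topology MeasureTheory

namespace Pool.Agent.Lib.MP_6bc78b_nt.MS.P1.K0C

open Pool.Agent.Lib.MP_6bc78b_nt.MS Pool.Agent.Lib.MP_6bc78b_nt.MS.P1

theorem norm_ee (x : ℝ) : ‖ee x‖ = 1 := by
  unfold ee
  have : (2 * Real.pi * x * I : ℂ) = ((2 * Real.pi * x : ℝ) : ℂ) * I := by push_cast; ring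
  rw [this, Complex.norm_exp_ofReal_mul_I]

/-- small `r`. -/
theorem caseA (c T r D : ℝ) (hc1 : 1 < c) (hc2 : c < 3 / 2) (hT : 3 ≤ T) (hL : 1 ≤ Real.log T)
    (hr : 1 / T ≤ r) (hr2 : r ≤ T ^ (6 / 5 : ℝ)) (hD : T ^ (1 - (3 / 10 - c / 5) / 2) ≤ D) :
    1 / D + r / D ^ 2 ≤
      10 * (T ^ (c - 1 / 2) * Real.log T ^ 3 * r ^ (-c) / (1 + |Real.log r|) ^ 2) := by
  have hT0 : 0 < T := by linarith
  have hr0 : 0 < r := lt_of_lt_of_le (by positivity) hr
  set L := Real.log T with hLd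
  set δ := (3 / 10 - c / 5) / 2 with hδ
  set Q := T ^ (c - 1 / 2) * r ^ (-c) with hQ
  have hQ0 : 0 < Q := by positivity
  have hTd : 0 < T ^ (1 - δ) := Real.rpow_pos_of_pos hT0 _
  have hD0 : 0 < D := lt_of_lt_of_le hTd hD
  have hrc : r ^ c * r ^ (-c) = 1 := by rw [← Real.rpow_add hr0]; simp
  have hT1 : 1 ≤ T := by linarith
  -- claim a
  have ha : 1 / D ≤ Q := by
    have h1 : 1 / D ≤ T ^ (δ - 1) := by
      have : T ^ (δ - 1) = 1 / T ^ (1 - δ) := by
        rw [show δ - 1 = -(1 - δ) by ring, Real.rpow_neg hT0.le, one_div]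
      rw [this]
      exact one_div_le_one_div_of_le hTd hD
    have h2 : r ^ c ≤ T ^ (6 / 5 * c) := by
      rw [Real.rpow_mul hT0.le]
      exact Real.rpow_le_rpow hr0.le hr2 (by linarith)
    have h3 : T ^ (δ - 1) * r ^ c ≤ T ^ (c - 1 / 2) := by
      calc T ^ (δ - 1) * r ^ c ≤ T ^ (δ - 1) * T ^ (6 / 5 * c) :=
            mul_le_mul_of_nonneg_left h2 (by positivity)
        _ = T ^ (δ - 1 + 6 / 5 * c) := by rw [← Real.rpow_add hT0]
        _ ≤ T ^ (c - 1 / 2) := by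
            apply Real.rpow_le_rpow_of_exponent_le hT1
            rw [hδ]; linarith
    calc 1 / D ≤ T ^ (δ - 1) := h1
      _ = T ^ (δ - 1) * r ^ c * r ^ (-c) := by rw [mul_assoc, hrc, mul_one]
      _ ≤ T ^ (c - 1 / 2) * r ^ (-c) := mul_le_mul_of_nonneg_right h3 (by positivity)
  -- claim b
  have hb : r / D ^ 2 ≤ Q := by
    have h1 : r / D ^ 2 ≤ r * T ^ (2 * δ - 2) := by
      have e1 : T ^ (2 * δ - 2) = 1 / (T ^ (1 - δ)) ^ 2 := by
        rw [← Real.rpow_natCast (T ^ (1 - δ)) 2, ← Real.rpow_mul hT0.le,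
          show 2 * δ - 2 = -((1 - δ) * ((2 : ℕ) : ℝ)) by push_cast; ring,
          Real.rpow_neg hT0.le, one_div]
      rw [e1, div_eq_mul_one_div]
      apply mul_le_mul_of_nonneg_left _ hr0.le
      apply one_div_le_one_div_of_le (by positivity)
      exact pow_le_pow_left₀ hTd.le hD 2
    have h2 : r * r ^ c ≤ T ^ (6 / 5 * (1 + c)) := by
      have e2 : r * r ^ c = r ^ (1 + c) := by
        rw [Real.rpow_add hr0, Real.rpow_one]
      rw [e2, Real.rpow_mul hT0.le]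
      exact Real.rpow_le_rpow hr0.le hr2 (by linarith)
    have h3 : T ^ (2 * δ - 2) * (r * r ^ c) ≤ T ^ (c - 1 / 2) := by
      calc T ^ (2 * δ - 2) * (r * r ^ c) ≤ T ^ (2 * δ - 2) * T ^ (6 / 5 * (1 + c)) :=
            mul_le_mul_of_nonneg_left h2 (by positivity)
        _ = T ^ (2 * δ - 2 + 6 / 5 * (1 + c)) := by rw [← Real.rpow_add hT0]
        _ ≤ T ^ (c - 1 / 2) := by
            apply Real.rpow_le_rpow_of_exponent_le hT1
            rw [hδ]; linarith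
    calc r / D ^ 2 ≤ r * T ^ (2 * δ - 2) := h1
      _ = T ^ (2 * δ - 2) * (r * r ^ c) * r ^ (-c) := by
          rw [mul_assoc, mul_assoc, hrc]; ring
      _ ≤ T ^ (c - 1 / 2) * r ^ (-c) := mul_le_mul_of_nonneg_right h3 (by positivity)
  -- the logarithm
  have hlr : |Real.log r| ≤ 6 / 5 * L := by
    rw [abs_le]
    constructor
    · have h1 : Real.log (1 / T) ≤ Real.log r := Real.log_le_log (by positivity) hr
      rw [one_div, Real.log_inv] at h1
      have : -(6 / 5 * L) ≤ -L := by linarith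
      linarith
    · have h1 : Real.log r ≤ Real.log (T ^ (6 / 5 : ℝ)) := Real.log_le_log hr0 hr2
      rw [Real.log_rpow hT0] at h1
      exact h1
  have habs : 0 ≤ |Real.log r| := abs_nonneg _
  have hsq : (1 + |Real.log r|) ^ 2 ≤ 5 * L ^ 2 := by
    have h1 : 1 + |Real.log r| ≤ 11 / 5 * L := by linarith
    have h2 : (1 + |Real.log r|) ^ 2 ≤ (11 / 5 * L) ^ 2 :=
      pow_le_pow_left₀ (by linarith) h1 2
    nlinarith [sq_nonneg L]
  have hP : Q ≤ 5 * (T ^ (c - 1 / 2) * L ^ 3 * r ^ (-c) / (1 + |Real.log r|) ^ 2) := by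
    have hpos : 0 < (1 + |Real.log r|) ^ 2 := by positivity
    rw [← mul_div_assoc, le_div_iff₀ hpos]
    have e1 : 5 * (T ^ (c - 1 / 2) * L ^ 3 * r ^ (-c)) = Q * (5 * L ^ 3) := by rw [hQ]; ring
    rw [e1]
    apply mul_le_mul_of_nonneg_left _ hQ0.le
    have h3 : L ^ 2 ≤ L ^ 3 := by nlinarith [sq_nonneg L]
    linarith
  linarith

/-- large `r`. -/
theorem caseB (c T r D : ℝ) (hc1 : 1 < c) (hc2 : c < 3 / 2) (hT : 3 ≤ T) (hL : 1 ≤ Real.log T)
    (hr : T ^ (6 / 5 : ℝ) < r) (hD0 : 1 ≤ D) (hDT : D ≤ T) :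
    T ^ (15 / 2 : ℝ) * r ^ (-(7 : ℝ)) ≤
      625 * (T ^ (c - 1 / 2) * Real.log T ^ 3 * r ^ (-c) / (1 + |Real.log r|) ^ 2) ∧
    Real.exp (-(2 * Real.pi * r - T) ^ 2 / D ^ 2) ≤
      (Nat.factorial 12 : ℝ) *
        (T ^ (c - 1 / 2) * Real.log T ^ 3 * r ^ (-c) / (1 + |Real.log r|) ^ 2) := by
  have hT0 : 0 < T := by linarith
  have hT1 : 1 ≤ T := by linarith
  set L := Real.log T with hLd
  have hTT : T ≤ T ^ (6 / 5 : ℝ) := by
    calc T = T ^ (1 : ℝ) := (Real.rpow_one T).symm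
      _ ≤ T ^ (6 / 5 : ℝ) := Real.rpow_le_rpow_of_exponent_le hT1 (by norm_num)
  have hrT : T ≤ r := by linarith
  have hr3 : 3 ≤ r := by linarith
  have hr0 : 0 < r := by linarith
  have hr1 : 1 ≤ r := by linarith
  have hlog0 : 0 ≤ Real.log r := Real.log_nonneg hr1
  rw [abs_of_nonneg hlog0]
  have hTr : T ≤ r ^ (5 / 6 : ℝ) := by
    have h1 : (T ^ (6 / 5 : ℝ)) ^ (5 / 6 : ℝ) ≤ r ^ (5 / 6 : ℝ) :=
      Real.rpow_le_rpow (by positivity) hr.le (by norm_num)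
    rw [← Real.rpow_mul hT0.le] at h1
    norm_num at h1
    exact h1
  set Q := T ^ (c - 1 / 2) * r ^ (-c) with hQ
  have hQ0 : 0 < Q := by positivity
  have hden : 0 < (1 + Real.log r) ^ 2 := by positivity
  have hL3 : 1 ≤ L ^ 3 := one_le_pow₀ hL
  have hP : Q / (1 + Real.log r) ^ 2
      ≤ T ^ (c - 1 / 2) * L ^ 3 * r ^ (-c) / (1 + Real.log r) ^ 2 := by
    apply div_le_div_of_nonneg_right _ hden.le
    have : T ^ (c - 1 / 2) * L ^ 3 * r ^ (-c) = Q * L ^ 3 := by rw [hQ]; ring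
    rw [this]
    nlinarith
  constructor
  · have h1 : T ^ (15 / 2 : ℝ) * r ^ (-(7 : ℝ)) ≤ Q * r ^ (-(1 / 12) : ℝ) := by
      have e1 : T ^ (15 / 2 : ℝ) = T ^ (c - 1 / 2) * T ^ (8 - c) := by
        rw [← Real.rpow_add hT0]; congr 1; ring
      have h2 : T ^ (8 - c) ≤ r ^ (5 / 6 * (8 - c)) := by
        rw [Real.rpow_mul hr0.le]
        exact Real.rpow_le_rpow hT0.le hTr (by linarith)
      rw [e1]
      calc T ^ (c - 1 / 2) * T ^ (8 - c) * r ^ (-(7 : ℝ))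
          ≤ T ^ (c - 1 / 2) * r ^ (5 / 6 * (8 - c)) * r ^ (-(7 : ℝ)) := by
            apply mul_le_mul_of_nonneg_right _ (by positivity)
            exact mul_le_mul_of_nonneg_left h2 (by positivity)
        _ = T ^ (c - 1 / 2) * r ^ (5 / 6 * (8 - c) + -(7 : ℝ)) := by
            rw [mul_assoc, ← Real.rpow_add hr0]
        _ ≤ T ^ (c - 1 / 2) * r ^ (-c + -(1 / 12) : ℝ) := by
            apply mul_le_mul_of_nonneg_left _ (by positivity)
            apply Real.rpow_le_rpow_of_exponent_le hr1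
            linarith
        _ = Q * r ^ (-(1 / 12) : ℝ) := by
            rw [hQ, mul_assoc, ← Real.rpow_add hr0]
    have h3 : (1 + Real.log r) ^ 2 ≤ 625 * r ^ (1 / 12 : ℝ) := by
      have h4 : Real.log r ≤ r ^ (1 / 24 : ℝ) / (1 / 24) :=
        Real.log_le_rpow_div hr0.le (by norm_num)
      have h5 : 1 ≤ r ^ (1 / 24 : ℝ) := Real.one_le_rpow hr1 (by norm_num)
      have h6 : 1 + Real.log r ≤ 25 * r ^ (1 / 24 : ℝ) := by
        have : r ^ (1 / 24 : ℝ) / (1 / 24) = 24 * r ^ (1 / 24 : ℝ) := by ring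
        linarith
      have h7 : (1 + Real.log r) ^ 2 ≤ (25 * r ^ (1 / 24 : ℝ)) ^ 2 :=
        pow_le_pow_left₀ (by linarith) h6 2
      have h8 : (25 * r ^ (1 / 24 : ℝ)) ^ 2 = 625 * r ^ (1 / 12 : ℝ) := by
        rw [mul_pow, ← Real.rpow_natCast (r ^ (1 / 24 : ℝ)) 2, ← Real.rpow_mul hr0.le]
        norm_num
      linarith
    have h9 : T ^ (15 / 2 : ℝ) * r ^ (-(7 : ℝ)) ≤ 625 * (Q / (1 + Real.log r) ^ 2) := by
      rw [← mul_div_assoc, le_div_iff₀ hden]
      have e5 : r ^ (-(1 / 12) : ℝ) * r ^ (1 / 12 : ℝ) = 1 := by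
        rw [← Real.rpow_add hr0]; norm_num
      calc T ^ (15 / 2 : ℝ) * r ^ (-(7 : ℝ)) * (1 + Real.log r) ^ 2
          ≤ (Q * r ^ (-(1 / 12) : ℝ)) * (625 * r ^ (1 / 12 : ℝ)) :=
            mul_le_mul h1 h3 (by positivity) (by positivity)
        _ = 625 * Q * (r ^ (-(1 / 12) : ℝ) * r ^ (1 / 12 : ℝ)) := by ring
        _ = 625 * Q := by rw [e5, mul_one]
    linarith
  · have hpi := Real.pi_gt_three
    have h1 : r ≤ 2 * Real.pi * r - T := by nlinarith
    have hDp : 0 < D := by linarith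
    set x := r ^ (1 / 3 : ℝ) with hx
    have hx0 : 0 < x := by positivity
    have h2 : x ≤ (2 * Real.pi * r - T) ^ 2 / D ^ 2 := by
      rw [le_div_iff₀ (by positivity)]
      have h3 : D ^ 2 ≤ (r ^ (5 / 6 : ℝ)) ^ 2 :=
        pow_le_pow_left₀ hDp.le (hDT.trans hTr) 2
      have h4 : x * (r ^ (5 / 6 : ℝ)) ^ 2 = r ^ 2 := by
        rw [hx, ← Real.rpow_natCast (r ^ (5 / 6 : ℝ)) 2, ← Real.rpow_mul hr0.le,
          ← Real.rpow_add hr0, ← Real.rpow_natCast r 2]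
        norm_num
      have h5 : r ^ 2 ≤ (2 * Real.pi * r - T) ^ 2 := pow_le_pow_left₀ hr0.le h1 2
      calc x * D ^ 2 ≤ x * (r ^ (5 / 6 : ℝ)) ^ 2 := mul_le_mul_of_nonneg_left h3 hx0.le
        _ = r ^ 2 := h4
        _ ≤ _ := h5
    have h6 : Real.exp (-(2 * Real.pi * r - T) ^ 2 / D ^ 2) ≤ Real.exp (-x) := by
      apply Real.exp_le_exp.2
      rw [neg_div]
      linarith
    have h7 : Real.exp (-x) ≤ (Nat.factorial 12 : ℝ) / r ^ 4 := by
      have h8 := Real.pow_div_factorial_le_exp (x := x) hx0.le 12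
      have h9 : x ^ 12 = r ^ 4 := by
        rw [hx, ← Real.rpow_natCast (r ^ (1 / 3 : ℝ)) 12, ← Real.rpow_mul hr0.le,
          ← Real.rpow_natCast r 4]
        norm_num
      rw [h9] at h8
      have hf : (0 : ℝ) < (Nat.factorial 12 : ℝ) := by exact_mod_cast Nat.factorial_pos 12
      rw [Real.exp_neg, inv_eq_one_div, div_le_div_iff₀ (Real.exp_pos _) (by positivity), one_mul]
      rw [div_le_iff₀ hf] at h8
      linarith
    have h10 : 1 / r ^ 4 ≤ Q / (1 + Real.log r) ^ 2 := by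
      rw [div_le_div_iff₀ (by positivity) hden, one_mul]
      have h11 : 1 + Real.log r ≤ r := by
        have := Real.log_le_sub_one_of_pos hr0
        linarith
      have h12 : (1 + Real.log r) ^ 2 ≤ r ^ 2 := pow_le_pow_left₀ (by linarith) h11 2
      have h13 : r ^ (-(2 : ℝ)) ≤ Q := by
        have h14 : 1 ≤ T ^ (c - 1 / 2) := Real.one_le_rpow hT1 (by linarith)
        have h15 : r ^ (-(2 : ℝ)) ≤ r ^ (-c) :=
          Real.rpow_le_rpow_of_exponent_le hr1 (by linarith)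
        have h16 : 0 < r ^ (-c) := by positivity
        calc r ^ (-(2 : ℝ)) ≤ 1 * r ^ (-c) := by rw [one_mul]; exact h15
          _ ≤ Q := mul_le_mul_of_nonneg_right h14 h16.le
      have h17 : r ^ (-(2 : ℝ)) * r ^ 4 = r ^ 2 := by
        rw [← Real.rpow_natCast r 4, ← Real.rpow_natCast r 2, ← Real.rpow_add hr0]
        norm_num
      calc (1 + Real.log r) ^ 2 ≤ r ^ 2 := h12
        _ = r ^ (-(2 : ℝ)) * r ^ 4 := h17.symm
        _ ≤ Q * r ^ 4 := mul_le_mul_of_nonneg_right h13 (by positivity)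
    have hf : (0 : ℝ) < (Nat.factorial 12 : ℝ) := by exact_mod_cast Nat.factorial_pos 12
    calc Real.exp (-(2 * Real.pi * r - T) ^ 2 / D ^ 2) ≤ (Nat.factorial 12 : ℝ) / r ^ 4 :=
          h6.trans h7
      _ = (Nat.factorial 12 : ℝ) * (1 / r ^ 4) := by ring
      _ ≤ (Nat.factorial 12 : ℝ) *
          (T ^ (c - 1 / 2) * L ^ 3 * r ^ (-c) / (1 + Real.log r) ^ 2) := by
          apply mul_le_mul_of_nonneg_left _ hf.le
          exact h10.trans hP

/-- K0C. -/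
theorem k0c (hK0T : K0TStatement) (hK0L : K0LStatement) (hDD : DDStatement) : K0Statement := by
  intro c hc1 hc2
  obtain ⟨C1, T1, hC1, hT1, h1⟩ := hK0T
  obtain ⟨C2, T2, hC2, hT2, h2⟩ := hK0L
  have hev := (hDD.2.1 ((3 / 10 - c / 5) / 2) (by linarith)).and hDD.2.2.1
  obtain ⟨T3, h3⟩ := eventually_atTop.1 hev
  have hf : (0 : ℝ) < (Nat.factorial 12 : ℝ) := by exact_mod_cast Nat.factorial_pos 12
  refine ⟨10 * C1 + 625 * C2 + (Nat.factorial 12 : ℝ), max (max T1 T2) (max T3 3),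
    by positivity, ?_, ?_⟩
  · exact lt_of_lt_of_le hT1 ((le_max_left _ _).trans (le_max_left _ _))
  intro T r hT hr
  have hTT1 : T1 ≤ T := ((le_max_left _ _).trans (le_max_left _ _)).trans hT
  have hTT2 : T2 ≤ T := ((le_max_right _ _).trans (le_max_left _ _)).trans hT
  have hTT3 : T3 ≤ T := ((le_max_left _ _).trans (le_max_right _ _)).trans hT
  have hT4 : 3 ≤ T := ((le_max_right _ _).trans (le_max_right _ _)).trans hT
  obtain ⟨hDd, hDT, hD1, _, _⟩ := h3 T hTT3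
  have hT0 : 0 < T := by linarith
  have hr0 : 0 < r := lt_of_lt_of_le (by positivity) hr
  have hL : 1 ≤ Real.log T := by
    have h5 : Real.exp 1 ≤ T := by
      have := Real.exp_one_lt_d9
      linarith
    have h6 := Real.log_le_log (Real.exp_pos 1) h5
    rwa [Real.log_exp] at h6
  set P := T ^ (c - 1 / 2) * Real.log T ^ 3 * r ^ (-c) / (1 + |Real.log r|) ^ 2 with hP
  have hP0 : 0 ≤ P := by
    have : 0 ≤ Real.log T := by linarith
    positivity
  have hrhs : (10 * C1 + 625 * C2 + (Nat.factorial 12 : ℝ)) * T ^ (c - 1 / 2) * Real.log T ^ 3 *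
      r ^ (-c) / (1 + |Real.log r|) ^ 2 = (10 * C1 + 625 * C2 + (Nat.factorial 12 : ℝ)) * P := by
    rw [hP]; ring
  rw [hrhs]
  rcases le_or_gt r (T ^ (6 / 5 : ℝ)) with hrr | hrr
  · have hA := caseA c T r (DD T) hc1 hc2 hT4 hL hr hrr hDd
    have hB := h1 T c r hTT1 (by linarith) hr0
    calc ‖Ker c T 0 r - ee (-r) * GG T r‖ ≤ C1 * (1 / DD T + r / DD T ^ 2) := hB
      _ ≤ C1 * (10 * P) := mul_le_mul_of_nonneg_left hA hC1.le
      _ ≤ (10 * C1 + 625 * C2 + (Nat.factorial 12 : ℝ)) * P := by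
          have : 0 ≤ (625 * C2 + (Nat.factorial 12 : ℝ)) * P := by positivity
          linarith
  · obtain ⟨hA, hB⟩ := caseB c T r (DD T) hc1 hc2 hT4 hL hrr hD1 hDT
    have hC := h2 T c r hTT2 (by linarith) (by linarith) hr0
    have hG : ‖ee (-r) * GG T r‖ ≤ (Nat.factorial 12 : ℝ) * P := by
      rw [norm_mul, norm_ee, one_mul, Complex.norm_real, Real.norm_eq_abs]
      unfold GG
      rw [abs_of_pos (Real.exp_pos _)]
      exact hB
    calc ‖Ker c T 0 r - ee (-r) * GG T r‖ ≤ ‖Ker c T 0 r‖ + ‖ee (-r) * GG T r‖ := norm_sub_le _ _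
      _ ≤ C2 * T ^ (15 / 2 : ℝ) * r ^ (-(7 : ℝ)) + (Nat.factorial 12 : ℝ) * P :=
          add_le_add hC hG
      _ = C2 * (T ^ (15 / 2 : ℝ) * r ^ (-(7 : ℝ))) + (Nat.factorial 12 : ℝ) * P := by ring
      _ ≤ C2 * (625 * P) + (Nat.factorial 12 : ℝ) * P := by
          have := mul_le_mul_of_nonneg_left hA hC2.le
          linarith
      _ ≤ (10 * C1 + 625 * C2 + (Nat.factorial 12 : ℝ)) * P := by
          have : 0 ≤ 10 * C1 * P := by positivity
          linarith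

end Pool.Agent.Lib.MP_6bc78b_nt.MS.P1.K0C
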