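import Pool.Agent.Lib.MP_6bc78b_nt.MS.P1.Iface
import Pool.Agent.Lib.MP_6bc78b_nt.MS.P1.CHI
import Pool.Agent.Lib.MP_6bc78b_nt.H11.Contour

/-! Project MS, Part I, module K0L: the kernel on the line `Re s = 7`. -/

set_option autoImplicit false

open Complex Filter Topology MeasureTheory

namespace Pool.Agent.Lib.MP_6bc78b_nt.MS.P1.K0L

open Pool.Agent.Lib.MP_6bc78b_nt.MS Pool.Agent.Lib.MP_6bc78b_nt.MS.P1
open Pool.Agent.Lib.MP_6bc78b_nt.H11 (jb OM contour_shift)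

/-- the integrand -/
noncomputable def ff (T r : ℝ) (s : ℂ) : ℂ := XX s * om s ^ 0 * WW T s * (r : ℂ) ^ (-s)

lemma ker_eq (c T r : ℝ) : Ker c T 0 r = (1 / (2 * Real.pi) : ℂ) * ∫ t : ℝ, ff T r (c + t * I) := rfl

/-- the Gaussian beats every power -/
lemma gauss_bound (T : ℝ) {D : ℝ} (hD : 0 < D) :
    ∃ K : ℝ, 0 < K ∧ ∀ t : ℝ, (1 + |t|) ^ 8 * Real.exp (-(t - T) ^ 2 / D ^ 2) ≤ K := by
  refine ⟨(1 + |T|) ^ 8 * (16 * (1 + D ^ 2) ^ 4 * (24 * Real.exp 1)), by positivity, fun t => ?_⟩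
  set y : ℝ := t - T with hy
  have h1 : 1 + |t| ≤ (1 + |T|) * (1 + |y|) := by
    have h : |t| ≤ |T| + |y| := by
      have := abs_add_le T y
      rwa [hy, add_sub_cancel] at this
    nlinarith [abs_nonneg T, abs_nonneg y, mul_nonneg (abs_nonneg T) (abs_nonneg y)]
  have h2 : (1 + |y|) ^ 8 ≤ 16 * (1 + y ^ 2) ^ 4 := by
    have h : (1 + |y|) ^ 2 ≤ 2 * (1 + y ^ 2) := by
      nlinarith [sq_abs y, sq_nonneg (1 - |y|)]
    calc (1 + |y|) ^ 8 = ((1 + |y|) ^ 2) ^ 4 := by ring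
      _ ≤ (2 * (1 + y ^ 2)) ^ 4 := pow_le_pow_left₀ (by positivity) h 4
      _ = 16 * (1 + y ^ 2) ^ 4 := by ring
  have h3 : 1 + y ^ 2 ≤ (1 + D ^ 2) * (1 + y ^ 2 / D ^ 2) := by
    have e : (1 + D ^ 2) * (1 + y ^ 2 / D ^ 2) = 1 + D ^ 2 + y ^ 2 / D ^ 2 + y ^ 2 := by
      field_simp
      ring
    rw [e]
    have : 0 ≤ y ^ 2 / D ^ 2 := by positivity
    nlinarith [sq_nonneg D]
  have h4 : (1 + y ^ 2 / D ^ 2) ^ 4 * Real.exp (-y ^ 2 / D ^ 2) ≤ 24 * Real.exp 1 := by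
    have hx : 0 ≤ 1 + y ^ 2 / D ^ 2 := by positivity
    have h := Real.pow_div_factorial_le_exp (1 + y ^ 2 / D ^ 2) hx 4
    have hf : ((Nat.factorial 4 : ℕ) : ℝ) = 24 := by norm_num [Nat.factorial]
    rw [hf, div_le_iff₀ (by norm_num)] at h
    calc (1 + y ^ 2 / D ^ 2) ^ 4 * Real.exp (-y ^ 2 / D ^ 2)
        ≤ (Real.exp (1 + y ^ 2 / D ^ 2) * 24) * Real.exp (-y ^ 2 / D ^ 2) :=
          mul_le_mul_of_nonneg_right h (Real.exp_pos _).le
      _ = 24 * (Real.exp (1 + y ^ 2 / D ^ 2) * Real.exp (-y ^ 2 / D ^ 2)) := by ring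
      _ = 24 * Real.exp 1 := by
          rw [← Real.exp_add]
          congr 2
          ring
  calc (1 + |t|) ^ 8 * Real.exp (-y ^ 2 / D ^ 2)
      ≤ ((1 + |T|) * (1 + |y|)) ^ 8 * Real.exp (-y ^ 2 / D ^ 2) :=
        mul_le_mul_of_nonneg_right (pow_le_pow_left₀ (by positivity) h1 8) (Real.exp_pos _).le
    _ = (1 + |T|) ^ 8 * ((1 + |y|) ^ 8 * Real.exp (-y ^ 2 / D ^ 2)) := by ring
    _ ≤ (1 + |T|) ^ 8 * ((16 * ((1 + D ^ 2) * (1 + y ^ 2 / D ^ 2)) ^ 4) *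
          Real.exp (-y ^ 2 / D ^ 2)) := by
        refine mul_le_mul_of_nonneg_left (mul_le_mul_of_nonneg_right (h2.trans ?_)
          (Real.exp_pos _).le) (by positivity)
        exact mul_le_mul_of_nonneg_left (pow_le_pow_left₀ (by positivity) h3 4) (by norm_num)
    _ = (1 + |T|) ^ 8 * (16 * (1 + D ^ 2) ^ 4 *
          ((1 + y ^ 2 / D ^ 2) ^ 4 * Real.exp (-y ^ 2 / D ^ 2))) := by ring
    _ ≤ (1 + |T|) ^ 8 * (16 * (1 + D ^ 2) ^ 4 * (24 * Real.exp 1)) := by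
        refine mul_le_mul_of_nonneg_left (mul_le_mul_of_nonneg_left h4 (by positivity))
          (by positivity)

lemma norm_r {r : ℝ} (hr : 0 < r) (σ t : ℝ) : ‖(r : ℂ) ^ (-(σ + t * I : ℂ))‖ = r ^ (-σ) := by
  rw [Complex.norm_cpow_eq_rpow_re_of_pos hr]
  simp

lemma rpow_between {r σ a b : ℝ} (hr : 0 < r) (ha : a ≤ σ) (hb : σ ≤ b) :
    r ^ (-σ) ≤ r ^ (-a) + r ^ (-b) := by
  rcases le_total 1 r with h | h
  · have h1 : r ^ (-σ) ≤ r ^ (-a) := Real.rpow_le_rpow_of_exponent_le h (by linarith)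
    have h2 : 0 < r ^ (-b) := Real.rpow_pos_of_pos hr _
    linarith
  · have h1 : r ^ (-σ) ≤ r ^ (-b) := Real.rpow_le_rpow_of_exponent_ge hr h (by linarith)
    have h2 : 0 < r ^ (-a) := Real.rpow_pos_of_pos hr _
    linarith

/-- the trivial bound of the integrand -/
lemma norm_ff {C : ℝ}
    (hX : ∀ s : ℂ, 1 / 2 ≤ s.re → s.re ≤ 8 → ‖XX s‖ ≤ C * (1 + |s.im|) ^ (s.re - 1 / 2))
    {T r σ : ℝ} (hr : 0 < r) (h1 : 1 / 2 ≤ σ) (h2 : σ ≤ 8) (t : ℝ) :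
    ‖ff T r (σ + t * I)‖ ≤ C * (1 + |t|) ^ (σ - 1 / 2) * ‖WW T (σ + t * I)‖ * r ^ (-σ) := by
  unfold ff
  rw [pow_zero, mul_one, norm_mul, norm_mul, norm_r hr]
  have hre : (σ + t * I : ℂ).re = σ := by simp
  have him : (σ + t * I : ℂ).im = t := by simp
  have h := hX (σ + t * I) (by rw [hre]; exact h1) (by rw [hre]; exact h2)
  rw [hre, him] at h
  exact mul_le_mul_of_nonneg_right (mul_le_mul_of_nonneg_right h (norm_nonneg _))
    (Real.rpow_nonneg hr.le _)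

lemma strip_bound (hW : GaussStatement) {C : ℝ} (hC : 0 < C)
    (hX : ∀ s : ℂ, 1 / 2 ≤ s.re → s.re ≤ 8 → ‖XX s‖ ≤ C * (1 + |s.im|) ^ (s.re - 1 / 2))
    {T r c : ℝ} (hr : 0 < r) (hD : 0 < DD T) (hc : 1 / 2 ≤ c) :
    ∃ B : ℝ, ∀ σ ∈ Set.Icc c 7, ∀ t : ℝ, ‖ff T r (σ + t * I)‖ ≤ B * jb t := by
  obtain ⟨K, hK, hKb⟩ := gauss_bound T hD
  refine ⟨C * Real.exp (49 / DD T ^ 2) * (r ^ (-c) + r ^ (-(7 : ℝ))) * K, fun σ hσ t => ?_⟩
  have h0 := norm_ff hX hr (hc.trans hσ.1) (by linarith [hσ.2]) (T := T) t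
  refine h0.trans ?_
  have h1 : ‖WW T (σ + t * I)‖ ≤ Real.exp (49 / DD T ^ 2) *
      Real.exp (-(t - T) ^ 2 / DD T ^ 2) := by
    rw [hW.2.1, ← Real.exp_add, Real.exp_le_exp, ← add_div]
    refine div_le_div_of_nonneg_right ?_ (by positivity)
    have h3 : (σ - 1 / 2) ^ 2 ≤ 49 := by
      have h4 : 0 ≤ σ - 1 / 2 := by linarith [hσ.1]
      have h5 : σ - 1 / 2 ≤ 7 := by linarith [hσ.2]
      nlinarith
    linarith
  have hb : 1 ≤ 1 + |t| := by linarith [abs_nonneg t]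
  have h2 : (1 + |t|) ^ (σ - 1 / 2) ≤ (1 + |t|) ^ 8 * jb t := by
    have e : (1 + |t|) ^ 8 * jb t = (1 + |t|) ^ (13 / 2 : ℝ) := by
      unfold jb
      rw [Real.norm_eq_abs, ← Real.rpow_natCast, ← Real.rpow_add (by linarith)]
      norm_num
    rw [e]
    exact Real.rpow_le_rpow_of_exponent_le hb (by linarith [hσ.2])
  have h3 := rpow_between hr hσ.1 hσ.2
  have hjb : 0 < jb t := Pool.Agent.Lib.MP_6bc78b_nt.H11.jb_pos t
  have h4 := hKb t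
  calc C * (1 + |t|) ^ (σ - 1 / 2) * ‖WW T (σ + t * I)‖ * r ^ (-σ)
      ≤ C * ((1 + |t|) ^ 8 * jb t) * (Real.exp (49 / DD T ^ 2) *
          Real.exp (-(t - T) ^ 2 / DD T ^ 2)) * (r ^ (-c) + r ^ (-(7 : ℝ))) := by
        refine mul_le_mul (mul_le_mul (mul_le_mul_of_nonneg_left h2 hC.le) h1 (norm_nonneg _)
          (by positivity)) h3 (Real.rpow_nonneg hr.le _) (by positivity)
    _ = C * Real.exp (49 / DD T ^ 2) * (r ^ (-c) + r ^ (-(7 : ℝ))) *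
          ((1 + |t|) ^ 8 * Real.exp (-(t - T) ^ 2 / DD T ^ 2)) * jb t := by ring
    _ ≤ C * Real.exp (49 / DD T ^ 2) * (r ^ (-c) + r ^ (-(7 : ℝ))) * K * jb t := by
        refine mul_le_mul_of_nonneg_right (mul_le_mul_of_nonneg_left h4 ?_) hjb.le
        have := Real.rpow_pos_of_pos hr (-c)
        have := Real.rpow_pos_of_pos hr (-(7 : ℝ))
        positivity

lemma differentiable_WW (T : ℝ) : Differentiable ℂ (WW T) := by
  unfold WW
  fun_prop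

lemma differentiableAt_ff (hchi : ChiStatement) {T r : ℝ} (hr : 0 < r) {s : ℂ} (hs : 0 < s.re) :
    DifferentiableAt ℂ (ff T r) s := by
  have h0 : ff T r = fun s => XX s * WW T s * (r : ℂ) ^ (-s) := by
    funext s
    unfold ff
    rw [pow_zero, mul_one]
  rw [h0]
  have h1 : DifferentiableAt ℂ (fun s : ℂ => (r : ℂ) ^ (-s)) s :=
    differentiableAt_id.neg.const_cpow (Or.inl (by exact_mod_cast hr.ne'))
  exact ((hchi.1 s hs).mul (differentiable_WW T s)).mul h1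

/-- the shift of the line -/
lemma shift (hchi : ChiStatement) (hW : GaussStatement) {C : ℝ} (hC : 0 < C)
    (hX : ∀ s : ℂ, 1 / 2 ≤ s.re → s.re ≤ 8 → ‖XX s‖ ≤ C * (1 + |s.im|) ^ (s.re - 1 / 2))
    {T r c : ℝ} (hr : 0 < r) (hD : 0 < DD T) (hc : 1 / 2 ≤ c) (hc7 : c ≤ 7) :
    Ker c T 0 r = Ker 7 T 0 r := by
  obtain ⟨B, hB⟩ := strip_bound hW hC hX hr hD hc
  have hF : DifferentiableOn ℂ (fun s => ff T r (s - 1 / 4)) OM := by
    intro s hs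
    have hs' : (1 : ℝ) / 2 < s.re := hs
    have h1 : 0 < (s - 1 / 4).re := by
      have : (s - 1 / 4 : ℂ).re = s.re - 1 / 4 := by
        rw [Complex.sub_re]
        norm_num
      rw [this]
      linarith
    exact ((differentiableAt_ff hchi hr h1).comp s
      (differentiableAt_id.sub_const (1 / 4 : ℂ))).differentiableWithinAt
  have hsh := contour_shift hF (a := c + 1 / 4) (b := 7 + 1 / 4) (C := B) (by linarith)
    (by linarith) (fun σ hσ t => by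
      have h1 : (σ + t * I : ℂ) - 1 / 4 = ((σ - 1 / 4 : ℝ) : ℂ) + t * I := by
        push_cast
        ring
      simp only [h1]
      exact hB (σ - 1 / 4) ⟨by linarith [hσ.1], by linarith [hσ.2]⟩ t)
  have h2 : ∀ a : ℝ, (fun t : ℝ => ff T r ((((a + 1 / 4 : ℝ) : ℂ) + t * I) - 1 / 4)) =
      fun t : ℝ => ff T r (a + t * I) := by
    intro a
    funext t
    congr 1
    push_cast
    ring
  rw [h2, h2] at hsh
  rw [ker_eq, ker_eq, hsh]

end Pool.Agent.Lib.MP_6bc78b_nt.MS.P1.K0L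

namespace Pool.Agent.Lib.MP_6bc78b_nt.MS.P1

open K0L in
/-- K0L -/
theorem k0l (hchi : ChiStatement) (hX : ChiSizeStatement) (hM : MomentStatement)
    (hW : GaussStatement) (hDD : DDStatement) : K0LStatement := by
  obtain ⟨C, hC, hXX⟩ := hX
  obtain ⟨C1, T1, hC1, hT1, hmom⟩ := hM (13 / 2) 7 0 0 (by norm_num) (by norm_num) (by norm_num)
  obtain ⟨T2, hT2⟩ := eventually_atTop.1 hDD.2.2.1
  refine ⟨C * C1, max T1 (max T2 2), by positivity, by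
    have := le_max_left T1 (max T2 2)
    linarith, fun T c r hT hc hc7 hr => ?_⟩
  have hTT1 : T1 ≤ T := (le_max_left _ _).trans hT
  have hTT2 : T2 ≤ T := ((le_max_left _ _).trans (le_max_right _ _)).trans hT
  obtain ⟨hD1, hD2, _, _⟩ := hT2 T hTT2
  have hT0 : 0 < T := by linarith
  obtain ⟨hint, hle⟩ := hmom T hTT1
  rw [shift hchi hW hC hXX hr (by linarith) hc hc7, ker_eq]
  simp only [pow_zero, mul_one, zero_add, pow_one] at hint hle
  have hb : ∀ t : ℝ, ‖ff T r (((7 : ℝ) : ℂ) + t * I)‖ ≤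
      (C * r ^ (-(7 : ℝ))) * ((1 + |t|) ^ (13 / 2 : ℝ) * ‖WW T (((7 : ℝ) : ℂ) + t * I)‖) := by
    intro t
    have h := norm_ff hXX (T := T) hr (σ := 7) (by norm_num) (by norm_num) t
    refine h.trans (le_of_eq ?_)
    have e : (7 : ℝ) - 1 / 2 = 13 / 2 := by norm_num
    rw [e]
    ring
  have h1 : ‖∫ t : ℝ, ff T r (((7 : ℝ) : ℂ) + t * I)‖ ≤
      (C * r ^ (-(7 : ℝ))) * ∫ t : ℝ, (1 + |t|) ^ (13 / 2 : ℝ) *
        ‖WW T (((7 : ℝ) : ℂ) + t * I)‖ := by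
    rw [← integral_const_mul]
    exact norm_integral_le_of_norm_le (hint.const_mul _) (ae_of_all _ hb)
  have h2 : ‖(1 / (2 * Real.pi) : ℂ)‖ ≤ 1 := by
    rw [show (1 / (2 * Real.pi) : ℂ) = ((1 / (2 * Real.pi) : ℝ) : ℂ) by push_cast; rfl,
      Complex.norm_real, Real.norm_eq_abs, abs_of_pos (by positivity),
      div_le_one (by positivity)]
    linarith [Real.pi_gt_three]
  have hr7 : 0 < r ^ (-(7 : ℝ)) := Real.rpow_pos_of_pos hr _
  rw [norm_mul]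
  calc ‖(1 / (2 * Real.pi) : ℂ)‖ * ‖∫ t : ℝ, ff T r (((7 : ℝ) : ℂ) + t * I)‖
      ≤ 1 * ((C * r ^ (-(7 : ℝ))) * ∫ t : ℝ, (1 + |t|) ^ (13 / 2 : ℝ) *
          ‖WW T (((7 : ℝ) : ℂ) + t * I)‖) :=
        mul_le_mul h2 h1 (norm_nonneg _) zero_le_one
    _ ≤ (C * r ^ (-(7 : ℝ))) * (C1 * T ^ (13 / 2 : ℝ) * DD T) := by
        rw [one_mul]
        exact mul_le_mul_of_nonneg_left hle (by positivity)
    _ ≤ (C * r ^ (-(7 : ℝ))) * (C1 * T ^ (13 / 2 : ℝ) * T) := by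
        refine mul_le_mul_of_nonneg_left (mul_le_mul_of_nonneg_left hD1 ?_) (by positivity)
        have := Real.rpow_pos_of_pos hT0 (13 / 2 : ℝ)
        positivity
    _ = C * C1 * T ^ (15 / 2 : ℝ) * r ^ (-(7 : ℝ)) := by
        have e : T ^ (15 / 2 : ℝ) = T ^ (13 / 2 : ℝ) * T := by
          rw [← Real.rpow_add_one hT0.ne']
          norm_num
        rw [e]
        ring

end Pool.Agent.Lib.MP_6bc78b_nt.MS.P1
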