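import Mathlib
import Pool.Agent.Lib.MP_6bc78b_nt.MS.P1.Iface
import Pool.Agent.Lib.MP_6bc78b_nt.MS.P1.GAU

set_option autoImplicit false

open Complex Set Filter Topology MeasureTheory

namespace Pool.Agent.Lib.MP_6bc78b_nt.MS.P1.K0T

lemma abs_exp_neg_sub (u : ℝ) : |Real.exp (-u) - (1 - u)| ≤ u ^ 2 * Real.exp |u| := by
  have h := Complex.norm_exp_sub_sum_le_norm_mul_exp ((-u : ℝ) : ℂ) 2
  rw [Finset.sum_range_succ, Finset.sum_range_one] at h
  simp only [pow_zero, Nat.factorial, Nat.cast_one, div_one, pow_one] at h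
  rw [Complex.norm_real, Real.norm_eq_abs, abs_neg, sq_abs] at h
  rw [show cexp ((-u : ℝ) : ℂ) - (1 + ((-u : ℝ) : ℂ) / ((Nat.succ 0 * 1 : ℕ) : ℂ)) =
    ((Real.exp (-u) - (1 - u) : ℝ) : ℂ) by push_cast; ring] at h
  rw [Complex.norm_real, Real.norm_eq_abs] at h
  exact h

lemma norm_exp_I_sub (a b : ℝ) : ‖cexp (a * I) - cexp (b * I)‖ ≤ |a - b| := by
  have h := Real.norm_exp_I_mul_ofReal_sub_one_le (x := a - b)
  have e : cexp (a * I) - cexp (b * I) = cexp (b * I) * (cexp (I * ((a - b : ℝ) : ℂ)) - 1) := by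
    rw [mul_sub, ← Complex.exp_add, mul_one]
    congr 2
    push_cast; ring
  rw [e, norm_mul, Complex.norm_exp_ofReal_mul_I, one_mul]
  exact h

/-- The Gaussian factor. -/
noncomputable def AA (T u : ℝ) : ℂ := cexp (-((DD T) ^ 2 * u ^ 2 / 4) - (1 / 2 + T * I) * u)

lemma norm_AA (T u : ℝ) : ‖AA T u‖ = Real.exp (-(DD T ^ 2 * u ^ 2 / 4) - u / 2) := by
  unfold AA
  rw [Complex.norm_exp]
  congr 1
  have : (-((DD T : ℂ) ^ 2 * u ^ 2 / 4) - (1 / 2 + T * I) * u : ℂ) =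
      ((-(DD T ^ 2 * u ^ 2 / 4) - u / 2 : ℝ) : ℂ) + ((-(T * u) : ℝ) : ℂ) * I := by
    push_cast; ring
  rw [this]
  simp only [Complex.add_re, Complex.ofReal_re, Complex.re_ofReal_mul, Complex.I_re, mul_zero,
    add_zero]

lemma continuous_AA (T : ℝ) : Continuous (AA T) := by
  unfold AA
  fun_prop

lemma integrable_AA {T : ℝ} (hD : 0 < DD T) : Integrable (AA T) := by
  have h := integrable_cexp_quadratic' (b := -((DD T : ℂ) ^ 2 / 4)) (by
    have : (-((DD T : ℂ) ^ 2 / 4)) = ((-(DD T ^ 2 / 4) : ℝ) : ℂ) := by push_cast; rfl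
    rw [this, Complex.ofReal_re]
    have : 0 < DD T ^ 2 / 4 := by positivity
    linarith) (-(1 / 2 + T * I)) 0
  refine h.congr (Filter.Eventually.of_forall fun u => ?_)
  show cexp _ = cexp _
  congr 1
  ring

lemma integrable_AA_mul {T : ℝ} (hD : 0 < DD T) {f : ℝ → ℝ} (hf : Continuous f) :
    Integrable (fun u : ℝ => AA T u * cexp (f u * I)) := by
  refine (integrable_AA hD).norm.mono' ?_ ?_
  · apply Continuous.aestronglyMeasurable
    exact (continuous_AA T).mul (by fun_prop)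
  · refine Filter.Eventually.of_forall fun u => ?_
    rw [norm_mul, Complex.norm_exp_ofReal_mul_I, mul_one]

/-- Main integral. -/
lemma main_int {T : ℝ} (hD : 0 < DD T) (x : ℝ) :
    (cG T : ℂ) * ∫ u : ℝ, AA T u * cexp (((x * (1 - u) : ℝ) : ℂ) * I) =
      cexp (x * I) * cexp ((1 / 2 + (T + x) * I) ^ 2 / (DD T) ^ 2) := by
  have hDc : (DD T : ℂ) ≠ 0 := by exact_mod_cast hD.ne'
  have e1 : ∀ u : ℝ, AA T u * cexp (((x * (1 - u) : ℝ) : ℂ) * I) =
      cexp (-((DD T : ℂ) ^ 2 / 4) * (u : ℂ) ^ 2 + (-(1 / 2 + (T + x) * I)) * u + x * I) := by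
    intro u
    unfold AA
    rw [← Complex.exp_add]
    congr 1
    push_cast
    ring
  simp only [e1]
  rw [integral_cexp_quadratic (by
    have : (-((DD T : ℂ) ^ 2 / 4)) = ((-(DD T ^ 2 / 4) : ℝ) : ℂ) := by push_cast; rfl
    rw [this, Complex.ofReal_re]
    have : 0 < DD T ^ 2 / 4 := by positivity
    linarith)]
  have h1 : ((Real.pi : ℂ) / -(-((DD T : ℂ) ^ 2 / 4))) = ((Real.pi * (2 / DD T) ^ 2 : ℝ) : ℂ) := by
    push_cast
    field_simp
    norm_num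
  have h2 : (1 / 2 : ℂ) = ((1 / 2 : ℝ) : ℂ) := by push_cast; rfl
  have h3 : ((Real.pi : ℂ) / -(-((DD T : ℂ) ^ 2 / 4))) ^ (1 / 2 : ℂ) =
      ((Real.sqrt Real.pi * (2 / DD T) : ℝ) : ℂ) := by
    rw [h1, h2, ← Complex.ofReal_cpow (by positivity), ← Real.sqrt_eq_rpow,
      Real.sqrt_mul Real.pi_pos.le, Real.sqrt_sq (by positivity)]
  rw [h3, ← mul_assoc]
  have h4 : (cG T : ℂ) * ((Real.sqrt Real.pi * (2 / DD T) : ℝ) : ℂ) = 1 := by
    rw [← Complex.ofReal_mul]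
    have : cG T * (Real.sqrt Real.pi * (2 / DD T)) = 1 := by
      unfold cG
      have hpi0 : Real.sqrt Real.pi ≠ 0 := (Real.sqrt_pos.mpr Real.pi_pos).ne'
      have hD0 := hD.ne'
      field_simp
    rw [this, Complex.ofReal_one]
  rw [h4, one_mul, ← Complex.exp_add]
  congr 1
  field_simp
  ring

lemma pointwise {D u : ℝ} (hD : 1 ≤ D) :
    Real.exp (-(D ^ 2 * u ^ 2 / 4) - u / 2) * (u ^ 2 * Real.exp |u|) ≤
      (16 * Real.exp 9 / D ^ 2) * Real.exp (-(D ^ 2 / 8) * u ^ 2) := by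
  have hD0 : 0 < D := by linarith
  have h1 : u ^ 2 ≤ 16 / D ^ 2 * Real.exp (D ^ 2 * u ^ 2 / 16) := by
    have h := Real.add_one_le_exp (D ^ 2 * u ^ 2 / 16)
    have h2 : D ^ 2 * u ^ 2 / 16 ≤ Real.exp (D ^ 2 * u ^ 2 / 16) := by linarith
    calc u ^ 2 = 16 / D ^ 2 * (D ^ 2 * u ^ 2 / 16) := by field_simp
      _ ≤ _ := mul_le_mul_of_nonneg_left h2 (by positivity)
  have h3 : -(u / 2) + |u| ≤ D ^ 2 * u ^ 2 / 16 + 9 := by
    have h4 : -u ≤ |u| := neg_le_abs u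
    have h5 : 0 ≤ (D * |u| / 4 - 3 / D) ^ 2 := sq_nonneg _
    have h6 : (D * |u| / 4 - 3 / D) ^ 2 = D ^ 2 * u ^ 2 / 16 - 3 / 2 * |u| + 9 / D ^ 2 := by
      have : |u| ^ 2 = u ^ 2 := sq_abs u
      rw [← this]
      field_simp
      ring
    have h7 : 9 / D ^ 2 ≤ 9 := by
      rw [div_le_iff₀ (by positivity)]
      nlinarith
    rw [h6] at h5
    linarith
  calc Real.exp (-(D ^ 2 * u ^ 2 / 4) - u / 2) * (u ^ 2 * Real.exp |u|)
      ≤ Real.exp (-(D ^ 2 * u ^ 2 / 4) - u / 2) *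
          ((16 / D ^ 2 * Real.exp (D ^ 2 * u ^ 2 / 16)) * Real.exp |u|) := by
        apply mul_le_mul_of_nonneg_left _ (Real.exp_pos _).le
        exact mul_le_mul_of_nonneg_right h1 (Real.exp_pos _).le
    _ = 16 / D ^ 2 * Real.exp (-(D ^ 2 * u ^ 2 / 4) + D ^ 2 * u ^ 2 / 16 + (-(u / 2) + |u|)) := by
        rw [Real.exp_add, Real.exp_add, Real.exp_add, Real.exp_sub, Real.exp_neg (u / 2)]
        field_simp
    _ ≤ 16 / D ^ 2 * Real.exp (9 + -(D ^ 2 / 8) * u ^ 2) := by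
        apply mul_le_mul_of_nonneg_left _ (by positivity)
        apply Real.exp_le_exp.2
        linarith
    _ = _ := by rw [Real.exp_add]; ring

lemma cG_mul_gauss {T : ℝ} (hD : 0 < DD T) :
    cG T * ∫ u : ℝ, Real.exp (-(DD T ^ 2 / 8) * u ^ 2) ≤ 2 := by
  rw [integral_gaussian]
  have h1 : Real.sqrt (Real.pi / (DD T ^ 2 / 8)) ≤ Real.sqrt Real.pi * (4 / DD T) := by
    rw [show Real.sqrt Real.pi * (4 / DD T) = Real.sqrt (Real.pi * (4 / DD T) ^ 2) by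
      rw [Real.sqrt_mul Real.pi_pos.le, Real.sqrt_sq (by positivity)]]
    apply Real.sqrt_le_sqrt
    have h2 : Real.pi / (DD T ^ 2 / 8) = 8 * (Real.pi / DD T ^ 2) := by field_simp
    have h3 : Real.pi * (4 / DD T) ^ 2 = 16 * (Real.pi / DD T ^ 2) := by field_simp; norm_num
    rw [h2, h3]
    have : 0 < Real.pi / DD T ^ 2 := by positivity
    linarith
  have hcG : 0 < cG T := by unfold cG; positivity
  refine (mul_le_mul_of_nonneg_left h1 hcG.le).trans (le_of_eq ?_)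
  unfold cG
  have hpi0 : Real.sqrt Real.pi ≠ 0 := (Real.sqrt_pos.mpr Real.pi_pos).ne'
  have hD0 := hD.ne'
  field_simp
  norm_num

/-- Taylor error. -/
lemma taylor_int {T : ℝ} (hD : 1 ≤ DD T) (x : ℝ) :
    ‖(cG T : ℂ) * (∫ u : ℝ, AA T u * cexp (((x * Real.exp (-u) : ℝ) : ℂ) * I)) -
      (cG T : ℂ) * ∫ u : ℝ, AA T u * cexp (((x * (1 - u) : ℝ) : ℂ) * I)‖ ≤
      32 * Real.exp 9 * |x| / DD T ^ 2 := by
  have hD0 : 0 < DD T := by linarith
  have hcG : 0 < cG T := by unfold cG; positivity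
  rw [← mul_sub, ← integral_sub (integrable_AA_mul hD0 (by fun_prop))
    (integrable_AA_mul hD0 (by fun_prop)), norm_mul, Complex.norm_real, Real.norm_eq_abs,
    abs_of_pos hcG]
  have hG : Integrable (fun u : ℝ => Real.exp (-(DD T ^ 2 / 8) * u ^ 2)) :=
    integrable_exp_neg_mul_sq (by positivity)
  have h1 : ‖∫ u : ℝ, (AA T u * cexp (((x * Real.exp (-u) : ℝ) : ℂ) * I) -
      AA T u * cexp (((x * (1 - u) : ℝ) : ℂ) * I))‖ ≤
      ∫ u : ℝ, (|x| * (16 * Real.exp 9 / DD T ^ 2)) * Real.exp (-(DD T ^ 2 / 8) * u ^ 2) := by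
    apply norm_integral_le_of_norm_le (hG.const_mul _)
    refine Filter.Eventually.of_forall fun u => ?_
    rw [← mul_sub, norm_mul, norm_AA]
    have h2 := norm_exp_I_sub (x * Real.exp (-u)) (x * (1 - u))
    rw [← mul_sub, abs_mul] at h2
    have h3 := h2.trans (mul_le_mul_of_nonneg_left (abs_exp_neg_sub u) (abs_nonneg x))
    calc Real.exp (-(DD T ^ 2 * u ^ 2 / 4) - u / 2) * ‖cexp (((x * Real.exp (-u) : ℝ) : ℂ) * I) -
          cexp (((x * (1 - u) : ℝ) : ℂ) * I)‖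
        ≤ Real.exp (-(DD T ^ 2 * u ^ 2 / 4) - u / 2) * (|x| * (u ^ 2 * Real.exp |u|)) :=
          mul_le_mul_of_nonneg_left h3 (Real.exp_pos _).le
      _ = |x| * (Real.exp (-(DD T ^ 2 * u ^ 2 / 4) - u / 2) * (u ^ 2 * Real.exp |u|)) := by ring
      _ ≤ |x| * ((16 * Real.exp 9 / DD T ^ 2) * Real.exp (-(DD T ^ 2 / 8) * u ^ 2)) :=
          mul_le_mul_of_nonneg_left (pointwise hD) (abs_nonneg x)
      _ = _ := by ring
  rw [integral_const_mul] at h1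
  have h4 := cG_mul_gauss hD0
  calc cG T * ‖∫ u : ℝ, (AA T u * cexp (((x * Real.exp (-u) : ℝ) : ℂ) * I) -
      AA T u * cexp (((x * (1 - u) : ℝ) : ℂ) * I))‖
      ≤ cG T * ((|x| * (16 * Real.exp 9 / DD T ^ 2)) *
          ∫ u : ℝ, Real.exp (-(DD T ^ 2 / 8) * u ^ 2)) := mul_le_mul_of_nonneg_left h1 hcG.le
    _ = (|x| * (16 * Real.exp 9 / DD T ^ 2)) *
          (cG T * ∫ u : ℝ, Real.exp (-(DD T ^ 2 / 8) * u ^ 2)) := by ring
    _ ≤ (|x| * (16 * Real.exp 9 / DD T ^ 2)) * 2 := mul_le_mul_of_nonneg_left h4 (by positivity)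
    _ = _ := by ring

/-- The non-resonant term. -/
lemma main_plus {T x : ℝ} (hD : 1 ≤ DD T) (hT : 0 ≤ T) (hx : 0 ≤ x) :
    ‖cexp (x * I) * cexp ((1 / 2 + (T + x) * I) ^ 2 / (DD T) ^ 2)‖ ≤
      Real.exp 1 * Real.exp (-(T ^ 2 / (16 * DD T ^ 2))) := by
  have hD0 : 0 < DD T := by linarith
  rw [norm_mul, Complex.norm_exp_ofReal_mul_I, one_mul, Complex.norm_exp, ← Real.exp_add]
  apply Real.exp_le_exp.2
  have e : ((1 / 2 + ((T : ℂ) + x) * I) ^ 2 / (DD T : ℂ) ^ 2) =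
      (((1 / 4 - (T + x) ^ 2) / DD T ^ 2 : ℝ) : ℂ) + (((T + x) / DD T ^ 2 : ℝ) : ℂ) * I := by
    have hDc : (DD T : ℂ) ≠ 0 := by exact_mod_cast hD0.ne'
    have hI : I ^ 2 = -1 := Complex.I_sq
    push_cast
    field_simp
    ring_nf
    rw [hI]
    ring
  rw [e]
  simp only [Complex.add_re, Complex.ofReal_re, Complex.re_ofReal_mul, Complex.I_re, mul_zero,
    add_zero]
  have h1 : T ^ 2 ≤ (T + x) ^ 2 := by nlinarith
  have h2 : (1 / 4 : ℝ) / DD T ^ 2 ≤ 1 := by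
    rw [div_le_iff₀ (by positivity)]; nlinarith
  have h3 : T ^ 2 / (16 * DD T ^ 2) ≤ (T + x) ^ 2 / DD T ^ 2 := by
    rw [div_le_div_iff₀ (by positivity) (by positivity)]
    have : 0 < DD T ^ 2 := by positivity
    nlinarith [mul_nonneg (sub_nonneg.2 h1) this.le, mul_nonneg (sq_nonneg T) this.le]
  rw [sub_div]
  linarith

/-- The resonant term. -/
lemma main_minus {T x : ℝ} (hD : 1 ≤ DD T) :
    ‖cexp (((-x : ℝ) : ℂ) * I) * cexp ((1 / 2 + (T + ((-x : ℝ) : ℂ)) * I) ^ 2 / (DD T) ^ 2) -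
      cexp (((-x : ℝ) : ℂ) * I) * (Real.exp (-(x - T) ^ 2 / DD T ^ 2) : ℝ)‖ ≤
      Real.exp 2 / DD T := by
  have hD0 : 0 < DD T := by linarith
  set y := T - x with hy
  set D := DD T with hDd
  have hDc : (D : ℂ) ≠ 0 := by exact_mod_cast hD0.ne'
  have e : ((1 / 2 + ((T : ℂ) + ((-x : ℝ) : ℂ)) * I) ^ 2 / (D : ℂ) ^ 2) =
      ((-(x - T) ^ 2 / D ^ 2 : ℝ) : ℂ) + (1 / 4 + y * I) / (D : ℂ) ^ 2 := by
    have hI : I ^ 2 = -1 := Complex.I_sq
    rw [hy]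
    push_cast
    field_simp
    ring_nf
    rw [hI]
    ring
  rw [← mul_sub, norm_mul, Complex.norm_exp_ofReal_mul_I, one_mul, e, Complex.exp_add,
    ← Complex.ofReal_exp]
  have e2 : ((Real.exp (-(x - T) ^ 2 / D ^ 2) : ℝ) : ℂ) * cexp ((1 / 4 + y * I) / (D : ℂ) ^ 2) -
      ((Real.exp (-(x - T) ^ 2 / D ^ 2) : ℝ) : ℂ) = ((Real.exp (-(x - T) ^ 2 / D ^ 2) : ℝ) : ℂ) *
        (cexp ((1 / 4 + y * I) / (D : ℂ) ^ 2) - 1) := by ring
  rw [e2, norm_mul, Complex.norm_real, Real.norm_eq_abs, abs_of_pos (Real.exp_pos _)]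
  set z : ℂ := (1 / 4 + y * I) / (D : ℂ) ^ 2 with hz
  have h1 := Complex.norm_exp_sub_sum_le_norm_mul_exp z 1
  rw [Finset.sum_range_one] at h1
  simp only [pow_zero, Nat.factorial, Nat.cast_one, div_one, pow_one] at h1
  set w := |y| / D with hw
  have hw0 : 0 ≤ w := by positivity
  have hzn : ‖z‖ ≤ (1 / 4 + w) / D := by
    rw [hz, norm_div, norm_pow, Complex.norm_real, Real.norm_eq_abs, abs_of_pos hD0]
    have h2 : ‖(1 / 4 + y * I : ℂ)‖ ≤ 1 / 4 + |y| := by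
      refine (norm_add_le _ _).trans ?_
      rw [norm_mul, norm_I, mul_one, Complex.norm_real, Real.norm_eq_abs]
      norm_num
    calc ‖(1 / 4 + y * I : ℂ)‖ / D ^ 2 ≤ (1 / 4 + |y|) / D ^ 2 :=
          div_le_div_of_nonneg_right h2 (by positivity)
      _ ≤ (1 / 4 * D + |y|) / D ^ 2 := by
          apply div_le_div_of_nonneg_right _ (by positivity)
          nlinarith
      _ = (1 / 4 + w) / D := by rw [hw]; field_simp
  have hz1 : ‖z‖ ≤ 1 / 4 + w := hzn.trans (div_le_self (by positivity) hD)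
  have hxy : (x - T) ^ 2 / D ^ 2 = w ^ 2 := by
    rw [hw, div_pow, sq_abs, hy]
    congr 1
    ring
  have h5 : Real.exp (-(x - T) ^ 2 / D ^ 2) = Real.exp (-w ^ 2) := by
    congr 1
    rw [neg_div, hxy]
  rw [h5]
  calc Real.exp (-w ^ 2) * ‖cexp z - 1‖ ≤ Real.exp (-w ^ 2) * (‖z‖ * Real.exp ‖z‖) :=
        mul_le_mul_of_nonneg_left h1 (Real.exp_pos _).le
    _ ≤ Real.exp (-w ^ 2) * (((1 / 4 + w) / D) * Real.exp (1 / 4 + w)) := by
        apply mul_le_mul_of_nonneg_left _ (Real.exp_pos _).le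
        exact mul_le_mul hzn (Real.exp_le_exp.2 hz1) (Real.exp_pos _).le (by positivity)
    _ ≤ Real.exp (-w ^ 2) * ((Real.exp w / D) * Real.exp (1 / 4 + w)) := by
        apply mul_le_mul_of_nonneg_left _ (Real.exp_pos _).le
        apply mul_le_mul_of_nonneg_right _ (Real.exp_pos _).le
        apply div_le_div_of_nonneg_right _ hD0.le
        have := Real.add_one_le_exp w
        linarith
    _ = Real.exp (-w ^ 2 + w + (1 / 4 + w)) / D := by
        rw [Real.exp_add (-w ^ 2 + w) (1 / 4 + w), Real.exp_add (-w ^ 2) w]; ring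
    _ ≤ Real.exp 2 / D := by
        apply div_le_div_of_nonneg_right _ hD0.le
        apply Real.exp_le_exp.2
        nlinarith [sq_nonneg (w - 1)]

/-- K0T. -/
theorem k0t (h0 : K0FStatement) (hd : DDStatement) : K0TStatement := by
  have hev : ∀ᶠ T : ℝ in atTop, 1 < T ∧ (DD T ≤ T ∧ 1 ≤ DD T) ∧
      Real.exp (-(T ^ 2 / (16 * DD T ^ 2))) ≤ T ^ (-1 : ℝ) := by
    filter_upwards [eventually_gt_atTop 1, hd.2.2.1, hd.1 1] with T h1 h2 h3
    exact ⟨h1, ⟨h2.1, h2.2.1⟩, h3⟩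
  obtain ⟨T1, hT1⟩ := hev.exists_forall_of_atTop
  refine ⟨128 * Real.exp 9 * Real.pi + Real.exp 1 + Real.exp 2, max T1 2, by positivity,
    lt_of_lt_of_le (by norm_num) (le_max_right _ _), ?_⟩
  intro T c r hT hc hr
  obtain ⟨h1, ⟨hDT, hD⟩, h3⟩ := hT1 T ((le_max_left _ _).trans hT)
  have hT0 : 0 < T := by linarith
  have hD0 : 0 < DD T := by linarith
  have hx : 0 < 2 * Real.pi * r := by positivity
  rw [h0 T c r hD0 hc hr]
  set x := 2 * Real.pi * r with hxd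
  have e1 : (∫ u : ℝ, cexp (-((DD T : ℂ) ^ 2 * (u : ℂ) ^ 2 / 4) - (1 / 2 + T * I) * u) *
      (2 * Complex.cos (2 * Real.pi * r * Real.exp (-u)))) =
      (∫ u : ℝ, AA T u * cexp (((x * Real.exp (-u) : ℝ) : ℂ) * I)) +
      ∫ u : ℝ, AA T u * cexp (((-x * Real.exp (-u) : ℝ) : ℂ) * I) := by
    rw [← integral_add (integrable_AA_mul hD0 (by fun_prop))
      (integrable_AA_mul hD0 (by fun_prop))]
    congr 1
    funext u
    rw [Complex.cos]
    have e2 : (2 * Real.pi * r * (Real.exp (-u) : ℂ)) = ((x * Real.exp (-u) : ℝ) : ℂ) := by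
      rw [hxd]; push_cast; ring
    have e3 : -(2 * Real.pi * r * (Real.exp (-u) : ℂ)) = ((-x * Real.exp (-u) : ℝ) : ℂ) := by
      rw [hxd]; push_cast; ring
    rw [e3, e2]
    unfold AA
    ring
  rw [e1, mul_add]
  have t1 := taylor_int hD x
  have t2 := taylor_int hD (-x)
  rw [main_int hD0] at t1 t2
  have m1 := main_plus hD hT0.le hx.le
  have m2 := main_minus (T := T) (x := x) hD
  have e4 : ee (-r) * GG T r = cexp (((-x : ℝ) : ℂ) * I) *
      (Real.exp (-(x - T) ^ 2 / DD T ^ 2) : ℝ) := by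
    unfold ee GG
    rw [hxd]
    congr 2
    push_cast; ring
  rw [e4]
  rw [abs_neg] at t2
  rw [abs_of_pos hx] at t1 t2
  set P := (cG T : ℂ) * ∫ u : ℝ, AA T u * cexp (((x * Real.exp (-u) : ℝ) : ℂ) * I) with hP
  set Q := (cG T : ℂ) * ∫ u : ℝ, AA T u * cexp (((-x * Real.exp (-u) : ℝ) : ℂ) * I) with hQ
  set R := cexp (x * I) * cexp ((1 / 2 + (T + x) * I) ^ 2 / (DD T) ^ 2) with hR
  set S := cexp (((-x : ℝ) : ℂ) * I) * cexp ((1 / 2 + (T + ((-x : ℝ) : ℂ)) * I) ^ 2 /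
    (DD T) ^ 2) with hS
  set V := cexp (((-x : ℝ) : ℂ) * I) * (Real.exp (-(x - T) ^ 2 / DD T ^ 2) : ℝ) with hV
  have htri : ‖P + Q - V‖ ≤ ‖P - R‖ + ‖Q - S‖ + ‖R‖ + ‖S - V‖ := by
    have e5 : P + Q - V = (P - R) + (Q - S) + R + (S - V) := by ring
    rw [e5]
    refine (norm_add_le _ _).trans ?_
    gcongr
    refine (norm_add_le _ _).trans ?_
    gcongr
    exact norm_add_le _ _
  have hTinv : T ^ (-1 : ℝ) ≤ 1 / DD T := by
    rw [Real.rpow_neg_one, one_div]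
    exact inv_anti₀ hD0 hDT
  have m1' : ‖R‖ ≤ Real.exp 1 * (1 / DD T) :=
    m1.trans (mul_le_mul_of_nonneg_left (h3.trans hTinv) (Real.exp_pos _).le)
  refine htri.trans ((add_le_add (add_le_add (add_le_add t1 t2) m1') m2).trans ?_)
  have hrr : 32 * Real.exp 9 * x / DD T ^ 2 = 64 * Real.exp 9 * Real.pi * (r / DD T ^ 2) := by
    rw [hxd]; ring
  rw [hrr]
  have hr1 : 0 < r / DD T ^ 2 := by positivity
  have hr2 : 0 < 1 / DD T := by positivity
  have hE9 := Real.exp_pos 9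
  have hE1 := Real.exp_pos 1
  have hE2 := Real.exp_pos 2
  have hpi := Real.pi_pos
  have hA : 0 < 128 * Real.exp 9 * Real.pi := by positivity
  have q1 : Real.exp 2 / DD T = Real.exp 2 * (1 / DD T) := by ring
  rw [q1]
  nlinarith [mul_pos hA hr2, mul_pos hE1 hr1, mul_pos hE2 hr1]

end Pool.Agent.Lib.MP_6bc78b_nt.MS.P1.K0T
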