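import Pool.Agent.Lib.MP_6bc78b_nt.MS.P1.Iface

/-! Project MS, Part I, module KBP: the kernels `Ker c T j r`, `j ≤ 2`, by parts. -/

set_option autoImplicit false

open Complex Filter Topology MeasureTheory

namespace Pool.Agent.Lib.MP_6bc78b_nt.MS.P1.KBP

/-- first derivative of `WW T` -/
noncomputable def W1 (T : ℝ) (s : ℂ) : ℂ := 2 * (s - 1 / 2 - T * I) / (DD T : ℂ) ^ 2 * WW T s

/-- second derivative of `WW T` -/
noncomputable def W2 (T : ℝ) (s : ℂ) : ℂ :=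
  (2 / (DD T : ℂ) ^ 2 + (2 * (s - 1 / 2 - T * I) / (DD T : ℂ) ^ 2) ^ 2) * WW T s

lemma hasDerivAt_WW (T : ℝ) (s : ℂ) : HasDerivAt (WW T) (W1 T s) s := by
  have h1 : HasDerivAt (fun s : ℂ => (s - 1 / 2 - T * I) ^ 2 / (DD T : ℂ) ^ 2)
      (2 * (s - 1 / 2 - T * I) / (DD T : ℂ) ^ 2) s := by
    have h2 : HasDerivAt (fun s : ℂ => (s - 1 / 2 - T * I)) 1 s :=
      ((hasDerivAt_id s).sub_const (1 / 2)).sub_const (T * I)
    have h3 := (h2.pow 2).div_const ((DD T : ℂ) ^ 2)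
    refine h3.congr_deriv ?_
    norm_num
  have h4 := h1.cexp
  refine h4.congr_deriv ?_
  unfold W1 WW
  ring
lemma hasDerivAt_W1 (T : ℝ) (s : ℂ) : HasDerivAt (W1 T) (W2 T s) s := by
  have h1 : HasDerivAt (fun s : ℂ => 2 * (s - 1 / 2 - T * I) / (DD T : ℂ) ^ 2)
      (2 / (DD T : ℂ) ^ 2) s := by
    have h2 : HasDerivAt (fun s : ℂ => (s - 1 / 2 - T * I)) 1 s :=
      ((hasDerivAt_id s).sub_const (1 / 2)).sub_const (T * I)
    have h3 := (h2.const_mul (2 : ℂ)).div_const ((DD T : ℂ) ^ 2)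
    refine h3.congr_deriv ?_
    norm_num
  have h5 := h1.mul (hasDerivAt_WW T s)
  refine h5.congr_deriv ?_
  unfold W2 W1
  ring
lemma hasDerivAt_line {F : ℂ → ℂ} {F' : ℂ} {c t : ℝ} (h : HasDerivAt F F' (c + t * I)) :
    HasDerivAt (fun t : ℝ => F (c + t * I)) (I * F') t := by
  have h1 : HasDerivAt (fun t : ℝ => (c : ℂ) + (t : ℂ) * I) I t := by
    have h2 : HasDerivAt (fun t : ℝ => (t : ℂ)) 1 t := Complex.ofRealCLM.hasDerivAt
    have h3 := (h2.mul_const I).const_add (c : ℂ)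
    simpa using h3
  have h4 := HasDerivAt.scomp t h h1
  exact h4

lemma hasDerivAt_cpow {r : ℝ} (hr : 0 < r) (s : ℂ) :
    HasDerivAt (fun s : ℂ => (r : ℂ) ^ (-s)) (-((Real.log r : ℂ) * (r : ℂ) ^ (-s))) s := by
  have h1 : HasDerivAt (fun s : ℂ => -s) (-1) s := (hasDerivAt_id s).neg
  have h2 := h1.const_cpow (c := (r : ℂ)) (Or.inl (by exact_mod_cast hr.ne'))
  convert h2 using 1
  rw [Complex.ofReal_log hr.le]
  ring

lemma norm_cpow_line {r : ℝ} (hr : 0 < r) (c t : ℝ) :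
    ‖(r : ℂ) ^ (-((c : ℂ) + t * I))‖ = r ^ (-c) := by
  rw [Complex.norm_cpow_eq_rpow_re_of_pos hr]
  simp

lemma int3 (A B C : ℝ → ℂ) (hA : Integrable A) (hB : Integrable B) (hC : Integrable C) (L : ℂ) :
    ∫ t, (I * A t + I * B t - L * C t) = I * (∫ t, A t) + I * (∫ t, B t) - L * ∫ t, C t := by
  have h1 : ∫ t, ((fun t => I * A t + I * B t) t - (fun t => L * C t) t) =
      (∫ t, (I * A t + I * B t)) - ∫ t, L * C t :=
    integral_sub ((hA.const_mul I).add (hB.const_mul I)) (hC.const_mul L)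
  have h2 : ∫ t, ((fun t => I * A t) t + (fun t => I * B t) t) =
      (∫ t, I * A t) + ∫ t, I * B t := integral_add (hA.const_mul I) (hB.const_mul I)
  simp only at h1 h2
  rw [h1, h2, integral_const_mul, integral_const_mul, integral_const_mul]

/-- Integration by parts on the line. -/
lemma byparts (c r : ℝ) (hr : 0 < r) (V V' : ℂ → ℂ)
    (hX : ∀ t : ℝ, HasDerivAt XX (XX (c + t * I) * om (c + t * I)) (c + t * I))
    (hV : ∀ t : ℝ, HasDerivAt V (V' (c + t * I)) (c + t * I))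
    (h1 : Integrable (fun t : ℝ => XX (c + t * I) * V (c + t * I) * (r : ℂ) ^ (-((c : ℂ) + t * I))))
    (h2 : Integrable (fun t : ℝ =>
      XX (c + t * I) * om (c + t * I) * V (c + t * I) * (r : ℂ) ^ (-((c : ℂ) + t * I))))
    (h3 : Integrable (fun t : ℝ =>
      XX (c + t * I) * V' (c + t * I) * (r : ℂ) ^ (-((c : ℂ) + t * I)))) :
    (Real.log r : ℂ) * VI c (fun s => XX s * V s * (r : ℂ) ^ (-s)) =
      VI c (fun s => XX s * om s * V s * (r : ℂ) ^ (-s)) +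
      VI c (fun s => XX s * V' s * (r : ℂ) ^ (-s)) := by
  have hd : ∀ t : ℝ, HasDerivAt
      (fun t : ℝ => XX (c + t * I) * V (c + t * I) * (r : ℂ) ^ (-((c : ℂ) + t * I)))
      (I * (XX (c + t * I) * om (c + t * I) * V (c + t * I) * (r : ℂ) ^ (-((c : ℂ) + t * I))) +
        I * (XX (c + t * I) * V' (c + t * I) * (r : ℂ) ^ (-((c : ℂ) + t * I))) -
        I * (Real.log r : ℂ) *
          (XX (c + t * I) * V (c + t * I) * (r : ℂ) ^ (-((c : ℂ) + t * I)))) t := by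
    intro t
    have h4 := ((hX t).mul (hV t)).mul (hasDerivAt_cpow hr ((c : ℂ) + t * I))
    have h5 := hasDerivAt_line (F := fun s => XX s * V s * (r : ℂ) ^ (-s)) h4
    refine h5.congr_deriv ?_
    simp only [Pi.mul_apply]
    ring
  have hi := ((h2.const_mul I).add (h3.const_mul I)).sub (h1.const_mul (I * (Real.log r : ℂ)))
  have h0 := integral_eq_zero_of_hasDerivAt_of_integrable hd hi h1
  rw [int3 _ _ _ h2 h3 h1] at h0
  unfold VI
  have h6 : (Real.log r : ℂ) *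
      (∫ t : ℝ, XX (c + t * I) * V (c + t * I) * (r : ℂ) ^ (-((c : ℂ) + t * I))) =
      (∫ t : ℝ, XX (c + t * I) * om (c + t * I) * V (c + t * I) * (r : ℂ) ^ (-((c : ℂ) + t * I))) +
      (∫ t : ℝ, XX (c + t * I) * V' (c + t * I) * (r : ℂ) ^ (-((c : ℂ) + t * I))) := by
    have h7 : I * ((∫ t : ℝ, XX (c + t * I) * om (c + t * I) * V (c + t * I) *
          (r : ℂ) ^ (-((c : ℂ) + t * I))) +
        (∫ t : ℝ, XX (c + t * I) * V' (c + t * I) * (r : ℂ) ^ (-((c : ℂ) + t * I))) -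
        (Real.log r : ℂ) *
        (∫ t : ℝ, XX (c + t * I) * V (c + t * I) * (r : ℂ) ^ (-((c : ℂ) + t * I)))) = 0 := by
      rw [← h0]; ring
    have h8 := (mul_eq_zero.1 h7).resolve_left I_ne_zero
    exact (sub_eq_zero.1 h8).symm
  calc (Real.log r : ℂ) * ((1 / (2 * Real.pi) : ℂ) *
        ∫ t : ℝ, XX (c + t * I) * V (c + t * I) * (r : ℂ) ^ (-((c : ℂ) + t * I)))
      = (1 / (2 * Real.pi) : ℂ) * ((Real.log r : ℂ) *
        (∫ t : ℝ, XX (c + t * I) * V (c + t * I) * (r : ℂ) ^ (-((c : ℂ) + t * I)))) := by ring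
    _ = _ := by rw [h6]; ring

/-- Integrability and bound from a majorant. -/
lemma majorant (f : ℝ → ℂ) (g1 g2 : ℝ → ℝ) (K1 K2 M1 M2 : ℝ) (hK1 : 0 ≤ K1) (hK2 : 0 ≤ K2)
    (hf : AEStronglyMeasurable f volume) (h1 : Integrable g1) (h2 : Integrable g2)
    (hb : ∀ t, ‖f t‖ ≤ K1 * g1 t + K2 * g2 t) (hM1 : ∫ t, g1 t ≤ M1) (hM2 : ∫ t, g2 t ≤ M2) :
    Integrable f ∧ ‖(1 / (2 * Real.pi) : ℂ) * ∫ t, f t‖ ≤ K1 * M1 + K2 * M2 := by
  have hg : Integrable (fun t => K1 * g1 t + K2 * g2 t) := (h1.const_mul K1).add (h2.const_mul K2)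
  have hfi : Integrable f := hg.mono' hf (Eventually.of_forall hb)
  refine ⟨hfi, ?_⟩
  have h3 : ‖∫ t, f t‖ ≤ K1 * M1 + K2 * M2 := by
    calc ‖∫ t, f t‖ ≤ ∫ t, (K1 * g1 t + K2 * g2 t) :=
          norm_integral_le_of_norm_le hg (Eventually.of_forall hb)
      _ = K1 * (∫ t, g1 t) + K2 * (∫ t, g2 t) := by
          rw [integral_add (h1.const_mul K1) (h2.const_mul K2), integral_const_mul,
            integral_const_mul]
      _ ≤ K1 * M1 + K2 * M2 :=
          add_le_add (mul_le_mul_of_nonneg_left hM1 hK1) (mul_le_mul_of_nonneg_left hM2 hK2)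
  have h4 : ‖(1 / (2 * Real.pi) : ℂ)‖ ≤ 1 := by
    rw [norm_div, norm_one, norm_mul, Complex.norm_two, Complex.norm_real, Real.norm_eq_abs,
      abs_of_pos Real.pi_pos]
    rw [div_le_one (by positivity)]
    linarith [Real.pi_gt_three]
  rw [norm_mul]
  calc ‖(1 / (2 * Real.pi) : ℂ)‖ * ‖∫ t, f t‖ ≤ 1 * ‖∫ t, f t‖ :=
        mul_le_mul_of_nonneg_right h4 (norm_nonneg _)
    _ ≤ _ := by rw [one_mul]; exact h3

lemma DD_facts {T : ℝ} (hT : 3 ≤ T) : 1 ≤ Real.log T ∧ 1 ≤ DD T ∧ DD T ≤ T := by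
  have hlog : 1 ≤ Real.log T := by
    rw [Real.le_log_iff_exp_le (by linarith)]
    linarith [Real.exp_one_lt_d9]
  have h1 : 1 ≤ Real.log T ^ (2 / 3 : ℝ) := Real.one_le_rpow hlog (by norm_num)
  have h2 : Real.log T ^ (2 / 3 : ℝ) ≤ Real.log T := by
    calc Real.log T ^ (2 / 3 : ℝ) ≤ Real.log T ^ (1 : ℝ) :=
          Real.rpow_le_rpow_of_exponent_le hlog (by norm_num)
      _ = Real.log T := Real.rpow_one _
  have h3 : Real.log T ≤ T := (Real.log_le_sub_one_of_pos (by linarith)).trans (by linarith)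
  refine ⟨hlog, ?_, ?_⟩
  · unfold DD
    rw [le_div_iff₀ (by linarith)]
    linarith
  · unfold DD
    exact div_le_self (by linarith) h1

/-- `VI` of `XX V r^(-s)`. -/
noncomputable def EE (c r : ℝ) (V : ℂ → ℂ) : ℂ := VI c (fun s => XX s * V s * (r : ℂ) ^ (-s))

/-- integrability of the integrand of `EE` -/
def IE (c r : ℝ) (V : ℂ → ℂ) : Prop :=
  Integrable (fun t : ℝ => XX (c + t * I) * V (c + t * I) * (r : ℂ) ^ (-((c : ℂ) + t * I)))

lemma byparts2 (c r : ℝ) (hr : 0 < r) (V V' : ℂ → ℂ)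
    (hX : ∀ t : ℝ, HasDerivAt XX (XX (c + t * I) * om (c + t * I)) (c + t * I))
    (hV : ∀ t : ℝ, HasDerivAt V (V' (c + t * I)) (c + t * I))
    (h1 : IE c r V) (h2 : IE c r (fun s => om s * V s)) (h3 : IE c r V') :
    (Real.log r : ℂ) * EE c r V = EE c r (fun s => om s * V s) + EE c r V' := by
  unfold IE at h1 h2 h3
  have h2' : Integrable (fun t : ℝ =>
      XX (c + t * I) * om (c + t * I) * V (c + t * I) * (r : ℂ) ^ (-((c : ℂ) + t * I))) := by
    refine h2.congr (Eventually.of_forall fun t => ?_)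
    simp only
    ring
  have h4 := byparts c r hr V V' hX hV h1 h2' h3
  unfold EE
  rw [h4]
  congr 2
  funext s
  ring

lemma EE_add (c r : ℝ) (V V2 : ℂ → ℂ) (h1 : IE c r V) (h2 : IE c r V2) :
    IE c r (fun s => V s + V2 s) ∧ EE c r (fun s => V s + V2 s) = EE c r V + EE c r V2 := by
  unfold IE at h1 h2 ⊢
  have h3 := h1.add h2
  constructor
  · refine h3.congr (Eventually.of_forall fun t => ?_)
    simp only [Pi.add_apply]
    ring
  · unfold EE VI
    rw [← mul_add, ← integral_add h1 h2]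
    congr 1
    apply integral_congr_ae
    refine Eventually.of_forall fun t => ?_
    simp only
    ring

lemma IE_bound (c r : ℝ) (hr : 0 < r) (V : ℂ → ℂ) (g1 g2 : ℝ → ℝ) (K1 K2 M1 M2 : ℝ)
    (hK1 : 0 ≤ K1) (hK2 : 0 ≤ K2)
    (hX : Continuous (fun t : ℝ => XX (c + t * I)))
    (hV : AEStronglyMeasurable (fun t : ℝ => V (c + t * I)) volume)
    (h1 : Integrable g1) (h2 : Integrable g2)
    (hb : ∀ t : ℝ, ‖XX (c + t * I)‖ * ‖V (c + t * I)‖ ≤ K1 * g1 t + K2 * g2 t)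
    (hM1 : ∫ t, g1 t ≤ M1) (hM2 : ∫ t, g2 t ≤ M2) :
    IE c r V ∧ ‖EE c r V‖ ≤ r ^ (-c) * (K1 * M1 + K2 * M2) := by
  have hr0 : 0 ≤ r ^ (-c) := by positivity
  have hcont : Continuous (fun t : ℝ => (r : ℂ) ^ (-((c : ℂ) + t * I))) := by
    apply Continuous.const_cpow
    · fun_prop
    · left; exact_mod_cast hr.ne'
  have hm : AEStronglyMeasurable (fun t : ℝ =>
      XX (c + t * I) * V (c + t * I) * (r : ℂ) ^ (-((c : ℂ) + t * I))) volume :=
    (hX.aestronglyMeasurable.mul hV).mul hcont.aestronglyMeasurable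
  have h3 := majorant _ g1 g2 (r ^ (-c) * K1) (r ^ (-c) * K2) M1 M2 (by positivity)
    (by positivity) hm h1 h2 ?_ hM1 hM2
  · refine ⟨h3.1, ?_⟩
    unfold EE VI
    refine h3.2.trans (le_of_eq ?_)
    ring
  · intro t
    rw [norm_mul, norm_mul, norm_cpow_line hr]
    calc ‖XX (c + t * I)‖ * ‖V (c + t * I)‖ * r ^ (-c)
        ≤ (K1 * g1 t + K2 * g2 t) * r ^ (-c) := mul_le_mul_of_nonneg_right (hb t) hr0
      _ = r ^ (-c) * K1 * g1 t + r ^ (-c) * K2 * g2 t := by ring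

/-- the majorants of MOM -/
noncomputable def gm (A : ℝ) (B k : ℕ) (c T t : ℝ) : ℝ :=
  (1 + |t|) ^ A * Real.log (3 + |t|) ^ B * ‖(c + t * I : ℂ) - 1 / 2 - T * I‖ ^ k *
      ‖WW T (c + t * I)‖

lemma ker_eq (c T r : ℝ) :
    Ker c T 0 r = EE c r (WW T) ∧ Ker c T 1 r = EE c r (fun s => om s * WW T s) ∧
    Ker c T 2 r = EE c r (fun s => om s * (om s * WW T s)) := by
  unfold Ker EE
  refine ⟨?_, ?_, ?_⟩
  · congr 1; funext s; ring
  · congr 1; funext s; ring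
  · congr 1; funext s; ring

lemma abs_le_one_add_sq (x : ℝ) : |x| ≤ (1 + |x|) ^ 2 := by nlinarith [abs_nonneg x]

lemma sq_le_one_add_sq (x : ℝ) : |x| ^ 2 ≤ (1 + |x|) ^ 2 := by nlinarith [abs_nonneg x]

theorem kbp (hk : K0Statement) (hchi : ChiStatement) (hol : OmLineStatement)
    (hsz : ChiSizeStatement) (hmom : MomentStatement) : KerStatement := by
  intro c hc1 hc2
  obtain ⟨C0, T0, hC0, hT0, hK0⟩ := hk c hc1 hc2
  obtain ⟨Co, hCo, ho, ho', hod, hXne⟩ := hol c hc1 hc2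
  obtain ⟨Cx, hCx, hx⟩ := hsz
  obtain ⟨D00, T00, hD00, hT00, H00⟩ := hmom (c - 1 / 2) c 0 0 (by linarith) (by linarith) (by norm_num)
  obtain ⟨D10, T10, hD10, hT10, H10⟩ := hmom (c - 1 / 2) c 1 0 (by linarith) (by linarith) (by norm_num)
  obtain ⟨D20, T20, hD20, hT20, H20⟩ := hmom (c - 1 / 2) c 2 0 (by linarith) (by linarith) (by norm_num)
  obtain ⟨D01, T01, hD01, hT01, H01⟩ := hmom (c - 1 / 2) c 0 1 (by linarith) (by linarith) (by norm_num)
  obtain ⟨D11, T11, hD11, hT11, H11⟩ := hmom (c - 1 / 2) c 1 1 (by linarith) (by linarith) (by norm_num)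
  obtain ⟨D02, T02, hD02, hT02, H02⟩ := hmom (c - 1 / 2) c 0 2 (by linarith) (by linarith) (by norm_num)
  obtain ⟨Dp, Tp, hDp, hTp, Hp⟩ := hmom (c - 1 / 2 - 1) c 0 0 (by linarith) (by linarith) (by norm_num)
  -- facts on the line
  have hre : ∀ t : ℝ, ((c : ℂ) + t * I).re = c := by intro t; simp
  have him : ∀ t : ℝ, ((c : ℂ) + t * I).im = t := by intro t; simp
  have hXd : ∀ t : ℝ, HasDerivAt XX (XX (c + t * I) * om (c + t * I)) (c + t * I) := by
    intro t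
    have h1 := (hchi.1 ((c : ℂ) + t * I) (by rw [hre]; linarith)).hasDerivAt
    refine h1.congr_deriv ?_
    unfold om
    rw [logDeriv_apply]
    field_simp [hXne t]
  have hXb : ∀ t : ℝ, ‖XX (c + t * I)‖ ≤ Cx * (1 + |t|) ^ (c - 1 / 2) := by
    intro t
    have h1 := hx ((c : ℂ) + t * I) (by rw [hre]; linarith) (by rw [hre]; linarith)
    rwa [hre, him] at h1
  have hlc : Continuous (fun t : ℝ => (c : ℂ) + t * I) := by fun_prop
  have hXc : Continuous (fun t : ℝ => XX (c + t * I)) := by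
    rw [continuous_iff_continuousAt]
    intro t
    exact ContinuousAt.comp (f := fun t : ℝ => (c : ℂ) + t * I) (hXd t).continuousAt
      hlc.continuousAt
  have hoc : Continuous (fun t : ℝ => om (c + t * I)) := by
    rw [continuous_iff_continuousAt]
    intro t
    exact ContinuousAt.comp (f := fun t : ℝ => (c : ℂ) + t * I) (hod t).continuousAt
      hlc.continuousAt
  have hdo : AEStronglyMeasurable (fun t : ℝ => deriv om (c + t * I)) volume :=
    ((measurable_deriv om).comp hlc.measurable).aestronglyMeasurable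
  have hp0 : ∀ t : ℝ, 0 ≤ (1 + |t|) ^ (c - 1 / 2) := fun t => by positivity
  have hp1 : ∀ t : ℝ, 0 < 1 + |t| := fun t => by positivity
  have hl0 : ∀ t : ℝ, 0 ≤ Real.log (3 + |t|) := fun t =>
    Real.log_nonneg (by linarith [abs_nonneg t])
  refine ⟨C0 + 2 * Cx * D01 + 3 * (2 * Cx * Co * D11) + (2 * Cx * D00 + 4 * Cx * D02) +
    Cx * Co * Dp, max 3 (max T0 (max T00 (max T10 (max T20 (max T01 (max T11 (max T02 Tp))))))),
    by positivity, lt_of_lt_of_le (by norm_num) (le_max_left _ _), ?_⟩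
  intro T r hT hr j hj
  simp only [max_le_iff] at hT
  obtain ⟨hT3, hTT0, hTT00, hTT10, hTT20, hTT01, hTT11, hTT02, hTTp⟩ := hT
  obtain ⟨hlog, hD1, hDT⟩ := DD_facts hT3
  have hT0' : 0 < T := by linarith
  have hr0 : 0 < r := lt_of_lt_of_le (by positivity) hr
  have hD0 : 0 < DD T := by linarith
  have hWc : Continuous (fun t : ℝ => WW T (c + t * I)) := by
    rw [continuous_iff_continuousAt]
    intro t
    exact ContinuousAt.comp (f := fun t : ℝ => (c : ℂ) + t * I)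
      (hasDerivAt_WW T _).continuousAt hlc.continuousAt
  have hW1c : Continuous (fun t : ℝ => W1 T (c + t * I)) := by
    rw [continuous_iff_continuousAt]
    intro t
    exact ContinuousAt.comp (f := fun t : ℝ => (c : ℂ) + t * I)
      (hasDerivAt_W1 T _).continuousAt hlc.continuousAt
  have hW2c : Continuous (fun t : ℝ => W2 T (c + t * I)) := by
    unfold W2
    have : Continuous (fun t : ℝ => (2 / (DD T : ℂ) ^ 2 +
      (2 * ((c : ℂ) + t * I - 1 / 2 - T * I) / (DD T : ℂ) ^ 2) ^ 2)) := by fun_prop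
    exact this.mul hWc
  -- norms of W1 and W2
  have hW1n : ∀ s : ℂ, ‖W1 T s‖ = 2 * ‖s - 1 / 2 - T * I‖ / DD T ^ 2 * ‖WW T s‖ := by
    intro s
    unfold W1
    rw [norm_mul, norm_div, norm_mul, Complex.norm_two, norm_pow, Complex.norm_real,
      Real.norm_eq_abs, abs_of_pos hD0]
  have hW2n : ∀ s : ℂ, ‖W2 T s‖ ≤
      (2 / DD T ^ 2 + 4 * ‖s - 1 / 2 - T * I‖ ^ 2 / DD T ^ 4) * ‖WW T s‖ := by
    intro s
    unfold W2
    rw [norm_mul]
    apply mul_le_mul_of_nonneg_right _ (norm_nonneg _)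
    refine (norm_add_le _ _).trans (le_of_eq ?_)
    rw [norm_pow, norm_div, norm_div, norm_mul, Complex.norm_two, norm_pow, Complex.norm_real,
      Real.norm_eq_abs, abs_of_pos hD0]
    field_simp
    ring
  obtain ⟨I00, J00⟩ := H00 T hTT00
  obtain ⟨I10, J10⟩ := H10 T hTT10
  obtain ⟨I20, J20⟩ := H20 T hTT20
  obtain ⟨I01, J01⟩ := H01 T hTT01
  obtain ⟨I11, J11⟩ := H11 T hTT11
  obtain ⟨I02, J02⟩ := H02 T hTT02
  obtain ⟨Ip, Jp⟩ := Hp T hTTp
  have hi0 : Integrable (fun _ : ℝ => (0 : ℝ)) := integrable_zero _ _ _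
  have hj0 : ∫ _ : ℝ, (0 : ℝ) ≤ 0 := by simp
  -- f0
  have f0 : IE c r (WW T) ∧ ‖EE c r (WW T)‖ ≤ _ :=
    IE_bound c r hr0 (WW T) _ _ Cx 0 _ 0 hCx.le le_rfl hXc hWc.aestronglyMeasurable I00 hi0
    (by
      intro t
      have h1 := hXb t
      simp only [pow_zero, mul_one, mul_zero, add_zero]
      calc ‖XX (c + t * I)‖ * ‖WW T (c + t * I)‖
          ≤ Cx * (1 + |t|) ^ (c - 1 / 2) * ‖WW T (c + t * I)‖ :=
            mul_le_mul_of_nonneg_right h1 (norm_nonneg _)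
        _ = _ := by ring) J00 hj0
  have f1 : IE c r (fun s => om s * WW T s) ∧ ‖EE c r (fun s => om s * WW T s)‖ ≤ _ :=
    IE_bound c r hr0 (fun s => om s * WW T s) _ _ (Cx * Co) 0 _ 0 (by positivity) le_rfl hXc
    (hoc.mul hWc).aestronglyMeasurable I10 hi0
    (by
      intro t
      have h1 := hXb t
      have h2 := ho t
      simp only [pow_zero, pow_one, mul_one, mul_zero, add_zero]
      rw [norm_mul]
      calc ‖XX (c + t * I)‖ * (‖om (c + t * I)‖ * ‖WW T (c + t * I)‖)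
          ≤ Cx * (1 + |t|) ^ (c - 1 / 2) * (Co * Real.log (3 + |t|) * ‖WW T (c + t * I)‖) := by
            gcongr
        _ = _ := by ring) J10 hj0
  have f2 : IE c r (fun s => om s * (om s * WW T s)) ∧
      ‖EE c r (fun s => om s * (om s * WW T s))‖ ≤ _ :=
    IE_bound c r hr0 (fun s => om s * (om s * WW T s)) _ _ (Cx * Co ^ 2) 0 _ 0 (by positivity)
    le_rfl hXc (hoc.mul (hoc.mul hWc)).aestronglyMeasurable I20 hi0
    (by
      intro t
      have h1 := hXb t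
      have h2 := ho t
      simp only [pow_zero, mul_one, mul_zero, add_zero]
      rw [norm_mul, norm_mul]
      have h3 := hl0 t
      calc ‖XX (c + t * I)‖ * (‖om (c + t * I)‖ * (‖om (c + t * I)‖ * ‖WW T (c + t * I)‖))
          ≤ Cx * (1 + |t|) ^ (c - 1 / 2) * ((Co * Real.log (3 + |t|)) *
            ((Co * Real.log (3 + |t|)) * ‖WW T (c + t * I)‖)) := by
            gcongr
        _ = _ := by ring) J20 hj0
  have e1 : IE c r (W1 T) ∧ ‖EE c r (W1 T)‖ ≤ _ :=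
    IE_bound c r hr0 (W1 T) _ _ (2 * Cx / DD T ^ 2) 0 _ 0 (by positivity) le_rfl hXc
    hW1c.aestronglyMeasurable I01 hi0
    (by
      intro t
      have h1 := hXb t
      simp only [pow_zero, pow_one, mul_one, mul_zero, add_zero]
      rw [hW1n]
      calc ‖XX (c + t * I)‖ * (2 * ‖(c : ℂ) + t * I - 1 / 2 - T * I‖ / DD T ^ 2 *
            ‖WW T (c + t * I)‖)
          ≤ Cx * (1 + |t|) ^ (c - 1 / 2) * (2 * ‖(c : ℂ) + t * I - 1 / 2 - T * I‖ / DD T ^ 2 *
            ‖WW T (c + t * I)‖) := by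
            gcongr
        _ = _ := by ring) J01 hj0
  have e2 : IE c r (fun s => om s * W1 T s) ∧ ‖EE c r (fun s => om s * W1 T s)‖ ≤ _ :=
    IE_bound c r hr0 (fun s => om s * W1 T s) _ _ (2 * Cx * Co / DD T ^ 2) 0 _ 0 (by positivity)
    le_rfl hXc (hoc.mul hW1c).aestronglyMeasurable I11 hi0
    (by
      intro t
      have h1 := hXb t
      have h2 := ho t
      simp only [pow_one, mul_zero, add_zero]
      rw [norm_mul, hW1n]
      calc ‖XX (c + t * I)‖ * (‖om (c + t * I)‖ *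
            (2 * ‖(c : ℂ) + t * I - 1 / 2 - T * I‖ / DD T ^ 2 * ‖WW T (c + t * I)‖))
          ≤ Cx * (1 + |t|) ^ (c - 1 / 2) * ((Co * Real.log (3 + |t|)) *
            (2 * ‖(c : ℂ) + t * I - 1 / 2 - T * I‖ / DD T ^ 2 * ‖WW T (c + t * I)‖)) := by
            gcongr
        _ = _ := by ring) J11 hj0
  have e3 : IE c r (W2 T) ∧ ‖EE c r (W2 T)‖ ≤ _ :=
    IE_bound c r hr0 (W2 T) _ _ (2 * Cx / DD T ^ 2) (4 * Cx / DD T ^ 4) _ _ (by positivity)
    (by positivity) hXc hW2c.aestronglyMeasurable I00 I02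
    (by
      intro t
      have h1 := hXb t
      have h2 := hW2n ((c : ℂ) + t * I)
      simp only [pow_zero, mul_one]
      calc ‖XX (c + t * I)‖ * ‖W2 T (c + t * I)‖
          ≤ Cx * (1 + |t|) ^ (c - 1 / 2) *
            ((2 / DD T ^ 2 + 4 * ‖(c : ℂ) + t * I - 1 / 2 - T * I‖ ^ 2 / DD T ^ 4) *
              ‖WW T (c + t * I)‖) := by
            gcongr
        _ = _ := by ring) J00 J02
  have e4 : IE c r (fun s => deriv om s * WW T s) ∧ ‖EE c r (fun s => deriv om s * WW T s)‖ ≤ _ :=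
    IE_bound c r hr0 (fun s => deriv om s * WW T s) _ _ (Cx * Co) 0 _ 0 (by positivity) le_rfl hXc
    (hdo.mul hWc.aestronglyMeasurable) Ip hi0
    (by
      intro t
      have h1 := hXb t
      have h2 := ho' t
      have h3 : (1 + |t|) ^ (c - 1 / 2) = (1 + |t|) ^ (c - 1 / 2 - 1) * (1 + |t|) := by
        rw [← Real.rpow_add_one (hp1 t).ne']
        congr 1; ring
      have h4 : 0 ≤ (1 + |t|) ^ (c - 1 / 2 - 1) := by positivity
      simp only [pow_zero, mul_one, mul_zero, add_zero]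
      rw [norm_mul]
      calc ‖XX (c + t * I)‖ * (‖deriv om (c + t * I)‖ * ‖WW T (c + t * I)‖)
          ≤ Cx * (1 + |t|) ^ (c - 1 / 2) * (Co / (1 + |t|) * ‖WW T (c + t * I)‖) := by
            gcongr
        _ = _ := by
            rw [h3]
            have := (hp1 t).ne'
            field_simp) Jp hj0
  -- clean bounds
  set Q : ℝ := T ^ (c - 1 / 2) * r ^ (-c) with hQ
  have hrc : 0 ≤ r ^ (-c) := by positivity
  have hTc : 0 ≤ T ^ (c - 1 / 2) := by positivity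
  have hQ0 : 0 ≤ Q := by positivity
  have b1 : ‖EE c r (W1 T)‖ ≤ 2 * Cx * D01 * Q := by
    refine e1.2.trans (le_of_eq ?_)
    rw [hQ]
    have := hD0.ne'
    field_simp
    ring
  have b2 : ‖EE c r (fun s => om s * W1 T s)‖ ≤ 2 * Cx * Co * D11 * Real.log T * Q := by
    refine e2.2.trans (le_of_eq ?_)
    rw [hQ]
    have := hD0.ne'
    field_simp
    ring
  have b3 : ‖EE c r (W2 T)‖ ≤ (2 * Cx * D00 + 4 * Cx * D02) * Q := by
    refine e3.2.trans ?_
    have h1 : r ^ (-c) * (2 * Cx / DD T ^ 2 * (D00 * T ^ (c - 1 / 2) * Real.log T ^ 0 *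
        DD T ^ (0 + 1)) + 4 * Cx / DD T ^ 4 * (D02 * T ^ (c - 1 / 2) * Real.log T ^ 0 *
        DD T ^ (2 + 1))) = (2 * Cx * D00 + 4 * Cx * D02) * Q / DD T := by
      rw [hQ]
      have := hD0.ne'
      field_simp
      ring
    rw [h1]
    exact div_le_self (by positivity) hD1
  have b4 : ‖EE c r (fun s => deriv om s * WW T s)‖ ≤ Cx * Co * Dp * Q := by
    refine e4.2.trans ?_
    have h2 : T ^ (c - 1 / 2) = T ^ (c - 1 / 2 - 1) * T := by
      rw [← Real.rpow_add_one hT0'.ne']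
      congr 1; ring
    have h3 : 0 ≤ T ^ (c - 1 / 2 - 1) := by positivity
    have h4 : T ^ (c - 1 / 2 - 1) * DD T ≤ T ^ (c - 1 / 2) := by
      rw [h2]
      exact mul_le_mul_of_nonneg_left hDT h3
    calc _ = Cx * Co * Dp * r ^ (-c) * (T ^ (c - 1 / 2 - 1) * DD T) := by ring
      _ ≤ Cx * Co * Dp * r ^ (-c) * T ^ (c - 1 / 2) :=
          mul_le_mul_of_nonneg_left h4 (by positivity)
      _ = _ := by rw [hQ]; ring
  -- integration by parts
  have p1 := byparts2 c r hr0 (WW T) (W1 T) hXd (fun t => hasDerivAt_WW T _) f0.1 f1.1 e1.1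
  have hsum := EE_add c r (fun s => deriv om s * WW T s) (fun s => om s * W1 T s) e4.1 e2.1
  have p2 := byparts2 c r hr0 (fun s => om s * WW T s)
    (fun s => deriv om s * WW T s + om s * W1 T s) hXd
    (fun t => ((hod t).hasDerivAt).mul (hasDerivAt_WW T _)) f1.1 f2.1 hsum.1
  have p3 := byparts2 c r hr0 (W1 T) (W2 T) hXd (fun t => hasDerivAt_W1 T _) e1.1 e2.1 e3.1
  obtain ⟨k0, k1, k2⟩ := ker_eq c T r
  have hmain := hK0 T r hTT0 hr
  rw [k0] at hmain
  set M0 : ℂ := ee (-r) * GG T r with hM0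
  set Z : ℂ := EE c r (WW T) - M0 with hZ
  set lr : ℝ := Real.log r with hlr
  have hL3 : 1 ≤ Real.log T ^ 3 := one_le_pow₀ hlog
  have hL5 : Real.log T ^ 3 ≤ Real.log T ^ 5 := pow_le_pow_right₀ hlog (by norm_num)
  have hL15 : Real.log T ≤ Real.log T ^ 5 := by
    calc Real.log T = Real.log T ^ 1 := (pow_one _).symm
      _ ≤ Real.log T ^ 5 := pow_le_pow_right₀ hlog (by norm_num)
  have hL05 : 1 ≤ Real.log T ^ 5 := one_le_pow₀ hlog
  have hden : 0 < (1 + |lr|) ^ 2 := by positivity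
  have hZb : ‖Z‖ * (1 + |lr|) ^ 2 ≤ C0 * Q * Real.log T ^ 5 := by
    have h1 : ‖Z‖ ≤ C0 * T ^ (c - 1 / 2) * Real.log T ^ 3 * r ^ (-c) / (1 + |lr|) ^ 2 := hmain
    rw [le_div_iff₀ hden] at h1
    refine h1.trans ?_
    rw [hQ]
    have h2 : 0 ≤ C0 * (T ^ (c - 1 / 2) * r ^ (-c)) := by positivity
    calc C0 * T ^ (c - 1 / 2) * Real.log T ^ 3 * r ^ (-c)
        = C0 * (T ^ (c - 1 / 2) * r ^ (-c)) * Real.log T ^ 3 := by ring
      _ ≤ C0 * (T ^ (c - 1 / 2) * r ^ (-c)) * Real.log T ^ 5 :=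
          mul_le_mul_of_nonneg_left hL5 h2
  have hZ0 : ‖Z‖ ≤ C0 * Q * Real.log T ^ 5 := by
    have h2 : 1 ≤ (1 + |lr|) ^ 2 := one_le_pow₀ (by linarith [abs_nonneg lr])
    calc ‖Z‖ = ‖Z‖ * 1 := (mul_one _).symm
      _ ≤ ‖Z‖ * (1 + |lr|) ^ 2 := mul_le_mul_of_nonneg_left h2 (norm_nonneg _)
      _ ≤ _ := hZb
  have hZ1 : |lr| * ‖Z‖ ≤ C0 * Q * Real.log T ^ 5 := by
    have h2 : |lr| ≤ (1 + |lr|) ^ 2 := abs_le_one_add_sq lr
    calc |lr| * ‖Z‖ = ‖Z‖ * |lr| := mul_comm _ _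
      _ ≤ ‖Z‖ * (1 + |lr|) ^ 2 := mul_le_mul_of_nonneg_left h2 (norm_nonneg _)
      _ ≤ _ := hZb
  have hZ2 : |lr| ^ 2 * ‖Z‖ ≤ C0 * Q * Real.log T ^ 5 := by
    have h2 : |lr| ^ 2 ≤ (1 + |lr|) ^ 2 := sq_le_one_add_sq lr
    calc |lr| ^ 2 * ‖Z‖ = ‖Z‖ * |lr| ^ 2 := mul_comm _ _
      _ ≤ ‖Z‖ * (1 + |lr|) ^ 2 := mul_le_mul_of_nonneg_left h2 (norm_nonneg _)
      _ ≤ _ := hZb
  have a1 : 0 ≤ 2 * Cx * D01 * Q := by positivity
  have a2 : 0 ≤ 2 * Cx * Co * D11 * Q := by positivity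
  have a3 : 0 ≤ (2 * Cx * D00 + 4 * Cx * D02) * Q := by positivity
  have a4 : 0 ≤ Cx * Co * Dp * Q := by positivity
  have a0 : 0 ≤ C0 * Q := by positivity
  have c1 : ‖EE c r (W1 T)‖ ≤ 2 * Cx * D01 * Q * Real.log T ^ 5 := by
    refine b1.trans ?_
    calc 2 * Cx * D01 * Q = 2 * Cx * D01 * Q * 1 := (mul_one _).symm
      _ ≤ _ := mul_le_mul_of_nonneg_left hL05 a1
  have c2 : ‖EE c r (fun s => om s * W1 T s)‖ ≤ 2 * Cx * Co * D11 * Q * Real.log T ^ 5 := by
    refine b2.trans ?_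
    calc 2 * Cx * Co * D11 * Real.log T * Q = 2 * Cx * Co * D11 * Q * Real.log T := by ring
      _ ≤ _ := mul_le_mul_of_nonneg_left hL15 a2
  have c3 : ‖EE c r (W2 T)‖ ≤ (2 * Cx * D00 + 4 * Cx * D02) * Q * Real.log T ^ 5 := by
    refine b3.trans ?_
    calc (2 * Cx * D00 + 4 * Cx * D02) * Q = (2 * Cx * D00 + 4 * Cx * D02) * Q * 1 :=
          (mul_one _).symm
      _ ≤ _ := mul_le_mul_of_nonneg_left hL05 a3
  have c4 : ‖EE c r (fun s => deriv om s * WW T s)‖ ≤ Cx * Co * Dp * Q * Real.log T ^ 5 := by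
    refine b4.trans ?_
    calc Cx * Co * Dp * Q = Cx * Co * Dp * Q * 1 := (mul_one _).symm
      _ ≤ _ := mul_le_mul_of_nonneg_left hL05 a4
  have hgoal : (C0 + 2 * Cx * D01 + 3 * (2 * Cx * Co * D11) + (2 * Cx * D00 + 4 * Cx * D02) +
      Cx * Co * Dp) * T ^ (c - 1 / 2) * Real.log T ^ 5 * r ^ (-c) =
      C0 * Q * Real.log T ^ 5 + 2 * Cx * D01 * Q * Real.log T ^ 5 +
      3 * (2 * Cx * Co * D11 * Q * Real.log T ^ 5) +
      (2 * Cx * D00 + 4 * Cx * D02) * Q * Real.log T ^ 5 + Cx * Co * Dp * Q * Real.log T ^ 5 := by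
    rw [hQ]; ring
  have hL50 : 0 ≤ Real.log T ^ 5 := by positivity
  have z0 := mul_nonneg a0 hL50
  have z1 := mul_nonneg a1 hL50
  have z2 := mul_nonneg a2 hL50
  have z3 := mul_nonneg a3 hL50
  have z4 := mul_nonneg a4 hL50
  rw [hgoal]
  have hnlr : ‖(lr : ℂ)‖ = |lr| := by rw [Complex.norm_real, Real.norm_eq_abs]
  interval_cases j
  · rw [k0]
    have e : EE c r (WW T) - (lr : ℂ) ^ 0 * ee (-r) * GG T r = Z := by
      rw [hZ, hM0]; ring
    rw [e]
    linarith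
  · rw [k1]
    have e : EE c r (fun s => om s * WW T s) - (lr : ℂ) ^ 1 * ee (-r) * GG T r =
        (lr : ℂ) * Z - EE c r (W1 T) := by
      rw [hZ, hM0, mul_sub, p1]; ring
    rw [e]
    calc ‖(lr : ℂ) * Z - EE c r (W1 T)‖ ≤ ‖(lr : ℂ) * Z‖ + ‖EE c r (W1 T)‖ := norm_sub_le _ _
      _ = |lr| * ‖Z‖ + ‖EE c r (W1 T)‖ := by rw [norm_mul, hnlr]
      _ ≤ _ := by linarith
  · rw [k2]
    have e : EE c r (fun s => om s * (om s * WW T s)) - (lr : ℂ) ^ 2 * ee (-r) * GG T r =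
        (lr : ℂ) ^ 2 * Z - EE c r (fun s => om s * W1 T s) - EE c r (W2 T) -
          EE c r (fun s => deriv om s * WW T s) - EE c r (fun s => om s * W1 T s) := by
      have q2 : EE c r (fun s => om s * (om s * WW T s)) =
          (lr : ℂ) * EE c r (fun s => om s * WW T s) -
            (EE c r (fun s => deriv om s * WW T s) + EE c r (fun s => om s * W1 T s)) := by
        rw [← hsum.2, p2]; ring
      have q1 : EE c r (fun s => om s * WW T s) = (lr : ℂ) * EE c r (WW T) - EE c r (W1 T) := by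
        rw [p1]; ring
      rw [q2, q1, mul_sub, p3, hZ, hM0]
      ring
    rw [e]
    calc _ ≤ ‖(lr : ℂ) ^ 2 * Z‖ + ‖EE c r (fun s => om s * W1 T s)‖ + ‖EE c r (W2 T)‖ +
          ‖EE c r (fun s => deriv om s * WW T s)‖ + ‖EE c r (fun s => om s * W1 T s)‖ := by
            refine (norm_sub_le _ _).trans ?_
            gcongr
            refine (norm_sub_le _ _).trans ?_
            gcongr
            refine (norm_sub_le _ _).trans ?_
            gcongr
            exact norm_sub_le _ _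
      _ = |lr| ^ 2 * ‖Z‖ + ‖EE c r (fun s => om s * W1 T s)‖ + ‖EE c r (W2 T)‖ +
          ‖EE c r (fun s => deriv om s * WW T s)‖ + ‖EE c r (fun s => om s * W1 T s)‖ := by
            rw [norm_mul, norm_pow, hnlr]
      _ ≤ _ := by linarith

end Pool.Agent.Lib.MP_6bc78b_nt.MS.P1.KBP
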