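import Pool.Agent.Lib.MP_6bc78b_nt.MS.P1.Iface
import Pool.Agent.Lib.MP_6bc78b_nt.MS.P1.POLY

/-! Project MS, Part I, module KSUM: from the contour integral to the kernel sums. -/

set_option autoImplicit false

open Complex Filter Topology MeasureTheory ArithmeticFunction

namespace Pool.Agent.Lib.MP_6bc78b_nt.MS.P1.KSUM

/-- the weight of the `m`-th term. -/
noncomputable def gm (T : ℝ) (j m : ℕ) (s : ℂ) : ℂ :=
  XX s * om s ^ j * (m : ℂ) ^ (-(1 - s)) * WW T s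

lemma norm_cpow_nat (n : ℕ) (hn : 1 ≤ n) (s : ℂ) : ‖(n : ℂ) ^ s‖ = (n : ℝ) ^ s.re :=
  Complex.norm_natCast_cpow_of_pos (by omega) s

/-- continuity along the line. -/
lemma line_cont (c : ℝ) (f : ℂ → ℂ) (h : ∀ t : ℝ, DifferentiableAt ℂ f (c + t * I)) :
    Continuous (fun t : ℝ => f (c + t * I)) := by
  rw [continuous_iff_continuousAt]
  intro t
  have h1 : ContinuousAt (fun t : ℝ => (c : ℂ) + t * I) t := by
    apply Continuous.continuousAt
    fun_prop
  exact ContinuousAt.comp (f := fun t : ℝ => (c : ℂ) + t * I) (g := f) (h t).continuousAt h1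

lemma gm_integrable (hchi : ChiStatement) (hchx : ChiSizeStatement) (homl : OmLineStatement)
    (htail : TailStatement) (c : ℝ) (hc1 : 1 < c) (hc2 : c < 3 / 2) :
    ∀ᶠ T : ℝ in atTop, ∀ j m : ℕ, j ≤ 2 → 1 ≤ m → (m : ℝ) ≤ T →
      Integrable (fun t : ℝ => gm T j m (c + t * I)) := by
  obtain ⟨C1, hC1, h1⟩ := hchx
  obtain ⟨C2, hC2, h2, -, h3, -⟩ := homl c hc1 hc2
  have h4 := htail 6 c (by linarith) (by linarith)
  filter_upwards [h4, eventually_ge_atTop (C1 + 1), eventually_ge_atTop (C2 + 1),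
    eventually_ge_atTop 3] with T h5 hT1 hT2 hT3
  intro j m hj hm hmT
  have hcm : Continuous (fun t : ℝ => (m : ℂ) ^ (-(1 - ((c : ℂ) + t * I)))) := by
    have hm0 : (m : ℂ) ≠ 0 := by exact_mod_cast (by omega : m ≠ 0)
    rw [continuous_iff_continuousAt]
    intro t
    have h6 : ContinuousAt (fun t : ℝ => (-(1 - ((c : ℂ) + t * I)))) t := by
      apply Continuous.continuousAt; fun_prop
    exact h6.const_cpow (Or.inl hm0)
  have hX : Continuous (fun t : ℝ => XX (c + t * I)) :=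
    line_cont c XX (fun t => hchi.1 _ (by simp; linarith))
  have hO : Continuous (fun t : ℝ => om (c + t * I)) := line_cont c om h3
  have h7 := (h5 (fun s => XX s * om s ^ j * (m : ℂ) ^ (-(1 - s)))
    (((hX.mul (hO.pow j)).mul hcm).aestronglyMeasurable) (by
      intro t
      have ht : (1 : ℝ) ≤ 1 + |t| := by linarith [abs_nonneg t]
      have hT0 : 0 < T := by linarith
      have e1 : ‖XX (c + t * I)‖ ≤ T * (1 + |t|) := by
        have := h1 (c + t * I) (by simp; linarith) (by simp; linarith)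
        simp only [add_re, ofReal_re, mul_re, I_re, mul_zero, ofReal_im, I_im, mul_one, sub_self,
          add_zero, add_im, mul_im, zero_add] at this
        refine this.trans ?_
        apply mul_le_mul (by linarith) _ (by positivity) hT0.le
        calc (1 + |t|) ^ (c - 1 / 2) ≤ (1 + |t|) ^ (1 : ℝ) :=
              Real.rpow_le_rpow_of_exponent_le ht (by linarith)
          _ = 1 + |t| := Real.rpow_one _
      have e2 : ‖om (c + t * I)‖ ≤ T * (3 * (1 + |t|)) := by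
        refine (h2 t).trans ?_
        apply mul_le_mul (by linarith) _ (Real.log_nonneg (by linarith)) hT0.le
        have := Real.log_le_sub_one_of_pos (show (0 : ℝ) < 3 + |t| by linarith)
        linarith
      have e3 : ‖(m : ℂ) ^ (-(1 - ((c : ℂ) + t * I)))‖ ≤ T := by
        rw [norm_cpow_nat m hm]
        simp only [neg_sub, sub_re, add_re, ofReal_re, mul_re, I_re, mul_zero, ofReal_im, I_im,
          mul_one, sub_self, add_zero, one_re]
        have hm1 : (1 : ℝ) ≤ m := by exact_mod_cast hm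
        calc (m : ℝ) ^ (c - 1) ≤ (m : ℝ) ^ (1 : ℝ) :=
              Real.rpow_le_rpow_of_exponent_le hm1 (by linarith)
          _ = m := Real.rpow_one _
          _ ≤ T := hmT
      have hb : 1 ≤ T * (3 * (1 + |t|)) := by nlinarith
      have e4 : ‖om (c + t * I) ^ j‖ ≤ (T * (3 * (1 + |t|))) ^ 2 := by
        rw [norm_pow]
        calc ‖om (c + t * I)‖ ^ j ≤ (T * (3 * (1 + |t|))) ^ j :=
              pow_le_pow_left₀ (norm_nonneg _) e2 j
          _ ≤ (T * (3 * (1 + |t|))) ^ 2 := pow_le_pow_right₀ hb hj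
      rw [norm_mul, norm_mul]
      calc ‖XX (c + t * I)‖ * ‖om (c + t * I) ^ j‖ * ‖(m : ℂ) ^ (-(1 - ((c : ℂ) + t * I)))‖
          ≤ (T * (1 + |t|)) * (T * (3 * (1 + |t|))) ^ 2 * T := by gcongr
        _ = (9 * T ^ 4) * (1 + |t|) ^ 3 := by ring
        _ ≤ T ^ 6 * (1 + |t|) ^ 6 := by
            apply mul_le_mul _ (pow_le_pow_right₀ ht (by norm_num)) (by positivity) (by positivity)
            have e5 : T ^ 6 = T ^ 2 * T ^ 4 := by ring
            rw [e5]
            apply mul_le_mul_of_nonneg_right _ (pow_pos hT0 4).le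
            nlinarith
        _ = T ^ (6 : ℝ) * (1 + |t|) ^ (6 : ℝ) := by norm_cast)).1
  exact h7

/-- the value of the `m`-th term against `n^(-s)`. -/
lemma VI_gm (c T : ℝ) (j m n : ℕ) (hm : 1 ≤ m) (hn : 1 ≤ n) :
    VI c (fun s => gm T j m s * (n : ℂ) ^ (-s)) = (1 / m : ℂ) * Ker c T j ((n : ℝ) / m) := by
  unfold Ker VI
  rw [mul_left_comm (1 / m : ℂ)]
  congr 1
  rw [← integral_const_mul]
  apply integral_congr_ae
  filter_upwards with t
  set s : ℂ := c + t * I with hs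
  have hm0 : (m : ℂ) ≠ 0 := by exact_mod_cast (by omega : m ≠ 0)
  have hn0 : (n : ℂ) ≠ 0 := by exact_mod_cast (by omega : n ≠ 0)
  have hmr : (0 : ℝ) < m := by exact_mod_cast hm
  have hnr : (0 : ℝ) < n := by exact_mod_cast hn
  have h1 : (((n : ℝ) / m : ℝ) : ℂ) ^ (-s) = (n : ℂ) ^ (-s) * (m : ℂ) ^ s := by
    have : (((n : ℝ) / m : ℝ) : ℂ) = ((n : ℝ) : ℂ) / ((m : ℝ) : ℂ) := by push_cast; rfl
    rw [this, Complex.div_cpow_ofReal_nonneg hnr.le hmr.le, Complex.cpow_neg ((m : ℝ) : ℂ)]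
    push_cast
    rw [div_inv_eq_mul]
  have h2 : (m : ℂ) ^ (-(1 - s)) = (1 / m : ℂ) * (m : ℂ) ^ s := by
    rw [show -(1 - s) = s + (-1) by ring, Complex.cpow_add _ _ hm0, Complex.cpow_neg_one]
    field_simp
  rw [h1]
  unfold gm
  rw [h2]
  ring

/-- the finite sum over `m` of powers. -/
lemma sum_pow (c y : ℝ) (hc : 1 ≤ c) (hy : 1 ≤ y) :
    ∑ m ∈ Finset.Icc 1 ⌊y⌋₊, (m : ℝ) ^ (c - 1) ≤ y ^ c := by
  have hy0 : 0 < y := by linarith
  calc ∑ m ∈ Finset.Icc 1 ⌊y⌋₊, (m : ℝ) ^ (c - 1) ≤ ∑ m ∈ Finset.Icc 1 ⌊y⌋₊, y ^ (c - 1) := by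
        apply Finset.sum_le_sum
        intro m hm
        rw [Finset.mem_Icc] at hm
        exact Real.rpow_le_rpow (by positivity) ((Nat.le_floor_iff hy0.le).mp hm.2) (by linarith)
    _ = (⌊y⌋₊ : ℝ) * y ^ (c - 1) := by simp
    _ ≤ y * y ^ (c - 1) := mul_le_mul_of_nonneg_right (Nat.floor_le hy0.le) (by positivity)
    _ = y ^ c := by
        rw [mul_comm, ← Real.rpow_add_one hy0.ne']; ring_nf

/-- KSUM. -/
theorem ksum (hker : KerStatement) (hswap : SwapStatement) (hchi : ChiStatement)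
    (hchx : ChiSizeStatement) (homl : OmLineStatement) (htail : TailStatement) :
    KSumStatement := by
  intro th c1 c2 c K hth1 hth2 hc1 hc2
  obtain ⟨C, T1, hC, hT1, hK⟩ := hker c hc1 hc2
  obtain ⟨T2, hT2⟩ := eventually_atTop.mp (gm_integrable hchi hchx homl htail c hc1 hc2)
  refine ⟨C * (|c1| + |c2|) * |K| + 1, max (max T1 T2) 3, by positivity,
    lt_of_lt_of_le (by norm_num) (le_max_right _ _), ?_⟩
  intro T hT α hα hαK j hj
  have hTT1 : T1 ≤ T := (le_max_left _ _).trans ((le_max_left _ _).trans hT)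
  have hTT2 : T2 ≤ T := (le_max_right _ _).trans ((le_max_left _ _).trans hT)
  have hT3 : 3 ≤ T := (le_max_right _ _).trans hT
  have hT0 : 0 < T := by linarith
  have hTth : T ^ th ≤ T := by
    calc T ^ th ≤ T ^ (1 : ℝ) := Real.rpow_le_rpow_of_exponent_le (by linarith) (by linarith)
      _ = T := Real.rpow_one T
  have hTth1 : 1 ≤ T ^ th := Real.one_le_rpow (by linarith) hth1.le
  have hTth0 : 0 < T ^ th := by linarith
  have hLT : 1 ≤ Real.log T := by
    rw [← Real.log_exp 1]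
    apply Real.log_le_log (Real.exp_pos 1)
    have := Real.exp_one_lt_d9
    linarith
  have hmem : ∀ m ∈ Finset.Icc 1 ⌊T ^ th⌋₊, 1 ≤ m ∧ (m : ℝ) ≤ T ^ th := by
    intro m hm
    rw [Finset.mem_Icc] at hm
    exact ⟨hm.1, (Nat.le_floor_iff hTth0.le).mp hm.2⟩
  have hsumα : Summable (fun n : ℕ => ‖((α n : ℝ) : ℂ)‖ * (n : ℝ) ^ (-c)) := by
    simpa [Complex.norm_real, ASum] using hα
  have hKnn : 0 ≤ K := le_trans (tsum_nonneg (fun n => by positivity)) hαK
  -- the swapped series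
  have hsw : ∀ m ∈ Finset.Icc 1 ⌊T ^ th⌋₊,
      Integrable (fun t : ℝ => LS α (c + t * I) * gm T j m (c + t * I)) ∧
      Summable (fun n : ℕ => ((α n : ℝ) : ℂ) * Ker c T j ((n : ℝ) / m)) ∧
      VI c (fun s => LS α s * gm T j m s) =
        (1 / m : ℂ) * ∑' n : ℕ, ((α n : ℝ) : ℂ) * Ker c T j ((n : ℝ) / m) := by
    intro m hm
    obtain ⟨hm1, hmT⟩ := hmem m hm
    have hm0 : (m : ℂ) ≠ 0 := by exact_mod_cast (by omega : m ≠ 0)
    have hi := hT2 T hTT2 j m hj hm1 (hmT.trans hTth)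
    obtain ⟨s1, s2, s3⟩ := hswap c (fun n => ((α n : ℝ) : ℂ)) (gm T j m) hsumα hi
    have hterm : ∀ n : ℕ, (if n = 0 then 0 else ((α n : ℝ) : ℂ) *
        VI c (fun s => gm T j m s * (n : ℂ) ^ (-s))) =
        (1 / m : ℂ) * (((α n : ℝ) : ℂ) * Ker c T j ((n : ℝ) / m)) := by
      intro n
      by_cases hn : n = 0
      · subst hn
        simp
      · rw [if_neg hn, VI_gm c T j m n hm1 (by omega)]
        ring
    refine ⟨s1, ?_, ?_⟩
    · have h1 : Summable (fun n : ℕ => (1 / m : ℂ) *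
          (((α n : ℝ) : ℂ) * Ker c T j ((n : ℝ) / m))) := by
        apply Summable.of_norm
        simpa only [hterm] using s2
      have h2 := h1.mul_left (m : ℂ)
      refine h2.congr ?_
      intro n
      field_simp
    · rw [← tsum_mul_left]
      refine Eq.trans ?_ (tsum_congr hterm)
      exact s3
  -- the main terms
  have hdiff : ∀ m ∈ Finset.Icc 1 ⌊T ^ th⌋₊, ∀ n : ℕ,
      ‖((α n : ℝ) : ℂ) * Ker c T j ((n : ℝ) / m) -
        ((α n * Real.log ((n : ℝ) / m) ^ j * GG T ((n : ℝ) / m) : ℝ) : ℂ) * ee (-((n : ℝ) / m))‖ ≤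
      (C * T ^ (c - 1 / 2) * Real.log T ^ 5 * (m : ℝ) ^ c) * (|α n| * (n : ℝ) ^ (-c)) := by
    intro m hm n
    obtain ⟨hm1, hmT⟩ := hmem m hm
    have hmr : (0 : ℝ) < m := by exact_mod_cast hm1
    by_cases hn : n = 0
    · subst hn
      simp
    · have hnr : (1 : ℝ) ≤ n := by exact_mod_cast Nat.one_le_iff_ne_zero.mpr hn
      have hr : 1 / T ≤ (n : ℝ) / m := by
        rw [div_le_div_iff₀ hT0 hmr]
        nlinarith
      have h1 := hK T ((n : ℝ) / m) hTT1 hr j hj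
      have h2 : ((α n : ℝ) : ℂ) * Ker c T j ((n : ℝ) / m) -
        ((α n * Real.log ((n : ℝ) / m) ^ j * GG T ((n : ℝ) / m) : ℝ) : ℂ) * ee (-((n : ℝ) / m)) =
        ((α n : ℝ) : ℂ) * (Ker c T j ((n : ℝ) / m) -
          (Real.log ((n : ℝ) / m) : ℂ) ^ j * ee (-((n : ℝ) / m)) * GG T ((n : ℝ) / m)) := by
        push_cast
        ring
      rw [h2, norm_mul, Complex.norm_real, Real.norm_eq_abs]
      have h3 : ((n : ℝ) / m) ^ (-c) = (n : ℝ) ^ (-c) * (m : ℝ) ^ c := by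
        rw [Real.div_rpow (by linarith) hmr.le, Real.rpow_neg hmr.le c, div_inv_eq_mul]
      rw [h3] at h1
      calc |α n| * ‖Ker c T j ((n : ℝ) / m) -
          (Real.log ((n : ℝ) / m) : ℂ) ^ j * ee (-((n : ℝ) / m)) * GG T ((n : ℝ) / m)‖
          ≤ |α n| * (C * T ^ (c - 1 / 2) * Real.log T ^ 5 * ((n : ℝ) ^ (-c) * (m : ℝ) ^ c)) :=
            mul_le_mul_of_nonneg_left h1 (abs_nonneg _)
        _ = _ := by ring
  have hdsum : ∀ m ∈ Finset.Icc 1 ⌊T ^ th⌋₊, Summable (fun n : ℕ =>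
      ((α n : ℝ) : ℂ) * Ker c T j ((n : ℝ) / m) -
        ((α n * Real.log ((n : ℝ) / m) ^ j * GG T ((n : ℝ) / m) : ℝ) : ℂ) *
          ee (-((n : ℝ) / m))) := by
    intro m hm
    exact Summable.of_norm_bounded (hα.mul_left _) (hdiff m hm)
  have hmain : ∀ m ∈ Finset.Icc 1 ⌊T ^ th⌋₊, Summable (fun n : ℕ =>
        ((α n * Real.log ((n : ℝ) / m) ^ j * GG T ((n : ℝ) / m) : ℝ) : ℂ) *
          ee (-((n : ℝ) / m))) := by
    intro m hm
    have := (hsw m hm).2.1.sub (hdsum m hm)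
    simpa using this
  -- the left side
  have hLHS : VI c (fun s => XX s * om s ^ j * LS α s * MM th c1 c2 T (1 - s) * WW T s) =
      ∑ m ∈ Finset.Icc 1 ⌊T ^ th⌋₊, ((bet th c1 c2 T m / m : ℝ) : ℂ) *
        ∑' n : ℕ, ((α n : ℝ) : ℂ) * Ker c T j ((n : ℝ) / m) := by
    have h1 : ∀ s : ℂ, XX s * om s ^ j * LS α s * MM th c1 c2 T (1 - s) * WW T s =
        ∑ m ∈ Finset.Icc 1 ⌊T ^ th⌋₊, ((bet th c1 c2 T m : ℝ) : ℂ) * (LS α s * gm T j m s) := by
      intro s
      unfold MM dpoly gm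
      rw [Finset.mul_sum, Finset.sum_mul]
      apply Finset.sum_congr rfl
      intro m hm
      ring
    have h2 : VI c (fun s => XX s * om s ^ j * LS α s * MM th c1 c2 T (1 - s) * WW T s) =
        ∑ m ∈ Finset.Icc 1 ⌊T ^ th⌋₊, ((bet th c1 c2 T m : ℝ) : ℂ) *
          VI c (fun s => LS α s * gm T j m s) := by
      unfold VI
      simp only [h1]
      rw [integral_finsetSum _ (fun m hm => ((hsw m hm).1.const_mul _)), Finset.mul_sum]
      apply Finset.sum_congr rfl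
      intro m hm
      rw [integral_const_mul]
      ring
    rw [h2]
    apply Finset.sum_congr rfl
    intro m hm
    rw [(hsw m hm).2.2]
    push_cast
    ring
  have hRHS : Ssum th c1 c2 T j α = ∑ m ∈ Finset.Icc 1 ⌊T ^ th⌋₊,
      ((bet th c1 c2 T m / m : ℝ) : ℂ) *
      ∑' n : ℕ, ((α n * Real.log ((n : ℝ) / m) ^ j * GG T ((n : ℝ) / m) : ℝ) : ℂ) *
        ee (-((n : ℝ) / m)) := rfl
  rw [hLHS, hRHS, ← Finset.sum_sub_distrib]
  have hterm : ∀ m ∈ Finset.Icc 1 ⌊T ^ th⌋₊,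
      ‖((bet th c1 c2 T m / m : ℝ) : ℂ) * ∑' n : ℕ, ((α n : ℝ) : ℂ) * Ker c T j ((n : ℝ) / m) -
        ((bet th c1 c2 T m / m : ℝ) : ℂ) *
      ∑' n : ℕ, ((α n * Real.log ((n : ℝ) / m) ^ j * GG T ((n : ℝ) / m) : ℝ) : ℂ) *
        ee (-((n : ℝ) / m))‖ ≤
      ((|c1| + |c2|) * (C * T ^ (c - 1 / 2) * Real.log T ^ 5) * K) * (m : ℝ) ^ (c - 1) := by
    intro m hm
    obtain ⟨hm1, hmT⟩ := hmem m hm
    have hmr : (0 : ℝ) < m := by exact_mod_cast hm1
    rw [← mul_sub, ← (hsw m hm).2.1.tsum_sub (hmain m hm), norm_mul]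
    have h1 : ‖∑' n : ℕ, (((α n : ℝ) : ℂ) * Ker c T j ((n : ℝ) / m) -
        ((α n * Real.log ((n : ℝ) / m) ^ j * GG T ((n : ℝ) / m) : ℝ) : ℂ) *
          ee (-((n : ℝ) / m)))‖ ≤
        (C * T ^ (c - 1 / 2) * Real.log T ^ 5 * (m : ℝ) ^ c) * K := by
      refine (tsum_of_norm_bounded (hα.mul_left _).hasSum (hdiff m hm)).trans ?_
      rw [tsum_mul_left]
      apply mul_le_mul_of_nonneg_left hαK
      positivity
    have h2 : ‖((bet th c1 c2 T m / m : ℝ) : ℂ)‖ ≤ (|c1| + |c2|) / m := by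
      rw [Complex.norm_real, Real.norm_eq_abs, abs_div, abs_of_pos hmr]
      apply div_le_div_of_nonneg_right _ hmr.le
      exact POLY.bet_bound th c1 c2 T hth1 (by linarith) m hm1 hmT
    have h3 : (m : ℝ) ^ c / m = (m : ℝ) ^ (c - 1) := by
      rw [Real.rpow_sub_one hmr.ne']
    calc _ ≤ ((|c1| + |c2|) / m) * ((C * T ^ (c - 1 / 2) * Real.log T ^ 5 * (m : ℝ) ^ c) * K) :=
          mul_le_mul h2 h1 (norm_nonneg _) (by positivity)
      _ = ((|c1| + |c2|) * (C * T ^ (c - 1 / 2) * Real.log T ^ 5) * K) * ((m : ℝ) ^ c / m) := by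
          ring
      _ = _ := by rw [h3]
  calc ‖∑ m ∈ Finset.Icc 1 ⌊T ^ th⌋₊, (((bet th c1 c2 T m / m : ℝ) : ℂ) *
        ∑' n : ℕ, ((α n : ℝ) : ℂ) * Ker c T j ((n : ℝ) / m) -
        ((bet th c1 c2 T m / m : ℝ) : ℂ) *
      ∑' n : ℕ, ((α n * Real.log ((n : ℝ) / m) ^ j * GG T ((n : ℝ) / m) : ℝ) : ℂ) *
        ee (-((n : ℝ) / m)))‖
      ≤ ∑ m ∈ Finset.Icc 1 ⌊T ^ th⌋₊,
        ((|c1| + |c2|) * (C * T ^ (c - 1 / 2) * Real.log T ^ 5) * K) * (m : ℝ) ^ (c - 1) :=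
        (norm_sum_le _ _).trans (Finset.sum_le_sum hterm)
    _ = ((|c1| + |c2|) * (C * T ^ (c - 1 / 2) * Real.log T ^ 5) * K) *
        ∑ m ∈ Finset.Icc 1 ⌊T ^ th⌋₊, (m : ℝ) ^ (c - 1) := by rw [Finset.mul_sum]
    _ ≤ ((|c1| + |c2|) * (C * T ^ (c - 1 / 2) * Real.log T ^ 5) * K) * (T ^ th) ^ c := by
        apply mul_le_mul_of_nonneg_left (sum_pow c _ hc1.le hTth1)
        positivity
    _ = C * (|c1| + |c2|) * K * (T ^ (c - 1 / 2) * T ^ (th * c)) * Real.log T ^ 5 := by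
        rw [← Real.rpow_mul hT0.le]; ring
    _ = C * (|c1| + |c2|) * K * T ^ (c - 1 / 2 + th * c) * Real.log T ^ 5 := by
        rw [← Real.rpow_add hT0]
    _ ≤ (C * (|c1| + |c2|) * |K| + 1) * T ^ (c - 1 / 2 + th * c) * Real.log T ^ 5 := by
        have h1 : C * (|c1| + |c2|) * K ≤ C * (|c1| + |c2|) * |K| + 1 := by
          have := mul_le_mul_of_nonneg_left (le_abs_self K)
            (by positivity : 0 ≤ C * (|c1| + |c2|))
          linarith
        have h2 : 0 ≤ T ^ (c - 1 / 2 + th * c) := by positivity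
        have h3 : 0 ≤ Real.log T ^ 5 := by positivity
        exact mul_le_mul_of_nonneg_right (mul_le_mul_of_nonneg_right h1 h2) h3

end Pool.Agent.Lib.MP_6bc78b_nt.MS.P1.KSUM
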