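import Pool.Agent.Lib.MP_6bc78b_nt.MS.P1.Iface

/-! Project MS, Part I, module MOM: moments of the Gaussian weight. -/

set_option autoImplicit false

open Complex Filter Topology MeasureTheory

namespace Pool.Agent.Lib.MP_6bc78b_nt.MS.P1.MOM

/-- polynomials against the Gaussian -/
theorem poly_gauss (M : ℕ) (v : ℝ) :
    (8 + |v|) ^ M * Real.exp (-(v ^ 2 / 4)) ≤ (M.factorial : ℝ) * Real.exp 9 := by
  have h0 : (0 : ℝ) ≤ 8 + |v| := by positivity
  have h1 : (8 + |v|) ^ M ≤ (M.factorial : ℝ) * Real.exp (8 + |v|) := by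
    have h2 := Real.pow_div_factorial_le_exp (8 + |v|) h0 M
    rwa [div_le_iff₀ (by positivity), mul_comm] at h2
  have h3 : Real.exp (8 + |v|) * Real.exp (-(v ^ 2 / 4)) ≤ Real.exp 9 := by
    rw [← Real.exp_add]
    apply Real.exp_le_exp.2
    nlinarith [sq_nonneg (|v| - 2), sq_abs v]
  calc (8 + |v|) ^ M * Real.exp (-(v ^ 2 / 4))
      ≤ (M.factorial : ℝ) * Real.exp (8 + |v|) * Real.exp (-(v ^ 2 / 4)) :=
        mul_le_mul_of_nonneg_right h1 (Real.exp_pos _).le
    _ = (M.factorial : ℝ) * (Real.exp (8 + |v|) * Real.exp (-(v ^ 2 / 4))) := by ring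
    _ ≤ (M.factorial : ℝ) * Real.exp 9 := mul_le_mul_of_nonneg_left h3 (by positivity)

/-- powers of comparable numbers are comparable -/
theorem rpow_comp (A x y l : ℝ) (hx : 0 < x) (hy : 0 < y) (hl : 1 ≤ l) (h1 : x ≤ l * y)
    (h2 : y ≤ l * x) : x ^ A ≤ l ^ |A| * y ^ A := by
  have hl0 : 0 < l := by linarith
  rcases le_total 0 A with hA | hA
  · rw [abs_of_nonneg hA, ← Real.mul_rpow hl0.le hy.le]
    exact Real.rpow_le_rpow hx.le h1 hA
  · rw [abs_of_nonpos hA]
    have h3 : (l * x) ^ A ≤ y ^ A := Real.rpow_le_rpow_of_nonpos hy h2 hA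
    rw [Real.mul_rpow hl0.le hx.le] at h3
    have h4 : l ^ (-A) * l ^ A = 1 := by
      rw [← Real.rpow_add hl0]; simp
    calc x ^ A = l ^ (-A) * (l ^ A * x ^ A) := by rw [← mul_assoc, h4, one_mul]
      _ ≤ l ^ (-A) * y ^ A := mul_le_mul_of_nonneg_left h3 (Real.rpow_nonneg hl0.le _)

/-- the pointwise bound -/
theorem pt_bound (h : DDStatement) (A : ℝ) (B : ℕ) : ∃ C T0 : ℝ, 0 < C ∧ 1 < T0 ∧
    ∀ T : ℝ, T0 ≤ T → (1 ≤ DD T ∧ ∀ t : ℝ, (1 + |t|) ^ A * Real.log (3 + |t|) ^ B *
      Real.exp (-((t - T) ^ 2 / (2 * DD T ^ 2))) ≤ C * T ^ A * Real.log T ^ B) := by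
  obtain ⟨n, hn⟩ := exists_nat_ge |A|
  have hE := h.1 ((n + B : ℕ) : ℝ)
  obtain ⟨T1, hT1⟩ := Filter.eventually_atTop.1 (hE.and h.2.2.1)
  -- constants
  set M : ℕ := n + B with hM
  set C0 : ℝ := 2 ^ |A| * 2 ^ B with hC0
  have hC0pos : 0 < C0 := by positivity
  set C1 : ℝ := 2 ^ M * ((M.factorial : ℝ) * Real.exp 9) with hC1
  have hC1pos : 0 < C1 := by positivity
  refine ⟨(C0 + C1) * (2 ^ |A| * 2 ^ B), max T1 3, by positivity, by
    exact lt_of_lt_of_le (by norm_num) (le_max_right T1 3), fun T hT => ?_⟩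
  have hTT := hT1 T ((le_max_left _ _).trans hT)
  have hT3 : 3 ≤ T := (le_max_right _ _).trans hT
  obtain ⟨hexp, hD1, hD2, -, -⟩ := hTT
  set D := DD T with hD
  have hD0 : 0 < D := by linarith
  refine ⟨hD2, fun t => ?_⟩
  -- first: everything with `1 + T`, `3 + T`
  have hl3 : 1 ≤ Real.log (3 + T) := by
    rw [Real.le_log_iff_exp_le (by linarith)]
    have := Real.exp_one_lt_d9
    linarith
  have hlt : 0 ≤ Real.log (3 + |t|) := Real.log_nonneg (by have := abs_nonneg t; linarith)
  have key : (1 + |t|) ^ A * Real.log (3 + |t|) ^ B *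
      Real.exp (-((t - T) ^ 2 / (2 * D ^ 2))) ≤ (C0 + C1) * ((1 + T) ^ A * Real.log (3 + T) ^ B) := by
    have hpos1 : 0 < (1 + T) ^ A * Real.log (3 + T) ^ B := by
      have : 0 < (1 + T) ^ A := Real.rpow_pos_of_pos (by linarith) _
      positivity
    rcases le_or_gt |t - T| (T / 2) with hu | hu
    · -- near
      have hb := abs_le.1 hu
      have ht0 : 0 < t := by linarith [hb.1]
      have h1 : (1 + |t|) ^ A ≤ 2 ^ |A| * (1 + T) ^ A := by
        rw [abs_of_pos ht0]
        apply rpow_comp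
        · linarith
        · linarith
        · norm_num
        · linarith [hb.2]
        · linarith [hb.1]
      have h2 : Real.log (3 + |t|) ≤ 2 * Real.log (3 + T) := by
        rw [abs_of_pos ht0, two_mul, ← Real.log_mul (by linarith) (by linarith)]
        apply Real.log_le_log (by linarith)
        nlinarith [hb.2]
      have h3 : Real.log (3 + |t|) ^ B ≤ 2 ^ B * Real.log (3 + T) ^ B := by
        rw [← mul_pow]
        exact pow_le_pow_left₀ hlt h2 B
      have h4 : Real.exp (-((t - T) ^ 2 / (2 * D ^ 2))) ≤ 1 := by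
        rw [Real.exp_le_one_iff]
        have : 0 ≤ (t - T) ^ 2 / (2 * D ^ 2) := by positivity
        linarith
      have h1' : (0 : ℝ) ≤ (1 + |t|) ^ A := Real.rpow_nonneg (by positivity) _
      calc (1 + |t|) ^ A * Real.log (3 + |t|) ^ B * Real.exp (-((t - T) ^ 2 / (2 * D ^ 2)))
          ≤ (1 + |t|) ^ A * Real.log (3 + |t|) ^ B * 1 :=
            mul_le_mul_of_nonneg_left h4 (by positivity)
        _ = (1 + |t|) ^ A * Real.log (3 + |t|) ^ B := by ring
        _ ≤ (2 ^ |A| * (1 + T) ^ A) * (2 ^ B * Real.log (3 + T) ^ B) :=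
            mul_le_mul h1 h3 (by positivity) (h1'.trans h1)
        _ = C0 * ((1 + T) ^ A * Real.log (3 + T) ^ B) := by rw [hC0]; ring
        _ ≤ (C0 + C1) * ((1 + T) ^ A * Real.log (3 + T) ^ B) :=
            mul_le_mul_of_nonneg_right (by linarith) hpos1.le
    · -- far
      set u := |t - T| with hu'
      have hu0 : 0 ≤ u := abs_nonneg _
      have htu : |t| ≤ T + u := by
        have : t = (t - T) + T := by ring
        calc |t| = |(t - T) + T| := by rw [← this]
          _ ≤ |t - T| + |T| := abs_add_le _ _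
          _ = T + u := by rw [abs_of_pos (by linarith : 0 < T)]; ring
      have hTu : T ≤ |t| + u := by
        have h5 : |T| ≤ |t| + |t - T| := by
          have : T = t - (t - T) := by ring
          calc |T| = |t - (t - T)| := by rw [← this]
            _ ≤ |t| + |t - T| := abs_sub _ _
        rwa [abs_of_pos (by linarith : 0 < T)] at h5
      have ht0 := abs_nonneg t
      have h1 : (1 + |t|) ^ A ≤ (1 + u) ^ |A| * (1 + T) ^ A := by
        apply rpow_comp
        · linarith
        · linarith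
        · linarith
        · nlinarith
        · nlinarith
      have h1b : (1 + u) ^ |A| ≤ (1 + u) ^ n := by
        rw [← Real.rpow_natCast]
        exact Real.rpow_le_rpow_of_exponent_le (by linarith) hn
      have h2 : Real.log (3 + |t|) ≤ (1 + u) * Real.log (3 + T) := by
        have h5 : Real.log (3 + |t|) ≤ Real.log ((3 + T) * (1 + u)) := by
          apply Real.log_le_log (by linarith)
          nlinarith
        rw [Real.log_mul (by linarith) (by linarith)] at h5
        have h6 : Real.log (1 + u) ≤ u := by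
          have := Real.log_le_sub_one_of_pos (by linarith : 0 < 1 + u)
          linarith
        nlinarith
      have h3 : Real.log (3 + |t|) ^ B ≤ (1 + u) ^ B * Real.log (3 + T) ^ B := by
        rw [← mul_pow]
        exact pow_le_pow_left₀ hlt h2 B
      -- the exponential
      set v := (t - T) / D with hv
      have hvu : |v| = u / D := by rw [hv, abs_div, abs_of_pos hD0]
      have h1u : 1 + u ≤ 2 * T * (8 + |v|) := by
        have h7 : u = D * |v| := by rw [hvu]; field_simp
        have h8 : 0 ≤ |v| := abs_nonneg v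
        rw [h7]
        nlinarith [mul_le_mul_of_nonneg_right hD1 h8]
      have h9 : (1 + u) ^ M ≤ 2 ^ M * T ^ M * (8 + |v|) ^ M := by
        rw [← mul_pow, ← mul_pow]
        exact pow_le_pow_left₀ (by linarith) h1u M
      have h10 : Real.exp (-((t - T) ^ 2 / (2 * D ^ 2))) ≤
          Real.exp (-(v ^ 2 / 4)) * T ^ (-(M : ℝ)) := by
        have h11 : Real.exp (-(v ^ 2 / 4)) ≤ T ^ (-(M : ℝ)) := by
          refine le_trans (Real.exp_le_exp.2 ?_) hexp
          have h12 : T ^ 2 / (16 * D ^ 2) ≤ v ^ 2 / 4 := by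
            rw [hv, div_pow, div_div, div_le_div_iff₀ (by positivity) (by positivity)]
            have h13 : T ^ 2 ≤ 4 * (t - T) ^ 2 := by
              rw [← sq_abs (t - T)]
              nlinarith
            nlinarith [sq_nonneg D, mul_le_mul_of_nonneg_right h13 (sq_nonneg D)]
          linarith
        have h14 : Real.exp (-((t - T) ^ 2 / (2 * D ^ 2))) =
            Real.exp (-(v ^ 2 / 4)) * Real.exp (-(v ^ 2 / 4)) := by
          rw [← Real.exp_add]
          congr 1
          rw [hv]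
          field_simp
          ring
        rw [h14]
        exact mul_le_mul_of_nonneg_left h11 (Real.exp_pos _).le
      have h15 : (1 + u) ^ M * Real.exp (-((t - T) ^ 2 / (2 * D ^ 2))) ≤ C1 := by
        have h16 : T ^ M * T ^ (-(M : ℝ)) = 1 := by
          rw [← Real.rpow_natCast, ← Real.rpow_add (by linarith : 0 < T)]
          simp
        calc (1 + u) ^ M * Real.exp (-((t - T) ^ 2 / (2 * D ^ 2)))
            ≤ (2 ^ M * T ^ M * (8 + |v|) ^ M) * (Real.exp (-(v ^ 2 / 4)) * T ^ (-(M : ℝ))) :=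
              mul_le_mul h9 h10 (Real.exp_pos _).le (by positivity)
          _ = 2 ^ M * ((8 + |v|) ^ M * Real.exp (-(v ^ 2 / 4))) * (T ^ M * T ^ (-(M : ℝ))) := by
              ring
          _ = 2 ^ M * ((8 + |v|) ^ M * Real.exp (-(v ^ 2 / 4))) := by rw [h16, mul_one]
          _ ≤ C1 := mul_le_mul_of_nonneg_left (poly_gauss M v) (by positivity)
      have hnn : (0 : ℝ) ≤ (1 + T) ^ A := Real.rpow_nonneg (by linarith) _
      calc (1 + |t|) ^ A * Real.log (3 + |t|) ^ B * Real.exp (-((t - T) ^ 2 / (2 * D ^ 2)))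
          ≤ (((1 + u) ^ n * (1 + T) ^ A) * ((1 + u) ^ B * Real.log (3 + T) ^ B)) *
              Real.exp (-((t - T) ^ 2 / (2 * D ^ 2))) := by
            apply mul_le_mul_of_nonneg_right _ (Real.exp_pos _).le
            apply mul_le_mul (h1.trans (mul_le_mul_of_nonneg_right h1b hnn)) h3 (by positivity)
            positivity
        _ = ((1 + u) ^ M * Real.exp (-((t - T) ^ 2 / (2 * D ^ 2)))) *
              ((1 + T) ^ A * Real.log (3 + T) ^ B) := by rw [hM, pow_add]; ring
        _ ≤ C1 * ((1 + T) ^ A * Real.log (3 + T) ^ B) :=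
            mul_le_mul_of_nonneg_right h15 hpos1.le
        _ ≤ (C0 + C1) * ((1 + T) ^ A * Real.log (3 + T) ^ B) :=
            mul_le_mul_of_nonneg_right (by linarith) hpos1.le
  refine key.trans ?_
  have h1 : (1 + T) ^ A ≤ 2 ^ |A| * T ^ A :=
    rpow_comp A (1 + T) T 2 (by linarith) (by linarith) (by norm_num) (by linarith) (by linarith)
  have h2 : Real.log (3 + T) ≤ 2 * Real.log T := by
    rw [two_mul, ← Real.log_mul (by linarith) (by linarith)]
    apply Real.log_le_log (by linarith)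
    nlinarith
  have h3 : Real.log (3 + T) ^ B ≤ 2 ^ B * Real.log T ^ B := by
    rw [← mul_pow]
    exact pow_le_pow_left₀ (by linarith) h2 B
  have hTA : (0 : ℝ) ≤ T ^ A := Real.rpow_nonneg (by linarith) _
  calc (C0 + C1) * ((1 + T) ^ A * Real.log (3 + T) ^ B)
      ≤ (C0 + C1) * ((2 ^ |A| * T ^ A) * (2 ^ B * Real.log T ^ B)) := by
        apply mul_le_mul_of_nonneg_left _ (by positivity)
        exact mul_le_mul h1 h3 (by positivity) (by positivity)
    _ = (C0 + C1) * (2 ^ |A| * 2 ^ B) * T ^ A * Real.log T ^ B := by ring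

theorem mom (h1 : GaussStatement) (h2 : DDStatement) : MomentStatement := by
  intro A c B k hc0 hc8 _
  obtain ⟨C, T0, hC, hT0, hpt⟩ := pt_bound h2 A B
  set C2 : ℝ := C * Real.exp 60 * ((k.factorial : ℝ) * Real.exp 9) with hC2
  have hC2pos : 0 < C2 := by positivity
  refine ⟨C2 * (2 * Real.sqrt Real.pi), T0, by positivity, hT0, fun T hT => ?_⟩
  obtain ⟨hD1, hpt⟩ := hpt T hT
  set D := DD T with hD
  have hD0 : 0 < D := by linarith
  have hT1 : 1 < T := by linarith
  have hlogT : 0 < Real.log T := Real.log_pos hT1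
  set F : ℝ → ℝ := fun t : ℝ => (1 + |t|) ^ A * Real.log (3 + |t|) ^ B *
    ‖(c + t * I : ℂ) - 1 / 2 - T * I‖ ^ k * ‖WW T (c + t * I)‖ with hF
  set K : ℝ := C2 * T ^ A * Real.log T ^ B * D ^ k with hK
  have hbound : ∀ t : ℝ, ‖F t‖ ≤ K * Real.exp (-(1 / (4 * D ^ 2)) * (t - T) ^ 2) := by
    intro t
    have hA0 : (0 : ℝ) ≤ (1 + |t|) ^ A := Real.rpow_nonneg (by positivity) _
    have hlt : 0 ≤ Real.log (3 + |t|) := Real.log_nonneg (by have := abs_nonneg t; linarith)
    have hF0 : 0 ≤ F t := by simp only [hF]; positivity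
    rw [Real.norm_of_nonneg hF0]
    set v := (t - T) / D with hv
    have hsq : (t - T) ^ 2 = D ^ 2 * v ^ 2 := by rw [hv]; field_simp
    -- norm of `s - 1/2 - iT`
    have hn : ‖(c + t * I : ℂ) - 1 / 2 - T * I‖ ≤ D * (8 + |v|) := by
      have h3 : (c + t * I : ℂ) - 1 / 2 - T * I = ((c - 1 / 2 : ℝ) : ℂ) + ((t - T : ℝ) : ℂ) * I := by
        push_cast; ring
      rw [h3]
      refine (norm_add_le _ _).trans ?_
      rw [norm_mul, Complex.norm_I, mul_one, Complex.norm_real, Complex.norm_real,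
        Real.norm_eq_abs, Real.norm_eq_abs]
      have h4 : |c - 1 / 2| ≤ 8 := abs_le.2 ⟨by linarith, by linarith⟩
      have h5 : |t - T| = D * |v| := by
        rw [hv, abs_div, abs_of_pos hD0]; field_simp
      rw [h5]
      nlinarith
    have hnk : ‖(c + t * I : ℂ) - 1 / 2 - T * I‖ ^ k ≤ D ^ k * (8 + |v|) ^ k := by
      rw [← mul_pow]
      exact pow_le_pow_left₀ (norm_nonneg _) hn k
    have hW : ‖WW T (c + t * I)‖ ≤ Real.exp 60 * (Real.exp (-((t - T) ^ 2 / (2 * D ^ 2))) *
        (Real.exp (-(v ^ 2 / 4)) * Real.exp (-(v ^ 2 / 4)))) := by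
      rw [h1.2.1, ← Real.exp_add, ← Real.exp_add, ← Real.exp_add]
      apply Real.exp_le_exp.2
      rw [← hD, hsq]
      have h6 : (c - 1 / 2) ^ 2 ≤ 60 := by nlinarith
      have h7 : ((c - 1 / 2) ^ 2 - D ^ 2 * v ^ 2) / D ^ 2 = (c - 1 / 2) ^ 2 / D ^ 2 - v ^ 2 := by
        field_simp
      have h8 : D ^ 2 * v ^ 2 / (2 * D ^ 2) = v ^ 2 / 2 := by field_simp
      rw [h7, h8]
      have h9 : (c - 1 / 2) ^ 2 / D ^ 2 ≤ 60 := by
        rw [div_le_iff₀ (by positivity)]
        nlinarith [sq_nonneg (D - 1)]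
      linarith
    have hexp4 : Real.exp (-(1 / (4 * D ^ 2)) * (t - T) ^ 2) = Real.exp (-(v ^ 2 / 4)) := by
      congr 1
      rw [hsq]
      field_simp
    rw [hexp4]
    have hP := hpt t
    have hG := poly_gauss k v
    calc F t = ((1 + |t|) ^ A * Real.log (3 + |t|) ^ B) *
          (‖(c + t * I : ℂ) - 1 / 2 - T * I‖ ^ k * ‖WW T (c + t * I)‖) := by
            simp only [hF]; ring
      _ ≤ ((1 + |t|) ^ A * Real.log (3 + |t|) ^ B) *
          ((D ^ k * (8 + |v|) ^ k) * (Real.exp 60 * (Real.exp (-((t - T) ^ 2 / (2 * D ^ 2))) *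
        (Real.exp (-(v ^ 2 / 4)) * Real.exp (-(v ^ 2 / 4)))))) := by
            apply mul_le_mul_of_nonneg_left _ (by positivity)
            exact mul_le_mul hnk hW (norm_nonneg _) (by positivity)
      _ = ((1 + |t|) ^ A * Real.log (3 + |t|) ^ B * Real.exp (-((t - T) ^ 2 / (2 * D ^ 2)))) *
          ((8 + |v|) ^ k * Real.exp (-(v ^ 2 / 4))) *
          (D ^ k * Real.exp 60 * Real.exp (-(v ^ 2 / 4))) := by ring
      _ ≤ (C * T ^ A * Real.log T ^ B) * ((k.factorial : ℝ) * Real.exp 9) *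
          (D ^ k * Real.exp 60 * Real.exp (-(v ^ 2 / 4))) := by
            apply mul_le_mul_of_nonneg_right _ (by positivity)
            exact mul_le_mul hP hG (by positivity) (by positivity)
      _ = K * Real.exp (-(v ^ 2 / 4)) := by rw [hK, hC2]; ring
  have hcont : Continuous F := by
    simp only [hF, WW]
    refine Continuous.mul (Continuous.mul (Continuous.mul ?_ ?_) ?_) ?_
    · exact (by fun_prop : Continuous fun t : ℝ => 1 + |t|).rpow_const
        fun t => Or.inl (by positivity)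
    · refine Continuous.pow (Continuous.log (by fun_prop) fun t => ?_) B
      positivity
    · fun_prop
    · fun_prop
  have hb4 : (0 : ℝ) < 1 / (4 * D ^ 2) := by positivity
  have hgi : Integrable (fun t : ℝ => K * Real.exp (-(1 / (4 * D ^ 2)) * (t - T) ^ 2)) :=
    ((integrable_exp_neg_mul_sq hb4).comp_sub_right T).const_mul K
  have hint : Integrable F :=
    hgi.mono' hcont.aestronglyMeasurable (Filter.Eventually.of_forall hbound)
  refine ⟨hint, ?_⟩
  calc ∫ t, F t ≤ ∫ t : ℝ, K * Real.exp (-(1 / (4 * D ^ 2)) * (t - T) ^ 2) :=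
        integral_mono hint hgi fun t => (Real.le_norm_self _).trans (hbound t)
    _ = K * ∫ t : ℝ, Real.exp (-(1 / (4 * D ^ 2)) * (t - T) ^ 2) := integral_const_mul _ _
    _ = K * ∫ t : ℝ, Real.exp (-(1 / (4 * D ^ 2)) * t ^ 2) := by
        rw [integral_sub_right_eq_self (fun t : ℝ => Real.exp (-(1 / (4 * D ^ 2)) * t ^ 2)) T]
    _ = K * (2 * Real.sqrt Real.pi * D) := by
        rw [integral_gaussian]
        congr 1
        have h10 : Real.pi / (1 / (4 * D ^ 2)) = (2 * D) ^ 2 * Real.pi := by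
          field_simp
          ring
        rw [h10, Real.sqrt_mul (by positivity), Real.sqrt_sq (by positivity)]
        ring
    _ = C2 * (2 * Real.sqrt Real.pi) * T ^ A * Real.log T ^ B * D ^ (k + 1) := by
        rw [hK, pow_succ]; ring

end Pool.Agent.Lib.MP_6bc78b_nt.MS.P1.MOM
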