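import Pool.Agent.Lib.MP_6bc78b_nt.MS.P1.Iface

/-! Project MS, Part I, module OM1 (helper23): the mean of `ω` against the weight. -/

set_option autoImplicit false

open Complex Filter Topology MeasureTheory ArithmeticFunction

namespace Pool.Agent.Lib.MP_6bc78b_nt.MS.P1.OM1

open Pool.Agent.Lib.MP_6bc78b_nt Pool.Agent.Lib.MP_6bc78b_nt.MS Pool.Agent.Lib.MP_6bc78b_nt.MS.P1

lemma DD_pos {T : ℝ} (hT : 3 ≤ T) : 0 < DD T ∧ 1 ≤ Real.log T := by
  have h1 : 1 ≤ Real.log T := by
    rw [Real.le_log_iff_exp_le (by linarith)]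
    have := Real.exp_one_lt_d9
    linarith
  refine ⟨?_, h1⟩
  unfold DD
  have : 0 < Real.log T ^ (2 / 3 : ℝ) := Real.rpow_pos_of_pos (by linarith) _
  positivity

lemma log_sub_le {T t : ℝ} (hT : 0 < T) (ht : T / 2 ≤ t) :
    |Real.log t - Real.log T| ≤ 2 / T * |t - T| := by
  have ht0 : 0 < t := by linarith
  rcases le_total T t with h | h
  · have h1 : 0 ≤ Real.log t - Real.log T := by
      have := Real.log_le_log hT h
      linarith
    rw [abs_of_nonneg h1, abs_of_nonneg (by linarith)]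
    have h2 := Real.log_le_sub_one_of_pos (div_pos ht0 hT)
    rw [Real.log_div ht0.ne' hT.ne'] at h2
    have h3 : t / T - 1 = (t - T) / T := by field_simp
    have h4 : 2 / T * (t - T) = 2 * ((t - T) / T) := by ring
    have h5 : 0 ≤ (t - T) / T := div_nonneg (by linarith) hT.le
    rw [h4]; linarith
  · have h1 : Real.log t - Real.log T ≤ 0 := by
      have := Real.log_le_log ht0 h
      linarith
    rw [abs_of_nonpos h1, abs_of_nonpos (by linarith)]
    have h2 := Real.log_le_sub_one_of_pos (div_pos hT ht0)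
    rw [Real.log_div hT.ne' ht0.ne'] at h2
    have h3 : T / t - 1 = (T - t) / t := by field_simp
    have h4 : (T - t) / t ≤ (T - t) / (T / 2) :=
      div_le_div_of_nonneg_left (by linarith) (by linarith) ht
    have h5 : (T - t) / (T / 2) = 2 / T * -(t - T) := by field_simp; ring
    linarith

lemma pointwise {c C1 C2 T t : ℝ} (hC1 : 0 < C1) (hC2 : 0 < C2) (hc0 : 0 < c) (hc2 : c ≤ 2)
    (hT : 3 ≤ T)
    (hom : ∀ t : ℝ, ‖om (c + t * I)‖ ≤ C1 * Real.log (3 + |t|))
    (hcho : ∀ s : ℂ, 0 < s.re → s.re ≤ 2 → 1 ≤ s.im →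
      ‖om s - (Real.log (s.im / (2 * Real.pi)) : ℂ)‖ ≤ C2 / s.im) :
    ‖om (c + t * I) - (Real.log T : ℂ)‖ ≤ (C2 + Real.log (2 * Real.pi)) +
      2 / T * (2 * Real.log T + C1 * Real.log (3 + |t|)) * |t - T| := by
  obtain ⟨-, hL1⟩ := DD_pos hT
  have hT0 : 0 < T := by linarith
  have hpi : 0 < Real.log (2 * Real.pi) := Real.log_pos (by have := Real.pi_gt_three; linarith)
  have hlog3 : 0 ≤ Real.log (3 + |t|) := Real.log_nonneg (by have := abs_nonneg t; linarith)
  have ha : 0 ≤ |t - T| := abs_nonneg _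
  rcases le_total (T / 2) t with h | h
  · have ht1 : 1 ≤ t := by linarith
    have hs := hcho (c + t * I) (by simpa using hc0) (by simpa using hc2) (by simpa using ht1)
    have him : ((c : ℂ) + t * I).im = t := by simp
    rw [him] at hs
    have h1 : C2 / t ≤ C2 := div_le_self hC2.le ht1
    have h2 : ‖(Real.log (t / (2 * Real.pi)) : ℂ) - (Real.log T : ℂ)‖ ≤
        Real.log (2 * Real.pi) + 2 / T * |t - T| := by
      rw [← ofReal_sub, Complex.norm_real, Real.norm_eq_abs,
        Real.log_div (by linarith) (by positivity)]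
      have h3 := log_sub_le hT0 h
      have h4 : Real.log t - Real.log (2 * Real.pi) - Real.log T =
        (Real.log t - Real.log T) - Real.log (2 * Real.pi) := by ring
      rw [h4]
      refine (abs_sub _ _).trans ?_
      rw [abs_of_pos hpi]
      linarith
    have h5 : ‖om (c + t * I) - (Real.log T : ℂ)‖ ≤ C2 + (Real.log (2 * Real.pi) + 2 / T * |t - T|) := by
      have e : om (c + t * I) - (Real.log T : ℂ) =
        (om (c + t * I) - (Real.log (t / (2 * Real.pi)) : ℂ)) +
          ((Real.log (t / (2 * Real.pi)) : ℂ) - (Real.log T : ℂ)) := by ring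
      rw [e]
      exact (norm_add_le _ _).trans (add_le_add (hs.trans h1) h2)
    refine h5.trans ?_
    have h6 : 2 / T * |t - T| ≤ 2 / T * (2 * Real.log T + C1 * Real.log (3 + |t|)) * |t - T| := by
      apply mul_le_mul_of_nonneg_right _ ha
      have h7 : (0 : ℝ) ≤ 2 / T := by positivity
      have h8 : 1 ≤ 2 * Real.log T + C1 * Real.log (3 + |t|) := by
        have : 0 ≤ C1 * Real.log (3 + |t|) := by positivity
        linarith
      nlinarith
    linarith
  · have h1 : ‖om (c + t * I) - (Real.log T : ℂ)‖ ≤ C1 * Real.log (3 + |t|) + Real.log T := by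
      refine (norm_sub_le _ _).trans (add_le_add (hom t) ?_)
      rw [Complex.norm_real, Real.norm_eq_abs, abs_of_nonneg (by linarith)]
    have h2 : 1 ≤ 2 / T * |t - T| := by
      rw [abs_of_nonpos (by linarith)]
      have h3 : T / 2 ≤ -(t - T) := by linarith
      have h4 : 2 / T * (T / 2) = 1 := by field_simp
      rw [← h4]
      exact mul_le_mul_of_nonneg_left h3 (by positivity)
    have h3 : 0 ≤ C1 * Real.log (3 + |t|) := by positivity
    have h4 : C1 * Real.log (3 + |t|) + Real.log T ≤ 2 * Real.log T + C1 * Real.log (3 + |t|) := by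
      linarith
    have h5 : 2 * Real.log T + C1 * Real.log (3 + |t|) ≤
        (2 * Real.log T + C1 * Real.log (3 + |t|)) * (2 / T * |t - T|) := by
      have h6 : 0 ≤ 2 * Real.log T + C1 * Real.log (3 + |t|) := by linarith
      nlinarith
    have h7 : (2 * Real.log T + C1 * Real.log (3 + |t|)) * (2 / T * |t - T|) =
      2 / T * (2 * Real.log T + C1 * Real.log (3 + |t|)) * |t - T| := by ring
    linarith

/-- the quantitative form. -/
theorem om1_bound (hOML : OmLineStatement) (hCHO : OmAsympStatement) (hGAU : GaussStatement)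
    (hMOM : MomentStatement) {c : ℝ} (hc1 : 1 < c) (hc2 : c < 3 / 2) :
    ∃ K T0 : ℝ, 0 < K ∧ 3 ≤ T0 ∧ ∀ T : ℝ, T0 ≤ T →
      ‖VI c (fun s => om s * WW T s) - ((cG T * Real.log T : ℝ) : ℂ)‖ ≤
        K * (DD T + DD T ^ 2 * Real.log T / T) := by
  obtain ⟨C1, hC1, hom, -, homd, -⟩ := hOML c hc1 hc2
  obtain ⟨C2, hC2, hcho⟩ := hCHO
  obtain ⟨M0, T0, hM0, hT0, hm0⟩ := hMOM 0 c 0 0 (by linarith) (by linarith) (by norm_num)
  obtain ⟨M1, T1, hM1, hT1, hm1⟩ := hMOM 0 c 0 1 (by linarith) (by linarith) (by norm_num)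
  obtain ⟨M2, T2, hM2, hT2, hm2⟩ := hMOM 0 c 1 1 (by linarith) (by linarith) (by norm_num)
  have hpi : 0 < Real.log (2 * Real.pi) := Real.log_pos (by have := Real.pi_gt_three; linarith)
  refine ⟨(C2 + Real.log (2 * Real.pi)) * M0 + 4 * M1 + 2 * C1 * M2, max 3 (max T0 (max T1 T2)),
    by positivity, le_max_left _ _, ?_⟩
  intro T hT
  have hT3 : 3 ≤ T := (le_max_left _ _).trans hT
  have hTa : T0 ≤ T := (le_max_left _ _).trans ((le_max_right _ _).trans hT)
  have hTb : T1 ≤ T := (le_max_left _ _).trans ((le_max_right _ _).trans ((le_max_right _ _).trans hT))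
  have hTc : T2 ≤ T := (le_max_right _ _).trans ((le_max_right _ _).trans ((le_max_right _ _).trans hT))
  obtain ⟨hD, hL⟩ := DD_pos hT3
  have hTpos : 0 < T := by linarith
  obtain ⟨hi0, hb0⟩ := hm0 T hTa
  obtain ⟨hi1, hb1⟩ := hm1 T hTb
  obtain ⟨hi2, hb2⟩ := hm2 T hTc
  simp only [Real.rpow_zero, pow_zero, one_mul, mul_one, zero_add, pow_one] at hi0 hb0 hi1 hb1 hi2 hb2
  have e11 : DD T ^ (1 + 1) = DD T ^ 2 := by norm_num
  rw [e11] at hb1 hb2
  -- continuity
  have hcw : Continuous fun t : ℝ => WW T (c + t * I) := by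
    unfold WW
    fun_prop
  have hco : Continuous fun t : ℝ => om (c + t * I) := by
    rw [continuous_iff_continuousAt]
    intro t
    have h1 : ContinuousAt om (c + t * I) := (homd t).continuousAt
    have h2 : ContinuousAt (fun t : ℝ => (c + t * I : ℂ)) t := by fun_prop
    exact ContinuousAt.comp (f := fun t : ℝ => (c + t * I : ℂ)) h1 h2
  have hiW : Integrable fun t : ℝ => WW T (c + t * I) := by
    rw [← integrable_norm_iff hcw.aestronglyMeasurable]
    exact hi0
  -- majorant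
  obtain ⟨g, hg⟩ : ∃ g : ℝ → ℝ, g = fun t : ℝ =>
      (C2 + Real.log (2 * Real.pi)) * ‖WW T (c + t * I)‖ +
      (2 / T * (2 * Real.log T)) * (‖(c + t * I : ℂ) - 1 / 2 - T * I‖ * ‖WW T (c + t * I)‖) +
      (2 / T * C1) * (Real.log (3 + |t|) * ‖(c + t * I : ℂ) - 1 / 2 - T * I‖ * ‖WW T (c + t * I)‖) :=
    ⟨_, rfl⟩
  have hgi : Integrable g := by
    rw [hg]
    exact ((hi0.const_mul _).add (hi1.const_mul _)).add (hi2.const_mul _)
  have hgb : ∫ t : ℝ, g t ≤ ((C2 + Real.log (2 * Real.pi)) * M0 + 4 * M1 + 2 * C1 * M2) *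
      (DD T + DD T ^ 2 * Real.log T / T) := by
    have hAB : Integrable fun t : ℝ => (C2 + Real.log (2 * Real.pi)) * ‖WW T (c + t * I)‖ +
      (2 / T * (2 * Real.log T)) * (‖(c + t * I : ℂ) - 1 / 2 - T * I‖ * ‖WW T (c + t * I)‖) :=
      (hi0.const_mul _).add (hi1.const_mul _)
    simp only [hg]
    rw [integral_add hAB (hi2.const_mul _),
      integral_add (hi0.const_mul _) (hi1.const_mul _), integral_const_mul, integral_const_mul,
      integral_const_mul]
    have e0 : (C2 + Real.log (2 * Real.pi)) * ∫ t : ℝ, ‖WW T (c + t * I)‖ ≤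
        (C2 + Real.log (2 * Real.pi)) * (M0 * DD T) :=
      mul_le_mul_of_nonneg_left hb0 (by positivity)
    have e1 : (2 / T * (2 * Real.log T)) *
        ∫ t : ℝ, ‖(c + t * I : ℂ) - 1 / 2 - T * I‖ * ‖WW T (c + t * I)‖ ≤
        (2 / T * (2 * Real.log T)) * (M1 * DD T ^ 2) :=
      mul_le_mul_of_nonneg_left hb1 (by positivity)
    have e2 : (2 / T * C1) *
        ∫ t : ℝ, Real.log (3 + |t|) * ‖(c + t * I : ℂ) - 1 / 2 - T * I‖ * ‖WW T (c + t * I)‖ ≤
        (2 / T * C1) * (M2 * Real.log T * DD T ^ 2) :=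
      mul_le_mul_of_nonneg_left hb2 (by positivity)
    have e3 : (C2 + Real.log (2 * Real.pi)) * (M0 * DD T) +
        (2 / T * (2 * Real.log T)) * (M1 * DD T ^ 2) +
        (2 / T * C1) * (M2 * Real.log T * DD T ^ 2) =
        (C2 + Real.log (2 * Real.pi)) * M0 * DD T +
        (4 * M1 + 2 * C1 * M2) * (DD T ^ 2 * Real.log T / T) := by ring
    have p1 : 0 ≤ (C2 + Real.log (2 * Real.pi)) * M0 * (DD T ^ 2 * Real.log T / T) := by positivity
    have p2 : 0 ≤ (4 * M1 + 2 * C1 * M2) * DD T := by positivity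
    calc _ ≤ (C2 + Real.log (2 * Real.pi)) * (M0 * DD T) +
        (2 / T * (2 * Real.log T)) * (M1 * DD T ^ 2) +
        (2 / T * C1) * (M2 * Real.log T * DD T ^ 2) := add_le_add (add_le_add e0 e1) e2
      _ ≤ _ := by rw [e3]; nlinarith
  have hpt : ∀ t : ℝ, ‖(om (c + t * I) - (Real.log T : ℂ)) * WW T (c + t * I)‖ ≤ g t := by
    intro t
    rw [norm_mul, hg]
    have h1 := pointwise (t := t) hC1 hC2 (by linarith : 0 < c) (by linarith) hT3 hom hcho
    have h2 : |t - T| ≤ ‖(c + t * I : ℂ) - 1 / 2 - T * I‖ := by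
      have := Complex.abs_im_le_norm ((c + t * I : ℂ) - 1 / 2 - T * I)
      simpa using this
    have h3 : 0 ≤ Real.log (3 + |t|) := Real.log_nonneg (by have := abs_nonneg t; linarith)
    have h4 : ‖om (c + t * I) - (Real.log T : ℂ)‖ ≤ (C2 + Real.log (2 * Real.pi)) +
      2 / T * (2 * Real.log T + C1 * Real.log (3 + |t|)) * ‖(c + t * I : ℂ) - 1 / 2 - T * I‖ := by
      refine h1.trans ?_
      have h5 : 0 ≤ 2 / T * (2 * Real.log T + C1 * Real.log (3 + |t|)) := by positivity
      have := mul_le_mul_of_nonneg_left h2 h5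
      linarith
    have h6 := mul_le_mul_of_nonneg_right h4 (norm_nonneg (WW T (c + t * I)))
    refine h6.trans (le_of_eq ?_)
    ring
  have hiE : Integrable fun t : ℝ => (om (c + t * I) - (Real.log T : ℂ)) * WW T (c + t * I) :=
    hgi.mono' ((hco.sub continuous_const).mul hcw).aestronglyMeasurable
      (Filter.Eventually.of_forall hpt)
  have hW1 : VI c (fun s => WW T s) = (cG T : ℂ) := by
    have h1 := hGAU.2.2 T c 1 hD one_pos
    simp only [Real.log_one, ofReal_zero, ofReal_one, one_cpow, mul_one, mul_zero] at h1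
    rw [h1]
    simp
  have hsplit : VI c (fun s => om s * WW T s) =
      (Real.log T : ℂ) * VI c (fun s => WW T s) +
      (1 / (2 * Real.pi) : ℂ) * ∫ t : ℝ, (om (c + t * I) - (Real.log T : ℂ)) * WW T (c + t * I) := by
    unfold VI
    have e : ∫ t : ℝ, om (c + t * I) * WW T (c + t * I) =
        (Real.log T : ℂ) * (∫ t : ℝ, WW T (c + t * I)) +
        ∫ t : ℝ, (om (c + t * I) - (Real.log T : ℂ)) * WW T (c + t * I) := by
      rw [← integral_const_mul, ← integral_add (hiW.const_mul _) hiE]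
      congr 1
      funext t
      ring
    rw [e]
    ring
  have hfin : VI c (fun s => om s * WW T s) - ((cG T * Real.log T : ℝ) : ℂ) =
      (1 / (2 * Real.pi) : ℂ) * ∫ t : ℝ, (om (c + t * I) - (Real.log T : ℂ)) * WW T (c + t * I) := by
    rw [hsplit, hW1]
    push_cast
    ring
  rw [hfin, norm_mul]
  have hn : ‖(1 / (2 * Real.pi) : ℂ)‖ ≤ 1 := by
    rw [norm_div, norm_one, norm_mul, Complex.norm_real, Real.norm_eq_abs, abs_of_pos Real.pi_pos]
    have := Real.pi_gt_three
    have h2 : ‖(2 : ℂ)‖ = 2 := by simp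
    rw [h2, div_le_one (by linarith)]
    linarith
  have hint := norm_integral_le_of_norm_le hgi (Filter.Eventually.of_forall hpt)
  calc ‖(1 / (2 * Real.pi) : ℂ)‖ *
        ‖∫ t : ℝ, (om (c + t * I) - (Real.log T : ℂ)) * WW T (c + t * I)‖
      ≤ 1 * ∫ t : ℝ, g t := mul_le_mul hn hint (norm_nonneg _) zero_le_one
    _ ≤ _ := by rw [one_mul]; exact hgb

theorem om1 (hOML : OmLineStatement) (hCHO : OmAsympStatement) (hGAU : GaussStatement)
    (hMOM : MomentStatement) : Om1Statement := by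
  intro c hc1 hc2
  obtain ⟨K, T0, hK, hT0, hb⟩ := om1_bound hOML hCHO hGAU hMOM hc1 hc2
  rw [tendsto_iff_norm_sub_tendsto_zero]
  have hlim : Tendsto (fun T : ℝ => K * (2 * Real.sqrt Real.pi) *
      ((Real.log T)⁻¹ + (Real.log T) ^ (-(2 / 3 : ℝ)))) atTop (𝓝 0) := by
    have h1 : Tendsto (fun T : ℝ => (Real.log T)⁻¹) atTop (𝓝 0) :=
      tendsto_inv_atTop_zero.comp Real.tendsto_log_atTop
    have h2 : Tendsto (fun T : ℝ => (Real.log T) ^ (-(2 / 3 : ℝ))) atTop (𝓝 0) :=
      (tendsto_rpow_neg_atTop (by norm_num)).comp Real.tendsto_log_atTop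
    have h3 := (h1.add h2).const_mul (K * (2 * Real.sqrt Real.pi))
    simpa using h3
  refine squeeze_zero' (Filter.Eventually.of_forall fun T => norm_nonneg _) ?_ hlim
  filter_upwards [eventually_ge_atTop T0] with T hT
  have hT3 : 3 ≤ T := hT0.trans hT
  obtain ⟨hD, hL⟩ := DD_pos hT3
  have hTpos : 0 < T := by linarith
  have hsp : 0 < Real.sqrt Real.pi := Real.sqrt_pos.2 Real.pi_pos
  have hcG : 0 < cG T := by
    unfold cG
    positivity
  have hpos : 0 < cG T * Real.log T := by positivity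
  have hne : ((cG T * Real.log T : ℝ) : ℂ) ≠ 0 := by exact_mod_cast hpos.ne'
  have h1 : VI c (fun s => om s * WW T s) / ((cG T * Real.log T : ℝ) : ℂ) - 1 =
      (VI c (fun s => om s * WW T s) - ((cG T * Real.log T : ℝ) : ℂ)) /
        ((cG T * Real.log T : ℝ) : ℂ) := by
    field_simp
  rw [h1, norm_div, Complex.norm_real, Real.norm_eq_abs, abs_of_pos hpos, div_le_iff₀ hpos]
  refine (hb T hT).trans (le_of_eq ?_)
  have hLpos : 0 < Real.log T := by linarith
  have hDT : DD T = T * Real.log T ^ (-(2 / 3 : ℝ)) := by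
    unfold DD
    rw [Real.rpow_neg hLpos.le]
    ring
  unfold cG
  have e1 : K * (2 * Real.sqrt Real.pi) * ((Real.log T)⁻¹ + Real.log T ^ (-(2 / 3 : ℝ))) *
      (DD T / (2 * Real.sqrt Real.pi) * Real.log T) =
      K * (DD T * (Real.log T)⁻¹ * Real.log T + DD T * Real.log T * Real.log T ^ (-(2 / 3 : ℝ))) := by
    field_simp
  rw [e1]
  have e2 : DD T * (Real.log T)⁻¹ * Real.log T = DD T := by field_simp
  have e3 : DD T ^ 2 * Real.log T / T = DD T * Real.log T * Real.log T ^ (-(2 / 3 : ℝ)) := by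
    rw [hDT]
    field_simp
  rw [e2, e3]

end Pool.Agent.Lib.MP_6bc78b_nt.MS.P1.OM1
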