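import Pool.Agent.Lib.MP_6bc78b_nt.MS.P1.Iface

/-! Project MS, Part I, module OM2: `ω` against an oscillation (integration by parts). -/

set_option autoImplicit false

open Complex Filter Topology MeasureTheory

namespace Pool.Agent.Lib.MP_6bc78b_nt.MS.P1.OM2

open Pool.Agent.Lib.MP_6bc78b_nt.MS Pool.Agent.Lib.MP_6bc78b_nt.MS.P1

theorem hasDerivAt_line {f : ℂ → ℂ} {f' : ℂ} {c t : ℝ} (h : HasDerivAt f f' (c + t * I)) :
    HasDerivAt (fun t : ℝ => f (c + t * I)) (f' * I) t := by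
  have h1 : HasDerivAt (fun z : ℂ => (c : ℂ) + z * I) I (t : ℂ) := by
    simpa using ((hasDerivAt_id (t : ℂ)).mul_const I).const_add (c : ℂ)
  have h2 : HasDerivAt (fun z : ℂ => f ((c : ℂ) + z * I)) (f' * I) (t : ℂ) := h.comp (t : ℂ) h1
  exact h2.comp_ofReal

theorem hasDerivAt_WW (T : ℝ) (s : ℂ) :
    HasDerivAt (WW T) (WW T s * (2 * (s - 1 / 2 - T * I) / (DD T : ℂ) ^ 2)) s := by
  unfold WW
  have h1 : HasDerivAt (fun s : ℂ => s - 1 / 2 - T * I) 1 s :=
    ((hasDerivAt_id s).sub_const _).sub_const _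
  have h2 : HasDerivAt (fun s : ℂ => (s - 1 / 2 - T * I) ^ 2 / (DD T : ℂ) ^ 2)
      (2 * (s - 1 / 2 - T * I) / (DD T : ℂ) ^ 2) s := by
    have := (h1.pow 2).div_const ((DD T : ℂ) ^ 2)
    simpa using this
  exact h2.cexp

theorem hasDerivAt_pow {r : ℝ} (hr : 0 < r) (s : ℂ) :
    HasDerivAt (fun s : ℂ => (r : ℂ) ^ (-s)) (-(Real.log r : ℂ) * (r : ℂ) ^ (-s)) s := by
  have hr0 : (r : ℂ) ≠ 0 := by exact_mod_cast hr.ne'
  have h1 : HasDerivAt (fun s : ℂ => -s) (-1) s := (hasDerivAt_id s).neg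
  have h2 := h1.const_cpow (c := (r : ℂ)) (Or.inl hr0)
  rw [← Complex.ofReal_log hr.le] at h2
  convert h2 using 1
  ring

theorem norm_cpow_line {r : ℝ} (hr : 0 < r) (c t : ℝ) : ‖(r : ℂ) ^ (-((c : ℂ) + t * I))‖ = r ^ (-c) := by
  rw [Complex.norm_cpow_eq_rpow_re_of_pos hr]
  congr 1
  simp

theorem om2 (hO : OmLineStatement) (hM : MomentStatement) : Om2Statement := by
  intro c hc1 hc2
  obtain ⟨C1, hC1, hb0, hb1, hd, _⟩ := hO c hc1 hc2
  obtain ⟨Ca, Ta, hCa, hTa, hMa⟩ := hM 0 c 1 0 (by linarith) (by linarith) (by norm_num)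
  obtain ⟨Cb, Tb, hCb, hTb, hMb⟩ := hM (-1) c 0 0 (by linarith) (by linarith) (by norm_num)
  obtain ⟨Cd, Td, hCd, hTd, hMd⟩ := hM 0 c 1 1 (by linarith) (by linarith) (by norm_num)
  refine ⟨C1 * Cb + 2 * C1 * Cd, max (max Ta Tb) (max Td (Real.exp 1)), by positivity, ?_, ?_⟩
  · exact lt_of_lt_of_le hTa ((le_max_left _ _).trans (le_max_left _ _))
  intro T r hT hr hr1
  have hTa' : Ta ≤ T := ((le_max_left _ _).trans (le_max_left _ _)).trans hT
  have hTb' : Tb ≤ T := ((le_max_right _ _).trans (le_max_left _ _)).trans hT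
  have hTd' : Td ≤ T := ((le_max_left _ _).trans (le_max_right _ _)).trans hT
  have hTe : Real.exp 1 ≤ T := ((le_max_right _ _).trans (le_max_right _ _)).trans hT
  have hT0 : 0 < T := (Real.exp_pos 1).trans_le hTe
  have hlog : 1 ≤ Real.log T := by
    rw [Real.le_log_iff_exp_le hT0]; exact hTe
  have hD0 : 0 < DD T := div_pos hT0 (Real.rpow_pos_of_pos (by linarith) _)
  have hDT : DD T ≤ T := by
    unfold DD
    rw [div_le_iff₀ (Real.rpow_pos_of_pos (by linarith) _)]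
    have : 1 ≤ Real.log T ^ (2 / 3 : ℝ) := Real.one_le_rpow hlog (by norm_num)
    nlinarith
  obtain ⟨hIa, _⟩ := hMa T hTa'
  obtain ⟨hIb, hBb⟩ := hMb T hTb'
  obtain ⟨hId, hBd⟩ := hMd T hTd'
  have hlr : Real.log r ≠ 0 := Real.log_ne_zero_of_pos_of_ne_one hr hr1
  -- functions
  set u : ℝ → ℂ := fun t => om (c + t * I) * WW T (c + t * I) with hu
  set u' : ℝ → ℂ := fun t => (deriv om (c + t * I) * WW T (c + t * I) + om (c + t * I) *
    (WW T (c + t * I) * (2 * ((c + t * I : ℂ) - 1 / 2 - T * I) / (DD T : ℂ) ^ 2))) * I with hu'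
  set v : ℝ → ℂ := fun t => (r : ℂ) ^ (-((c : ℂ) + t * I)) with hv
  set v' : ℝ → ℂ := fun t => (-(Real.log r : ℂ) * (r : ℂ) ^ (-((c : ℂ) + t * I))) * I with hv'
  have hdu : ∀ t, HasDerivAt u (u' t) t := by
    intro t
    have h1 : HasDerivAt (fun s : ℂ => om s * WW T s) (deriv om (c + t * I) * WW T (c + t * I) +
        om (c + t * I) * (WW T (c + t * I) * (2 * ((c + t * I : ℂ) - 1 / 2 - T * I) / (DD T : ℂ) ^ 2)))
        (c + t * I) := (hd t).hasDerivAt.mul (hasDerivAt_WW T _)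
    exact hasDerivAt_line h1
  have hdv : ∀ t, HasDerivAt v (v' t) t := fun t => hasDerivAt_line (hasDerivAt_pow hr (c + t * I))
  have hcl : Continuous (fun t : ℝ => (c : ℂ) + t * I) := by fun_prop
  have hcu : Continuous u := continuous_iff_continuousAt.2 fun t => (hdu t).continuousAt
  have hcv : Continuous v := continuous_iff_continuousAt.2 fun t => (hdv t).continuousAt
  have hcW : Continuous (fun t : ℝ => WW T (c + t * I)) := by
    refine continuous_iff_continuousAt.2 fun t => ?_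
    exact (hasDerivAt_line (hasDerivAt_WW T (c + t * I))).continuousAt
  have hco : Continuous (fun t : ℝ => om (c + t * I)) := by
    refine continuous_iff_continuousAt.2 fun t => ?_
    exact (hasDerivAt_line (hd t).hasDerivAt).continuousAt
  have hmu' : Measurable u' := by
    have h1 : Measurable (fun t : ℝ => deriv om (c + t * I)) :=
      (measurable_deriv om).comp hcl.measurable
    have h2 : Continuous (fun t : ℝ => om (c + t * I) *
      (WW T (c + t * I) * (2 * ((c + t * I : ℂ) - 1 / 2 - T * I) / (DD T : ℂ) ^ 2))) := by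
      refine hco.mul (hcW.mul ?_)
      fun_prop
    exact ((h1.mul hcW.measurable).add h2.measurable).mul_const I
  have hnv : ∀ t, ‖v t‖ = r ^ (-c) := fun t => norm_cpow_line hr c t
  have hrc : 0 ≤ r ^ (-c) := Real.rpow_nonneg hr.le _
  have hbu : ∀ t, ‖u t‖ ≤ C1 * ((1 + |t|) ^ (0 : ℝ) * Real.log (3 + |t|) ^ 1 *
      ‖(c + t * I : ℂ) - 1 / 2 - T * I‖ ^ 0 * ‖WW T (c + t * I)‖) := by
    intro t
    rw [Real.rpow_zero, pow_one, pow_zero, one_mul, mul_one, ← mul_assoc]
    simp only [hu, norm_mul]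
    exact mul_le_mul_of_nonneg_right (hb0 t) (norm_nonneg _)
  have hbu' : ∀ t, ‖u' t‖ ≤ C1 * ((1 + |t|) ^ (-1 : ℝ) * Real.log (3 + |t|) ^ 0 *
      ‖(c + t * I : ℂ) - 1 / 2 - T * I‖ ^ 0 * ‖WW T (c + t * I)‖) +
      (2 * C1 / DD T ^ 2) * ((1 + |t|) ^ (0 : ℝ) * Real.log (3 + |t|) ^ 1 *
      ‖(c + t * I : ℂ) - 1 / 2 - T * I‖ ^ 1 * ‖WW T (c + t * I)‖) := by
    intro t
    have h0 : (0 : ℝ) < 1 + |t| := by positivity
    rw [Real.rpow_zero, Real.rpow_neg_one, pow_zero, pow_one, pow_zero, pow_one, one_mul, mul_one, mul_one]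
    simp only [hu', norm_mul, Complex.norm_I, mul_one]
    refine (norm_add_le _ _).trans (add_le_add ?_ ?_)
    · rw [norm_mul, ← mul_assoc]
      refine mul_le_mul_of_nonneg_right ?_ (norm_nonneg _)
      have := hb1 t
      rwa [div_eq_mul_inv] at this
    · rw [norm_mul, norm_mul, norm_div, norm_mul, norm_pow, Complex.norm_real, Real.norm_eq_abs,
        abs_of_pos hD0, Complex.norm_two]
      have h1 := hb0 t
      have hW := norm_nonneg (WW T (c + t * I))
      have hN := norm_nonneg ((c + t * I : ℂ) - 1 / 2 - T * I)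
      have hD2 : 0 < DD T ^ 2 := by positivity
      calc ‖om (c + t * I)‖ * (‖WW T (c + t * I)‖ *
            (2 * ‖(c + t * I : ℂ) - 1 / 2 - T * I‖ / DD T ^ 2))
          ≤ (C1 * Real.log (3 + |t|)) * (‖WW T (c + t * I)‖ *
            (2 * ‖(c + t * I : ℂ) - 1 / 2 - T * I‖ / DD T ^ 2)) :=
            mul_le_mul_of_nonneg_right h1 (by positivity)
        _ = 2 * C1 / DD T ^ 2 * (Real.log (3 + |t|) * ‖(c + t * I : ℂ) - 1 / 2 - T * I‖ *
            ‖WW T (c + t * I)‖) := by ring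
  have hIu : Integrable u := by
    refine (hIa.const_mul C1).mono' hcu.aestronglyMeasurable (Eventually.of_forall hbu)
  have hIu' : Integrable u' := by
    refine ((hIb.const_mul C1).add (hId.const_mul (2 * C1 / DD T ^ 2))).mono'
      hmu'.aestronglyMeasurable (Eventually.of_forall hbu')
  have hIuv : Integrable (u * v) := by
    refine (hIu.norm.mul_const (r ^ (-c))).mono' (hcu.mul hcv).aestronglyMeasurable
      (Eventually.of_forall fun t => ?_)
    rw [Pi.mul_apply, norm_mul, hnv]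
  have hIu'v : Integrable (u' * v) := by
    refine (hIu'.norm.mul_const (r ^ (-c))).mono'
      (hmu'.mul hcv.measurable).aestronglyMeasurable (Eventually.of_forall fun t => ?_)
    rw [Pi.mul_apply, norm_mul, hnv]
  have hv'eq : ∀ t, v' t = (-(Real.log r : ℂ) * I) * v t := by
    intro t
    simp only [hv', hv]
    ring
  have hIuv' : Integrable (u * v') := by
    have : u * v' = fun t => (-(Real.log r : ℂ) * I) * (u * v) t := by
      funext t
      rw [Pi.mul_apply, Pi.mul_apply, hv'eq]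
      ring
    rw [this]
    exact hIuv.const_mul _
  have hparts := integral_mul_deriv_eq_deriv_mul_of_integrable
    (fun t _ => hdu t) (fun t _ => hdv t) hIuv' hIu'v hIuv
  have h1 : ∫ t, u t * v' t = (-(Real.log r : ℂ) * I) * ∫ t, u t * v t := by
    rw [← integral_const_mul]
    refine integral_congr_ae (Eventually.of_forall fun t => ?_)
    simp only
    rw [hv'eq]
    ring
  rw [h1] at hparts
  have h2 : |Real.log r| * ‖∫ t, u t * v t‖ = ‖∫ t, u' t * v t‖ := by
    have := congrArg norm hparts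
    rw [norm_mul, norm_mul, norm_neg, Complex.norm_real, Complex.norm_I, mul_one, norm_neg,
      Real.norm_eq_abs] at this
    exact this
  have h3 : ‖∫ t, u' t * v t‖ ≤ (C1 * Cb + 2 * C1 * Cd) * Real.log T * r ^ (-c) := by
    calc ‖∫ t, u' t * v t‖ ≤ ∫ t, (C1 * ((1 + |t|) ^ (-1 : ℝ) * Real.log (3 + |t|) ^ 0 *
      ‖(c + t * I : ℂ) - 1 / 2 - T * I‖ ^ 0 * ‖WW T (c + t * I)‖) +
      (2 * C1 / DD T ^ 2) * ((1 + |t|) ^ (0 : ℝ) * Real.log (3 + |t|) ^ 1 *
      ‖(c + t * I : ℂ) - 1 / 2 - T * I‖ ^ 1 * ‖WW T (c + t * I)‖)) * r ^ (-c) := by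
          refine norm_integral_le_of_norm_le
            (((hIb.const_mul C1).add (hId.const_mul (2 * C1 / DD T ^ 2))).mul_const _)
            (Eventually.of_forall fun t => ?_)
          rw [norm_mul, hnv]
          exact mul_le_mul_of_nonneg_right (hbu' t) hrc
      _ = (C1 * (∫ t : ℝ, (1 + |t|) ^ (-1 : ℝ) * Real.log (3 + |t|) ^ 0 *
          ‖(c + t * I : ℂ) - 1 / 2 - T * I‖ ^ 0 * ‖WW T (c + t * I)‖) +
          (2 * C1 / DD T ^ 2) * (∫ t : ℝ, (1 + |t|) ^ (0 : ℝ) * Real.log (3 + |t|) ^ 1 *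
          ‖(c + t * I : ℂ) - 1 / 2 - T * I‖ ^ 1 * ‖WW T (c + t * I)‖)) * r ^ (-c) := by
          rw [integral_mul_const, integral_add (hIb.const_mul C1) (hId.const_mul _),
            integral_const_mul, integral_const_mul]
      _ ≤ (C1 * (Cb * T ^ (-1 : ℝ) * Real.log T ^ 0 * DD T ^ (0 + 1)) +
          (2 * C1 / DD T ^ 2) * (Cd * T ^ (0 : ℝ) * Real.log T ^ 1 * DD T ^ (1 + 1))) * r ^ (-c) := by
          refine mul_le_mul_of_nonneg_right (add_le_add ?_ ?_) hrc
          · exact mul_le_mul_of_nonneg_left hBb hC1.le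
          · exact mul_le_mul_of_nonneg_left hBd (by positivity)
      _ = (C1 * Cb * (DD T / T) + 2 * C1 * Cd * Real.log T) * r ^ (-c) := by
          rw [Real.rpow_zero, Real.rpow_neg_one]
          field_simp
          ring
      _ ≤ ((C1 * Cb + 2 * C1 * Cd) * Real.log T) * r ^ (-c) := by
          refine mul_le_mul_of_nonneg_right ?_ hrc
          have h4 : DD T / T ≤ 1 := by
            rw [div_le_one hT0]; exact hDT
          have h5 : C1 * Cb * (DD T / T) ≤ C1 * Cb * Real.log T :=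
            mul_le_mul_of_nonneg_left (h4.trans hlog) (by positivity)
          nlinarith
      _ = _ := by ring
  have h6 : 0 < |Real.log r| := abs_pos.2 hlr
  have h7 : ‖∫ t, u t * v t‖ ≤ (C1 * Cb + 2 * C1 * Cd) * Real.log T * r ^ (-c) / |Real.log r| := by
    rw [le_div_iff₀ h6, mul_comm, h2]
    exact h3
  have h8 : ‖(1 / (2 * Real.pi) : ℂ)‖ ≤ 1 := by
    rw [norm_div, norm_one, norm_mul, Complex.norm_two, Complex.norm_real, Real.norm_eq_abs,
      abs_of_pos Real.pi_pos, div_le_one (by positivity)]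
    have := Real.pi_gt_three
    linarith
  change ‖(1 / (2 * Real.pi) : ℂ) * ∫ t : ℝ, om (c + t * I) * WW T (c + t * I) * (r : ℂ) ^ (-((c : ℂ) + t * I))‖ ≤ _
  rw [norm_mul]
  calc ‖(1 / (2 * Real.pi) : ℂ)‖ * ‖∫ t : ℝ, u t * v t‖ ≤ 1 * ‖∫ t : ℝ, u t * v t‖ :=
        mul_le_mul_of_nonneg_right h8 (norm_nonneg _)
    _ = ‖∫ t : ℝ, u t * v t‖ := one_mul _
    _ ≤ _ := h7

end Pool.Agent.Lib.MP_6bc78b_nt.MS.P1.OM2
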