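import Pool.Agent.Lib.MP_6bc78b_nt.MS.P1.Iface

/-! Project MS, Part I, module TAIL: outside `[T/2, 2T]` the weight is negligible. -/

set_option autoImplicit false

open Complex Filter Topology MeasureTheory

namespace Pool.Agent.Lib.MP_6bc78b_nt.MS.P1

/-- `(1 + x)^n ≤ n! e^2 e^(x^2/4)`. -/
theorem tail_pow (n : ℕ) (x : ℝ) (hx : 0 ≤ x) :
    (1 + x) ^ n ≤ n.factorial * Real.exp 2 * Real.exp (x ^ 2 / 4) := by
  have hf : (0 : ℝ) < n.factorial := by exact_mod_cast Nat.factorial_pos n
  have h1 : (1 + x) ^ n / n.factorial ≤ Real.exp (1 + x) :=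
    Real.pow_div_factorial_le_exp _ (by positivity) n
  have h2 : Real.exp (1 + x) ≤ Real.exp 2 * Real.exp (x ^ 2 / 4) := by
    rw [← Real.exp_add]
    apply Real.exp_le_exp.mpr
    nlinarith [sq_nonneg (x / 2 - 1)]
  rw [div_le_iff₀ hf] at h1
  calc (1 + x) ^ n ≤ Real.exp (1 + x) * n.factorial := h1
    _ ≤ (Real.exp 2 * Real.exp (x ^ 2 / 4)) * n.factorial :=
        mul_le_mul_of_nonneg_right h2 hf.le
    _ = _ := by ring

/-- The pointwise bound. -/
theorem tail_point (A c : ℝ) (n : ℕ) (hn : |A| ≤ n) (hc : 0 ≤ c) (hc8 : c ≤ 8) (T D w g t : ℝ)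
    (hT : 1 ≤ T) (hD : 1 ≤ D) (hw : w = Real.exp (((c - 1 / 2) ^ 2 - (t - T) ^ 2) / D ^ 2))
    (_hg0 : 0 ≤ g) (hg : g ≤ T ^ A * (1 + |t|) ^ A) :
    g * w ≤ (Real.exp 57 * (T ^ n * (1 + T) ^ n * (D ^ n * (n.factorial * Real.exp 2)))) *
      Real.exp (-(3 / (4 * D ^ 2)) * (t - T) ^ 2) := by
  have hA : A ≤ n := (le_abs_self A).trans hn
  have h1 : T ^ A ≤ T ^ n := by
    rw [← Real.rpow_natCast]
    exact Real.rpow_le_rpow_of_exponent_le hT hA
  have habs : 1 ≤ 1 + |t| := by linarith [abs_nonneg t]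
  have h2 : (1 + |t|) ^ A ≤ (1 + |t|) ^ n := by
    rw [← Real.rpow_natCast]
    exact Real.rpow_le_rpow_of_exponent_le habs hA
  have h3 : 1 + |t| ≤ (1 + T) * (D * (1 + |t - T| / D)) := by
    have h4 : |t| ≤ |t - T| + T := by
      have h41 : |(t - T) + T| ≤ |t - T| + |T| := abs_add_le _ _
      rw [sub_add_cancel, abs_of_pos (show (0 : ℝ) < T by linarith)] at h41
      exact h41
    have h5 : D * (1 + |t - T| / D) = D + |t - T| := by
      field_simp
    rw [h5]
    have h6 := abs_nonneg (t - T)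
    nlinarith
  have h7 : (1 + |t|) ^ n ≤ (1 + T) ^ n * (D ^ n * (n.factorial * Real.exp 2 *
      Real.exp ((|t - T| / D) ^ 2 / 4))) := by
    calc (1 + |t|) ^ n ≤ ((1 + T) * (D * (1 + |t - T| / D))) ^ n :=
          pow_le_pow_left₀ (by positivity) h3 n
      _ = (1 + T) ^ n * (D ^ n * (1 + |t - T| / D) ^ n) := by rw [mul_pow, mul_pow]
      _ ≤ _ := by
          apply mul_le_mul_of_nonneg_left _ (by positivity)
          apply mul_le_mul_of_nonneg_left _ (by positivity)
          exact tail_pow n _ (by positivity)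
  have hsq : (|t - T| / D) ^ 2 / 4 = (t - T) ^ 2 / (4 * D ^ 2) := by
    rw [div_pow, sq_abs]; field_simp
  have hw2 : w ≤ Real.exp 57 * Real.exp (-(t - T) ^ 2 / D ^ 2) := by
    rw [hw, ← Real.exp_add]
    apply Real.exp_le_exp.mpr
    rw [sub_div, neg_div]
    have : (c - 1 / 2) ^ 2 / D ^ 2 ≤ 57 := by
      rw [div_le_iff₀ (by positivity)]
      have h9 : (c - 1 / 2) ^ 2 ≤ 57 := by nlinarith
      have h10 : 1 ≤ D ^ 2 := by nlinarith
      nlinarith
    linarith
  have hw0 : 0 ≤ w := by rw [hw]; positivity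
  calc g * w ≤ (T ^ n * (1 + |t|) ^ n) * w := by
        apply mul_le_mul_of_nonneg_right _ hw0
        exact hg.trans (mul_le_mul h1 h2 (by positivity) (by positivity))
    _ ≤ (T ^ n * ((1 + T) ^ n * (D ^ n * (n.factorial * Real.exp 2 *
      Real.exp ((|t - T| / D) ^ 2 / 4))))) * (Real.exp 57 * Real.exp (-(t - T) ^ 2 / D ^ 2)) := by
        apply mul_le_mul _ hw2 hw0 (by positivity)
        exact mul_le_mul_of_nonneg_left h7 (by positivity)
    _ = (Real.exp 57 * (T ^ n * (1 + T) ^ n * (D ^ n * (n.factorial * Real.exp 2)))) *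
        (Real.exp ((|t - T| / D) ^ 2 / 4) * Real.exp (-(t - T) ^ 2 / D ^ 2)) := by ring
    _ = _ := by
        rw [← Real.exp_add, hsq]
        congr 2
        field_simp
        ring

theorem tail (h1 : GaussStatement) (h2 : DDStatement) : TailStatement := by
  intro A c hc hc8
  obtain ⟨-, hW, -⟩ := h1
  obtain ⟨hE, -, hD, -⟩ := h2
  set n : ℕ := ⌈|A|⌉₊ with hn
  have hAn : |A| ≤ n := Nat.le_ceil _
  set K : ℝ := Real.exp 57 * (2 ^ n * (n.factorial * Real.exp 2)) with hK
  have hK0 : 0 < K := by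
    have : (0 : ℝ) < n.factorial := by exact_mod_cast Nat.factorial_pos n
    positivity
  filter_upwards [hE (3 * n + 3), hD, eventually_ge_atTop (1 : ℝ), eventually_ge_atTop K]
    with T hT1 hT2 hT3 hT4 g hgm hg
  obtain ⟨hDT, hD1, -, -⟩ := hT2
  set D := DD T with hDdef
  have hT0 : 0 < T := by linarith
  have hD0 : 0 < D := by linarith
  set M : ℝ := Real.exp 57 * (T ^ n * (1 + T) ^ n * (D ^ n * (n.factorial * Real.exp 2))) with hM
  have hM0 : 0 ≤ M := by
    have : (0 : ℝ) < n.factorial := by exact_mod_cast Nat.factorial_pos n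
    positivity
  have hpt : ∀ t : ℝ, ‖g (c + t * I) * WW T (c + t * I)‖ ≤
      M * Real.exp (-(3 / (4 * D ^ 2)) * (t - T) ^ 2) := by
    intro t
    rw [norm_mul]
    exact tail_point A c n hAn hc hc8 T D _ _ t hT3 hD1 (hW T c t) (norm_nonneg _) (hg t)
  have hWcont : Continuous (fun t : ℝ => WW T (c + t * I)) := by
    unfold WW
    fun_prop
  have hmeas : AEStronglyMeasurable (fun t : ℝ => g (c + t * I) * WW T (c + t * I)) volume :=
    hgm.mul hWcont.aestronglyMeasurable
  have hgauss : ∀ b : ℝ, 0 < b → Integrable (fun t : ℝ => Real.exp (-b * (t - T) ^ 2)) := by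
    intro b hb
    exact (integrable_exp_neg_mul_sq hb).comp_sub_right T
  have hint : Integrable (fun t : ℝ => g (c + t * I) * WW T (c + t * I)) := by
    refine Integrable.mono' ((hgauss (3 / (4 * D ^ 2)) (by positivity)).const_mul M) hmeas ?_
    exact Eventually.of_forall hpt
  refine ⟨hint, ?_⟩
  set b : ℝ := 1 / (2 * D ^ 2) with hb
  have hb0 : 0 < b := by positivity
  set E : ℝ := Real.exp (-(T ^ 2 / (16 * D ^ 2))) with hEd
  have hpt2 : ∀ t : ℝ, t ∈ (Set.Ioc (T / 2) (2 * T))ᶜ →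
      ‖g (c + t * I) * WW T (c + t * I)‖ ≤ M * E * Real.exp (-b * (t - T) ^ 2) := by
    intro t ht
    refine (hpt t).trans ?_
    have e1 : M * E * Real.exp (-b * (t - T) ^ 2) = M * (E * Real.exp (-b * (t - T) ^ 2)) :=
      mul_assoc _ _ _
    rw [e1, hEd, ← Real.exp_add]
    apply mul_le_mul_of_nonneg_left _ hM0
    apply Real.exp_le_exp.mpr
    have h5 : T ^ 2 / 4 ≤ (t - T) ^ 2 := by
      rw [Set.mem_compl_iff, Set.mem_Ioc, not_and_or, not_lt, not_le] at ht
      rcases ht with h | h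
      · nlinarith
      · nlinarith
    have h6 : T ^ 2 / (16 * D ^ 2) ≤ (t - T) ^ 2 / (4 * D ^ 2) := by
      rw [div_le_div_iff₀ (by positivity) (by positivity)]
      nlinarith [sq_nonneg D, mul_le_mul_of_nonneg_right h5 (sq_nonneg D)]
    have h7 : -(3 / (4 * D ^ 2)) * (t - T) ^ 2 =
        -((t - T) ^ 2 / (4 * D ^ 2)) + -b * (t - T) ^ 2 := by
      rw [hb]; field_simp; ring
    rw [h7]
    linarith
  have hdiff : VI c (fun s => g s * WW T s) - VF c T (fun s => g s * WW T s) =
      (1 / (2 * Real.pi) : ℂ) *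
        ∫ t in (Set.Ioc (T / 2) (2 * T))ᶜ, g (c + t * I) * WW T (c + t * I) := by
    unfold VI VF
    rw [intervalIntegral.integral_of_le (by linarith), setIntegral_compl measurableSet_Ioc hint]
    ring
  rw [hdiff, norm_mul]
  have hpi : ‖(1 / (2 * Real.pi) : ℂ)‖ ≤ 1 / 6 := by
    rw [norm_div, norm_one, norm_mul, Complex.norm_real, Real.norm_of_nonneg Real.pi_pos.le]
    simp only [Complex.norm_ofNat]
    have := Real.pi_gt_three
    apply one_div_le_one_div_of_le (by norm_num)
    linarith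
  have hint2 : Integrable (fun t : ℝ => M * E * Real.exp (-b * (t - T) ^ 2)) :=
    (hgauss b hb0).const_mul _
  have hE0 : 0 ≤ E := by positivity
  have hI : ‖∫ t in (Set.Ioc (T / 2) (2 * T))ᶜ, g (c + t * I) * WW T (c + t * I)‖ ≤
      M * E * Real.sqrt (Real.pi / b) := by
    calc _ ≤ ∫ t in (Set.Ioc (T / 2) (2 * T))ᶜ, M * E * Real.exp (-b * (t - T) ^ 2) := by
          apply norm_integral_le_of_norm_le hint2.integrableOn
          exact (ae_restrict_iff' measurableSet_Ioc.compl).2 (Eventually.of_forall hpt2)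
      _ ≤ ∫ t : ℝ, M * E * Real.exp (-b * (t - T) ^ 2) := by
          apply setIntegral_le_integral hint2
          exact Eventually.of_forall fun t => by positivity
      _ = M * E * ∫ t : ℝ, Real.exp (-b * (t - T) ^ 2) := by
          rw [integral_const_mul]
      _ = M * E * Real.sqrt (Real.pi / b) := by
          rw [integral_sub_right_eq_self (fun t : ℝ => Real.exp (-b * t ^ 2)), integral_gaussian]
  have hsq : Real.sqrt (Real.pi / b) ≤ 6 * D := by
    rw [Real.sqrt_le_left (by positivity)]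
    rw [hb]
    have := Real.pi_lt_four
    have h8 : Real.pi / (1 / (2 * D ^ 2)) = Real.pi * 2 * D ^ 2 := by field_simp
    rw [h8]
    nlinarith [sq_nonneg D]
  have hfin : M * E * (6 * D) ≤ 6 / T := by
    have h9 : (1 + T) ^ n ≤ 2 ^ n * T ^ n := by
      rw [← mul_pow]
      exact pow_le_pow_left₀ (by linarith) (by linarith) n
    have h10 : D ^ n ≤ T ^ n := pow_le_pow_left₀ hD0.le hDT n
    have hfac : (0 : ℝ) < n.factorial := by exact_mod_cast Nat.factorial_pos n
    have h11 : M ≤ K * T ^ (3 * n) := by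
      calc M ≤ Real.exp 57 * (T ^ n * (2 ^ n * T ^ n) * (T ^ n * (n.factorial * Real.exp 2))) := by
            rw [hM]
            apply mul_le_mul_of_nonneg_left _ (by positivity)
            apply mul_le_mul (mul_le_mul_of_nonneg_left h9 (by positivity)) _ (by positivity)
              (by positivity)
            exact mul_le_mul_of_nonneg_right h10 (by positivity)
        _ = K * T ^ (3 * n) := by rw [hK]; ring
    have h12 : E ≤ T ^ (-(3 * (n : ℝ) + 3)) := hT1
    have h13 : T ^ (-(3 * (n : ℝ) + 3)) = (T ^ (3 * n) * T ^ 3)⁻¹ := by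
      rw [Real.rpow_neg hT0.le, Real.rpow_add hT0]
      congr 2
      · rw [← Real.rpow_natCast]; push_cast; ring_nf
      · norm_cast
    rw [h13] at h12
    calc M * E * (6 * D) ≤ (K * T ^ (3 * n)) * (T ^ (3 * n) * T ^ 3)⁻¹ * (6 * T) := by
          apply mul_le_mul (mul_le_mul h11 h12 hE0 (by positivity)) (by linarith) (by positivity)
            (by positivity)
      _ = 6 * K / T ^ 2 := by field_simp
      _ ≤ 6 * T / T ^ 2 := by
          apply div_le_div_of_nonneg_right _ (by positivity)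
          linarith
      _ = 6 / T := by field_simp
  calc ‖(1 / (2 * Real.pi) : ℂ)‖ *
        ‖∫ t in (Set.Ioc (T / 2) (2 * T))ᶜ, g (c + t * I) * WW T (c + t * I)‖
      ≤ 1 / 6 * (M * E * (6 * D)) := by
        apply mul_le_mul hpi (hI.trans (mul_le_mul_of_nonneg_left hsq (by positivity)))
          (norm_nonneg _) (by norm_num)
    _ ≤ 1 / 6 * (6 / T) := by
        apply mul_le_mul_of_nonneg_left hfin (by norm_num)
    _ = 1 / T := by ring

end Pool.Agent.Lib.MP_6bc78b_nt.MS.P1
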