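import Pool.Agent.Lib.MP_6bc78b_nt.MS.P1.Iface

/-! Project MS, Part I, module ZN (helper45): the weighted number of zeros. -/

set_option autoImplicit false

open Complex Filter Topology MeasureTheory ArithmeticFunction

namespace Pool.Agent.Lib.MP_6bc78b_nt.MS.P1.ZN

open Pool.Agent.Lib.MP_6bc78b_nt Pool.Agent.Lib.MP_6bc78b_nt.MS Pool.Agent.Lib.MP_6bc78b_nt.MS.P1

lemma continuous_line (c : ℝ) : Continuous (fun t : ℝ => (c : ℂ) + t * I) := by fun_prop

lemma re_line (c t : ℝ) : ((c : ℂ) + t * I).re = c := by simp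

/-- Measurability of the logarithmic derivative of zeta on a line. -/
lemma meas_ld {c : ℝ} (hc : 1 < c) :
    AEStronglyMeasurable (fun t : ℝ => logDeriv riemannZeta (c + t * I)) volume := by
  have h1 : Measurable (fun t : ℝ => deriv riemannZeta (c + t * I)) :=
    (measurable_deriv riemannZeta).comp (continuous_line c).measurable
  have h2 : Continuous (fun t : ℝ => riemannZeta (c + t * I)) := by
    rw [continuous_iff_continuousAt]
    intro t
    have h3 : (c : ℂ) + t * I ≠ 1 := by
      intro h
      have := congrArg Complex.re h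
      rw [re_line] at this
      simp at this
      linarith
    exact ContinuousAt.comp (f := fun t : ℝ => (c : ℂ) + t * I)
      (differentiableAt_riemannZeta h3).continuousAt (continuous_line c).continuousAt
  have h4 : Measurable (fun t : ℝ => logDeriv riemannZeta (c + t * I)) := by
    simp only [logDeriv_apply]
    exact h1.div h2.measurable
  exact h4.aestronglyMeasurable

lemma norm_ld_le (hL : LSerStatement) {c : ℝ} (hc : 1 < c) (t : ℝ) :
    ‖logDeriv riemannZeta (c + t * I)‖ ≤ AN c La := by
  obtain ⟨h1, -, -, h4, -⟩ := hL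
  have hs : 1 < ((c : ℂ) + t * I).re := by rw [re_line]; exact hc
  have h2 := h1 _ hs
  have hA : ASum c La := (h4 c hc).1
  have h3 : logDeriv riemannZeta (c + t * I) = -LS La (c + t * I) := by rw [h2]; ring
  rw [h3, norm_neg]
  have hterm : ∀ n : ℕ, ‖LSeries.term (fun n => ((La n : ℝ) : ℂ)) (c + t * I) n‖ ≤
      |La n| * (n : ℝ) ^ (-c) := by
    intro n
    rcases Nat.eq_zero_or_pos n with rfl | hn
    · simp
    · rw [LSeries.norm_term_eq, if_neg hn.ne', re_line, Complex.norm_real, Real.norm_eq_abs,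
        Real.rpow_neg (Nat.cast_nonneg n), div_eq_mul_inv]
  exact tsum_of_norm_bounded hA.hasSum hterm

lemma cG_log_ge : ∀ᶠ T : ℝ in atTop, T / (2 * Real.sqrt Real.pi) ≤ cG T * Real.log T := by
  filter_upwards [eventually_ge_atTop (Real.exp 1)] with T hT
  have hT0 : 0 < T := (Real.exp_pos 1).trans_le hT
  have hL : 1 ≤ Real.log T := by
    rw [← Real.log_exp 1]
    exact Real.log_le_log (Real.exp_pos 1) hT
  have hL0 : 0 < Real.log T := by linarith
  have h1 : Real.log T ^ (2 / 3 : ℝ) ≤ Real.log T := by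
    calc Real.log T ^ (2 / 3 : ℝ) ≤ Real.log T ^ (1 : ℝ) :=
          Real.rpow_le_rpow_of_exponent_le hL (by norm_num)
      _ = Real.log T := Real.rpow_one _
  have h2 : 0 < Real.log T ^ (2 / 3 : ℝ) := Real.rpow_pos_of_pos hL0 _
  have hp : 0 < 2 * Real.sqrt Real.pi := by positivity
  unfold cG DD
  rw [div_mul_eq_mul_div, div_le_div_iff_of_pos_right hp, div_mul_eq_mul_div, le_div_iff₀ h2]
  exact mul_le_mul_of_nonneg_left h1 hT0.le

theorem zn (hZ : ZeroSumStatement) (hE : Edge0Statement) (hO : Om1Statement)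
    (hT : TailStatement) (hL : LSerStatement) (hOL : OmLineStatement) : ZNStatement := by
  set c : ℝ := 5 / 4 with hc
  have hc1 : 1 < c := by norm_num [hc]
  have hc2 : c < 3 / 2 := by norm_num [hc]
  obtain ⟨C, hC, hom, -, hdiff, -⟩ := hOL c hc1 hc2
  have hO' := hO c hc1 hc2
  set K : ℝ := AN c La with hK
  have hK0 : 0 ≤ K := by
    rw [hK]; unfold AN
    exact tsum_nonneg fun n => by positivity
  have hmo : AEStronglyMeasurable (fun t : ℝ => om (c + t * I)) volume := by
    have : Continuous (fun t : ℝ => om (c + t * I)) := by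
      rw [continuous_iff_continuousAt]
      intro t
      exact ContinuousAt.comp (f := fun t : ℝ => (c : ℂ) + t * I)
        (hdiff t).continuousAt (continuous_line c).continuousAt
    exact this.aestronglyMeasurable
  have hml := meas_ld hc1
  have hbo : ∀ t : ℝ, ‖om (c + t * I)‖ ≤ 2 * C * (1 + |t|) := by
    intro t
    refine (hom t).trans ?_
    have h1 : Real.log (3 + |t|) ≤ 2 * (1 + |t|) := by
      have h2 := Real.log_le_sub_one_of_pos (show (0 : ℝ) < 3 + |t| by positivity)
      have h3 := abs_nonneg t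
      linarith
    calc C * Real.log (3 + |t|) ≤ C * (2 * (1 + |t|)) := mul_le_mul_of_nonneg_left h1 hC.le
      _ = 2 * C * (1 + |t|) := by ring
  have hbl : ∀ t : ℝ, ‖logDeriv riemannZeta (c + t * I)‖ ≤ K := norm_ld_le hL hc1
  -- the coefficients of the logarithmic derivative
  set a : ℕ → ℂ := fun n => -((La n : ℝ) : ℂ) with ha
  have ha1 : a 1 = 0 := by
    simp only [ha, La, ArithmeticFunction.vonMangoldt_apply_one]
    simp
  have hna : ∀ n : ℕ, ‖a n‖ = |La n| := by
    intro n
    simp only [ha, norm_neg, Complex.norm_real, Real.norm_eq_abs]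
  have hA : ASum c La := (hL.2.2.2.1 c hc1).1
  have hsum : Summable (fun n : ℕ => ‖a n‖ * (n : ℝ) ^ (-c)) := by
    simp only [hna]; exact hA
  have hts : ∑' n : ℕ, ‖a n‖ * (n : ℝ) ^ (-c) = K := by
    simp only [hna]; rfl
  have hLa : ∀ t : ℝ, LSeries a (c + t * I) = logDeriv riemannZeta (c + t * I) := by
    intro t
    have h1 := hL.1 ((c : ℂ) + t * I) (by rw [re_line]; exact hc1)
    have h2 : LSeries a (c + t * I) = -LS La (c + t * I) := by
      have : a = -(fun n => ((La n : ℝ) : ℂ)) := by
        funext n; simp [ha]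
      rw [this, LSeries_neg]; rfl
    rw [h2, h1, neg_neg]
  -- the main estimate
  have key : ∀ᶠ T : ℝ in atTop,
      ‖ZS T (fun _ => 1) - (starRingEnd ℂ) (VI c (fun s => om s * WW T s))‖ ≤ 5 := by
    filter_upwards [hZ 0 c hc1 hc2, hE c 1 hc1 hc2, hT 1 c (by norm_num [hc]) (by norm_num [hc]),
      eventually_ge_atTop (1 : ℝ), eventually_ge_atTop (K + 2 * C)] with T h1 h2 h3 h4 h5
    have hT0 : 0 < T := by linarith
    have hbase := h1 (fun _ => 1) (differentiableOn_const _) (fun s _ => by simp)
    have hedge := h2 a ha1 hsum (by rw [hts, Real.rpow_one]; linarith)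
    have hVI : VI c (fun s => LSeries a s * WW T s) =
        VI c (fun s => logDeriv riemannZeta s * WW T s) := by
      unfold VI
      simp only [hLa]
    rw [hVI] at hedge
    have hb1 : ∀ t : ℝ, ‖logDeriv riemannZeta (c + t * I)‖ ≤ T ^ (1 : ℝ) * (1 + |t|) ^ (1 : ℝ) := by
      intro t
      rw [Real.rpow_one, Real.rpow_one]
      have := abs_nonneg t
      have := hbl t
      nlinarith
    have hb2 : ∀ t : ℝ, ‖om (c + t * I)‖ ≤ T ^ (1 : ℝ) * (1 + |t|) ^ (1 : ℝ) := by
      intro t
      rw [Real.rpow_one, Real.rpow_one]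
      have := abs_nonneg t
      have := hbo t
      nlinarith
    have hb3 : ∀ t : ℝ, ‖(fun s => om s + logDeriv riemannZeta s) (c + t * I)‖ ≤
        T ^ (1 : ℝ) * (1 + |t|) ^ (1 : ℝ) := by
      intro t
      rw [Real.rpow_one, Real.rpow_one]
      have h6 := abs_nonneg t
      have h7 := hbo t
      have h8 := hbl t
      have h9 := norm_add_le (om (c + t * I)) (logDeriv riemannZeta (c + t * I))
      have h10 : (K + 2 * C) * (1 + |t|) ≤ T * (1 + |t|) :=
        mul_le_mul_of_nonneg_right h5 (by positivity)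
      have h11 : 0 ≤ K * |t| := by positivity
      simp only
      linarith
    obtain ⟨i1, e1⟩ := h3 _ hml hb1
    obtain ⟨i2, -⟩ := h3 _ hmo hb2
    obtain ⟨-, e3⟩ := h3 (fun s => om s + logDeriv riemannZeta s) (hmo.add hml) hb3
    have hadd : VI c (fun s => (om s + logDeriv riemannZeta s) * WW T s) =
        VI c (fun s => om s * WW T s) + VI c (fun s => logDeriv riemannZeta s * WW T s) := by
      unfold VI
      rw [← mul_add, ← integral_add i2 i1]
      congr 1
      apply integral_congr_ae
      exact Eventually.of_forall fun t => by simp only; ring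
    have hT1 : 1 / T ≤ 1 := by
      rw [div_le_one hT0]; exact h4
    set Z := ZS T (fun _ => 1)
    set A1 := VF c T (fun s => logDeriv riemannZeta s * WW T s) with hA1
    set A3 := VF c T (fun s => (om s + logDeriv riemannZeta s) * WW T s) with hA3
    set B1 := VI c (fun s => logDeriv riemannZeta s * WW T s)
    set B2 := VI c (fun s => om s * WW T s)
    have hbase' : ‖Z - (A1 + (starRingEnd ℂ) A3)‖ ≤ 1 := by
      have e5 : VF c T (fun s => logDeriv riemannZeta s * (fun _ => (1 : ℂ)) s * WW T s) = A1 := by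
        rw [hA1]; simp only [mul_one]
      have e6 : VF c T (fun s => (om s + logDeriv riemannZeta s) *
          (starRingEnd ℂ) ((fun _ => (1 : ℂ)) (1 - (starRingEnd ℂ) s)) * WW T s) = A3 := by
        rw [hA3]; simp only [map_one, mul_one]
      rw [e5, e6] at hbase
      exact hbase
    rw [hadd] at e3
    have hdec : Z - (starRingEnd ℂ) B2 = (Z - (A1 + (starRingEnd ℂ) A3)) + (B1 - (B1 - A1)) +
        ((starRingEnd ℂ) B1 - (starRingEnd ℂ) ((B2 + B1) - A3)) := by
      simp only [map_sub, map_add]
      ring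
    rw [hdec]
    have n1 := norm_add_le (Z - (A1 + (starRingEnd ℂ) A3) + (B1 - (B1 - A1)))
      ((starRingEnd ℂ) B1 - (starRingEnd ℂ) ((B2 + B1) - A3))
    have n2 := norm_add_le (Z - (A1 + (starRingEnd ℂ) A3)) (B1 - (B1 - A1))
    have n3 := norm_sub_le B1 (B1 - A1)
    have n4 := norm_sub_le ((starRingEnd ℂ) B1) ((starRingEnd ℂ) ((B2 + B1) - A3))
    rw [Complex.norm_conj, Complex.norm_conj] at n4
    linarith
  -- conclusion
  have hre : Tendsto (fun T : ℝ => (VI c (fun s => om s * WW T s)).re / (cG T * Real.log T))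
      atTop (𝓝 1) := by
    have h1 := (Complex.continuous_re.tendsto 1).comp hO'
    simp only [Complex.one_re] at h1
    refine h1.congr fun T => ?_
    simp only [Function.comp_apply]
    rw [Complex.div_ofReal_re]
  have herr : Tendsto (fun T : ℝ => ((ZS T (fun _ => 1)).re -
      (VI c (fun s => om s * WW T s)).re) / (cG T * Real.log T)) atTop (𝓝 0) := by
    have hlim : Tendsto (fun T : ℝ => 5 * (2 * Real.sqrt Real.pi) / T) atTop (𝓝 0) :=
      tendsto_const_nhds.div_atTop tendsto_id
    refine squeeze_zero_norm' ?_ hlim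
    filter_upwards [key, cG_log_ge, eventually_gt_atTop (0 : ℝ)] with T h1 h2 h3
    have hp : 0 < 2 * Real.sqrt Real.pi := by positivity
    have h4 : 0 < cG T * Real.log T := lt_of_lt_of_le (by positivity) h2
    rw [Real.norm_eq_abs, abs_div, abs_of_pos h4, div_le_div_iff₀ h4 h3]
    have h5 : |(ZS T (fun _ => 1)).re - (VI c (fun s => om s * WW T s)).re| ≤ 5 := by
      have h6 := Complex.abs_re_le_norm
        (ZS T (fun _ => 1) - (starRingEnd ℂ) (VI c (fun s => om s * WW T s)))
      rw [Complex.sub_re, Complex.conj_re] at h6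
      exact h6.trans h1
    have h7 : T ≤ cG T * Real.log T * (2 * Real.sqrt Real.pi) := by
      rwa [div_le_iff₀ hp] at h2
    calc |(ZS T (fun _ => 1)).re - (VI c (fun s => om s * WW T s)).re| * T
        ≤ 5 * (cG T * Real.log T * (2 * Real.sqrt Real.pi)) :=
          mul_le_mul h5 h7 h3.le (by norm_num)
      _ = 5 * (2 * Real.sqrt Real.pi) * (cG T * Real.log T) := by ring
  have hfin := herr.add hre
  rw [zero_add] at hfin
  unfold ZNStatement
  refine hfin.congr fun T => ?_
  ring

end Pool.Agent.Lib.MP_6bc78b_nt.MS.P1.ZN
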