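import Pool.Agent.Lib.MP_6bc78b_nt.MS.P1.ZVCommon

/-! Project MS, Part I: module ZV (the first moment of `v` over the zeros). -/

set_option autoImplicit false

open Complex Filter Topology MeasureTheory ArithmeticFunction

namespace Pool.Agent.Lib.MP_6bc78b_nt.MS.P1.ZV

open ZVC

/-- The right edge: from `-gk_2 + 2 gk_1 - gk_0` to `-(S_0 - 2 S_1 + S_2)`. -/
theorem neg_R2 (hC : ChiStatement) (hX : ChiSizeStatement) (hO : OmLineStatement)
    (hT : TailStatement) (hS : KSumStatement) {th c1 c2 c : ℝ} (hth : 0 < th)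
    (hth2 : th < 1 / 2) (hc : 1 < c) (hc2 : c < 3 / 2) (hcth : c - 1 / 2 + th * c < 1)
    {α0 α1 α2 : ℝ → ArithmeticFunction ℝ} (h0 : Fam c α0) (h1 : Fam c α1) (h2 : Fam c α2)
    {f : ℝ → ℂ → ℂ}
    (hf : ∀ᶠ T : ℝ in atTop, ∀ s : ℂ, s.re = c → T / 2 ≤ s.im → s.im ≤ 2 * T →
      f T s = (-gk th c1 c2 T 2 (α2 T) s + 2 * gk th c1 c2 T 1 (α1 T) s -
        gk th c1 c2 T 0 (α0 T) s) * WW T s) :
    Neg (fun T => VF c T (f T) + (Ssum th c1 c2 T 0 (α0 T) - 2 * Ssum th c1 c2 T 1 (α1 T)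
      + Ssum th c1 c2 T 2 (α2 T))) := by
  obtain ⟨K0, hK0⟩ := h0
  obtain ⟨K1, hK1⟩ := h1
  obtain ⟨K2, hK2⟩ := h2
  have n0 := neg_gk (c1 := c1) (c2 := c2) hC hX hO hT hS hth hth2 hc hc2 hcth hK0
    (j := 0) (by norm_num)
  have n1 := neg_gk (c1 := c1) (c2 := c2) hC hX hO hT hS hth hth2 hc hc2 hcth hK1
    (j := 1) (by norm_num)
  have n2 := neg_gk (c1 := c1) (c2 := c2) hC hX hO hT hS hth hth2 hc hc2 hcth hK2
    (j := 2) (by norm_num)
  refine (((n1.const_mul 2).sub n2).sub n0).congr ?_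
  filter_upwards [hf, hK0, hK1, hK2, eventually_gt_atTop (0 : ℝ)] with T hf a0 a1 a2 hT0
  have g0 := continuous_gkW (th := th) (c1 := c1) (c2 := c2) (T := T) hC hO hc hc2 0 a0.1
  have g1 := continuous_gkW (th := th) (c1 := c1) (c2 := c2) (T := T) hC hO hc hc2 1 a1.1
  have g2 := continuous_gkW (th := th) (c1 := c1) (c2 := c2) (T := T) hC hO hc hc2 2 a2.1
  have e1 : VF c T (f T) = VF c T (fun s =>
      ((-1) * (gk th c1 c2 T 2 (α2 T) s * WW T s) + 2 * (gk th c1 c2 T 1 (α1 T) s * WW T s)) +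
        (-1) * (gk th c1 c2 T 0 (α0 T) s * WW T s)) :=
    VF_congr hT0 fun s hs h3 h4 => by rw [hf s hs h3 h4]; ring
  rw [e1, VF_add (f := fun s =>
      ((-1) * (gk th c1 c2 T 2 (α2 T) s * WW T s) + 2 * (gk th c1 c2 T 1 (α1 T) s * WW T s)))
      (g := fun s => (-1) * (gk th c1 c2 T 0 (α0 T) s * WW T s))
      ((continuous_const.mul g2).add (continuous_const.mul g1)) (continuous_const.mul g0),
    VF_add (f := fun s => (-1) * (gk th c1 c2 T 2 (α2 T) s * WW T s))
      (g := fun s => 2 * (gk th c1 c2 T 1 (α1 T) s * WW T s))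
      (continuous_const.mul g2) (continuous_const.mul g1),
    VF_const_mul, VF_const_mul, VF_const_mul]
  ring

theorem La_lg_bet_one (th c1 c2 T : ℝ) : (La * lg * bet th c1 c2 T) 1 = 0 := by
  rw [ArithmeticFunction.mul_apply_one, ArithmeticFunction.mul_apply_one]
  simp [La]

/-- ZV. -/
theorem zv (hZ : ZeroSumStatement) (hC : ChiStatement) (hX : ChiSizeStatement)
    (hO : OmLineStatement) (hT : TailStatement) (hS : KSumStatement) (hE : Edge0Statement)
    (hL : LSerStatement) (hP : PolyStatement) : ZVStatement := by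
  intro th c1 c2 hth hth2
  obtain ⟨c, hc, hc2, hcth⟩ := exists_c hth hth2
  obtain ⟨hAL, hAlg, hAone⟩ := hL.2.2.2.1 c hc
  -- the zero-sum formula
  have n1 : Neg (fun T => ZS T (vv th c1 c2 T) -
      (VF c T (fun s => logDeriv riemannZeta s * vv th c1 c2 T s * WW T s) +
      (starRingEnd ℂ) (VF c T (fun s => (om s + logDeriv riemannZeta s) *
        (starRingEnd ℂ) (vv th c1 c2 T (1 - (starRingEnd ℂ) s)) * WW T s)))) := by
    refine Neg.of_bounded (C := 1) ?_
    filter_upwards [hZ 6 c hc hc2, hP.1, hP.2.1 th c1 c2 hth hth2,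
      eventually_gt_atTop (0 : ℝ)] with T h1 h2 h3 h4
    refine h1 (vv th c1 c2 T) (fun s hs => ?_) (fun s hs => ?_)
    · exact ((h2 s hs).2.1.mul (hP.2.2.2.1 th c1 c2 T s)).differentiableWithinAt
    · unfold vv
      rw [norm_mul, show (6 : ℝ) = 3 + 3 by norm_num, Real.rpow_add h4]
      exact mul_le_mul (h2 s hs).2.2.2.1 (h3 s hs).1 (norm_nonneg _)
        (Real.rpow_nonneg h4.le _)
  -- the left term
  have n2 : Neg (fun T => VF c T (fun s => logDeriv riemannZeta s * vv th c1 c2 T s * WW T s)) := by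
    obtain ⟨K, hK⟩ := (((Fam.const hAL).mul hL (Fam.const hAlg)).mul hL (Fam.bet hL hth c1 c2 hc))
    refine (neg_edge0 hT hE hc hc2 hK (La_lg_bet_one th c1 c2)).congr ?_
    filter_upwards [eventually_gt_atTop (1 : ℝ)] with T h1
    refine VF_congr (by linarith) fun s hs _ _ => ?_
    obtain ⟨e1, e2, e3, e4⟩ := zeta_ids hL (s := s) (by linarith)
    have hb := hL.2.2.2.2.2.1 th c1 c2 T c hth h1
    unfold vv
    rw [LS_mul hL (ASum_mul hL hAL hAlg) hb.1 hs, LS_mul hL hAL hAlg hs, hb.2, e2, e3]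
    ring
  -- the right term
  have n3 := neg_R2 (c1 := c1) (c2 := c2) hC hX hO hT hS hth hth2 hc hc2 hcth
    ((Fam.const hAL).mul hL (Fam.const hAlg)) (Fam.const hAlg) (Fam.const hAone)
    (f := fun T s => (om s + logDeriv riemannZeta s) *
        (starRingEnd ℂ) (vv th c1 c2 T (1 - (starRingEnd ℂ) s)) * WW T s) (by
      filter_upwards [eventually_gt_atTop (0 : ℝ)] with T h1 s hs h2 h3
      have e := left_id hC hL (s := s) (by linarith) (by
        have : 0 < s.im := by linarith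
        exact this.ne')
      rw [conj_vv_one_sub hP]
      unfold gk
      linear_combination (MM th c1 c2 T (1 - s) * WW T s) * e)
  refine ((n1.add n2).add n3.conj).congr (Eventually.of_forall fun T => ?_)
  simp only [map_add, map_sub, map_mul]
  ring

end Pool.Agent.Lib.MP_6bc78b_nt.MS.P1.ZV
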