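import Pool.Agent.Lib.MP_6bc78b_nt.MS.P1.ZV

/-! Project MS, Part I: module ZVB (the moment `v conj(B)` over the zeros). -/

set_option autoImplicit false

open Complex Filter Topology MeasureTheory ArithmeticFunction

namespace Pool.Agent.Lib.MP_6bc78b_nt.MS.P1.ZVB

open ZVC

/-- The analytic function that equals `v conj(B)` on the critical line. -/
noncomputable def FB (th c1 c2 lam T : ℝ) (s : ℂ) : ℂ :=
  deriv riemannZeta s * MM th c1 c2 T s * BB lam T (1 - s)

theorem ZS_FB (hP : PolyStatement) (th c1 c2 lam T : ℝ) :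
    ZS T (fun s => vv th c1 c2 T s * (starRingEnd ℂ) (BB lam T s)) =
      ZS T (FB th c1 c2 lam T) := by
  unfold ZS
  refine finsum_congr fun γ => ?_
  refine finsum_congr fun _ => ?_
  unfold FB vv
  rw [← half_conj, hP.2.2.2.2.2.2.1]

theorem conj_FB (hP : PolyStatement) (th c1 c2 lam T : ℝ) (s : ℂ) :
    (starRingEnd ℂ) (FB th c1 c2 lam T (1 - (starRingEnd ℂ) s)) =
      deriv riemannZeta (1 - s) * MM th c1 c2 T (1 - s) * BB lam T s := by
  have h := conj_vv_one_sub hP th c1 c2 T s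
  unfold FB
  unfold vv at h
  rw [map_mul, h, ← hP.2.2.2.2.2.2.1]
  simp

/-- ZVB. -/
theorem zvb (hZ : ZeroSumStatement) (hC : ChiStatement) (hX : ChiSizeStatement)
    (hO : OmLineStatement) (hT : TailStatement) (hS : KSumStatement) (hE : Edge1Statement)
    (hD : DiagStatement) (hL : LSerStatement) (hP : PolyStatement) : ZVBStatement := by
  intro th lam c1 c2 hth hth2 hlam hlam1
  obtain ⟨c, hc, hc2, hcth⟩ := exists_c hth hth2
  obtain ⟨hAL, hAlg, hAone⟩ := hL.2.2.2.1 c hc
  -- the zero-sum formula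
  have n1 : Neg (fun T => ZS T (FB th c1 c2 lam T) -
      (VF c T (fun s => logDeriv riemannZeta s * FB th c1 c2 lam T s * WW T s) +
      (starRingEnd ℂ) (VF c T (fun s => (om s + logDeriv riemannZeta s) *
        (starRingEnd ℂ) (FB th c1 c2 lam T (1 - (starRingEnd ℂ) s)) * WW T s)))) := by
    refine Neg.of_bounded (C := 1) ?_
    filter_upwards [hZ 9 c hc hc2, hP.1, hP.2.1 th c1 c2 hth hth2, hP.2.2.1 lam hlam hlam1,
      eventually_gt_atTop (0 : ℝ)] with T h1 h2 h3 h5 h4
    refine h1 (FB th c1 c2 lam T) (fun s hs => ?_) (fun s hs => ?_)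
    · have hB : DifferentiableAt ℂ (fun s => BB lam T (1 - s)) s :=
        (hP.2.2.2.2.1 lam T (1 - s)).comp s (by fun_prop)
      exact (((h2 s hs).2.1.mul (hP.2.2.2.1 th c1 c2 T s)).mul hB).differentiableWithinAt
    · unfold FB
      have p : 0 ≤ T ^ (3 : ℝ) := Real.rpow_nonneg h4.le _
      rw [norm_mul, norm_mul, show (9 : ℝ) = 3 + 3 + 3 by norm_num, Real.rpow_add h4,
        Real.rpow_add h4]
      exact mul_le_mul (mul_le_mul (h2 s hs).2.2.2.1 (h3 s hs).1 (norm_nonneg _) p)
        (h5 s hs).2 (norm_nonneg _) (mul_nonneg p p)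
  -- the left term
  have n2 : Neg (fun T => VF c T (fun s => logDeriv riemannZeta s * FB th c1 c2 lam T s *
      WW T s)) := by
    obtain ⟨K, hK⟩ := (((Fam.const hAL).mul hL (Fam.const hAlg)).mul hL (Fam.bet hL hth c1 c2 hc))
    obtain ⟨C, T0, hd⟩ := hD.1 th lam c1 c2 hth hth2 hlam hlam1
    refine (neg_edge1 (C := C) hT hE hlam hlam1 hc hc2 hK ?_).congr ?_
    · filter_upwards [eventually_ge_atTop T0] with T h1
      exact hd T h1
    filter_upwards [eventually_gt_atTop (1 : ℝ)] with T h1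
    refine VF_congr (by linarith) fun s hs _ _ => ?_
    obtain ⟨e1, e2, e3, e4⟩ := zeta_ids hL (s := s) (by linarith)
    have hb := hL.2.2.2.2.2.1 th c1 c2 T c hth h1
    unfold FB
    rw [LS_mul hL (ASum_mul hL hAL hAlg) hb.1 hs, LS_mul hL hAL hAlg hs, hb.2, e2, e3]
    ring
  -- the right term
  have n3 := ZV.neg_R2 (c1 := c1) (c2 := c2) hC hX hO hT hS hth hth2 hc hc2 hcth
    (((Fam.const hAL).mul hL (Fam.const hAlg)).mul hL (Fam.bb hL hlam hc))
    ((Fam.const hAlg).mul hL (Fam.bb hL hlam hc)) ((Fam.const hAone).mul hL (Fam.bb hL hlam hc))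
    (f := fun T s => (om s + logDeriv riemannZeta s) *
        (starRingEnd ℂ) (FB th c1 c2 lam T (1 - (starRingEnd ℂ) s)) * WW T s) (by
      filter_upwards [eventually_gt_atTop (1 : ℝ)] with T h1 s hs h2 h3
      have e := left_id hC hL (s := s) (by linarith) (by
        have : 0 < s.im := by linarith
        exact this.ne')
      have hb := hL.2.2.2.2.2.2.1 lam T c hlam h1
      rw [conj_FB hP]
      unfold gk
      rw [LS_mul hL (ASum_mul hL hAL hAlg) hb.1 hs, LS_mul hL hAone hb.1 hs,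
        LS_mul hL hAlg hb.1 hs, hb.2]
      linear_combination (MM th c1 c2 T (1 - s) * BB lam T s * WW T s) * e)
  refine ((n1.add n2).add n3.conj).congr (Eventually.of_forall fun T => ?_)
  rw [ZS_FB hP]
  simp only [map_add, map_sub, map_mul]
  ring

end Pool.Agent.Lib.MP_6bc78b_nt.MS.P1.ZVB
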