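import Pool.Agent.Lib.MP_6bc78b_nt.MS.P1.ZVCommon

/-! Project MS, Part I: module ZVV (the second moment of `v` over the zeros). -/

set_option autoImplicit false

open Complex Filter Topology MeasureTheory ArithmeticFunction

namespace Pool.Agent.Lib.MP_6bc78b_nt.MS.P1.ZVV

open ZVC

/-- The analytic function that equals `|v|^2` on the critical line. -/
noncomputable def FV (th c1 c2 T : ℝ) (s : ℂ) : ℂ :=
  deriv riemannZeta s * MM th c1 c2 T s * (deriv riemannZeta (1 - s) * MM th c1 c2 T (1 - s))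

theorem ZS_FV (hP : PolyStatement) (th c1 c2 T : ℝ) :
    ZS T (fun s => vv th c1 c2 T s * (starRingEnd ℂ) (vv th c1 c2 T s)) =
      ZS T (FV th c1 c2 T) := by
  unfold ZS
  refine finsum_congr fun γ => ?_
  refine finsum_congr fun _ => ?_
  beta_reduce
  rw [conj_vv hP, half_conj]
  rfl

theorem conj_FV (hP : PolyStatement) (th c1 c2 T : ℝ) (s : ℂ) :
    (starRingEnd ℂ) (FV th c1 c2 T (1 - (starRingEnd ℂ) s)) = FV th c1 c2 T s := by
  have h := conj_vv_one_sub hP th c1 c2 T s
  have h2 := conj_vv hP th c1 c2 T ((starRingEnd ℂ) s)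
  unfold vv at h h2
  unfold FV
  rw [map_mul, h, sub_sub_cancel, h2, Complex.conj_conj]
  ring

theorem diff_deriv_zeta {z : ℂ} (hz : z ≠ 1) : DifferentiableAt ℂ (deriv riemannZeta) z := by
  have h1 : DifferentiableOn ℂ riemannZeta {1}ᶜ := fun w hw =>
    (differentiableAt_riemannZeta hw).differentiableWithinAt
  exact ((h1.analyticOnNhd isOpen_compl_singleton) z hz).deriv.differentiableAt

/-- Linear combinations of the three integrals. -/
theorem neg_lin (hC : ChiStatement) (hX : ChiSizeStatement) (hO : OmLineStatement)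
    (hT : TailStatement) (hS : KSumStatement) {th c1 c2 c : ℝ} (hth : 0 < th)
    (hth2 : th < 1 / 2) (hc : 1 < c) (hc2 : c < 3 / 2) (hcth : c - 1 / 2 + th * c < 1)
    (a0 a1 a2 : ℂ)
    {α0 α1 α2 : ℝ → ArithmeticFunction ℝ} (h0 : Fam c α0) (h1 : Fam c α1) (h2 : Fam c α2)
    {f : ℝ → ℂ → ℂ}
    (hf : ∀ᶠ T : ℝ in atTop, ∀ s : ℂ, s.re = c → T / 2 ≤ s.im → s.im ≤ 2 * T →
      f T s = (a2 * gk th c1 c2 T 2 (α2 T) s + a1 * gk th c1 c2 T 1 (α1 T) s +
        a0 * gk th c1 c2 T 0 (α0 T) s) * WW T s) :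
    Neg (fun T => VF c T (f T) - (a0 * Ssum th c1 c2 T 0 (α0 T) + a1 * Ssum th c1 c2 T 1 (α1 T)
      + a2 * Ssum th c1 c2 T 2 (α2 T))) := by
  obtain ⟨K0, hK0⟩ := h0
  obtain ⟨K1, hK1⟩ := h1
  obtain ⟨K2, hK2⟩ := h2
  have n0 := neg_gk (c1 := c1) (c2 := c2) hC hX hO hT hS hth hth2 hc hc2 hcth hK0
    (j := 0) (by norm_num)
  have n1 := neg_gk (c1 := c1) (c2 := c2) hC hX hO hT hS hth hth2 hc hc2 hcth hK1
    (j := 1) (by norm_num)
  have n2 := neg_gk (c1 := c1) (c2 := c2) hC hX hO hT hS hth hth2 hc hc2 hcth hK2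
    (j := 2) (by norm_num)
  refine (((n2.const_mul a2).add (n1.const_mul a1)).add (n0.const_mul a0)).congr ?_
  filter_upwards [hf, hK0, hK1, hK2, eventually_gt_atTop (0 : ℝ)] with T hf b0 b1 b2 hT0
  have g0 := continuous_gkW (th := th) (c1 := c1) (c2 := c2) (T := T) hC hO hc hc2 0 b0.1
  have g1 := continuous_gkW (th := th) (c1 := c1) (c2 := c2) (T := T) hC hO hc hc2 1 b1.1
  have g2 := continuous_gkW (th := th) (c1 := c1) (c2 := c2) (T := T) hC hO hc hc2 2 b2.1
  have e1 : VF c T (f T) = VF c T (fun s =>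
      (a2 * (gk th c1 c2 T 2 (α2 T) s * WW T s) + a1 * (gk th c1 c2 T 1 (α1 T) s * WW T s)) +
        a0 * (gk th c1 c2 T 0 (α0 T) s * WW T s)) :=
    VF_congr hT0 fun s hs h3 h4 => by rw [hf s hs h3 h4]; ring
  rw [e1, VF_add (f := fun s =>
      (a2 * (gk th c1 c2 T 2 (α2 T) s * WW T s) + a1 * (gk th c1 c2 T 1 (α1 T) s * WW T s)))
      (g := fun s => a0 * (gk th c1 c2 T 0 (α0 T) s * WW T s))
      ((continuous_const.mul g2).add (continuous_const.mul g1)) (continuous_const.mul g0),
    VF_add (f := fun s => a2 * (gk th c1 c2 T 2 (α2 T) s * WW T s))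
      (g := fun s => a1 * (gk th c1 c2 T 1 (α1 T) s * WW T s))
      (continuous_const.mul g2) (continuous_const.mul g1),
    VF_const_mul, VF_const_mul, VF_const_mul]
  ring

/-- ZVV. -/
theorem zvv (hZ : ZeroSumStatement) (hC : ChiStatement) (hX : ChiSizeStatement)
    (hO : OmLineStatement) (hT : TailStatement) (hS : KSumStatement)
    (hL : LSerStatement) (hP : PolyStatement) : ZVVStatement := by
  intro th c1 c2 hth hth2
  obtain ⟨c, hc, hc2, hcth⟩ := exists_c hth hth2
  obtain ⟨hAL, hAlg, hAone⟩ := hL.2.2.2.1 c hc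
  -- the zero-sum formula
  have n1 : Neg (fun T => ZS T (FV th c1 c2 T) -
      (VF c T (fun s => logDeriv riemannZeta s * FV th c1 c2 T s * WW T s) +
      (starRingEnd ℂ) (VF c T (fun s => (om s + logDeriv riemannZeta s) *
        (starRingEnd ℂ) (FV th c1 c2 T (1 - (starRingEnd ℂ) s)) * WW T s)))) := by
    refine Neg.of_bounded (C := 1) ?_
    filter_upwards [hZ 12 c hc hc2, hP.1, hP.2.1 th c1 c2 hth hth2,
      eventually_gt_atTop (4 : ℝ)] with T h1 h2 h3 h4
    refine h1 (FV th c1 c2 T) (fun s hs => ?_) (fun s hs => ?_)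
    · have hne : 1 - s ≠ 1 := by
        intro h
        have h5 : s.im = 0 := by
          have := congrArg Complex.im h
          simpa using this
        have h6 := hs.2.1
        linarith
      have hd : DifferentiableAt ℂ (fun s => deriv riemannZeta (1 - s)) s :=
        (diff_deriv_zeta hne).comp s (by fun_prop)
      have hM : DifferentiableAt ℂ (fun s => MM th c1 c2 T (1 - s)) s :=
        (hP.2.2.2.1 th c1 c2 T (1 - s)).comp s (by fun_prop)
      exact (((h2 s hs).2.1.mul (hP.2.2.2.1 th c1 c2 T s)).mul (hd.mul hM)).differentiableWithinAt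
    · unfold FV
      have h0 : 0 < T := by linarith
      have p : 0 ≤ T ^ (3 : ℝ) := Real.rpow_nonneg h0.le _
      rw [norm_mul, norm_mul, norm_mul, show (12 : ℝ) = (3 + 3) + (3 + 3) by norm_num,
        Real.rpow_add h0, Real.rpow_add h0]
      exact mul_le_mul (mul_le_mul (h2 s hs).2.2.2.1 (h3 s hs).1 (norm_nonneg _) p)
        (mul_le_mul (h2 s hs).2.2.2.2 (h3 s hs).2 (norm_nonneg _) p)
        (mul_nonneg (norm_nonneg _) (norm_nonneg _)) (mul_nonneg p p)
  -- the families
  have F0 : Fam c (fun T => La * lg * lg * bet th c1 c2 T) :=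
    (((Fam.const hAL).mul hL (Fam.const hAlg)).mul hL (Fam.const hAlg)).mul hL
      (Fam.bet hL hth c1 c2 hc)
  have F1 : Fam c (fun T => lg * lg * bet th c1 c2 T) :=
    ((Fam.const hAlg).mul hL (Fam.const hAlg)).mul hL (Fam.bet hL hth c1 c2 hc)
  have F2 : Fam c (fun T => one * lg * bet th c1 c2 T) :=
    ((Fam.const hAone).mul hL (Fam.const hAlg)).mul hL (Fam.bet hL hth c1 c2 hc)
  -- the right term
  have n2 := neg_lin (c1 := c1) (c2 := c2) hC hX hO hT hS hth hth2 hc hc2 hcth 1 (-1) 0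
    F0 F1 F2
    (f := fun T s => logDeriv riemannZeta s * FV th c1 c2 T s * WW T s) (by
      filter_upwards [eventually_gt_atTop (1 : ℝ)] with T h1 s hs h2 h3
      have e := right_id hC hL (s := s) (by linarith) (by
        have : 0 < s.im := by linarith
        exact this.ne')
      have hb := hL.2.2.2.2.2.1 th c1 c2 T c hth h1
      unfold gk FV
      rw [LS_mul hL (ASum_mul hL (ASum_mul hL hAL hAlg) hAlg) hb.1 hs,
        LS_mul hL (ASum_mul hL hAlg hAlg) hb.1 hs, hb.2]
      linear_combination (MM th c1 c2 T s * MM th c1 c2 T (1 - s) * WW T s) * e)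
  -- the left term
  have n3 := neg_lin (c1 := c1) (c2 := c2) hC hX hO hT hS hth hth2 hc hc2 hcth 1 (-2) 1
    F0 F1 F2
    (f := fun T s => (om s + logDeriv riemannZeta s) *
        (starRingEnd ℂ) (FV th c1 c2 T (1 - (starRingEnd ℂ) s)) * WW T s) (by
      filter_upwards [eventually_gt_atTop (1 : ℝ)] with T h1 s hs h2 h3
      have hne : s.im ≠ 0 := by
        have : 0 < s.im := by linarith
        exact this.ne'
      have e := right_id hC hL (s := s) (by linarith) hne
      have e2 := om_id hC hL (s := s) (by linarith) hne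
      have hb := hL.2.2.2.2.2.1 th c1 c2 T c hth h1
      rw [conj_FV hP]
      unfold gk FV
      rw [LS_mul hL (ASum_mul hL (ASum_mul hL hAL hAlg) hAlg) hb.1 hs,
        LS_mul hL (ASum_mul hL hAlg hAlg) hb.1 hs,
        LS_mul hL (ASum_mul hL hAone hAlg) hb.1 hs, hb.2]
      linear_combination (MM th c1 c2 T s * MM th c1 c2 T (1 - s) * WW T s) * (e + e2))
  have n4 := (n1.add n2).add n3.conj
  have n5 := (Complex.continuous_re.tendsto 0).comp n4
  rw [Complex.zero_re] at n5
  refine n5.congr fun T => ?_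
  simp only [Function.comp_apply]
  rw [Complex.div_ofReal_re, ZS_FV hP]
  congr 1
  simp only [map_add, map_sub, map_mul, map_neg, map_one, map_ofNat, Complex.add_re,
    Complex.sub_re, Complex.mul_re, Complex.neg_re, Complex.conj_re, Complex.conj_im,
    Complex.one_re, Complex.one_im, Complex.neg_im, Complex.re_ofNat, Complex.im_ofNat,
    Complex.zero_re, Complex.zero_im]
  ring

end Pool.Agent.Lib.MP_6bc78b_nt.MS.P1.ZVV
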