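import Pool.Agent.Lib.MP_6bc78b_nt.MS.P1.CHI
import Pool.Agent.Lib.MP_6bc78b_nt.MS.P1.CHX
import Pool.Agent.Lib.MP_6bc78b_nt.MS.P1.CHO
import Pool.Agent.Lib.MP_6bc78b_nt.MS.P1.OML
import Pool.Agent.Lib.MP_6bc78b_nt.MS.P1.GAU
import Pool.Agent.Lib.MP_6bc78b_nt.MS.P1.DDF
import Pool.Agent.Lib.MP_6bc78b_nt.MS.P1.TAIL
import Pool.Agent.Lib.MP_6bc78b_nt.MS.P1.MOM
import Pool.Agent.Lib.MP_6bc78b_nt.MS.P1.SWAP
import Pool.Agent.Lib.MP_6bc78b_nt.MS.P1.K0F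
import Pool.Agent.Lib.MP_6bc78b_nt.MS.P1.K0T
import Pool.Agent.Lib.MP_6bc78b_nt.MS.P1.K0L
import Pool.Agent.Lib.MP_6bc78b_nt.MS.P1.K0C
import Pool.Agent.Lib.MP_6bc78b_nt.MS.P1.KBP
import Pool.Agent.Lib.MP_6bc78b_nt.MS.P1.KSUM
import Pool.Agent.Lib.MP_6bc78b_nt.MS.P1.H74.Edg0
import Pool.Agent.Lib.MP_6bc78b_nt.MS.P1.EDG1
import Pool.Agent.Lib.MP_6bc78b_nt.MS.P1.OM1
import Pool.Agent.Lib.MP_6bc78b_nt.MS.P1.OM2
import Pool.Agent.Lib.MP_6bc78b_nt.MS.P1.PRIM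
import Pool.Agent.Lib.MP_6bc78b_nt.MS.P1.DIAG
import Pool.Agent.Lib.MP_6bc78b_nt.MS.P1.LSER
import Pool.Agent.Lib.MP_6bc78b_nt.MS.P1.POLY
import Pool.Agent.Lib.MP_6bc78b_nt.MS.P1.ZSF
import Pool.Agent.Lib.MP_6bc78b_nt.MS.P1.ZN
import Pool.Agent.Lib.MP_6bc78b_nt.MS.P1.ZV
import Pool.Agent.Lib.MP_6bc78b_nt.MS.P1.ZVB
import Pool.Agent.Lib.MP_6bc78b_nt.MS.P1.ZVV
import Pool.Agent.Lib.MP_6bc78b_nt.MS.P1.ZBB

/-! Project MS, Part I: assembly (all statements except ZB, PT). -/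

set_option autoImplicit false

namespace Pool.Agent.Lib.MP_6bc78b_nt.MS.P1

theorem omlF : OmLineStatement := OML.oml CHO.cho
theorem tailF : TailStatement := tail GAU.gau DDF.ddf
theorem momF : MomentStatement := MOM.mom GAU.gau DDF.ddf
theorem k0tF : K0TStatement := K0T.k0t K0F.k0f DDF.ddf
theorem k0lF : K0LStatement := k0l CHI.chi CHX.chx momF GAU.gau DDF.ddf
theorem k0cF : K0Statement := K0C.k0c k0tF k0lF DDF.ddf
theorem kbpF : KerStatement := KBP.kbp k0cF CHI.chi omlF CHX.chx momF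
theorem ksumF : KSumStatement := KSUM.ksum kbpF SWAP.swap CHI.chi CHX.chx omlF tailF
theorem edg0F : Edge0Statement := H74.edg0 GAU.gau SWAP.swap DDF.ddf
theorem edg1F : Edge1Statement := edg1 GAU.gau SWAP.swap DDF.ddf
theorem om1F : Om1Statement := OM1.om1 omlF CHO.cho GAU.gau momF
theorem om2F : Om2Statement := OM2.om2 omlF momF
theorem zsfF (hRH : RiemannHypothesis) : ZeroSumStatement :=
  ZSF.zsf hRH CHI.chi CHO.cho GAU.gau DDF.ddf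
theorem znF (hRH : RiemannHypothesis) : ZNStatement :=
  ZN.zn (zsfF hRH) edg0F om1F tailF LSER.lser omlF
theorem zvF (hRH : RiemannHypothesis) : ZVStatement :=
  ZV.zv (zsfF hRH) CHI.chi CHX.chx omlF tailF ksumF edg0F LSER.lser POLY.poly
theorem zvbF (hRH : RiemannHypothesis) : ZVBStatement :=
  ZVB.zvb (zsfF hRH) CHI.chi CHX.chx omlF tailF ksumF edg1F DIAG.diag LSER.lser POLY.poly
theorem zvvF (hRH : RiemannHypothesis) : ZVVStatement :=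
  ZVV.zvv (zsfF hRH) CHI.chi CHX.chx omlF tailF ksumF LSER.lser POLY.poly
theorem zbbF (hRH : RiemannHypothesis) : ZBBStatement :=
  ZBB.zbb (zsfF hRH) edg1F om1F om2F tailF PRIM.prim LSER.lser POLY.poly DIAG.diag omlF DDF.ddf

end Pool.Agent.Lib.MP_6bc78b_nt.MS.P1
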