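import Mathlib
import Pool.Agent.Lib.MP_6bc78b_nt.MS.P1.Iface
import Pool.Agent.Lib.MP_6bc78b_nt.MS.P1.GAU
import Pool.Agent.Lib.MP_6bc78b_nt.MS.P1.K.GammaLine
import Pool.Agent.Lib.MP_6bc78b_nt.Crude

set_option autoImplicit false

open Complex Set Filter Topology MeasureTheory

namespace Pool.Agent.Lib.MP_6bc78b_nt.MS.P1.K0F

open Pool.Agent.Lib.MP_6bc78b_nt.MS.K

lemma integrable_real_quad {b : ℝ} (hb : b < 0) (c d : ℝ) :
    Integrable (fun x : ℝ => Real.exp (b * x ^ 2 + c * x + d)) := by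
  have h := (integrable_cexp_quadratic' (b := (b : ℂ)) (by simpa using hb) (c : ℂ) (d : ℂ)).norm
  refine h.congr (Filter.Eventually.of_forall fun x => ?_)
  show ‖cexp ((b : ℂ) * (x : ℂ) ^ 2 + (c : ℂ) * (x : ℂ) + (d : ℂ))‖ = _
  rw [show (b : ℂ) * (x : ℂ) ^ 2 + (c : ℂ) * (x : ℂ) + (d : ℂ) =
    ((b * x ^ 2 + c * x + d : ℝ) : ℂ) by push_cast; ring, Complex.norm_exp, Complex.ofReal_re]

/-- The size of the weight on the line `Re s = c`. -/
noncomputable def EE (T c t : ℝ) : ℝ := Real.exp (((c - 1 / 2) ^ 2 - (t - T) ^ 2) / DD T ^ 2)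

lemma norm_W (T c t : ℝ) : ‖WW T (c + t * I)‖ = EE T c t := GAU.gau.2.1 T c t

lemma integrable_EE_exp {T c : ℝ} (hD : 0 < DD T) (κ : ℝ) :
    Integrable (fun t : ℝ => Real.exp (κ * t) * EE T c t) := by
  have h := integrable_real_quad (b := -(1 / DD T ^ 2)) (by
    have : 0 < 1 / DD T ^ 2 := by positivity
    linarith) (2 * T / DD T ^ 2 + κ) (((c - 1 / 2) ^ 2 - T ^ 2) / DD T ^ 2)
  refine h.congr (Filter.Eventually.of_forall fun t => ?_)
  have hD' : DD T ≠ 0 := hD.ne'
  have e : -(1 / DD T ^ 2) * t ^ 2 + (2 * T / DD T ^ 2 + κ) * t +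
      ((c - 1 / 2) ^ 2 - T ^ 2) / DD T ^ 2 = κ * t + ((c - 1 / 2) ^ 2 - (t - T) ^ 2) / DD T ^ 2 := by
    field_simp
    ring
  show Real.exp (-(1 / DD T ^ 2) * t ^ 2 + (2 * T / DD T ^ 2 + κ) * t +
      ((c - 1 / 2) ^ 2 - T ^ 2) / DD T ^ 2) = Real.exp (κ * t) * EE T c t
  unfold EE
  rw [e, Real.exp_add]

lemma continuous_EE (T c : ℝ) : Continuous (EE T c) := by
  unfold EE
  fun_prop

lemma continuous_W (T c : ℝ) : Continuous (fun t : ℝ => WW T (c + t * I)) := by
  unfold WW
  fun_prop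

lemma integrable_EE {T c : ℝ} (hD : 0 < DD T) : Integrable (EE T c) := by
  have h := integrable_EE_exp (T := T) (c := c) hD 0
  refine h.congr (Filter.Eventually.of_forall fun t => ?_)
  simp

lemma integrable_EE_abs {T c : ℝ} (hD : 0 < DD T) (κ : ℝ) :
    Integrable (fun t : ℝ => Real.exp (κ * |t|) * EE T c t) := by
  refine ((integrable_EE_exp (T := T) (c := c) hD κ).add
    (integrable_EE_exp (T := T) (c := c) hD (-κ))).mono' ?_ ?_
  · apply Continuous.aestronglyMeasurable
    exact (by fun_prop : Continuous (fun t : ℝ => Real.exp (κ * |t|))).mul (continuous_EE T c)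
  · refine Filter.Eventually.of_forall fun t => ?_
    have hE : 0 < EE T c t := Real.exp_pos _
    rw [Real.norm_eq_abs, abs_of_pos (mul_pos (Real.exp_pos _) hE)]
    show _ ≤ Real.exp (κ * t) * EE T c t + Real.exp (-κ * t) * EE T c t
    rw [← add_mul]
    apply mul_le_mul_of_nonneg_right _ hE.le
    rcases abs_cases t with h | h
    · rw [h.1]; linarith [Real.exp_pos (-κ * t)]
    · rw [h.1]
      have : κ * -t = -κ * t := by ring
      rw [this]; linarith [Real.exp_pos (κ * t)]

/-- The Gaussian in the variable `v = log x`. -/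
noncomputable def gv (T v : ℝ) : ℂ :=
  cexp ((1 / 2 + T * I) * v - (DD T) ^ 2 * v ^ 2 / 4)

lemma norm_gv (T v : ℝ) : ‖gv T v‖ = Real.exp (-(DD T ^ 2 / 4) * v ^ 2 + 1 / 2 * v + 0) := by
  unfold gv
  rw [Complex.norm_exp]
  congr 1
  have : ((1 / 2 + T * I) * v - (DD T : ℂ) ^ 2 * v ^ 2 / 4 : ℂ) =
      ((-(DD T ^ 2 / 4) * v ^ 2 + 1 / 2 * v + 0 : ℝ) : ℂ) + ((T * v : ℝ) : ℂ) * I := by
    push_cast; ring
  rw [this]
  simp only [Complex.add_re, Complex.ofReal_re, Complex.re_ofReal_mul, Complex.I_re, mul_zero,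
    add_zero]

lemma continuous_gv (T : ℝ) : Continuous (gv T) := by
  unfold gv
  fun_prop

lemma integrable_gv {T : ℝ} (hD : 0 < DD T) : Integrable (gv T) := by
  refine (integrable_real_quad (b := -(DD T ^ 2 / 4)) (by
    have : 0 < DD T ^ 2 / 4 := by positivity
    linarith) (1 / 2) 0).mono' (continuous_gv T).aestronglyMeasurable ?_
  exact Filter.Eventually.of_forall fun v => (norm_gv T v).le

lemma inner {T : ℝ} (hD : 0 < DD T) (c v : ℝ) :
    ∫ t : ℝ, cexp ((c + t * I) * v) * WW T (c + t * I) = 2 * Real.pi * cG T * gv T v := by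
  have h := GAU.gau.2.2 T c (Real.exp (-v)) hD (Real.exp_pos _)
  unfold VI at h
  have hpi : (2 * Real.pi : ℂ) ≠ 0 := by
    exact_mod_cast (by positivity : (2 * Real.pi : ℝ) ≠ 0)
  have e1 : (∫ t : ℝ, (fun s => WW T s * ((Real.exp (-v) : ℝ) : ℂ) ^ (-s)) (c + t * I)) =
      ∫ t : ℝ, cexp ((c + t * I) * v) * WW T (c + t * I) := by
    congr 1
    funext t
    have hv : ((Real.exp (-v) : ℝ) : ℂ) ≠ 0 := by exact_mod_cast (Real.exp_pos _).ne'
    show WW T (c + t * I) * ((Real.exp (-v) : ℝ) : ℂ) ^ (-(c + t * I : ℂ)) = _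
    rw [Complex.cpow_def_of_ne_zero hv, ← Complex.ofReal_log (Real.exp_pos _).le, Real.log_exp,
      mul_comm]
    congr 2
    push_cast; ring
  rw [e1] at h
  have h2 : ∫ t : ℝ, cexp ((c + t * I) * v) * WW T (c + t * I) =
      2 * Real.pi * ((1 / (2 * Real.pi) : ℂ) *
        ∫ t : ℝ, cexp ((c + t * I) * v) * WW T (c + t * I)) := by
    rw [← mul_assoc, mul_one_div_cancel hpi, one_mul]
  rw [h2, h, Real.log_exp]
  unfold gv
  rw [mul_assoc (2 * Real.pi : ℂ)]
  congr 3
  push_cast
  ring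

/-- Fubini, complex rate `a`, `Re a > 0`. -/
lemma fubini {T c : ℝ} (hD : 0 < DD T) (hc : 0 < c) {a : ℂ} (ha : 0 < a.re) :
    ∫ t : ℝ, cexp (-((c + t * I) * Complex.log a)) * Complex.Gamma (c + t * I) * WW T (c + t * I) =
      2 * Real.pi * cG T * ∫ v : ℝ, cexp (-(a * Real.exp v)) * gv T v := by
  set F : ℝ → ℝ → ℂ := fun t v => cexp ((c + t * I) * v - a * Real.exp v) * WW T (c + t * I)
    with hF
  have hint : Integrable (Function.uncurry F) (volume.prod volume) := by
    have hb : Integrable (fun z : ℝ × ℝ => EE T c z.1 * Real.exp (c * z.2 - a.re * Real.exp z.2))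
        (volume.prod volume) := (integrable_EE hD).mul_prod (integrable_exp_comp hc ha)
    refine hb.mono' ?_ ?_
    · apply Continuous.aestronglyMeasurable
      have h1 : Continuous (fun z : ℝ × ℝ => ((z.1 : ℝ) : ℂ)) :=
        Complex.continuous_ofReal.comp continuous_fst
      have h2 : Continuous (fun z : ℝ × ℝ => ((z.2 : ℝ) : ℂ)) :=
        Complex.continuous_ofReal.comp continuous_snd
      have h3 : Continuous (fun z : ℝ × ℝ => ((Real.exp z.2 : ℝ) : ℂ)) :=
        Complex.continuous_ofReal.comp (Real.continuous_exp.comp continuous_snd)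
      have h4 : Continuous (fun z : ℝ × ℝ => WW T (c + z.1 * I)) :=
        (continuous_W T c).comp continuous_fst
      show Continuous (fun z : ℝ × ℝ => cexp ((c + (z.1 : ℂ) * I) * (z.2 : ℂ) - a * Real.exp z.2) *
        WW T (c + z.1 * I))
      exact (Complex.continuous_exp.comp (((continuous_const.add (h1.mul continuous_const)).mul
        h2).sub (continuous_const.mul h3))).mul h4
    · refine Filter.Eventually.of_forall fun z => ?_
      show ‖cexp ((c + (z.1 : ℂ) * I) * (z.2 : ℂ) - a * Real.exp z.2) * WW T (c + z.1 * I)‖ ≤ _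
      rw [norm_mul, norm_cexp_line, norm_W]
      have : ((c : ℂ) + (z.1 : ℂ) * I).re = c := by simp
      rw [this, mul_comm]
  have hre : ∀ t : ℝ, ((c : ℂ) + t * I).re = c := fun t => by simp
  have hL : ∀ t : ℝ, cexp (-((c + t * I) * Complex.log a)) * Complex.Gamma (c + t * I) *
      WW T (c + t * I) = ∫ v : ℝ, F t v := by
    intro t
    rw [hF]
    rw [integral_mul_const]
    rw [gammaLine (by rw [hre]; exact hc) ha]
  have hR : ∀ v : ℝ, ∫ t : ℝ, F t v = 2 * Real.pi * cG T * (cexp (-(a * Real.exp v)) * gv T v) := by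
    intro v
    have e : (fun t : ℝ => F t v) = fun t : ℝ => cexp (-(a * Real.exp v)) *
        (cexp ((c + t * I) * v) * WW T (c + t * I)) := by
      funext t
      rw [hF]
      show cexp ((c + t * I) * v - a * Real.exp v) * WW T (c + t * I) = _
      rw [sub_eq_add_neg, Complex.exp_add]; ring
    rw [e, integral_const_mul, inner hD]
    ring
  rw [show (∫ t : ℝ, cexp (-((c + t * I) * Complex.log a)) * Complex.Gamma (c + t * I) *
      WW T (c + t * I)) = ∫ t : ℝ, ∫ v : ℝ, F t v from integral_congr_ae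
        (Filter.Eventually.of_forall hL)]
  rw [integral_integral_swap hint]
  rw [show (∫ v : ℝ, ∫ t : ℝ, F t v) = ∫ v : ℝ, 2 * Real.pi * cG T *
    (cexp (-(a * Real.exp v)) * gv T v) from integral_congr_ae (Filter.Eventually.of_forall hR)]
  rw [integral_const_mul]

lemma norm_cexp_log_le {c t ρ : ℝ} (hc : 0 < c) (hρ : 0 < ρ) {a : ℂ} (ha : 0 ≤ a.re)
    (haρ : ρ ≤ ‖a‖) :
    ‖cexp (-((c + t * I) * Complex.log a))‖ ≤ Real.exp (-(c * Real.log ρ)) *
      Real.exp (Real.pi / 2 * |t|) := by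
  rw [Complex.norm_exp, ← Real.exp_add]
  apply Real.exp_le_exp.2
  have h1 : (-((c + t * I) * Complex.log a)).re = -(c * Real.log ‖a‖) + t * Complex.arg a := by
    rw [Complex.neg_re, Complex.mul_re, Complex.log_re, Complex.log_im]
    simp
    ring
  rw [h1]
  have h2 : Real.log ρ ≤ Real.log ‖a‖ := Real.log_le_log hρ haρ
  have h3 : |Complex.arg a| ≤ Real.pi / 2 := Complex.abs_arg_le_pi_div_two_iff.2 ha
  have h4 : t * Complex.arg a ≤ Real.pi / 2 * |t| := by
    calc t * Complex.arg a ≤ |t * Complex.arg a| := le_abs_self _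
      _ = |t| * |Complex.arg a| := abs_mul _ _
      _ ≤ |t| * (Real.pi / 2) := mul_le_mul_of_nonneg_left h3 (abs_nonneg _)
      _ = _ := by ring
  have h5 := mul_le_mul_of_nonneg_left h2 hc.le
  linarith

lemma continuous_Gamma_line {c : ℝ} (hc : 0 < c) :
    Continuous (fun t : ℝ => Complex.Gamma (c + t * I)) := by
  rw [continuous_iff_continuousAt]
  intro t
  have h1 : DifferentiableAt ℂ Complex.Gamma (c + t * I) := by
    apply Complex.differentiableAt_Gamma
    intro m h
    have := congrArg Complex.re h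
    simp at this
    have h2 : (0:ℝ) ≤ m := by positivity
    linarith
  have h2 : Continuous (fun t : ℝ => (c + t * I : ℂ)) := by fun_prop
  exact ContinuousAt.comp (f := fun t : ℝ => (c + t * I : ℂ)) h1.continuousAt h2.continuousAt

lemma norm_integrand_le {T c ρ : ℝ} (hc : 0 < c) (hρ : 0 < ρ) {a : ℂ} (ha : 0 ≤ a.re)
    (haρ : ρ ≤ ‖a‖) (t : ℝ) :
    ‖cexp (-((c + t * I) * Complex.log a)) * Complex.Gamma (c + t * I) * WW T (c + t * I)‖ ≤
      Real.exp (-(c * Real.log ρ)) * Real.Gamma c * (Real.exp (Real.pi / 2 * |t|) * EE T c t) := by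
  have hre : ((c : ℂ) + t * I).re = c := by simp
  have h1 := norm_cexp_log_le (t := t) hc hρ ha haρ
  have h2 : ‖Complex.Gamma (c + t * I)‖ ≤ Real.Gamma c := by
    have := norm_Gamma_le (s := (c + t * I : ℂ)) (by rw [hre]; exact hc)
    rwa [hre] at this
  have hE : 0 < EE T c t := Real.exp_pos _
  rw [norm_mul, norm_mul, norm_W]
  calc ‖cexp (-((c + t * I) * Complex.log a))‖ * ‖Complex.Gamma (c + t * I)‖ * EE T c t
      ≤ (Real.exp (-(c * Real.log ρ)) * Real.exp (Real.pi / 2 * |t|)) * Real.Gamma c * EE T c t := by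
        apply mul_le_mul_of_nonneg_right _ hE.le
        exact mul_le_mul h1 h2 (norm_nonneg _) (by positivity)
    _ = _ := by ring

lemma continuous_integrand {T c : ℝ} (hc : 0 < c) (a : ℂ) :
    Continuous (fun t : ℝ => cexp (-((c + t * I) * Complex.log a)) * Complex.Gamma (c + t * I) *
      WW T (c + t * I)) := by
  refine Continuous.mul (Continuous.mul ?_ (continuous_Gamma_line hc)) (continuous_W T c)
  fun_prop

lemma integrable_integrand {T c ρ : ℝ} (hD : 0 < DD T) (hc : 0 < c) (hρ : 0 < ρ) {a : ℂ}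
    (ha : 0 ≤ a.re) (haρ : ρ ≤ ‖a‖) :
    Integrable (fun t : ℝ => cexp (-((c + t * I) * Complex.log a)) * Complex.Gamma (c + t * I) *
      WW T (c + t * I)) := by
  refine ((integrable_EE_abs (c := c) hD (Real.pi / 2)).const_mul
    (Real.exp (-(c * Real.log ρ)) * Real.Gamma c)).mono'
    (continuous_integrand hc a).aestronglyMeasurable ?_
  exact Filter.Eventually.of_forall fun t => norm_integrand_le hc hρ ha haρ t

/-- The boundary case: `a` purely imaginary, not zero. -/
lemma boundary {T c y : ℝ} (hD : 0 < DD T) (hc : 0 < c) (hy : y ≠ 0) :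
    ∫ t : ℝ, cexp (-((c + t * I) * Complex.log (y * I))) * Complex.Gamma (c + t * I) *
      WW T (c + t * I) =
      2 * Real.pi * cG T * ∫ v : ℝ, cexp (-(y * I * Real.exp v)) * gv T v := by
  set A : ℝ → ℂ := fun δ => (δ : ℂ) + y * I with hA
  have hAc : Continuous A := by rw [hA]; fun_prop
  have hA0 : Tendsto A (𝓝[>] (0:ℝ)) (𝓝 (y * I)) := by
    have h1 := hAc.tendsto 0
    rw [show A 0 = y * I by rw [hA]; simp] at h1
    exact h1.mono_left nhdsWithin_le_nhds
  have hre : ∀ δ : ℝ, (A δ).re = δ := fun δ => by rw [hA]; simp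
  have hnorm : ∀ δ : ℝ, |y| ≤ ‖A δ‖ := by
    intro δ
    have := Complex.abs_im_le_norm (A δ)
    rw [show (A δ).im = y by rw [hA]; simp] at this
    exact this
  have hy0 : 0 < |y| := abs_pos.2 hy
  have hpos : ∀ᶠ δ : ℝ in 𝓝[>] (0:ℝ), 0 < δ := by
    filter_upwards [self_mem_nhdsWithin] with δ hδ using hδ
  have hlog : Tendsto (fun δ => Complex.log (A δ)) (𝓝[>] (0:ℝ)) (𝓝 (Complex.log (y * I))) := by
    have hs : (y * I : ℂ) ∈ slitPlane := by
      right
      simpa using hy
    exact (continuousAt_clog hs).tendsto.comp hA0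
  have hleft : Tendsto (fun δ => ∫ t : ℝ, cexp (-((c + t * I) * Complex.log (A δ))) *
      Complex.Gamma (c + t * I) * WW T (c + t * I)) (𝓝[>] (0:ℝ))
      (𝓝 (∫ t : ℝ, cexp (-((c + t * I) * Complex.log (y * I))) * Complex.Gamma (c + t * I) *
        WW T (c + t * I))) := by
    refine tendsto_integral_filter_of_dominated_convergence
      (fun t => Real.exp (-(c * Real.log |y|)) * Real.Gamma c *
        (Real.exp (Real.pi / 2 * |t|) * EE T c t)) ?_ ?_ ?_ ?_
    · exact Filter.Eventually.of_forall fun δ => (continuous_integrand hc _).aestronglyMeasurable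
    · filter_upwards [hpos] with δ hδ
      exact Filter.Eventually.of_forall fun t =>
        norm_integrand_le hc hy0 (by rw [hre]; exact hδ.le) (hnorm δ) t
    · exact (integrable_EE_abs hD _).const_mul _
    · refine Filter.Eventually.of_forall fun t => ?_
      refine Tendsto.mul_const _ (Tendsto.mul_const _ ?_)
      exact (Complex.continuous_exp.tendsto _).comp ((hlog.const_mul _).neg)
  have hright : Tendsto (fun δ => 2 * Real.pi * cG T *
      ∫ v : ℝ, cexp (-(A δ * Real.exp v)) * gv T v) (𝓝[>] (0:ℝ))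
      (𝓝 (2 * Real.pi * cG T * ∫ v : ℝ, cexp (-(y * I * Real.exp v)) * gv T v)) := by
    apply Tendsto.const_mul
    refine tendsto_integral_filter_of_dominated_convergence (fun v => ‖gv T v‖) ?_ ?_ ?_ ?_
    · refine Filter.Eventually.of_forall fun δ => Continuous.aestronglyMeasurable ?_
      refine Continuous.mul ?_ (continuous_gv T)
      exact Complex.continuous_exp.comp (continuous_const.mul
        (Complex.continuous_ofReal.comp Real.continuous_exp)).neg
    · filter_upwards [hpos] with δ hδ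
      refine Filter.Eventually.of_forall fun v => ?_
      rw [norm_mul, Complex.norm_exp]
      have h1 : (-(A δ * Real.exp v)).re = -(δ * Real.exp v) := by
        rw [Complex.neg_re, Complex.re_mul_ofReal, hre]
      rw [h1]
      have h2 : Real.exp (-(δ * Real.exp v)) ≤ 1 := by
        apply Real.exp_le_one_iff.2
        have := mul_pos hδ (Real.exp_pos v)
        linarith
      exact mul_le_of_le_one_left (norm_nonneg _) h2
    · exact (integrable_gv hD).norm
    · refine Filter.Eventually.of_forall fun v => ?_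
      refine Tendsto.mul_const _ ?_
      exact (Complex.continuous_exp.tendsto _).comp ((hA0.mul_const _).neg)
  refine tendsto_nhds_unique hleft (hright.congr' ?_)
  filter_upwards [hpos] with δ hδ
  exact (fubini hD hc (by rw [hre]; exact hδ)).symm

lemma log_mul_I {ρ : ℝ} (hρ : 0 < ρ) :
    Complex.log (ρ * I) = Real.log ρ + Real.pi / 2 * I ∧
    Complex.log (((-ρ : ℝ) : ℂ) * I) = Real.log ρ - Real.pi / 2 * I := by
  constructor
  · rw [Complex.log_ofReal_mul hρ I_ne_zero, Complex.log_I]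
  · have h : ((-ρ : ℝ) : ℂ) * I = (ρ : ℂ) * (-I) := by push_cast; ring
    rw [h, Complex.log_ofReal_mul hρ (neg_ne_zero.2 I_ne_zero), Complex.log_neg_I]
    ring

/-- The factor `χ(1-s) r^(-s)` as a sum of two exponentials. -/
lemma XX_mul {r : ℝ} (hr : 0 < r) (s : ℂ) :
    XX s * (r : ℂ) ^ (-s) =
      cexp (-(s * Complex.log (((2 * Real.pi * r : ℝ) : ℂ) * I))) * Complex.Gamma s +
      cexp (-(s * Complex.log (((-(2 * Real.pi * r) : ℝ) : ℂ) * I))) * Complex.Gamma s := by
  have hρ : 0 < 2 * Real.pi * r := by positivity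
  obtain ⟨h1, h2⟩ := log_mul_I hρ
  rw [h1, h2]
  have hpi : ((2 * Real.pi : ℝ) : ℂ) ≠ 0 := by
    exact_mod_cast (by positivity : (2 * Real.pi : ℝ) ≠ 0)
  have hr' : (r : ℂ) ≠ 0 := by exact_mod_cast hr.ne'
  have e1 : (2 * Real.pi : ℂ) = ((2 * Real.pi : ℝ) : ℂ) := by push_cast; ring
  unfold XX
  rw [e1, Complex.cpow_def_of_ne_zero hpi, Complex.cpow_def_of_ne_zero hr',
    ← Complex.ofReal_log (by positivity), ← Complex.ofReal_log hr.le,
    Real.log_mul (by positivity) hr.ne', Complex.cos]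
  push_cast
  have e2 : cexp (-(s * (((Real.log (2 * Real.pi) : ℝ) : ℂ) + (Real.log r : ℂ) +
      Real.pi / 2 * I))) = cexp (((Real.log (2 * Real.pi) : ℝ) : ℂ) * -s) *
      cexp ((Real.log r : ℂ) * -s) * cexp (-(Real.pi * s / 2) * I) := by
    rw [← Complex.exp_add, ← Complex.exp_add]; congr 1; ring
  have e3 : cexp (-(s * (((Real.log (2 * Real.pi) : ℝ) : ℂ) + (Real.log r : ℂ) -
      Real.pi / 2 * I))) = cexp (((Real.log (2 * Real.pi) : ℝ) : ℂ) * -s) *
      cexp ((Real.log r : ℂ) * -s) * cexp (Real.pi * s / 2 * I) := by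
    rw [← Complex.exp_add, ← Complex.exp_add]; congr 1; ring
  rw [e2, e3]
  ring

/-- K0F. -/
theorem k0f : K0FStatement := by
  intro T c r hD hc hr
  have hρ : 0 < 2 * Real.pi * r := by positivity
  have hρ' : -(2 * Real.pi * r) ≠ 0 := by
    intro h; linarith
  have hpi : (2 * Real.pi : ℂ) ≠ 0 := by
    exact_mod_cast (by positivity : (2 * Real.pi : ℝ) ≠ 0)
  unfold Ker VI
  have e1 : (∫ t : ℝ, (fun s => XX s * om s ^ 0 * WW T s * (r : ℂ) ^ (-s)) (c + t * I)) =
      (∫ t : ℝ, cexp (-((c + t * I) * Complex.log (((2 * Real.pi * r : ℝ) : ℂ) * I))) *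
        Complex.Gamma (c + t * I) * WW T (c + t * I)) +
      ∫ t : ℝ, cexp (-((c + t * I) * Complex.log (((-(2 * Real.pi * r) : ℝ) : ℂ) * I))) *
        Complex.Gamma (c + t * I) * WW T (c + t * I) := by
    rw [← integral_add]
    · congr 1
      funext t
      show XX (c + t * I) * om (c + t * I) ^ 0 * WW T (c + t * I) * (r : ℂ) ^ (-(c + t * I : ℂ)) = _
      rw [pow_zero, mul_one, mul_right_comm, XX_mul hr]
      ring
    · refine integrable_integrand hD hc hρ (by simp) ?_
      rw [norm_mul, norm_I, mul_one, Complex.norm_real, Real.norm_eq_abs, abs_of_pos hρ]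
    · refine integrable_integrand hD hc hρ (by simp) ?_
      rw [norm_mul, norm_I, mul_one, Complex.norm_real, Real.norm_eq_abs, abs_neg, abs_of_pos hρ]
  rw [e1, boundary hD hc hρ.ne', boundary hD hc hρ', ← mul_add, ← mul_assoc]
  have e2 : (1 / (2 * Real.pi) : ℂ) * (2 * Real.pi * cG T) = cG T := by
    rw [← mul_assoc, one_div_mul_cancel hpi, one_mul]
  rw [e2]
  congr 1
  have hInt : ∀ y : ℝ, Integrable (fun v : ℝ => cexp (-(y * I * Real.exp v)) * gv T v) := by
    intro y
    refine (integrable_gv hD).norm.mono' ?_ ?_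
    · apply Continuous.aestronglyMeasurable
      refine Continuous.mul ?_ (continuous_gv T)
      exact Complex.continuous_exp.comp (continuous_const.mul
        (Complex.continuous_ofReal.comp Real.continuous_exp)).neg
    · refine Filter.Eventually.of_forall fun v => ?_
      rw [norm_mul, Complex.norm_exp]
      have h1 : (-(y * I * Real.exp v)).re = 0 := by
        rw [Complex.neg_re, Complex.re_mul_ofReal]; simp
      rw [h1, Real.exp_zero, one_mul]
  rw [← integral_add (hInt _) (hInt _)]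
  rw [← integral_neg_eq_self (fun v : ℝ => cexp (-(((2 * Real.pi * r : ℝ) : ℂ) * I * Real.exp v)) *
    gv T v + cexp (-(((-(2 * Real.pi * r) : ℝ) : ℂ) * I * Real.exp v)) * gv T v)]
  congr 1
  funext u
  show cexp (-(((2 * Real.pi * r : ℝ) : ℂ) * I * Real.exp (-u))) * gv T (-u) +
    cexp (-(((-(2 * Real.pi * r) : ℝ) : ℂ) * I * Real.exp (-u))) * gv T (-u) = _
  unfold gv
  rw [Complex.cos]
  rw [show (-((DD T : ℂ) ^ 2 * (u : ℂ) ^ 2 / 4) - (1 / 2 + T * I) * u) =
    (1 / 2 + T * I) * ((-u : ℝ) : ℂ) - (DD T : ℂ) ^ 2 * ((-u : ℝ) : ℂ) ^ 2 / 4 by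
      push_cast; ring]
  rw [show (-(((2 * Real.pi * r : ℝ) : ℂ) * I * Real.exp (-u))) =
    -(2 * Real.pi * r * (Real.exp (-u) : ℂ)) * I by push_cast; ring]
  rw [show (-(((-(2 * Real.pi * r) : ℝ) : ℂ) * I * Real.exp (-u))) =
    (2 * Real.pi * r * (Real.exp (-u) : ℂ)) * I by push_cast; ring]
  ring

end Pool.Agent.Lib.MP_6bc78b_nt.MS.P1.K0F
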