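import Pool.Agent.Lib.MP_6bc78b_nt.MS.P1.Iface

/-! Project MS, Part I: tools shared by ZV, ZVB, ZVV. -/

set_option autoImplicit false

open Complex Filter Topology MeasureTheory ArithmeticFunction

namespace Pool.Agent.Lib.MP_6bc78b_nt.MS.P1.ZVC

/-! ### The relation `f = o(T)` -/

/-- `f = o(T)`. -/
def Neg (f : ℝ → ℂ) : Prop := Tendsto (fun T : ℝ => f T / (T : ℂ)) atTop (𝓝 0)

theorem Neg.add {f g : ℝ → ℂ} (hf : Neg f) (hg : Neg g) : Neg (fun T => f T + g T) := by
  have := Filter.Tendsto.add hf hg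
  simpa [Neg, add_div] using this

theorem Neg.sub {f g : ℝ → ℂ} (hf : Neg f) (hg : Neg g) : Neg (fun T => f T - g T) := by
  have := Filter.Tendsto.sub hf hg
  simpa [Neg, sub_div] using this

theorem Neg.neg {f : ℝ → ℂ} (hf : Neg f) : Neg (fun T => - f T) := by
  have := Filter.Tendsto.neg hf
  simpa [Neg, neg_div] using this

theorem Neg.const_mul {f : ℝ → ℂ} (hf : Neg f) (a : ℂ) : Neg (fun T => a * f T) := by
  have := Filter.Tendsto.const_mul a hf
  simpa [Neg, mul_div_assoc] using this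

theorem Neg.conj {f : ℝ → ℂ} (hf : Neg f) : Neg (fun T => (starRingEnd ℂ) (f T)) := by
  have := (Complex.continuous_conj.tendsto 0).comp hf
  simpa [Neg, Function.comp_def, map_div₀] using this

theorem Neg.congr {f g : ℝ → ℂ} (hf : Neg f) (h : ∀ᶠ T in atTop, f T = g T) : Neg g :=
  Filter.Tendsto.congr' (h.mono fun T hT => by rw [hT]) hf

/-- A bound `‖f T‖ ≤ b T` with `b T / T → 0` gives `Neg f`. -/
theorem Neg.of_le {f : ℝ → ℂ} {b : ℝ → ℝ} (h : ∀ᶠ T in atTop, ‖f T‖ ≤ b T)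
    (hb : Tendsto (fun T => b T / T) atTop (𝓝 0)) : Neg f := by
  refine squeeze_zero_norm' ?_ hb
  filter_upwards [h, eventually_gt_atTop (0 : ℝ)] with T hT h0
  rw [norm_div, Complex.norm_real, Real.norm_of_nonneg h0.le]
  gcongr

theorem Neg.of_bounded {f : ℝ → ℂ} {C : ℝ} (h : ∀ᶠ T in atTop, ‖f T‖ ≤ C) : Neg f :=
  Neg.of_le h (tendsto_const_nhds.div_atTop tendsto_id)

/-- `T^κ (log T)^k = o(T)` for `κ < 1`. -/
theorem tendsto_pow_log (C κ : ℝ) (k : ℕ) (hκ : κ < 1) :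
    Tendsto (fun T : ℝ => (C * T ^ κ * Real.log T ^ k) / T) atTop (𝓝 0) := by
  have h1 : Tendsto (fun T : ℝ => Real.log T ^ k / T ^ (1 - κ)) atTop (𝓝 0) := by
    have := isLittleO_log_rpow_rpow_atTop (s := (1 - κ)) (k : ℝ) (by linarith)
    have h2 := this.tendsto_div_nhds_zero
    refine h2.congr fun T => ?_
    rw [Real.rpow_natCast]
  have h3 := h1.const_mul C
  rw [mul_zero] at h3
  refine h3.congr' ?_
  filter_upwards [eventually_gt_atTop (0 : ℝ)] with T hT
  have hT' : T ^ (1 - κ) * T ^ κ = T := by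
    rw [← Real.rpow_add hT]; simp
  have hp : 0 < T ^ (1 - κ) := Real.rpow_pos_of_pos hT _
  have hq : 0 < T ^ κ := Real.rpow_pos_of_pos hT _
  field_simp
  rw [mul_assoc (C * Real.log T ^ k), hT']

theorem Neg.of_pow_log {f : ℝ → ℂ} {C κ : ℝ} {k : ℕ} (hκ : κ < 1)
    (h : ∀ᶠ T in atTop, ‖f T‖ ≤ C * T ^ κ * Real.log T ^ k) : Neg f :=
  Neg.of_le h (tendsto_pow_log C κ k hκ)

/-! ### Linearity of `VF` -/

theorem VF_congr {c T : ℝ} {f g : ℂ → ℂ} (hT : 0 < T)
    (h : ∀ s : ℂ, s.re = c → T / 2 ≤ s.im → s.im ≤ 2 * T → f s = g s) : VF c T f = VF c T g := by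
  unfold VF
  congr 1
  refine intervalIntegral.integral_congr fun t ht => ?_
  rw [Set.uIcc_of_le (by linarith)] at ht
  exact h _ (by simp) (by simpa using ht.1) (by simpa using ht.2)

theorem VF_add {c T : ℝ} {f g : ℂ → ℂ} (hf : Continuous fun t : ℝ => f (c + t * I))
    (hg : Continuous fun t : ℝ => g (c + t * I)) :
    VF c T (fun s => f s + g s) = VF c T f + VF c T g := by
  unfold VF
  rw [intervalIntegral.integral_add (hf.intervalIntegrable _ _) (hg.intervalIntegrable _ _)]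
  ring

theorem VF_const_mul {c T : ℝ} {f : ℂ → ℂ} (a : ℂ) :
    VF c T (fun s => a * f s) = a * VF c T f := by
  unfold VF
  rw [intervalIntegral.integral_const_mul]
  ring

/-! ### Dirichlet series on a line -/

theorem norm_term_le {c : ℝ} (α : ArithmeticFunction ℝ) (s : ℂ) (hs : s.re = c) (n : ℕ) :
    ‖LSeries.term (fun n => ((α n : ℝ) : ℂ)) s n‖ ≤ |α n| * (n : ℝ) ^ (-c) := by
  rcases eq_or_ne n 0 with rfl | hn
  · simp
  · rw [LSeries.norm_term_eq, if_neg hn, Complex.norm_real, Real.norm_eq_abs, hs,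
      Real.rpow_neg (Nat.cast_nonneg n), div_eq_mul_inv]

theorem norm_LS_le {c : ℝ} {α : ArithmeticFunction ℝ} (h : ASum c α) (s : ℂ) (hs : s.re = c) :
    ‖LS α s‖ ≤ AN c α := by
  unfold LS LSeries AN
  have h1 : Summable (fun n => ‖LSeries.term (fun n => ((α n : ℝ) : ℂ)) s n‖) :=
    Summable.of_nonneg_of_le (fun _ => norm_nonneg _) (norm_term_le α s hs) h
  exact (norm_tsum_le_tsum_norm h1).trans (h1.tsum_le_tsum (norm_term_le α s hs) h)

theorem continuous_LS {c : ℝ} {α : ArithmeticFunction ℝ} (h : ASum c α) :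
    Continuous fun t : ℝ => LS α (c + t * I) := by
  unfold LS LSeries
  refine continuous_tsum (u := fun n => |α n| * (n : ℝ) ^ (-c)) (fun n => ?_) h (fun n t => ?_)
  · rcases eq_or_ne n 0 with rfl | hn
    · simp [LSeries.term_zero]
      exact continuous_const
    · simp only [LSeries.term_of_ne_zero hn]
      have hn' : (n : ℂ) ≠ 0 := by exact_mod_cast hn
      refine Continuous.div continuous_const ?_ (fun t => ?_)
      · exact Continuous.const_cpow (by fun_prop) (Or.inl hn')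
      · simp [Complex.cpow_eq_zero_iff, hn']
  · exact norm_term_le α _ (by simp) n

theorem AN_nonneg (c : ℝ) (α : ArithmeticFunction ℝ) : 0 ≤ AN c α :=
  tsum_nonneg fun n => by positivity

/-! ### The mollifier -/

theorem abs_betf_le {th c1 c2 T : ℝ} (hth : 0 < th) (hT : 1 < T) (n : ℕ) (hn : 1 ≤ n) :
    |bet th c1 c2 T n| ≤ |c1| + |c2| := by
  show |betf th c1 c2 T n| ≤ _
  unfold betf
  split_ifs with h
  · have hL : 0 < th * Real.log T := mul_pos hth (Real.log_pos hT)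
    have hn0 : (0 : ℝ) < n := by exact_mod_cast hn
    have hlog0 : 0 ≤ Real.log n := Real.log_nonneg (by exact_mod_cast hn)
    have hlog1 : Real.log n ≤ th * Real.log T := by
      rw [← Real.log_rpow (by linarith)]
      exact Real.log_le_log hn0 h
    set x := 1 - Real.log n / (th * Real.log T) with hx
    have hx1 : x ≤ 1 := by
      have : 0 ≤ Real.log n / (th * Real.log T) := by positivity
      linarith
    have hx0 : 0 ≤ x := by
      have : Real.log n / (th * Real.log T) ≤ 1 := (div_le_one hL).2 hlog1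
      linarith
    rw [abs_mul]
    have hmu : |((ArithmeticFunction.moebius n : ℤ) : ℝ)| ≤ 1 := by
      have := ArithmeticFunction.abs_moebius_le_one (n := n)
      rw [← Int.cast_abs]
      exact_mod_cast this
    have hP : |PP c1 c2 x| ≤ |c1| + |c2| := by
      unfold PP
      calc |c1 * x + c2 * x ^ 2| ≤ |c1 * x| + |c2 * x ^ 2| := abs_add_le _ _
        _ = |c1| * x + |c2| * x ^ 2 := by
            rw [abs_mul, abs_mul, abs_of_nonneg hx0, abs_of_nonneg (by positivity : 0 ≤ x ^ 2)]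
        _ ≤ |c1| * 1 + |c2| * 1 := by
            have : x ^ 2 ≤ 1 := by nlinarith
            gcongr
        _ = _ := by ring
    calc _ ≤ 1 * (|c1| + |c2|) := by gcongr
      _ = _ := one_mul _
  · simp; positivity

theorem norm_MM_le {th c1 c2 T : ℝ} (hth : 0 < th) (hT : 1 < T) (s : ℂ) (hs : -1 ≤ s.re) :
    ‖MM th c1 c2 T s‖ ≤ (|c1| + |c2|) * (T ^ th * T ^ th) := by
  unfold MM dpoly
  have hy : 0 ≤ T ^ th := Real.rpow_nonneg (by linarith) _
  refine (norm_sum_le _ _).trans ?_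
  calc ∑ n ∈ Finset.Icc 1 ⌊T ^ th⌋₊, ‖((bet th c1 c2 T n : ℝ) : ℂ) * (n : ℂ) ^ (-s)‖
      ≤ ∑ n ∈ Finset.Icc 1 ⌊T ^ th⌋₊, (|c1| + |c2|) * T ^ th := by
        refine Finset.sum_le_sum fun n hn => ?_
        rw [Finset.mem_Icc] at hn
        have hn1 : 1 ≤ n := hn.1
        have hnT : (n : ℝ) ≤ T ^ th := (Nat.cast_le.2 hn.2).trans (Nat.floor_le hy)
        have hn0 : (0 : ℝ) < n := by exact_mod_cast hn1
        rw [norm_mul, Complex.norm_real, Real.norm_eq_abs]
        have h1 := abs_betf_le (c1 := c1) (c2 := c2) hth hT n hn1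
        have h2 : ‖(n : ℂ) ^ (-s)‖ ≤ T ^ th := by
          rw [Complex.norm_natCast_cpow_of_pos (by omega)]
          calc (n : ℝ) ^ (-s).re ≤ (n : ℝ) ^ (1 : ℝ) := by
                apply Real.rpow_le_rpow_of_exponent_le (by exact_mod_cast hn1)
                simp; linarith
            _ = n := Real.rpow_one _
            _ ≤ T ^ th := hnT
        gcongr
    _ = (⌊T ^ th⌋₊ : ℝ) * ((|c1| + |c2|) * T ^ th) := by
        rw [Finset.sum_const, Nat.card_Icc]; simp
    _ ≤ T ^ th * ((|c1| + |c2|) * T ^ th) := by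
        have := Nat.floor_le hy
        gcongr
    _ = _ := by ring

theorem norm_MM_le' {th c1 c2 T : ℝ} (hth : 0 < th) (hth2 : th < 1 / 2) (hT : 1 < T) (s : ℂ)
    (hs : -1 ≤ s.re) : ‖MM th c1 c2 T s‖ ≤ (|c1| + |c2|) * T := by
  refine (norm_MM_le hth hT s hs).trans ?_
  rw [← Real.rpow_add (by linarith)]
  have : T ^ (th + th) ≤ T ^ (1 : ℝ) :=
    Real.rpow_le_rpow_of_exponent_le hT.le (by linarith)
  rw [Real.rpow_one] at this
  gcongr

theorem norm_BB_le {lam T : ℝ} (hlam : 0 < lam) (hlam1 : lam < 1) (hT : 3 ≤ T) (s : ℂ)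
    (hs : -1 ≤ s.re) : ‖BB lam T s‖ ≤ T * T * T := by
  unfold BB dpoly
  have hT1 : 1 < T := by linarith
  have hy : 0 ≤ T ^ lam := Real.rpow_nonneg (by linarith) _
  have hyT : T ^ lam ≤ T := by
    have : T ^ lam ≤ T ^ (1 : ℝ) := Real.rpow_le_rpow_of_exponent_le hT1.le hlam1.le
    rwa [Real.rpow_one] at this
  have hL : 0 < lam * Real.log T := mul_pos hlam (Real.log_pos hT1)
  refine (norm_sum_le _ _).trans ?_
  calc ∑ n ∈ Finset.Icc 1 ⌊T ^ lam⌋₊, ‖((bb lam T n : ℝ) : ℂ) * (n : ℂ) ^ (-s)‖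
      ≤ ∑ n ∈ Finset.Icc 1 ⌊T ^ lam⌋₊, (1 : ℝ) * T := by
        refine Finset.sum_le_sum fun n hn => ?_
        rw [Finset.mem_Icc] at hn
        have hn1 : 1 ≤ n := hn.1
        have hnT : (n : ℝ) ≤ T ^ lam := (Nat.cast_le.2 hn.2).trans (Nat.floor_le hy)
        have hn0 : (0 : ℝ) < n := by exact_mod_cast hn1
        have hlog0 : 0 ≤ Real.log n := Real.log_nonneg (by exact_mod_cast hn1)
        have hlog1 : Real.log n ≤ lam * Real.log T := by
          rw [← Real.log_rpow (by linarith)]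
          exact Real.log_le_log hn0 hnT
        rw [norm_mul, Complex.norm_real, Real.norm_eq_abs]
        have h1 : |bb lam T n| ≤ 1 := by
          show |bbf lam T n| ≤ _
          unfold bbf
          rw [if_pos hnT]
          have hx1 : Real.log n / (lam * Real.log T) ≤ 1 := (div_le_one hL).2 hlog1
          have hx0 : 0 ≤ Real.log n / (lam * Real.log T) := by positivity
          have hLa0 : 0 ≤ ArithmeticFunction.vonMangoldt n := ArithmeticFunction.vonMangoldt_nonneg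
          have hLa1 : ArithmeticFunction.vonMangoldt n ≤ lam * Real.log T :=
            ArithmeticFunction.vonMangoldt_le_log.trans hlog1
          rw [abs_of_nonneg (by
            apply div_nonneg (mul_nonneg hLa0 (by linarith)) hL.le)]
          rw [div_le_one hL]
          calc _ ≤ ArithmeticFunction.vonMangoldt n * 1 := by
                apply mul_le_mul_of_nonneg_left (by linarith) hLa0
            _ ≤ _ := by rw [mul_one]; exact hLa1
        have h2 : ‖(n : ℂ) ^ (-s)‖ ≤ T := by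
          rw [Complex.norm_natCast_cpow_of_pos (by omega)]
          calc (n : ℝ) ^ (-s).re ≤ (n : ℝ) ^ (1 : ℝ) := by
                apply Real.rpow_le_rpow_of_exponent_le (by exact_mod_cast hn1)
                simp; linarith
            _ = n := Real.rpow_one _
            _ ≤ T := hnT.trans hyT
        gcongr
    _ = (⌊T ^ lam⌋₊ : ℝ) * T := by
        rw [Finset.sum_const, Nat.card_Icc]; simp
    _ ≤ T * T := by
        have := (Nat.floor_le hy).trans hyT
        gcongr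
    _ ≤ T * T * T := by nlinarith [mul_pos (by linarith : 0 < T) (by linarith : 0 < T)]

theorem continuous_dpoly (f : ArithmeticFunction ℝ) (x : ℝ) : Continuous (dpoly f x) := by
  unfold dpoly
  refine continuous_finsetSum _ fun n hn => ?_
  rw [Finset.mem_Icc] at hn
  have hn' : (n : ℂ) ≠ 0 := by
    have : n ≠ 0 := by omega
    exact_mod_cast this
  exact continuous_const.mul (Continuous.const_cpow continuous_neg (Or.inl hn'))

theorem continuous_MM (th c1 c2 T : ℝ) : Continuous (MM th c1 c2 T) := continuous_dpoly _ _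

theorem continuous_BB (lam T : ℝ) : Continuous (BB lam T) := continuous_dpoly _ _

theorem continuous_WW (T : ℝ) : Continuous (WW T) := by
  unfold WW
  fun_prop

/-! ### The integrals with `χ` -/

/-- The integrand of KSUM without the weight. -/
noncomputable def gk (th c1 c2 T : ℝ) (j : ℕ) (α : ArithmeticFunction ℝ) (s : ℂ) : ℂ :=
  XX s * om s ^ j * LS α s * MM th c1 c2 T (1 - s)

theorem continuous_gk (hC : ChiStatement) (hO : OmLineStatement) {th c1 c2 T c : ℝ} (hc : 1 < c)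
    (hc2 : c < 3 / 2) (j : ℕ) {α : ArithmeticFunction ℝ} (h : ASum c α) :
    Continuous fun t : ℝ => gk th c1 c2 T j α (c + t * I) := by
  obtain ⟨C, hC0, -, -, hd, -⟩ := hO c hc hc2
  unfold gk
  have h1 : Continuous fun t : ℝ => XX (c + t * I) := by
    rw [continuous_iff_continuousAt]
    intro t
    have h2 := (hC.1 (c + t * I) (by simp; linarith)).continuousAt
    exact ContinuousAt.comp (f := fun t : ℝ => ((c : ℂ) + t * I)) h2 (by fun_prop)
  have h2 : Continuous fun t : ℝ => om (c + t * I) := by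
    rw [continuous_iff_continuousAt]
    intro t
    exact ContinuousAt.comp (f := fun t : ℝ => ((c : ℂ) + t * I)) (hd t).continuousAt
      (by fun_prop)
  exact ((h1.mul (h2.pow j)).mul (continuous_LS h)).mul
    ((continuous_MM th c1 c2 T).comp (by fun_prop))

theorem continuous_gkW (hC : ChiStatement) (hO : OmLineStatement) {th c1 c2 T c : ℝ} (hc : 1 < c)
    (hc2 : c < 3 / 2) (j : ℕ) {α : ArithmeticFunction ℝ} (h : ASum c α) :
    Continuous fun t : ℝ => gk th c1 c2 T j α (c + t * I) * WW T (c + t * I) :=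
  (continuous_gk hC hO hc hc2 j h).mul ((continuous_WW T).comp (by fun_prop))

theorem gk_bound (hX : ChiSizeStatement) (hO : OmLineStatement) {th c1 c2 c K : ℝ} (hth : 0 < th)
    (hth2 : th < 1 / 2) (hc : 1 < c) (hc2 : c < 3 / 2) (hK : 0 ≤ K) :
    ∃ C : ℝ, 0 < C ∧ ∀ T : ℝ, 1 < T → ∀ α : ArithmeticFunction ℝ, ASum c α → AN c α ≤ K →
      ∀ j : ℕ, j ≤ 2 → ∀ t : ℝ,
        ‖gk th c1 c2 T j α (c + t * I)‖ ≤ C * T * (1 + |t|) ^ 3 := by
  obtain ⟨C1, hC1, hX⟩ := hX
  obtain ⟨C2, hC2, ho, -⟩ := hO c hc hc2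
  refine ⟨C1 * (1 + 2 * C2) ^ 2 * K * (|c1| + |c2|) + 1, by positivity, ?_⟩
  intro T hT α hα hαK j hj t
  have hu : 1 ≤ 1 + |t| := by have := abs_nonneg t; linarith
  have h1 : ‖XX (c + t * I)‖ ≤ C1 * (1 + |t|) := by
    have h := hX (c + t * I) (by simp; linarith) (by simp; linarith)
    simp only [add_im, ofReal_im, mul_im, ofReal_re, I_im, mul_one, I_re, mul_zero, add_zero,
      zero_add, add_re, mul_re, sub_zero] at h
    refine h.trans ?_
    have : (1 + |t|) ^ (c - 1 / 2) ≤ (1 + |t|) ^ (1 : ℝ) :=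
      Real.rpow_le_rpow_of_exponent_le hu (by linarith)
    rw [Real.rpow_one] at this
    gcongr
  have h2 : ‖om (c + t * I) ^ j‖ ≤ (1 + 2 * C2) ^ 2 * (1 + |t|) ^ 2 := by
    rw [norm_pow, ← mul_pow]
    have h3 : ‖om (c + t * I)‖ ≤ (1 + 2 * C2) * (1 + |t|) := by
      refine (ho t).trans ?_
      have : Real.log (3 + |t|) ≤ 2 * (1 + |t|) := by
        have h4 := Real.log_le_sub_one_of_pos (by have := abs_nonneg t; linarith : 0 < 3 + |t|)
        have := abs_nonneg t
        linarith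
      calc C2 * Real.log (3 + |t|) ≤ C2 * (2 * (1 + |t|)) := by gcongr
        _ ≤ _ := by nlinarith
    have h4 : 1 ≤ (1 + 2 * C2) * (1 + |t|) := by nlinarith [abs_nonneg t]
    calc ‖om (c + t * I)‖ ^ j ≤ ((1 + 2 * C2) * (1 + |t|)) ^ j :=
          pow_le_pow_left₀ (norm_nonneg _) h3 j
      _ ≤ _ := pow_le_pow_right₀ h4 hj
  have h3 : ‖LS α (c + t * I)‖ ≤ K := (norm_LS_le hα _ (by simp)).trans hαK
  have h4 : ‖MM th c1 c2 T (1 - (c + t * I))‖ ≤ (|c1| + |c2|) * T :=
    norm_MM_le' hth hth2 hT _ (by simp; linarith)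
  unfold gk
  rw [norm_mul, norm_mul, norm_mul]
  calc ‖XX (c + t * I)‖ * ‖om (c + t * I) ^ j‖ * ‖LS α (c + t * I)‖ *
        ‖MM th c1 c2 T (1 - (c + t * I))‖
      ≤ (C1 * (1 + |t|)) * ((1 + 2 * C2) ^ 2 * (1 + |t|) ^ 2) * K * ((|c1| + |c2|) * T) := by
        gcongr
    _ = (C1 * (1 + 2 * C2) ^ 2 * K * (|c1| + |c2|)) * T * (1 + |t|) ^ 3 := by ring
    _ ≤ _ := by
        have : 0 ≤ T * (1 + |t|) ^ 3 := by positivity
        nlinarith

theorem tail_gk (hC : ChiStatement) (hX : ChiSizeStatement) (hO : OmLineStatement)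
    (hT : TailStatement) {th c1 c2 c K : ℝ} (hth : 0 < th)
    (hth2 : th < 1 / 2) (hc : 1 < c) (hc2 : c < 3 / 2) (hK : 0 ≤ K) :
    ∀ᶠ T : ℝ in atTop, ∀ α : ArithmeticFunction ℝ, ASum c α → AN c α ≤ K → ∀ j : ℕ, j ≤ 2 →
      ‖VI c (fun s => gk th c1 c2 T j α s * WW T s) -
        VF c T (fun s => gk th c1 c2 T j α s * WW T s)‖ ≤ 1 / T := by
  obtain ⟨C, hC0, hb⟩ := gk_bound (c1 := c1) (c2 := c2) hX hO hth hth2 hc hc2 hK
  filter_upwards [hT 3 c (by linarith) (by linarith), eventually_ge_atTop C,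
    eventually_gt_atTop (1 : ℝ)] with T h1 h2 h3 α hα hαK j hj
  refine (h1 (gk th c1 c2 T j α) (continuous_gk hC hO hc hc2 j hα).aestronglyMeasurable
    (fun t => ?_)).2
  refine (hb T h3 α hα hαK j hj t).trans ?_
  have e1 : (1 + |t|) ^ (3 : ℝ) = (1 + |t|) ^ 3 := by norm_cast
  have e2 : T ^ (3 : ℝ) = T ^ 3 := by norm_cast
  rw [e1, e2]
  have : C * T ≤ T ^ 3 := by nlinarith [sq_nonneg T]
  gcongr

/-- A line `Re s = c` that works for `th`. -/
theorem exists_c {th : ℝ} (hth : 0 < th) (hth2 : th < 1 / 2) :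
    ∃ c : ℝ, 1 < c ∧ c < 3 / 2 ∧ c - 1 / 2 + th * c < 1 := by
  refine ⟨(1 + (3 / 2) / (1 + th)) / 2, ?_, ?_, ?_⟩
  · have : 1 < (3 / 2) / (1 + th) := by rw [lt_div_iff₀ (by linarith)]; linarith
    linarith
  · have : (3 / 2) / (1 + th) < 3 / 2 := by rw [div_lt_iff₀ (by linarith)]; nlinarith
    linarith
  · have h1 : (3 / 2) / (1 + th) * (1 + th) = 3 / 2 := by field_simp
    nlinarith

/-- From the finite contour integral to `S_j(α)`. -/
theorem neg_gk (hC : ChiStatement) (hX : ChiSizeStatement) (hO : OmLineStatement)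
    (hT : TailStatement) (hS : KSumStatement) {th c1 c2 c K : ℝ} (hth : 0 < th)
    (hth2 : th < 1 / 2) (hc : 1 < c) (hc2 : c < 3 / 2) (hcth : c - 1 / 2 + th * c < 1)
    {α : ℝ → ArithmeticFunction ℝ} (hα : ∀ᶠ T in atTop, ASum c (α T) ∧ AN c (α T) ≤ K)
    {j : ℕ} (hj : j ≤ 2) :
    Neg (fun T => VF c T (fun s => gk th c1 c2 T j (α T) s * WW T s) -
      Ssum th c1 c2 T j (α T)) := by
  have hK : 0 ≤ K := by
    obtain ⟨T, hT1⟩ := hα.exists
    exact (AN_nonneg c _).trans hT1.2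
  obtain ⟨C, T0, hC0, hT0, hs⟩ := hS th c1 c2 c K hth hth2 hc hc2
  have h1 : Neg (fun T => VI c (fun s => gk th c1 c2 T j (α T) s * WW T s) -
      Ssum th c1 c2 T j (α T)) := by
    refine Neg.of_pow_log (C := C) (k := 5) hcth ?_
    filter_upwards [hα, eventually_ge_atTop T0] with T hT1 hT2
    exact hs T hT2 (α T) hT1.1 hT1.2 j hj
  have h2 : Neg (fun T => VI c (fun s => gk th c1 c2 T j (α T) s * WW T s) -
      VF c T (fun s => gk th c1 c2 T j (α T) s * WW T s)) := by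
    refine Neg.of_bounded (C := 1) ?_
    filter_upwards [hα, tail_gk (c1 := c1) (c2 := c2) hC hX hO hT hth hth2 hc hc2 hK,
      eventually_ge_atTop (1 : ℝ)] with T hT1 hT2 hT3
    refine (hT2 (α T) hT1.1 hT1.2 j hj).trans ?_
    rw [div_le_one (by linarith)]
    exact hT3
  refine (h1.sub h2).congr (Eventually.of_forall fun T => by ring)

/-! ### Edges without `χ` -/

theorem summable_of_ASum {c : ℝ} {α : ArithmeticFunction ℝ} (h : ASum c α) :
    Summable (fun n : ℕ => ‖((α n : ℝ) : ℂ)‖ * (n : ℝ) ^ (-c)) := by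
  simpa [ASum] using h

theorem tsum_eq_AN (c : ℝ) (α : ArithmeticFunction ℝ) :
    (∑' n : ℕ, ‖((α n : ℝ) : ℂ)‖ * (n : ℝ) ^ (-c)) = AN c α := by
  simp [AN]

theorem neg_edge0 (hT : TailStatement) (hE : Edge0Statement) {c K : ℝ} (hc : 1 < c)
    (hc2 : c < 3 / 2) {α : ℝ → ArithmeticFunction ℝ}
    (hα : ∀ᶠ T in atTop, ASum c (α T) ∧ AN c (α T) ≤ K) (h1 : ∀ T, α T 1 = 0) :
    Neg (fun T => VF c T (fun s => LS (α T) s * WW T s)) := by
  refine Neg.of_bounded (C := 2) ?_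
  filter_upwards [hα, hT 1 c (by linarith) (by linarith), hE c 1 hc hc2,
    eventually_ge_atTop (1 : ℝ), eventually_ge_atTop K] with T ha h2 h3 h4 h5
  have hb := (h2 (LS (α T)) (continuous_LS ha.1).aestronglyMeasurable (fun t => by
    have hu : 1 ≤ 1 + |t| := by have := abs_nonneg t; linarith
    refine (norm_LS_le ha.1 _ (by simp)).trans (ha.2.trans ?_)
    rw [Real.rpow_one, Real.rpow_one]
    nlinarith)).2
  have he := h3 (fun n => ((α T n : ℝ) : ℂ)) (by simp [h1]) (summable_of_ASum ha.1)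
    (by rw [tsum_eq_AN, Real.rpow_one]; exact ha.2.trans h5)
  have hT1 : 1 / T ≤ 1 := by rw [div_le_one (by linarith)]; exact h4
  have e : VF c T (fun s => LS (α T) s * WW T s) =
      VI c (fun s => LSeries (fun n => ((α T n : ℝ) : ℂ)) s * WW T s) -
      (VI c (fun s => LS (α T) s * WW T s) - VF c T (fun s => LS (α T) s * WW T s)) := by
    simp only [LS]; ring
  rw [e]
  refine (norm_sub_le _ _).trans ?_
  linarith

theorem tendsto_cG_div : Tendsto (fun T : ℝ => cG T / T) atTop (𝓝 0) := by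
  have h1 : Tendsto (fun T : ℝ => Real.log T ^ (2 / 3 : ℝ)) atTop atTop :=
    (tendsto_rpow_atTop (by norm_num)).comp Real.tendsto_log_atTop
  have h2 : Tendsto (fun T : ℝ => (1 / (2 * Real.sqrt Real.pi)) / Real.log T ^ (2 / 3 : ℝ))
      atTop (𝓝 0) := tendsto_const_nhds.div_atTop h1
  refine h2.congr' ?_
  filter_upwards [eventually_gt_atTop (1 : ℝ)] with T hT
  have hT0 : T ≠ 0 := by linarith
  have hL : 0 < Real.log T ^ (2 / 3 : ℝ) := Real.rpow_pos_of_pos (Real.log_pos hT) _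
  have hpi : 0 < Real.sqrt Real.pi := Real.sqrt_pos.2 Real.pi_pos
  unfold cG DD
  field_simp

theorem neg_edge1 (hT : TailStatement) (hE : Edge1Statement) {lam c K C : ℝ} (hlam : 0 < lam)
    (hlam1 : lam < 1) (hc : 1 < c) (hc2 : c < 3 / 2) {α : ℝ → ArithmeticFunction ℝ}
    (hα : ∀ᶠ T in atTop, ASum c (α T) ∧ AN c (α T) ≤ K)
    (hd : ∀ᶠ T : ℝ in atTop, |∑ k ∈ Finset.Icc 1 ⌊T ^ lam⌋₊, α T k * bb lam T k / k| ≤ C) :
    Neg (fun T => VF c T (fun s => LS (α T) s * BB lam T (1 - s) * WW T s)) := by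
  have hb0 : Tendsto (fun T : ℝ => (cG T * C + 2) / T) atTop (𝓝 0) := by
    have h := (tendsto_cG_div.mul_const C).add
      ((tendsto_const_nhds (x := (2 : ℝ)) (f := (atTop : Filter ℝ))).div_atTop tendsto_id)
    simp only [zero_mul, add_zero, id] at h
    refine h.congr fun T => by ring
  refine Neg.of_le (b := fun T => cG T * C + 2) ?_ hb0
  have hcG : ∀ᶠ T : ℝ in atTop, 0 ≤ cG T := by
    filter_upwards [eventually_gt_atTop (1 : ℝ)] with T hT
    unfold cG DD
    have hL : 0 < Real.log T ^ (2 / 3 : ℝ) := Real.rpow_pos_of_pos (Real.log_pos hT) _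
    positivity
  filter_upwards [hα, hd, hT 4 c (by linarith) (by linarith), hE lam c 4 hlam hlam1 hc hc2,
    eventually_ge_atTop (3 : ℝ), eventually_ge_atTop K, hcG] with T ha hd h2 h3 h4 h5 h6
  have hT1 : 1 / T ≤ 1 := by rw [div_le_one (by linarith)]; linarith
  have hTp : 0 < T := by linarith
  have hb := (h2 (fun s => LS (α T) s * BB lam T (1 - s))
    ((continuous_LS ha.1).mul ((continuous_BB lam T).comp (by fun_prop))).aestronglyMeasurable
    (fun t => by
      have hu : 1 ≤ 1 + |t| := by have := abs_nonneg t; linarith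
      have e1 := (norm_LS_le ha.1 ((c : ℂ) + t * I) (by simp)).trans ha.2
      have e2 := norm_BB_le hlam hlam1 h4 (1 - ((c : ℂ) + t * I)) (by simp; linarith)
      have e3 : T ^ (4 : ℝ) = T ^ 4 := by norm_cast
      have e4 : (1 + |t|) ^ (4 : ℝ) = (1 + |t|) ^ 4 := by norm_cast
      have e5 : 1 ≤ (1 + |t|) ^ 4 := one_le_pow₀ hu
      rw [norm_mul, e3, e4]
      calc ‖LS (α T) (c + t * I)‖ * ‖BB lam T (1 - (c + t * I))‖ ≤ T * (T * T * T) := by
            gcongr
            linarith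
        _ = T ^ 4 * 1 := by ring
        _ ≤ _ := by gcongr)).2
  have hbb : ∀ k, ‖((bb lam T k : ℝ) : ℂ)‖ ≤ T ^ (4 : ℝ) := by
    intro k
    rw [Complex.norm_real, Real.norm_eq_abs]
    have hL : 0 < lam * Real.log T := mul_pos hlam (Real.log_pos (by linarith))
    have h1 : |bb lam T k| ≤ 1 := by
      show |bbf lam T k| ≤ _
      unfold bbf
      split_ifs with hk
      · rcases Nat.eq_zero_or_pos k with rfl | hk0
        · simp
        have hn0 : (0 : ℝ) < k := by exact_mod_cast hk0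
        have hlog0 : 0 ≤ Real.log k := Real.log_nonneg (by exact_mod_cast hk0)
        have hlog1 : Real.log k ≤ lam * Real.log T := by
          rw [← Real.log_rpow (by linarith)]
          exact Real.log_le_log hn0 hk
        have hx1 : Real.log k / (lam * Real.log T) ≤ 1 := (div_le_one hL).2 hlog1
        have hx0 : 0 ≤ Real.log k / (lam * Real.log T) := by positivity
        have hLa0 : 0 ≤ ArithmeticFunction.vonMangoldt k := ArithmeticFunction.vonMangoldt_nonneg
        have hLa1 : ArithmeticFunction.vonMangoldt k ≤ lam * Real.log T :=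
          ArithmeticFunction.vonMangoldt_le_log.trans hlog1
        rw [abs_of_nonneg (by
          apply div_nonneg (mul_nonneg hLa0 (by linarith)) hL.le)]
        rw [div_le_one hL]
        calc _ ≤ ArithmeticFunction.vonMangoldt k * 1 := by
              apply mul_le_mul_of_nonneg_left (by linarith) hLa0
          _ ≤ _ := by rw [mul_one]; exact hLa1
      · simp
    exact h1.trans (Real.one_le_rpow (by linarith) (by norm_num))
  have he := h3 (fun n => ((α T n : ℝ) : ℂ)) (fun n => ((bb lam T n : ℝ) : ℂ))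
    (summable_of_ASum ha.1)
    (by
      rw [tsum_eq_AN]
      refine (ha.2.trans h5).trans ?_
      calc T = T ^ (1 : ℝ) := (Real.rpow_one T).symm
        _ ≤ T ^ (4 : ℝ) := Real.rpow_le_rpow_of_exponent_le (by linarith) (by norm_num)) hbb
  have hsum : (∑ k ∈ Finset.Icc 1 ⌊T ^ lam⌋₊, ((α T k : ℝ) : ℂ) * ((bb lam T k : ℝ) : ℂ) / k) =
      ((∑ k ∈ Finset.Icc 1 ⌊T ^ lam⌋₊, α T k * bb lam T k / k : ℝ) : ℂ) := by
    push_cast
    rfl
  rw [hsum] at he
  have e : VF c T (fun s => LS (α T) s * BB lam T (1 - s) * WW T s) =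
      (VI c (fun s => LSeries (fun n => ((α T n : ℝ) : ℂ)) s *
          (∑ k ∈ Finset.Icc 1 ⌊T ^ lam⌋₊, ((bb lam T k : ℝ) : ℂ) * (k : ℂ) ^ (-(1 - s))) * WW T s) -
        (cG T : ℂ) * ((∑ k ∈ Finset.Icc 1 ⌊T ^ lam⌋₊, α T k * bb lam T k / k : ℝ) : ℂ)) +
      (cG T : ℂ) * ((∑ k ∈ Finset.Icc 1 ⌊T ^ lam⌋₊, α T k * bb lam T k / k : ℝ) : ℂ) -
      (VI c (fun s => LS (α T) s * BB lam T (1 - s) * WW T s) -
        VF c T (fun s => LS (α T) s * BB lam T (1 - s) * WW T s)) := by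
    simp only [LS, BB, dpoly]; ring
  have h7 : ‖(cG T : ℂ) * ((∑ k ∈ Finset.Icc 1 ⌊T ^ lam⌋₊, α T k * bb lam T k / k : ℝ) : ℂ)‖ ≤
      cG T * C := by
    rw [norm_mul, Complex.norm_real, Complex.norm_real, Real.norm_of_nonneg h6,
      Real.norm_eq_abs]
    gcongr
  rw [e]
  refine (norm_sub_le _ _).trans ?_
  have h8 := norm_add_le (VI c (fun s => LSeries (fun n => ((α T n : ℝ) : ℂ)) s *
          (∑ k ∈ Finset.Icc 1 ⌊T ^ lam⌋₊, ((bb lam T k : ℝ) : ℂ) * (k : ℂ) ^ (-(1 - s))) * WW T s) -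
        (cG T : ℂ) * ((∑ k ∈ Finset.Icc 1 ⌊T ^ lam⌋₊, α T k * bb lam T k / k : ℝ) : ℂ))
      ((cG T : ℂ) * ((∑ k ∈ Finset.Icc 1 ⌊T ^ lam⌋₊, α T k * bb lam T k / k : ℝ) : ℂ))
  linarith

/-! ### Families -/

/-- Uniformly absolutely convergent family. -/
def Fam (c : ℝ) (α : ℝ → ArithmeticFunction ℝ) : Prop :=
  ∃ K : ℝ, ∀ᶠ T in atTop, ASum c (α T) ∧ AN c (α T) ≤ K

theorem Fam.mul (hL : LSerStatement) {c : ℝ} {α β : ℝ → ArithmeticFunction ℝ} (ha : Fam c α)
    (hb : Fam c β) : Fam c (fun T => α T * β T) := by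
  obtain ⟨K, hK⟩ := ha
  obtain ⟨K', hK'⟩ := hb
  refine ⟨K * K', ?_⟩
  filter_upwards [hK, hK'] with T h1 h2
  obtain ⟨h3, h4, -⟩ := hL.2.2.2.2.1 c (α T) (β T) h1.1 h2.1
  refine ⟨h3, h4.trans ?_⟩
  have := AN_nonneg c (α T)
  have := AN_nonneg c (β T)
  exact mul_le_mul h1.2 h2.2 (AN_nonneg _ _) ((AN_nonneg c (α T)).trans h1.2)

theorem Fam.const {c : ℝ} {f : ArithmeticFunction ℝ} (h : ASum c f) : Fam c (fun _ => f) :=
  ⟨AN c f, Eventually.of_forall fun _ => ⟨h, le_refl _⟩⟩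

theorem Fam.bet (hL : LSerStatement) {th : ℝ} (hth : 0 < th) (c1 c2 : ℝ) {c : ℝ} (hc : 1 < c) :
    Fam c (bet th c1 c2) := by
  obtain ⟨K, hK⟩ := hL.2.2.2.2.2.2.2.1 th c1 c2 c hth hc
  refine ⟨K, ?_⟩
  filter_upwards [eventually_gt_atTop (1 : ℝ)] with T hT
  exact ⟨(hL.2.2.2.2.2.1 th c1 c2 T c hth hT).1, hK T hT⟩

theorem Fam.bb (hL : LSerStatement) {lam : ℝ} (hlam : 0 < lam) {c : ℝ} (hc : 1 < c) :
    Fam c (bb lam) := by
  obtain ⟨K, T0, hK⟩ := hL.2.2.2.2.2.2.2.2 lam c hlam hc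
  refine ⟨K, ?_⟩
  filter_upwards [eventually_gt_atTop (1 : ℝ), eventually_ge_atTop T0] with T hT hT2
  exact ⟨(hL.2.2.2.2.2.2.1 lam T c hlam hT).1, hK T hT2⟩

/-! ### Identities on the line -/

section ids

variable (hC : ChiStatement) (hL : LSerStatement)
include hC hL

omit hC in
theorem zeta_ids {s : ℂ} (hs : 1 < s.re) :
    riemannZeta s = LS one s ∧ deriv riemannZeta s = - LS lg s ∧
      logDeriv riemannZeta s = - LS La s ∧ LS La s * LS one s = LS lg s := by
  obtain ⟨h1, h2, h3, -⟩ := hL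
  have hz : riemannZeta s ≠ 0 := riemannZeta_ne_zero_of_one_lt_re hs
  refine ⟨(h3 s hs).symm, ?_, ?_, ?_⟩
  · rw [h2 s hs]; ring
  · rw [h1 s hs]; ring
  · rw [h1 s hs, h2 s hs, h3 s hs, logDeriv_apply]
    field_simp

theorem left_id {s : ℂ} (hs : 1 < s.re) (him : s.im ≠ 0) :
    (om s + logDeriv riemannZeta s) * deriv riemannZeta (1 - s) =
      -(XX s * om s ^ 2 * LS one s) + 2 * (XX s * om s ^ 1 * LS lg s) -
        XX s * om s ^ 0 * LS (La * lg) s := by
  obtain ⟨e1, e2, e3, e4⟩ := zeta_ids hL hs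
  have hd := hC.2.2.2.1 s (by linarith) him
  have hA := hL.2.2.2.1 s.re hs
  have hm := (hL.2.2.2.2.1 s.re La lg hA.1 hA.2.1).2.2 s rfl
  rw [hd, hm, e1, e2, e3]
  linear_combination (XX s * om s) * e4

theorem right_id {s : ℂ} (hs : 1 < s.re) (him : s.im ≠ 0) :
    logDeriv riemannZeta s * deriv riemannZeta s * deriv riemannZeta (1 - s) =
      -(XX s * om s ^ 1 * LS (lg * lg) s) + XX s * om s ^ 0 * LS (La * lg * lg) s := by
  obtain ⟨e1, e2, e3, e4⟩ := zeta_ids hL hs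
  have hd := hC.2.2.2.1 s (by linarith) him
  have hA := hL.2.2.2.1 s.re hs
  have hm1 := hL.2.2.2.2.1 s.re La lg hA.1 hA.2.1
  have hm2 := (hL.2.2.2.2.1 s.re (La * lg) lg hm1.1 hA.2.1).2.2 s rfl
  have hm3 := (hL.2.2.2.2.1 s.re lg lg hA.2.1 hA.2.1).2.2 s rfl
  rw [hd, hm2, hm1.2.2 s rfl, hm3, e1, e2, e3]
  linear_combination (-(XX s * om s * LS lg s)) * e4

theorem om_id {s : ℂ} (hs : 1 < s.re) (him : s.im ≠ 0) :
    om s * deriv riemannZeta s * deriv riemannZeta (1 - s) =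
      XX s * om s ^ 2 * LS (one * lg) s - XX s * om s ^ 1 * LS (lg * lg) s := by
  obtain ⟨e1, e2, e3, e4⟩ := zeta_ids hL hs
  have hd := hC.2.2.2.1 s (by linarith) him
  have hA := hL.2.2.2.1 s.re hs
  have hm2 := (hL.2.2.2.2.1 s.re one lg hA.2.2 hA.2.1).2.2 s rfl
  have hm3 := (hL.2.2.2.2.1 s.re lg lg hA.2.1 hA.2.1).2.2 s rfl
  rw [hd, hm2, hm3, e1, e2]
  ring

end ids

/-- `LS (f * g)` on the line. -/
theorem LS_mul (hL : LSerStatement) {c : ℝ} {f g : ArithmeticFunction ℝ} (hf : ASum c f)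
    (hg : ASum c g) {s : ℂ} (hs : s.re = c) : LS (f * g) s = LS f s * LS g s :=
  (hL.2.2.2.2.1 c f g hf hg).2.2 s hs

theorem ASum_mul (hL : LSerStatement) {c : ℝ} {f g : ArithmeticFunction ℝ} (hf : ASum c f)
    (hg : ASum c g) : ASum c (f * g) := (hL.2.2.2.2.1 c f g hf hg).1

/-- Conjugation of the mollified derivative. -/
theorem conj_vv (hP : PolyStatement) (th c1 c2 T : ℝ) (s : ℂ) :
    (starRingEnd ℂ) (vv th c1 c2 T s) =
      deriv riemannZeta ((starRingEnd ℂ) s) * MM th c1 c2 T ((starRingEnd ℂ) s) := by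
  unfold vv
  rw [map_mul, hP.2.2.2.2.2.2.2, hP.2.2.2.2.2.1]

theorem conj_vv_one_sub (hP : PolyStatement) (th c1 c2 T : ℝ) (s : ℂ) :
    (starRingEnd ℂ) (vv th c1 c2 T (1 - (starRingEnd ℂ) s)) =
      deriv riemannZeta (1 - s) * MM th c1 c2 T (1 - s) := by
  rw [conj_vv hP]
  simp

theorem half_conj (γ : ℝ) : (starRingEnd ℂ) (1 / 2 + γ * I) = 1 - (1 / 2 + γ * I) := by
  apply Complex.ext
  · simp; norm_num
  · simp

end Pool.Agent.Lib.MP_6bc78b_nt.MS.P1.ZVC
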